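import Pool.Agent.H928.IB.Stm
import Pool.Agent.H928.BX.Outer

/-! P3: the amplitude function. -/

set_option autoImplicit false

open MeasureTheory Set Filter Topology Complex Metric
open scoped ComplexConjugate

namespace Pool.Agent.H928.IB

theorem amp : S_AMP := by
  intro R p F hG
  obtain ⟨hR, hp, hF, hF1⟩ := hG
  have hball : ∀ z : ℂ, ‖z‖ ≤ 1 → z ∈ ball (0 : ℂ) R := by
    intro z hz
    rw [mem_ball_zero_iff]
    linarith
  have hFc : ContinuousOn F (sphere 0 1) := by
    intro z hz
    have hz1 : ‖z‖ = 1 := by rwa [mem_sphere_zero_iff_norm] at hz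
    exact (hF z (hball z hz1.le)).continuousAt.continuousWithinAt
  have hr : ContinuousOn (fun z : ℂ => (1 - ‖F z‖) / 20) (sphere 0 1) :=
    (continuousOn_const.sub hFc.norm).div_const 20
  have hpos : ∀ z ∈ sphere (0 : ℂ) 1, 0 < (1 - ‖F z‖) / 20 := by
    intro z hz
    have hz1 : ‖z‖ = 1 := by rwa [mem_sphere_zero_iff_norm] at hz
    have := hF1 z hz1.le
    linarith
  obtain ⟨α, hα, hαr⟩ := Pool.Agent.H928.BX.outer (fun z : ℂ => (1 - ‖F z‖) / 20) hr hpos
    (Real.log 2) (Real.log_pos (by norm_num))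
  have hcont : ContinuousOn (fun z => α z - p z) (closedBall (0 : ℂ) 1) := by
    refine hα.continuous.continuousOn.sub ?_
    refine hp.continuousOn.mono ?_
    intro z hz
    rw [mem_closedBall_zero_iff] at hz
    exact hball z hz
  obtain ⟨C, hC⟩ := (isCompact_closedBall (0 : ℂ) 1).exists_bound_of_continuousOn hcont
  have hC0 : 0 ≤ C := (norm_nonneg _).trans (hC 0 (by simp))
  refine ⟨α, 16 * C + 1, hα, ?_, by linarith, ?_⟩
  · intro θ
    have hz : ‖cm θ‖ = 1 := by
      unfold cm
      exact Complex.norm_exp_ofReal_mul_I θ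
    have h := hαr (cm θ) (by rw [mem_sphere_zero_iff_norm]; exact hz)
    rw [Complex.norm_exp, Real.exp_neg, Real.exp_log (by norm_num)] at h
    obtain ⟨h1, h2⟩ := h
    refine ⟨?_, h2⟩
    linarith
  · intro z hz
    have h1 := hC z (by rw [mem_closedBall_zero_iff]; exact hz)
    have h2 : Real.exp (-(16 * C + 1) / 8) = (Real.exp ((16 * C + 1) / 8))⁻¹ := by
      rw [← Real.exp_neg]
      congr 1
      ring
    have h3 := Real.add_one_le_exp ((16 * C + 1) / 8)
    have h4 : 0 < Real.exp ((16 * C + 1) / 8) := Real.exp_pos _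
    rw [h2, ← div_eq_mul_inv, div_le_iff₀ h4]
    linarith

end Pool.Agent.H928.IB
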