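import Pool.Agent.H928.IB.Stm

/-!
# P15c: number of the deep cells

`f θ = (1 - ‖F (cm θ)‖)²` is continuous, `2π`-periodic and positive, so its Riemann sums over the
points `2πj/n` are at most twice its integral for large `n`.
-/

set_option autoImplicit false

open MeasureTheory Set Filter Topology Complex Metric
open scoped ComplexConjugate

namespace Pool.Agent.H928.IB

namespace CNT

theorem norm_cm (θ : ℝ) : ‖cm θ‖ = 1 := Complex.norm_exp_ofReal_mul_I θ

theorem cm_cont : Continuous cm := by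
  unfold cm
  fun_prop

/-- the integrand of `sig` -/
noncomputable def ff (F : ℂ → ℂ) (θ : ℝ) : ℝ := (1 - ‖F (cm θ)‖) ^ 2

theorem ff_cont {R : ℝ} {p F : ℂ → ℂ} (h : Good R p F) : Continuous (ff F) := by
  have h1 : Continuous fun θ : ℝ => F (cm θ) := by
    refine continuous_iff_continuousAt.mpr fun θ => ?_
    have h2 : cm θ ∈ ball (0 : ℂ) R := by
      rw [mem_ball_zero_iff, norm_cm]
      exact h.1
    exact ContinuousAt.comp (g := F) (h.2.2.1 _ h2).continuousAt cm_cont.continuousAt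
  exact (continuous_const.sub h1.norm).pow 2

theorem ff_pos {R : ℝ} {p F : ℂ → ℂ} (h : Good R p F) (θ : ℝ) : 0 < ff F θ := by
  have h1 := h.2.2.2 (cm θ) (norm_cm θ).le
  unfold ff
  have h2 : 0 < 1 - ‖F (cm θ)‖ := by linarith
  positivity

theorem ff_two_pi (F : ℂ → ℂ) : ff F (2 * Real.pi) = ff F 0 := by
  unfold ff cm
  have e : Complex.exp (((2 * Real.pi : ℝ) : ℂ) * I) = Complex.exp (((0 : ℝ) : ℂ) * I) := by
    push_cast
    rw [Complex.exp_two_pi_mul_I, zero_mul, Complex.exp_zero]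
  rw [e]

theorem sig_pos {R : ℝ} {p F : ℂ → ℂ} (h : Good R p F) : 0 < sig F :=
  intervalIntegral.intervalIntegral_pos_of_pos ((ff_cont h).intervalIntegrable _ _)
    (fun θ => ff_pos h θ) (by positivity)

/-- the Riemann sums -/
theorem riemann {R : ℝ} {p F : ℂ → ℂ} (h : Good R p F) :
    ∃ n0 : ℕ, 1 ≤ n0 ∧ ∀ n : ℕ, n0 ≤ n →
      ∑ j ∈ Finset.range n, ff F (2 * Real.pi * j / n) ≤ n * (sig F / Real.pi) := by
  have hpi := Real.pi_pos
  have hs := sig_pos h
  have hfc := ff_cont h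
  obtain ⟨ε, hε⟩ : ∃ ε : ℝ, ε = sig F / (2 * Real.pi) := ⟨_, rfl⟩
  have hε0 : 0 < ε := by rw [hε]; positivity
  have huc := isCompact_Icc.uniformContinuousOn_of_continuous
    (hfc.continuousOn (s := Icc (0 : ℝ) (2 * Real.pi)))
  rw [Metric.uniformContinuousOn_iff] at huc
  obtain ⟨δ, hδ, hδ2⟩ := huc ε hε0
  obtain ⟨n1, hn1⟩ := exists_nat_gt (2 * Real.pi / δ)
  refine ⟨n1 + 1, by omega, fun n hn => ?_⟩
  have hn0 : (0 : ℝ) < n := by
    have : 0 < n := by omega
    exact_mod_cast this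
  have hn2 : 2 * Real.pi / δ < n := hn1.trans_le (by exact_mod_cast (by omega : n1 ≤ n))
  have hstep : 2 * Real.pi / n < δ := by
    rw [div_lt_iff₀ hδ] at hn2
    rw [div_lt_iff₀ hn0]
    linarith
  let a : ℕ → ℝ := fun k => 2 * Real.pi * k / n
  have ha : ∀ k, a k = 2 * Real.pi * k / n := fun _ => rfl
  have ha1 : ∀ k, a (k + 1) = a k + 2 * Real.pi / n := by
    intro k
    rw [ha, ha]
    push_cast
    ring
  have hst0 : 0 < 2 * Real.pi / n := by positivity
  have hsum := intervalIntegral.sum_integral_adjacent_intervals (f := ff F) (μ := volume)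
    (a := a) (n := n) (fun k _ => hfc.intervalIntegrable _ _)
  have ha0 : a 0 = 0 := by rw [ha]; simp
  have han : a n = 2 * Real.pi := by rw [ha]; field_simp
  rw [ha0, han] at hsum
  have hsig : ∫ x in (0 : ℝ)..(2 * Real.pi), ff F x = sig F := rfl
  rw [hsig] at hsum
  have hge : ∀ k ∈ Finset.range n, 2 * Real.pi / n * (ff F (a k) - ε) ≤
      ∫ x in a k..a (k + 1), ff F x := by
    intro k hk
    rw [Finset.mem_range] at hk
    have hle : a k ≤ a (k + 1) := by rw [ha1]; linarith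
    have hk0 : 0 ≤ a k := by rw [ha]; positivity
    have hk1 : a (k + 1) ≤ 2 * Real.pi := by
      rw [ha, div_le_iff₀ hn0]
      have : ((k + 1 : ℕ) : ℝ) ≤ n := by exact_mod_cast hk
      nlinarith
    have h1 : ∫ _ in a k..a (k + 1), (ff F (a k) - ε) ≤ ∫ x in a k..a (k + 1), ff F x := by
      refine intervalIntegral.integral_mono_on hle intervalIntegrable_const
        (hfc.intervalIntegrable _ _) (fun x hx => ?_)
      have h2 := hδ2 (a k) ⟨hk0, hle.trans hk1⟩ x ⟨hk0.trans hx.1, hx.2.trans hk1⟩ (by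
        rw [Real.dist_eq, abs_sub_comm, abs_of_nonneg (by linarith [hx.1])]
        have := hx.2
        rw [ha1] at this
        linarith)
      rw [Real.dist_eq] at h2
      have h3 := (abs_lt.mp h2).2
      linarith
    rw [intervalIntegral.integral_const, ha1, add_sub_cancel_left, smul_eq_mul] at h1
    rw [ha1]
    exact h1
  have hfin := Finset.sum_le_sum hge
  rw [hsum, ← Finset.mul_sum, Finset.sum_sub_distrib, Finset.sum_const, Finset.card_range,
    nsmul_eq_mul] at hfin
  have e1 : 2 * Real.pi / n * (∑ k ∈ Finset.range n, ff F (a k) - n * ε) =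
      2 * Real.pi / n * ∑ k ∈ Finset.range n, ff F (a k) - sig F := by
    rw [hε]
    field_simp
  rw [e1] at hfin
  have h5 : 2 * Real.pi / n * ∑ k ∈ Finset.range n, ff F (a k) ≤ 2 * sig F := by linarith
  have h6 : ∑ k ∈ Finset.range n, ff F (a k) ≤ 2 * sig F / (2 * Real.pi / n) := by
    rw [le_div_iff₀ hst0]
    linarith
  refine h6.trans (le_of_eq ?_)
  field_simp

end CNT

open CNT in
/-- **P15c** -/
theorem cnt : S_CNT := by
  intro R p F h η hη
  obtain ⟨n0, hn0, hr⟩ := riemann h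
  refine ⟨n0, fun n hn => ?_⟩
  have hpi := Real.pi_gt_three
  have hs := sig_pos h
  have hnn : 1 ≤ n := hn0.trans hn
  have hnR : (1 : ℝ) ≤ n := by exact_mod_cast hnn
  obtain ⟨A, hA⟩ : ∃ A : Finset ℕ, A = (Finset.range (n + 1)).filter
      (fun j : ℕ => η ≤ 1 - ‖F (cm (2 * Real.pi * j / n))‖) := ⟨_, rfl⟩
  rw [← hA]
  have h1 : (A.card : ℝ) * η ^ 2 ≤ ∑ j ∈ A, ff F (2 * Real.pi * j / n) := by
    rw [← nsmul_eq_mul]
    refine Finset.card_nsmul_le_sum A _ _ (fun j hj => ?_)
    rw [hA, Finset.mem_filter] at hj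
    exact pow_le_pow_left₀ hη.le hj.2 2
  have h2 : ∑ j ∈ A, ff F (2 * Real.pi * j / n) ≤
      ∑ j ∈ Finset.range (n + 1), ff F (2 * Real.pi * j / n) := by
    refine Finset.sum_le_sum_of_subset_of_nonneg ?_ (fun j _ _ => (ff_pos h _).le)
    rw [hA]
    exact Finset.filter_subset _ _
  have h3 : ff F (2 * Real.pi * n / n) ≤ ∑ j ∈ Finset.range n, ff F (2 * Real.pi * j / n) := by
    have e1 : 2 * Real.pi * n / n = 2 * Real.pi := by field_simp
    have e2 : ff F (2 * Real.pi * ((0 : ℕ) : ℝ) / n) = ff F 0 := by simp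
    rw [e1, ff_two_pi, ← e2]
    exact Finset.single_le_sum (f := fun j : ℕ => ff F (2 * Real.pi * j / n))
      (fun j _ => (ff_pos h _).le) (Finset.mem_range.mpr (by omega))
  rw [Finset.sum_range_succ] at h2
  have h4 := hr n hn
  have h5 : (A.card : ℝ) * η ^ 2 ≤ 2 * (n * (sig F / Real.pi)) := by linarith
  have h6 : sig F / Real.pi ≤ sig F := by
    rw [div_le_iff₀ (by linarith)]
    nlinarith
  have h7 : (A.card : ℝ) * η ^ 2 ≤ n * (4 * sig F) := by
    refine h5.trans ?_
    have : (n : ℝ) * (sig F / Real.pi) ≤ n * sig F := mul_le_mul_of_nonneg_left h6 (by linarith)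
    nlinarith
  rw [← mul_div_assoc, le_div_iff₀ (by positivity)]
  exact h7

end Pool.Agent.H928.IB
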