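import Pool.Agent.H928.IB.Stm

/-! Project IB of helper928, part CMP: comparison of logarithmic potentials of close curves. -/

set_option autoImplicit false

open MeasureTheory Set Filter Topology Complex Metric
open scoped ComplexConjugate

namespace Pool.Agent.H928.IB

namespace Cmp

lemma key (a w : ℂ) : ‖1 - conj a * w‖ ^ 2 - ‖w - a‖ ^ 2 = (1 - ‖a‖ ^ 2) * (1 - ‖w‖ ^ 2) := by
  rw [← Complex.normSq_eq_norm_sq, ← Complex.normSq_eq_norm_sq, ← Complex.normSq_eq_norm_sq,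
    ← Complex.normSq_eq_norm_sq]
  simp only [Complex.normSq_apply, Complex.sub_re, Complex.sub_im, Complex.one_re,
    Complex.one_im, Complex.mul_re, Complex.mul_im, Complex.conj_re, Complex.conj_im]
  ring

lemma den_ge {a w : ℂ} {ρ : ℝ} (ha : ‖a‖ ≤ ρ) (hw : ‖w‖ ≤ 1) : 1 - ρ ≤ ‖1 - conj a * w‖ := by
  have h1 : ‖(1 : ℂ)‖ - ‖conj a * w‖ ≤ ‖1 - conj a * w‖ := norm_sub_norm_le _ _
  rw [norm_one, norm_mul, RCLike.norm_conj] at h1
  have h2 : ‖a‖ * ‖w‖ ≤ ‖a‖ * 1 := mul_le_mul_of_nonneg_left hw (norm_nonneg a)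
  linarith

lemma den_le {a w : ℂ} (ha : ‖a‖ ≤ 1) (hw : ‖w‖ ≤ 1) : ‖1 - conj a * w‖ ≤ 2 := by
  have h1 : ‖1 - conj a * w‖ ≤ ‖(1 : ℂ)‖ + ‖conj a * w‖ := norm_sub_le _ _
  rw [norm_one, norm_mul, RCLike.norm_conj] at h1
  have h2 : ‖a‖ * ‖w‖ ≤ 1 * 1 := mul_le_mul ha hw (norm_nonneg w) zero_le_one
  linarith

lemma ell_nonneg {a w : ℂ} (ha : ‖a‖ < 1) (hw : ‖w‖ ≤ 1) : 0 ≤ ell a w := by
  unfold ell
  have hd : 0 < ‖1 - conj a * w‖ := lt_of_lt_of_le (by linarith) (den_ge le_rfl hw)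
  have h1 : ‖(w - a) / (1 - conj a * w)‖ ≤ 1 := by
    rw [norm_div, div_le_one hd]
    have hk := key a w
    have hp : 0 ≤ (1 - ‖a‖ ^ 2) * (1 - ‖w‖ ^ 2) := by
      apply mul_nonneg <;> nlinarith [norm_nonneg a, norm_nonneg w]
    nlinarith [norm_nonneg (w - a), norm_nonneg (1 - conj a * w)]
  have := Real.log_nonpos (norm_nonneg _) h1
  linarith

lemma ell_eq {a w : ℂ} (ha : ‖a‖ < 1) (hw : ‖w‖ ≤ 1) (hwa : w ≠ a) :
    ell a w = Real.log ‖1 - conj a * w‖ - Real.log ‖w - a‖ := by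
  unfold ell
  have hd : 0 < ‖1 - conj a * w‖ := lt_of_lt_of_le (by linarith) (den_ge le_rfl hw)
  rw [norm_div, Real.log_div (norm_pos_iff.2 (sub_ne_zero.2 hwa)).ne' hd.ne']
  ring

lemma ell_self (a : ℂ) : ell a a = 0 := by
  unfold ell
  simp

lemma ell_le {a w : ℂ} (ha : ‖a‖ < 1) (hw : ‖w‖ ≤ 1) {M : ℝ} (hM : 0 ≤ M) :
    ell a w ≤ 2 * M + 2 * Real.exp (-M) * ‖w - a‖ ^ (-(1 / 2 : ℝ)) := by
  by_cases hwa : w = a
  · subst hwa
    rw [ell_self]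
    positivity
  · have hx : 0 < ‖w - a‖ := norm_pos_iff.2 (sub_ne_zero.2 hwa)
    have hd : 0 < ‖1 - conj a * w‖ := lt_of_lt_of_le (by linarith) (den_ge le_rfl hw)
    rw [ell_eq ha hw hwa]
    have h1 : Real.log ‖1 - conj a * w‖ ≤ Real.log 2 :=
      Real.log_le_log hd (den_le ha.le hw)
    set y : ℝ := ‖w - a‖ ^ (-(1 / 2 : ℝ)) with hy
    have hy0 : 0 < y := Real.rpow_pos_of_pos hx _
    have h2 : Real.log y = -(1 / 2) * Real.log ‖w - a‖ := by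
      rw [hy, Real.log_rpow hx]
    have h3 : Real.log (y * Real.exp (-M)) ≤ y * Real.exp (-M) - 1 :=
      Real.log_le_sub_one_of_pos (by positivity)
    rw [Real.log_mul hy0.ne' (Real.exp_pos _).ne', Real.log_exp] at h3
    have h4 : Real.log 2 < 1 := by
      have := Real.log_two_lt_d9
      linarith
    nlinarith

lemma meas_ell (a : ℂ) : Measurable (ell a) := by
  unfold ell
  exact (Real.measurable_log.comp (((measurable_id.sub_const a).div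
    (measurable_const.sub (measurable_const.mul measurable_id))).norm)).neg

/-- the pointwise estimate -/
lemma pointwise {a w w0 : ℂ} {ρ t0 δ M : ℝ} (ha : ‖a‖ ≤ ρ) (hρ : ρ < 1) (hw : ‖w‖ ≤ 1)
    (hw0 : ‖w0‖ ≤ 1) (hδ : 0 < δ) (ht0 : 0 < t0) (hδt : δ ≤ t0 / 2) (hδρ : δ ≤ (1 - ρ) / 4)
    (hM : 0 ≤ M) (hd : ‖w - w0‖ ≤ δ) (hw0a : w0 ≠ a) :
    ell a w ≤ ell a w0 + (δ / (1 - ρ) + 2 * δ / t0) +
      (t0 ^ (1 / 2 : ℝ) + 2 * M * (2 * δ) ^ (1 / 2 : ℝ)) * ‖w0 - a‖ ^ (-(1 / 2 : ℝ)) +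
      2 * Real.exp (-M) * ‖w - a‖ ^ (-(1 / 2 : ℝ)) := by
  have ha1 : ‖a‖ < 1 := ha.trans_lt hρ
  have hρ' : 0 < 1 - ρ := by linarith
  set x0 : ℝ := ‖w0 - a‖ with hx0
  have hx0p : 0 < x0 := norm_pos_iff.2 (sub_ne_zero.2 hw0a)
  have hxx : x0 - δ ≤ ‖w - a‖ := by
    have h1 : w0 - a = (w - a) - (w - w0) := by ring
    have h2 : ‖w0 - a‖ ≤ ‖w - a‖ + ‖w - w0‖ := by rw [h1]; exact norm_sub_le _ _
    linarith
  have hsq : ∀ t : ℝ, 0 < t → x0 ≤ t → 1 ≤ t ^ (1 / 2 : ℝ) * x0 ^ (-(1 / 2 : ℝ)) := by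
    intro t ht hxt
    rw [Real.rpow_neg hx0p.le, ← div_eq_mul_inv, one_le_div (Real.rpow_pos_of_pos hx0p _)]
    exact Real.rpow_le_rpow hx0p.le hxt (by norm_num)
  have hE0 : 0 ≤ ell a w0 := ell_nonneg ha1 hw0
  have hT1 : 0 ≤ t0 ^ (1 / 2 : ℝ) * x0 ^ (-(1 / 2 : ℝ)) := by positivity
  have hT2 : 0 ≤ 2 * M * (2 * δ) ^ (1 / 2 : ℝ) * x0 ^ (-(1 / 2 : ℝ)) := by positivity
  have hT3 : 0 ≤ 2 * Real.exp (-M) * ‖w - a‖ ^ (-(1 / 2 : ℝ)) := by positivity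
  have hT4 : 0 ≤ δ / (1 - ρ) := by positivity
  have hT5 : 0 ≤ 2 * δ / t0 := by positivity
  rw [add_mul]
  rcases lt_or_ge x0 (2 * δ) with hC | hC
  · -- case C
    have h1 := ell_le ha1 hw hM
    have h2 := hsq (2 * δ) (by positivity) hC.le
    have h3 : 2 * M ≤ 2 * M * (2 * δ) ^ (1 / 2 : ℝ) * x0 ^ (-(1 / 2 : ℝ)) := by
      have : 2 * M * 1 ≤ 2 * M * ((2 * δ) ^ (1 / 2 : ℝ) * x0 ^ (-(1 / 2 : ℝ))) :=
        mul_le_mul_of_nonneg_left h2 (by positivity)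
      linarith
    linarith
  · -- cases A, B
    have hxp : 0 < ‖w - a‖ := by linarith
    have hwa : w ≠ a := fun h => by rw [h, sub_self, norm_zero] at hxp; exact lt_irrefl 0 hxp
    have hd0 : 1 - ρ ≤ ‖1 - conj a * w0‖ := den_ge ha hw0
    have hd1 : 1 - ρ ≤ ‖1 - conj a * w‖ := den_ge ha hw
    have hdd : ‖1 - conj a * w‖ ≤ ‖1 - conj a * w0‖ * (1 + δ / (1 - ρ)) := by
      have h1 : 1 - conj a * w = (1 - conj a * w0) - conj a * (w - w0) := by ring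
      have h2 : ‖1 - conj a * w‖ ≤ ‖1 - conj a * w0‖ + ‖conj a * (w - w0)‖ := by
        rw [h1]; exact norm_sub_le _ _
      rw [norm_mul, RCLike.norm_conj] at h2
      have h3 : ‖a‖ * ‖w - w0‖ ≤ 1 * δ := mul_le_mul ha1.le hd (norm_nonneg _) zero_le_one
      have h4 : δ ≤ ‖1 - conj a * w0‖ * (δ / (1 - ρ)) := by
        have : (1 - ρ) * (δ / (1 - ρ)) ≤ ‖1 - conj a * w0‖ * (δ / (1 - ρ)) :=
          mul_le_mul_of_nonneg_right hd0 hT4
        rwa [mul_div_cancel₀ _ hρ'.ne'] at this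
      linarith
    have hlog1 : Real.log ‖1 - conj a * w‖ ≤ Real.log ‖1 - conj a * w0‖ + δ / (1 - ρ) := by
      have h1 := Real.log_le_log (by linarith) hdd
      rw [Real.log_mul (by linarith) (by positivity)] at h1
      have h2 : Real.log (1 + δ / (1 - ρ)) ≤ (1 + δ / (1 - ρ)) - 1 :=
        Real.log_le_sub_one_of_pos (by positivity)
      linarith
    rw [ell_eq ha1 hw hwa, ell_eq ha1 hw0 hw0a]
    rcases lt_or_ge x0 t0 with hB | hA
    · -- case B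
      have h2 := hsq t0 ht0 hB.le
      have h3 : x0 / 2 ≤ ‖w - a‖ := by linarith
      have h4 := Real.log_le_log (by positivity) h3
      rw [Real.log_div hx0p.ne' two_ne_zero] at h4
      have h5 : δ / (1 - ρ) ≤ 1 / 4 := by
        rw [div_le_iff₀ hρ']; linarith
      have h6 : Real.log 2 < 3 / 4 := by
        have := Real.log_two_lt_d9
        linarith
      linarith
    · -- case A
      have h3 : x0 * (1 - δ / t0) ≤ ‖w - a‖ := by
        have : δ ≤ x0 * (δ / t0) := by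
          have := mul_le_mul_of_nonneg_right hA (by positivity : 0 ≤ δ / t0)
          rwa [mul_div_cancel₀ _ ht0.ne'] at this
        nlinarith
      have hs : δ / t0 ≤ 1 / 2 := by
        rw [div_le_iff₀ ht0]; linarith
      have h4 := Real.log_le_log (by apply mul_pos hx0p; linarith) h3
      rw [Real.log_mul hx0p.ne' (by linarith)] at h4
      have h5 : -(2 * (δ / t0)) ≤ Real.log (1 - δ / t0) := by
        have h6 : Real.log (1 - δ / t0)⁻¹ ≤ (1 - δ / t0)⁻¹ - 1 :=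
          Real.log_le_sub_one_of_pos (by
            apply inv_pos.2; linarith)
        rw [Real.log_inv] at h6
        have h7 : (1 - δ / t0)⁻¹ - 1 ≤ 2 * (δ / t0) := by
          have h8 : 0 < 1 - δ / t0 := by linarith
          rw [sub_le_iff_le_add, inv_le_iff_one_le_mul₀ h8]
          have h9 : 0 ≤ δ / t0 := by positivity
          nlinarith
        linarith
      have h10 : 2 * (δ / t0) = 2 * δ / t0 := by ring
      linarith

lemma hb_int {γ : ℝ → ℂ} {B : ℝ} (h : HB γ 0 (2 * Real.pi) B) {S : Set ℝ}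
    (hS : MeasurableSet S) (hS2 : S ⊆ Icc 0 (2 * Real.pi)) (a : ℂ) :
    IntegrableOn (fun θ => ‖γ θ - a‖ ^ (-(1 / 2 : ℝ))) S ∧
    ∫ θ in S, ‖γ θ - a‖ ^ (-(1 / 2 : ℝ)) ≤ B := by
  obtain ⟨_, h2, h3⟩ := h a
  have hpi : (0 : ℝ) ≤ 2 * Real.pi := by positivity
  have h4 : IntegrableOn (fun θ => ‖γ θ - a‖ ^ (-(1 / 2 : ℝ))) (Icc 0 (2 * Real.pi)) :=
    (intervalIntegrable_iff_integrableOn_Icc_of_le hpi).1 h2
  refine ⟨h4.mono_set hS2, ?_⟩
  refine le_trans ?_ h3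
  rw [intervalIntegral.integral_of_le hpi, ← integral_Icc_eq_integral_Ioc]
  exact setIntegral_mono_set h4 (Eventually.of_forall fun θ => by positivity)
    (Eventually.of_forall hS2)

lemma ell_int {γ : ℝ → ℂ} {B : ℝ} (hγ : Continuous γ) (hγ1 : ∀ θ, ‖γ θ‖ ≤ 1)
    (h : HB γ 0 (2 * Real.pi) B) {S : Set ℝ}
    (hS : MeasurableSet S) (hS2 : S ⊆ Icc 0 (2 * Real.pi)) {a : ℂ} (ha : ‖a‖ < 1) :
    IntegrableOn (fun θ => ell a (γ θ)) S := by
  have h1 := (hb_int h hS hS2 a).1.const_mul 2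
  refine h1.mono' ((meas_ell a).comp hγ.measurable).aestronglyMeasurable ?_
  refine Eventually.of_forall fun θ => ?_
  rw [Real.norm_eq_abs, abs_of_nonneg (ell_nonneg ha (hγ1 θ))]
  have h2 := ell_le ha (hγ1 θ) (le_refl (0 : ℝ))
  rw [neg_zero, Real.exp_zero, mul_zero, zero_add, mul_one] at h2
  exact h2

end Cmp

open Cmp in
theorem cmp : S_CMP := by
  intro ρ B0 ε hρ hε
  have hρ' : 0 < 1 - ρ := by linarith
  have hpi := Real.pi_pos
  set B1 : ℝ := max B0 1 with hB1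
  have hB1p : 1 ≤ B1 := le_max_right _ _
  have hB01 : B0 ≤ B1 := le_max_left _ _
  set t0 : ℝ := min 1 ((ε / (4 * B1)) ^ 2) with ht0
  have ht0p : 0 < t0 := by
    rw [ht0]; apply lt_min one_pos; positivity
  have ht0s : t0 ^ (1 / 2 : ℝ) * B1 ≤ ε / 4 := by
    have h1 : t0 ^ (1 / 2 : ℝ) ≤ ε / (4 * B1) := by
      rw [← Real.sqrt_eq_rpow]
      apply Real.sqrt_le_iff.mpr
      exact ⟨by positivity, min_le_right _ _⟩
    calc t0 ^ (1 / 2 : ℝ) * B1 ≤ ε / (4 * B1) * B1 := by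
          apply mul_le_mul_of_nonneg_right h1 (by linarith)
      _ = ε / 4 := by
          field_simp
  set c : ℝ := 2 * Real.pi * (1 / (1 - ρ) + 2 / t0) with hc
  have hcp : 0 < c := by positivity
  set δ0 : ℝ := min (min 1 (t0 / 2)) (min (min ((1 - ρ) / 4) (ε / (4 * c)))
    (min ((ε / (240 * B1)) ^ 6) (ε / 8))) with hδ0
  refine ⟨δ0, ?_, ?_⟩
  · rw [hδ0]
    refine lt_min (lt_min one_pos (by positivity)) (lt_min (lt_min (by positivity) (by positivity))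
      (lt_min (by positivity) (by positivity)))
  intro δ hδ hδle B hB hlogB γ γ0 S hγ hγ0 hγ1 hγ01 hS hS2 hclose hHB0 hHB a ha
  have e1 : δ ≤ 1 := hδle.trans ((min_le_left _ _).trans (min_le_left _ _))
  have e2 : δ ≤ t0 / 2 := hδle.trans ((min_le_left _ _).trans (min_le_right _ _))
  have e3 : δ ≤ (1 - ρ) / 4 :=
    hδle.trans ((min_le_right _ _).trans ((min_le_left _ _).trans (min_le_left _ _)))
  have e4 : δ ≤ ε / (4 * c) :=
    hδle.trans ((min_le_right _ _).trans ((min_le_left _ _).trans (min_le_right _ _)))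
  have e5 : δ ≤ (ε / (240 * B1)) ^ 6 :=
    hδle.trans ((min_le_right _ _).trans ((min_le_right _ _).trans (min_le_left _ _)))
  have e6 : δ ≤ ε / 8 :=
    hδle.trans ((min_le_right _ _).trans ((min_le_right _ _).trans (min_le_right _ _)))
  have ha1 : ‖a‖ < 1 := ha.trans_lt hρ
  have hBp : 0 < B := by linarith
  set M : ℝ := Real.log B + Real.log (1 / δ) with hM
  have hM0 : 0 ≤ M := by
    have h1 := Real.log_nonneg hB
    have h2 : 0 ≤ Real.log (1 / δ) := Real.log_nonneg (by rw [le_div_iff₀ hδ]; linarith)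
    linarith
  have hexpM : Real.exp (-M) * B = δ := by
    rw [hM, Real.log_div one_ne_zero hδ.ne', Real.log_one, zero_sub, neg_add, neg_neg,
      Real.exp_add, Real.exp_neg, Real.exp_log hBp, Real.exp_log hδ]
    field_simp
  -- bound for `2 M (2δ)^{1/2}`
  have hMb : 2 * M * (2 * δ) ^ (1 / 2 : ℝ) ≤ 60 * δ ^ (1 / 6 : ℝ) := by
    have h1 : Real.log (1 / δ) ≤ 3 * δ ^ (-(1 / 3 : ℝ)) := by
      have h2 : 0 < δ ^ (-(1 / 3 : ℝ)) := Real.rpow_pos_of_pos hδ _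
      have h3 := Real.log_le_sub_one_of_pos h2
      rw [Real.log_rpow hδ] at h3
      rw [Real.log_div one_ne_zero hδ.ne', Real.log_one, zero_sub]
      linarith
    have h2 : M ≤ 19 * δ ^ (-(1 / 3 : ℝ)) := by rw [hM]; linarith
    have h3 : (2 * δ) ^ (1 / 2 : ℝ) ≤ (3 / 2) * δ ^ (1 / 2 : ℝ) := by
      rw [Real.mul_rpow (by norm_num) hδ.le]
      apply mul_le_mul_of_nonneg_right _ (Real.rpow_nonneg hδ.le _)
      rw [← Real.sqrt_eq_rpow]
      apply Real.sqrt_le_iff.mpr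
      norm_num
    have h4 : δ ^ (-(1 / 3 : ℝ)) * δ ^ (1 / 2 : ℝ) = δ ^ (1 / 6 : ℝ) := by
      rw [← Real.rpow_add hδ]; norm_num
    have h5 : 0 ≤ δ ^ (-(1 / 3 : ℝ)) := Real.rpow_nonneg hδ.le _
    have h6 : 0 ≤ δ ^ (1 / 6 : ℝ) := Real.rpow_nonneg hδ.le _
    calc 2 * M * (2 * δ) ^ (1 / 2 : ℝ) ≤ 2 * (19 * δ ^ (-(1 / 3 : ℝ))) *
          ((3 / 2) * δ ^ (1 / 2 : ℝ)) := by
          apply mul_le_mul _ h3 (Real.rpow_nonneg (by linarith) _) (by positivity)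
          linarith
      _ = 57 * (δ ^ (-(1 / 3 : ℝ)) * δ ^ (1 / 2 : ℝ)) := by ring
      _ ≤ 60 * δ ^ (1 / 6 : ℝ) := by rw [h4]; linarith
  have hδ6 : δ ^ (1 / 6 : ℝ) ≤ ε / (240 * B1) := by
    have h1 : δ ^ (1 / 6 : ℝ) ≤ ((ε / (240 * B1)) ^ 6) ^ (1 / 6 : ℝ) :=
      Real.rpow_le_rpow hδ.le e5 (by norm_num)
    have h2 : ((ε / (240 * B1)) ^ 6) ^ (1 / 6 : ℝ) = ε / (240 * B1) := by
      rw [← Real.rpow_natCast, ← Real.rpow_mul (by positivity)]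
      norm_num
    rwa [h2] at h1
  obtain ⟨i1, i2⟩ := hb_int hHB0 hS hS2 a
  obtain ⟨i3, i4⟩ := hb_int hHB hS hS2 a
  have i5 := ell_int hγ hγ1 hHB hS hS2 ha1
  have i6 := ell_int hγ0 hγ01 hHB0 hS hS2 ha1
  have hvol : volume S ≠ ⊤ := ((measure_mono hS2).trans_lt (by
    rw [Real.volume_Icc]; exact ENNReal.ofReal_lt_top)).ne
  have hvolr : (volume.real S) ≤ 2 * Real.pi := by
    have h1 : volume.real S ≤ volume.real (Icc 0 (2 * Real.pi)) := by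
      exact measureReal_mono hS2 (by rw [Real.volume_Icc]; exact ENNReal.ofReal_ne_top)
    rw [Real.volume_real_Icc, sub_zero, max_eq_left (by positivity)] at h1
    exact h1
  set cA : ℝ := δ / (1 - ρ) + 2 * δ / t0 with hcA
  set cB : ℝ := t0 ^ (1 / 2 : ℝ) + 2 * M * (2 * δ) ^ (1 / 2 : ℝ) with hcB
  have hcA0 : 0 ≤ cA := by positivity
  have hcB0 : 0 ≤ cB := by positivity
  have i7 : IntegrableOn (fun _ : ℝ => cA) S := integrableOn_const hvol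
  have hne : ∀ᵐ θ ∂(volume.restrict S), γ0 θ ≠ a := by
    rw [ae_restrict_iff' hS]
    have h0 := (hHB0 a).1
    have h1 : ∀ᵐ θ : ℝ, θ ∉ {θ : ℝ | θ ∈ Icc 0 (2 * Real.pi) ∧ γ0 θ = a} :=
      measure_eq_zero_iff_ae_notMem.mp h0
    filter_upwards [h1] with θ hθ hθS h
    exact hθ ⟨hS2 hθS, h⟩
  have hpt : ∀ᵐ θ ∂(volume.restrict S), ell a (γ θ) ≤ ell a (γ0 θ) + cA +
      cB * ‖γ0 θ - a‖ ^ (-(1 / 2 : ℝ)) + 2 * Real.exp (-M) * ‖γ θ - a‖ ^ (-(1 / 2 : ℝ)) := by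
    filter_upwards [hne, ae_restrict_mem hS] with θ h1 h2
    exact pointwise ha hρ (hγ1 θ) (hγ01 θ) hδ ht0p e2 e3 hM0 (hclose θ h2) h1
  have k1 : IntegrableOn (fun θ => ell a (γ0 θ) + cA) S := i6.add i7
  have k2 : IntegrableOn (fun θ => ell a (γ0 θ) + cA + cB * ‖γ0 θ - a‖ ^ (-(1 / 2 : ℝ))) S :=
    k1.add (i1.const_mul cB)
  have k3 : IntegrableOn (fun θ => ell a (γ0 θ) + cA + cB * ‖γ0 θ - a‖ ^ (-(1 / 2 : ℝ)) +
      2 * Real.exp (-M) * ‖γ θ - a‖ ^ (-(1 / 2 : ℝ))) S :=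
    k2.add (i3.const_mul (2 * Real.exp (-M)))
  have hmono := integral_mono_ae i5 k3 hpt
  have hsplit : ∫ θ in S, (ell a (γ0 θ) + cA +
      cB * ‖γ0 θ - a‖ ^ (-(1 / 2 : ℝ)) + 2 * Real.exp (-M) * ‖γ θ - a‖ ^ (-(1 / 2 : ℝ))) =
      (∫ θ in S, ell a (γ0 θ)) + volume.real S * cA +
      cB * (∫ θ in S, ‖γ0 θ - a‖ ^ (-(1 / 2 : ℝ))) +
      2 * Real.exp (-M) * ∫ θ in S, ‖γ θ - a‖ ^ (-(1 / 2 : ℝ)) := by
    rw [integral_add k2 (i3.const_mul (2 * Real.exp (-M))),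
      integral_add k1 (i1.const_mul cB), integral_add i6 i7, integral_const_mul,
      integral_const_mul, setIntegral_const, smul_eq_mul]
  have hfin : ∫ θ in S, ell a (γ θ) ≤ (∫ θ in S, ell a (γ0 θ)) + volume.real S * cA +
      cB * (∫ θ in S, ‖γ0 θ - a‖ ^ (-(1 / 2 : ℝ))) +
      2 * Real.exp (-M) * ∫ θ in S, ‖γ θ - a‖ ^ (-(1 / 2 : ℝ)) := by
    rw [← hsplit]
    exact hmono
  have j1 : volume.real S * cA ≤ ε / 4 := by
    have h1 : volume.real S * cA ≤ 2 * Real.pi * cA := mul_le_mul_of_nonneg_right hvolr hcA0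
    have h2 : 2 * Real.pi * cA = c * δ := by
      rw [hcA, hc]; ring
    have h3 : c * δ ≤ c * (ε / (4 * c)) := mul_le_mul_of_nonneg_left e4 hcp.le
    have h4 : c * (ε / (4 * c)) = ε / 4 := by
      field_simp
    linarith
  have j2 : cB * (∫ θ in S, ‖γ0 θ - a‖ ^ (-(1 / 2 : ℝ))) ≤ ε / 2 := by
    have h1 : cB * (∫ θ in S, ‖γ0 θ - a‖ ^ (-(1 / 2 : ℝ))) ≤ cB * B1 :=
      mul_le_mul_of_nonneg_left (i2.trans hB01) hcB0
    have h2 : cB * B1 ≤ ε / 4 + 60 * δ ^ (1 / 6 : ℝ) * B1 := by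
      rw [hcB, add_mul]
      have := mul_le_mul_of_nonneg_right hMb (by linarith : 0 ≤ B1)
      linarith
    have h3 : 60 * δ ^ (1 / 6 : ℝ) * B1 ≤ 60 * (ε / (240 * B1)) * B1 := by
      apply mul_le_mul_of_nonneg_right _ (by linarith)
      linarith
    have h4 : 60 * (ε / (240 * B1)) * B1 = ε / 4 := by
      field_simp
      norm_num
    linarith
  have j3 : 2 * Real.exp (-M) * ∫ θ in S, ‖γ θ - a‖ ^ (-(1 / 2 : ℝ)) ≤ ε / 4 := by
    have h1 : 2 * Real.exp (-M) * (∫ θ in S, ‖γ θ - a‖ ^ (-(1 / 2 : ℝ))) ≤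
        2 * Real.exp (-M) * B := mul_le_mul_of_nonneg_left i4 (by positivity)
    have h2 : 2 * Real.exp (-M) * B = 2 * δ := by rw [mul_assoc, hexpM]
    linarith
  linarith

end Pool.Agent.H928.IB

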