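import Pool.Agent.H928.IB.Stm

/-!
# P18: continuity of `Psi` at a stage, from inside
-/

set_option autoImplicit false

open MeasureTheory Set Filter Topology Complex Metric
open scoped ComplexConjugate

namespace Pool.Agent.H928.IB

namespace Cont

theorem norm_cm (θ : ℝ) : ‖cm θ‖ = 1 := by
  unfold cm
  exact Complex.norm_exp_ofReal_mul_I θ

theorem norm_rcm {r : ℝ} (hr : 0 ≤ r) (θ : ℝ) : ‖(r : ℂ) * cm θ‖ = r := by
  rw [norm_mul, norm_cm, mul_one, Complex.norm_real, Real.norm_of_nonneg hr]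

theorem hasDerivAt_cm (θ : ℝ) : HasDerivAt cm (I * cm θ) θ := by
  unfold cm
  have h1 : HasDerivAt (fun x : ℝ => (x : ℂ) * I) (1 * I) θ :=
    (Complex.ofRealCLM.hasDerivAt (x := θ)).mul_const I
  have h2 := h1.cexp
  rw [one_mul, mul_comm] at h2
  exact h2

theorem continuous_cm : Continuous cm := by
  unfold cm
  fun_prop

/-- translation of the interval -/
theorem hb_shift {γ : ℝ → ℂ} {B : ℝ} (h : HB (fun t => γ (t - 1)) 1 (1 + 2 * Real.pi) B) :
    HB γ 0 (2 * Real.pi) B := by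
  intro a
  obtain ⟨h1, h2, h3⟩ := h a
  refine ⟨?_, ?_, ?_⟩
  · have h4 : {θ : ℝ | θ ∈ Icc 0 (2 * Real.pi) ∧ γ θ = a} = (fun θ : ℝ => θ + 1) ⁻¹'
        {t : ℝ | t ∈ Icc 1 (1 + 2 * Real.pi) ∧ γ (t - 1) = a} := by
      ext θ
      simp only [mem_ofPred_eq, mem_preimage, mem_Icc, add_sub_cancel_right]
      constructor
      · rintro ⟨⟨h5, h6⟩, h7⟩
        exact ⟨⟨by linarith, by linarith⟩, h7⟩
      · rintro ⟨⟨h5, h6⟩, h7⟩
        exact ⟨⟨by linarith, by linarith⟩, h7⟩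
    rw [h4, measure_preimage_add_right]
    exact h1
  · have h4 := h2.comp_add_right 1
    simp only [add_sub_cancel_right, sub_self, add_sub_cancel_left] at h4
    exact h4
  · have h4 := intervalIntegral.integral_comp_add_right (a := 0) (b := 2 * Real.pi)
      (fun t => ‖γ (t - 1) - a‖ ^ (-(1 / 2 : ℝ))) 1
    simp only [add_sub_cancel_right] at h4
    rw [h4, zero_add, add_comm (2 * Real.pi) 1]
    exact h3

/-- the integral estimate for images of circles -/
theorem hb_circle (hLI : S_LI) (m M : ℝ) (hm : 0 < m) (hM : 0 ≤ M) : ∃ B : ℝ, 1 ≤ B ∧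
    ∀ (r : ℝ) (J J' J'' : ℂ → ℂ), 1 / 2 ≤ r → r ≤ 1 →
    (∀ θ : ℝ, HasDerivAt J (J' (r * cm θ)) (r * cm θ)) →
    (∀ θ : ℝ, HasDerivAt J' (J'' (r * cm θ)) (r * cm θ)) →
    (∀ θ : ℝ, 2 * m ≤ ‖J' (r * cm θ)‖) → (∀ θ : ℝ, ‖J'' (r * cm θ)‖ ≤ M) →
    HB (fun θ => J (r * cm θ)) 0 (2 * Real.pi) B := by
  have hpi := Real.pi_pos
  obtain ⟨κ, hκ⟩ : ∃ κ : ℝ, κ = (M / m + 1) * (1 + 2 * Real.pi) := ⟨_, rfl⟩
  have hκ1 : 1 ≤ κ := by
    have h1 : 0 ≤ M / m := by positivity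
    rw [hκ]
    nlinarith
  refine ⟨max 1 (64 * Real.sqrt (κ * (1 + 2 * Real.pi) / m)), le_max_left _ _, ?_⟩
  intro r J J' J'' hr1 hr2 hJ hJ' hm' hM'
  have key : HB (fun t => J (r * cm (t - 1))) 1 (1 + 2 * Real.pi)
      (64 * Real.sqrt (κ * (1 + 2 * Real.pi) / m)) := by
    refine hLI 1 (1 + 2 * Real.pi) κ m (fun t => J (r * cm (t - 1)))
      (fun t => J' (r * cm (t - 1)) * (r * (I * cm (t - 1))))
      (fun t => J'' (r * cm (t - 1)) * (r * (I * cm (t - 1))) * (r * (I * cm (t - 1))) +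
        J' (r * cm (t - 1)) * (r * (I * (I * cm (t - 1))))) one_pos (by linarith) hκ1 hm ?_
    intro t ht
    have hc : HasDerivAt (fun t : ℝ => cm (t - 1)) (I * cm (t - 1)) t := by
      have h1 := (hasDerivAt_cm (t - 1)).scomp t ((hasDerivAt_id t).sub_const 1)
      rw [one_smul] at h1
      exact h1
    have hrc : HasDerivAt (fun t : ℝ => (r : ℂ) * cm (t - 1)) (r * (I * cm (t - 1))) t :=
      hc.const_mul _
    have n1 : ‖(r : ℂ) * (I * cm (t - 1))‖ = r := by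
      rw [norm_mul, norm_mul, Complex.norm_I, norm_cm, one_mul, mul_one, Complex.norm_real,
        Real.norm_of_nonneg (by linarith)]
    have n2 : ‖(r : ℂ) * (I * (I * cm (t - 1)))‖ = r := by
      rw [norm_mul, norm_mul, norm_mul, Complex.norm_I, norm_cm, one_mul, one_mul, mul_one,
        Complex.norm_real, Real.norm_of_nonneg (by linarith)]
    have hg1 : HasDerivAt (fun t => J (r * cm (t - 1)))
        (J' (r * cm (t - 1)) * (r * (I * cm (t - 1)))) t :=
      (hJ (t - 1)).comp t hrc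
    have hg2 : HasDerivAt (fun t => J' (r * cm (t - 1)))
        (J'' (r * cm (t - 1)) * (r * (I * cm (t - 1)))) t :=
      (hJ' (t - 1)).comp t hrc
    have hg3 : HasDerivAt (fun t : ℝ => (r : ℂ) * (I * cm (t - 1)))
        (r * (I * (I * cm (t - 1)))) t := (hc.const_mul I).const_mul _
    have hm1 := hm' (t - 1)
    have hM1 := hM' (t - 1)
    have hl : m ≤ ‖J' (r * cm (t - 1)) * (r * (I * cm (t - 1)))‖ := by
      rw [norm_mul, n1]
      nlinarith [norm_nonneg (J' (r * cm (t - 1)))]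
    refine ⟨hg1, hg2.mul hg3, hl, ?_⟩
    have h2 : M / m + 1 ≤ κ / t := by
      rw [le_div_iff₀ (by linarith [ht.1]), hκ]
      exact mul_le_mul_of_nonneg_left ht.2 (by positivity)
    have h3 : ‖J'' (r * cm (t - 1)) * (r * (I * cm (t - 1))) * (r * (I * cm (t - 1)))‖ ≤
        M / m * ‖J' (r * cm (t - 1)) * (r * (I * cm (t - 1)))‖ := by
      have h4 : M ≤ M / m * ‖J' (r * cm (t - 1)) * (r * (I * cm (t - 1)))‖ := by
        calc M = M / m * m := by field_simp
          _ ≤ _ := mul_le_mul_of_nonneg_left hl (by positivity)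
      refine le_trans ?_ h4
      rw [norm_mul, norm_mul, n1]
      have h5 : 0 ≤ ‖J'' (r * cm (t - 1))‖ := norm_nonneg _
      have h6 : ‖J'' (r * cm (t - 1))‖ * r ≤ M := by nlinarith
      have h7 : 0 ≤ ‖J'' (r * cm (t - 1))‖ * r := by positivity
      nlinarith
    have h4 : ‖J' (r * cm (t - 1)) * (r * (I * (I * cm (t - 1))))‖ =
        ‖J' (r * cm (t - 1)) * (r * (I * cm (t - 1)))‖ := by
      rw [norm_mul _ ((r : ℂ) * (I * (I * cm (t - 1)))), norm_mul _ ((r : ℂ) * (I * cm (t - 1))),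
        n1, n2]
    calc ‖J'' (r * cm (t - 1)) * (r * (I * cm (t - 1))) * (r * (I * cm (t - 1))) +
          J' (r * cm (t - 1)) * (r * (I * (I * cm (t - 1))))‖
        ≤ M / m * ‖J' (r * cm (t - 1)) * (r * (I * cm (t - 1)))‖ +
          ‖J' (r * cm (t - 1)) * (r * (I * cm (t - 1)))‖ := by
          refine (norm_add_le _ _).trans ?_
          rw [h4]
          linarith
      _ = (M / m + 1) * ‖J' (r * cm (t - 1)) * (r * (I * cm (t - 1)))‖ := by ring
      _ ≤ κ / t * ‖J' (r * cm (t - 1)) * (r * (I * cm (t - 1)))‖ :=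
          mul_le_mul_of_nonneg_right h2 (norm_nonneg _)
  have h1 := hb_shift (γ := fun θ => J (r * cm θ)) key
  intro a
  obtain ⟨e1, e2, e3⟩ := h1 a
  exact ⟨e1, e2, e3.trans (le_max_right _ _)⟩

/-- Cauchy's estimates -/
theorem cauchy2 {F F1 F2 J : ℂ → ℂ} (hF : ∀ z ∈ ball (0 : ℂ) 1, HasDerivAt F (F1 z) z)
    (hF1 : ∀ z ∈ ball (0 : ℂ) 1, HasDerivAt F1 (F2 z) z) (hJ : DifferentiableOn ℂ J (ball 0 1))
    {r s δ : ℝ} (hs : 0 < s) (hr : r + 2 * s < 1)
    (hδ : ∀ z : ℂ, ‖z‖ ≤ r + 2 * s → ‖J z - F z‖ ≤ δ) {z : ℂ} (hz : ‖z‖ = r) :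
    ‖deriv J z - F1 z‖ ≤ δ / s ∧ ‖deriv (deriv J) z - F2 z‖ ≤ δ / s / s := by
  have hsub : ∀ w : ℂ, ‖w‖ ≤ r + s → closedBall w s ⊆ ball (0 : ℂ) 1 := by
    intro w hw x hx
    rw [mem_closedBall, dist_eq_norm] at hx
    rw [mem_ball_zero_iff]
    have h1 : ‖x‖ ≤ ‖x - w‖ + ‖w‖ := by
      have := norm_add_le (x - w) w
      rwa [sub_add_cancel] at this
    linarith
  have hJd : ∀ w ∈ ball (0 : ℂ) 1, HasDerivAt J (deriv J w) w := fun w hw =>
    (hJ.differentiableAt (isOpen_ball.mem_nhds hw)).hasDerivAt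
  have hJ' : DifferentiableOn ℂ (deriv J) (ball 0 1) := hJ.deriv isOpen_ball
  have hJd' : ∀ w ∈ ball (0 : ℂ) 1, HasDerivAt (deriv J) (deriv (deriv J) w) w := fun w hw =>
    (hJ'.differentiableAt (isOpen_ball.mem_nhds hw)).hasDerivAt
  have h1 : ∀ w : ℂ, ‖w‖ ≤ r + s → ‖deriv J w - F1 w‖ ≤ δ / s := by
    intro w hw
    have hwb : w ∈ ball (0 : ℂ) 1 := by
      rw [mem_ball_zero_iff]
      linarith
    have h2 : deriv (fun x => J x - F x) w = deriv J w - F1 w :=
      ((hJd w hwb).sub (hF w hwb)).deriv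
    rw [← h2]
    have h3 : DifferentiableOn ℂ (fun x => J x - F x) (ball 0 1) := fun x hx =>
      ((hJd x hx).sub (hF x hx)).differentiableAt.differentiableWithinAt
    refine Complex.norm_deriv_le_of_forall_mem_sphere_norm_le hs
      (h3.diffContOnCl_ball (hsub w hw)) ?_
    intro x hx
    rw [mem_sphere, dist_eq_norm] at hx
    apply hδ
    have h4 : ‖x‖ ≤ ‖x - w‖ + ‖w‖ := by
      have := norm_add_le (x - w) w
      rwa [sub_add_cancel] at this
    linarith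
  refine ⟨h1 z (by linarith), ?_⟩
  have hzb : z ∈ ball (0 : ℂ) 1 := by
    rw [mem_ball_zero_iff]
    linarith
  have h2 : deriv (fun x => deriv J x - F1 x) z = deriv (deriv J) z - F2 z :=
    ((hJd' z hzb).sub (hF1 z hzb)).deriv
  rw [← h2]
  have h3 : DifferentiableOn ℂ (fun x => deriv J x - F1 x) (ball 0 1) := fun x hx =>
    ((hJd' x hx).sub (hF1 x hx)).differentiableAt.differentiableWithinAt
  refine Complex.norm_deriv_le_of_forall_mem_sphere_norm_le hs
    (h3.diffContOnCl_ball (hsub z (by linarith))) ?_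
  intro x hx
  rw [mem_sphere, dist_eq_norm] at hx
  apply h1
  have h4 : ‖x‖ ≤ ‖x - z‖ + ‖z‖ := by
    have := norm_add_le (x - z) z
    rwa [sub_add_cancel] at this
  linarith

/-- a small radius for the comparison -/
theorem small (δ0 B : ℝ) (h0 : 0 < δ0) (hB : 1 ≤ B) :
    ∃ δ : ℝ, 0 < δ ∧ δ ≤ δ0 ∧ Real.log B ≤ 16 * δ ^ (-(1 / 3 : ℝ)) := by
  have hl : 0 ≤ Real.log B := Real.log_nonneg hB
  obtain ⟨c, hc⟩ : ∃ c : ℝ, c = 1 + Real.log B := ⟨_, rfl⟩
  have hc0 : 0 < c := by linarith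
  refine ⟨min δ0 (c ^ (-3 : ℝ)), lt_min h0 (by positivity), min_le_left _ _, ?_⟩
  have h1 : (c ^ (-3 : ℝ)) ^ (-(1 / 3 : ℝ)) ≤ (min δ0 (c ^ (-3 : ℝ))) ^ (-(1 / 3 : ℝ)) :=
    Real.rpow_le_rpow_of_nonpos (lt_min h0 (by positivity)) (min_le_right _ _) (by norm_num)
  rw [← Real.rpow_mul hc0.le] at h1
  have h2 : (-3 : ℝ) * (-(1 / 3 : ℝ)) = 1 := by norm_num
  rw [h2, Real.rpow_one] at h1
  linarith

end Cont

open Cont in
theorem cont (h1 : S_LI) (h2 : S_CMP) : S_CONT := by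
  intro R p F hG ρ hρ ε hε
  obtain ⟨hR, hp, hF, hF1⟩ := hG
  have hpi := Real.pi_pos
  have hsubR : closedBall (0 : ℂ) 1 ⊆ ball 0 R := closedBall_subset_ball hR
  have hsub1 : ball (0 : ℂ) 1 ⊆ ball 0 R := ball_subset_ball hR.le
  -- the derivatives
  have hF' : ∀ z ∈ ball (0 : ℂ) R, HasDerivAt (fun z => exp (p z)) (exp (p z) * deriv p z) z :=
    fun z hz => (hp.differentiableAt (isOpen_ball.mem_nhds hz)).hasDerivAt.cexp
  -- the bounds
  obtain ⟨C, hC⟩ := (isCompact_closedBall (0 : ℂ) 1).exists_bound_of_continuousOn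
    (hp.continuousOn.mono hsubR)
  obtain ⟨C', hC'⟩ := (isCompact_closedBall (0 : ℂ) 1).exists_bound_of_continuousOn
    ((hp.deriv isOpen_ball).continuousOn.mono hsubR)
  obtain ⟨m, hm0, hm⟩ : ∃ m : ℝ, 0 < m ∧ ∀ z ∈ closedBall (0 : ℂ) 1, 4 * m ≤ ‖exp (p z)‖ := by
    refine ⟨Real.exp (-C) / 4, by positivity, fun z hz => ?_⟩
    rw [Complex.norm_exp]
    have e1 : -C ≤ (p z).re := by
      have e2 := hC z hz
      have e3 := Complex.abs_re_le_norm (p z)
      have e4 := neg_abs_le (p z).re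
      linarith
    have e2 := Real.exp_le_exp.2 e1
    linarith
  obtain ⟨M, hM0, hM⟩ : ∃ M : ℝ, 0 ≤ M ∧ ∀ z ∈ closedBall (0 : ℂ) 1,
      ‖exp (p z) * deriv p z‖ ≤ M := by
    have e0 : 0 ≤ C' := (norm_nonneg _).trans (hC' 0 (mem_closedBall_self zero_le_one))
    refine ⟨Real.exp C * C', by positivity, fun z hz => ?_⟩
    rw [norm_mul, Complex.norm_exp]
    have e1 : (p z).re ≤ C := (Complex.re_le_norm _).trans (hC z hz)
    exact mul_le_mul (Real.exp_le_exp.2 e1) (hC' z hz) (norm_nonneg _) (Real.exp_pos _).le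
  obtain ⟨B, hB1, hB⟩ := hb_circle h1 m (M + 1) hm0 (by linarith)
  obtain ⟨δ0, hδ0, hcmp⟩ := h2 ρ B ε hρ hε
  obtain ⟨δ1, hδ1, hδ1', hlog⟩ := small δ0 B hδ0 hB1
  -- uniform continuity
  have hFc : ContinuousOn F (closedBall 0 1) := fun z hz =>
    (hF z (hsubR hz)).continuousAt.continuousWithinAt
  have huc := (isCompact_closedBall (0 : ℂ) 1).uniformContinuousOn_of_continuous hFc
  rw [Metric.uniformContinuousOn_iff] at huc
  obtain ⟨η, hη, huc⟩ := huc (δ1 / 2) (by linarith)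
  obtain ⟨r, hr1, hr2, hr3⟩ : ∃ r : ℝ, 1 / 2 ≤ r ∧ r < 1 ∧ 1 - r < η := by
    refine ⟨max (1 / 2) (1 - η / 2), le_max_left _ _, max_lt (by norm_num) (by linarith), ?_⟩
    have := le_max_right (1 / 2) (1 - η / 2)
    linarith
  obtain ⟨s, hs0, hs1⟩ : ∃ s : ℝ, 0 < s ∧ r + 2 * s < 1 := ⟨(1 - r) / 4, by linarith, by linarith⟩
  obtain ⟨δ, hδ, hδa, hδb, hδc⟩ : ∃ δ : ℝ, 0 < δ ∧ δ ≤ δ1 / 2 ∧ δ / s ≤ 2 * m ∧ δ / s / s ≤ 1 := by
    refine ⟨min (δ1 / 2) (min (2 * m * s) (s * s)), by positivity, min_le_left _ _, ?_, ?_⟩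
    · rw [div_le_iff₀ hs0]
      exact (min_le_right _ _).trans (min_le_left _ _)
    · rw [div_div, div_le_iff₀ (by positivity), one_mul]
      exact (min_le_right _ _).trans (min_le_right _ _)
  refine ⟨r, r + 2 * s, δ, by linarith, by linarith, hs1, hδ, ?_⟩
  intro J hJ hJ1 hJF a ha
  have hrb : ∀ θ : ℝ, (r : ℂ) * cm θ ∈ ball (0 : ℂ) 1 := by
    intro θ
    rw [mem_ball_zero_iff, norm_rcm (by linarith)]
    exact hr2
  have hJc : Continuous fun θ : ℝ => J (r * cm θ) := by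
    rw [continuous_iff_continuousAt]
    intro θ
    have e1 : ContinuousAt J (r * cm θ) :=
      (hJ.differentiableAt (isOpen_ball.mem_nhds (hrb θ))).continuousAt
    have e2 : ContinuousAt (fun θ : ℝ => (r : ℂ) * cm θ) θ :=
      (continuous_const.mul continuous_cm).continuousAt
    exact ContinuousAt.comp (f := fun θ : ℝ => (r : ℂ) * cm θ) e1 e2
  have hcmb : ∀ θ : ℝ, cm θ ∈ closedBall (0 : ℂ) 1 := by
    intro θ
    rw [mem_closedBall_zero_iff, norm_cm]
  have hFcc : Continuous fun θ : ℝ => F (cm θ) := by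
    rw [continuous_iff_continuousAt]
    intro θ
    have e1 : ContinuousAt F (cm θ) := (hF _ (hsubR (hcmb θ))).continuousAt
    exact ContinuousAt.comp (f := cm) e1 continuous_cm.continuousAt
  -- the curves
  have hbF : HB (fun θ => F (cm θ)) 0 (2 * Real.pi) B := by
    have e1 := hB 1 F (fun z => exp (p z)) (fun z => exp (p z) * deriv p z) (by norm_num) le_rfl
    simp only [Complex.ofReal_one, one_mul] at e1
    refine e1 (fun θ => hF _ (hsubR (hcmb θ))) (fun θ => hF' _ (hsubR (hcmb θ)))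
      (fun θ => ?_) (fun θ => ?_)
    · have := hm _ (hcmb θ)
      linarith
    · have := hM _ (hcmb θ)
      linarith
  have hbJ : HB (fun θ => J (r * cm θ)) 0 (2 * Real.pi) B := by
    refine hB r J (deriv J) (deriv (deriv J)) hr1 hr2.le ?_ ?_ ?_ ?_
    · intro θ
      exact (hJ.differentiableAt (isOpen_ball.mem_nhds (hrb θ))).hasDerivAt
    · intro θ
      exact ((hJ.deriv isOpen_ball).differentiableAt (isOpen_ball.mem_nhds (hrb θ))).hasDerivAt
    · intro θ
      obtain ⟨e1, -⟩ := cauchy2 (F2 := fun z => exp (p z) * deriv p z)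
        (fun z hz => hF z (hsub1 hz)) (fun z hz => hF' z (hsub1 hz)) hJ hs0 hs1 hJF
        (norm_rcm (by linarith : 0 ≤ r) θ)
      have e2 := hm _ (ball_subset_closedBall (hrb θ))
      have e3 : ‖exp (p (r * cm θ))‖ ≤ ‖deriv J (r * cm θ)‖ +
          ‖deriv J (r * cm θ) - exp (p (r * cm θ))‖ := by
        have e4 := norm_sub_le (deriv J (r * cm θ)) (deriv J (r * cm θ) - exp (p (r * cm θ)))
        rwa [sub_sub_cancel] at e4
      linarith
    · intro θ
      obtain ⟨-, e1⟩ := cauchy2 (F2 := fun z => exp (p z) * deriv p z)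
        (fun z hz => hF z (hsub1 hz)) (fun z hz => hF' z (hsub1 hz)) hJ hs0 hs1 hJF
        (norm_rcm (by linarith : 0 ≤ r) θ)
      have e2 := hM _ (ball_subset_closedBall (hrb θ))
      have e3 : ‖deriv (deriv J) (r * cm θ)‖ ≤
          ‖deriv (deriv J) (r * cm θ) - exp (p (r * cm θ)) * deriv p (r * cm θ)‖ +
          ‖exp (p (r * cm θ)) * deriv p (r * cm θ)‖ := by
        have e4 := norm_add_le (deriv (deriv J) (r * cm θ) -
          exp (p (r * cm θ)) * deriv p (r * cm θ)) (exp (p (r * cm θ)) * deriv p (r * cm θ))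
        rwa [sub_add_cancel] at e4
      have e5 : ‖deriv (deriv J) (r * cm θ) - exp (p (r * cm θ)) * deriv p (r * cm θ)‖ ≤
          δ / s / s := e1
      linarith
  have hclose : ∀ θ ∈ Icc (0 : ℝ) (2 * Real.pi), ‖J (r * cm θ) - F (cm θ)‖ ≤ δ1 := by
    intro θ _
    have e1 : ‖J (r * cm θ) - F (r * cm θ)‖ ≤ δ := by
      apply hJF
      rw [norm_rcm (by linarith)]
      linarith
    have e2 : ‖F (r * cm θ) - F (cm θ)‖ < δ1 / 2 := by
      have e3 := huc (r * cm θ) (ball_subset_closedBall (hrb θ)) (cm θ) (hcmb θ) (by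
        rw [dist_eq_norm]
        have e4 : (r : ℂ) * cm θ - cm θ = ((r - 1 : ℝ) : ℂ) * cm θ := by
          push_cast
          ring
        rw [e4, norm_mul, norm_cm, mul_one, Complex.norm_real, Real.norm_eq_abs, abs_sub_comm,
          abs_of_pos (by linarith)]
        exact hr3)
      rwa [dist_eq_norm] at e3
    have e3 : J (r * cm θ) - F (cm θ) = (J (r * cm θ) - F (r * cm θ)) +
        (F (r * cm θ) - F (cm θ)) := by ring
    rw [e3]
    refine (norm_add_le _ _).trans ?_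
    linarith
  have hfin := hcmp δ1 hδ1 hδ1' B hB1 hlog (fun θ => J (r * cm θ)) (fun θ => F (cm θ))
    (Icc 0 (2 * Real.pi)) hJc hFcc (fun θ => hJ1 _ (hrb θ))
    (fun θ => (hF1 _ (norm_cm θ).le).le) measurableSet_Icc le_rfl hclose hbF hbJ a ha
  unfold Psi
  rw [intervalIntegral.integral_of_le (by positivity), intervalIntegral.integral_of_le (by positivity),
    ← integral_Icc_eq_integral_Ioc, ← integral_Icc_eq_integral_Ioc]
  exact hfin

end Pool.Agent.H928.IB
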