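import Pool.Agent.H928.IB.Stm
import Pool.Graph.R_pool_sql_team_seeded_620a6dc7.Helper824_ind.Main

/-!
# Criterion for Blaschke products (statement `S_CRIT` of `Stm`)

If the circle means of `log |f|` come arbitrarily close to `0`, then `f` is a Blaschke product.
We divide `f` by Blaschke factors, finitely many at each step, so that the `n`-th quotient has no
zero on the closed disc of radius `1 - 1/(n+2)`, use the mean value property of `log |g|` there and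
an inequality of Schwarz-Pick type.
-/

set_option autoImplicit false

open MeasureTheory Set Filter Topology Complex Metric
open scoped ComplexConjugate

namespace Pool.Agent.H928.IB.Crit

open Pool.Agent.Helper34.Dg (bfac kfac bfac_eq kfac_ne kfac_diff mem_disc bfac_sub_one bfac_diff
  bfac_le bfac_eq_zero one_sub_bfac one_sub_le bden_ne bden_ge)
open Pool.Agent.Helper824_ind (bprod fam_hasProd fam_diff fam_le_fin fam_le Form blaschke_of_form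
  eq_of_norm_eq)

/-- holomorphic and bounded by one on the disc -/
def Sch (g : ℂ → ℂ) : Prop := DifferentiableOn ℂ g disc ∧ ∀ z ∈ disc, ‖g z‖ ≤ 1

/-- division by a Blaschke factor -/
lemma div_bfac {g : ℂ → ℂ} {a : ℂ} (hg : Sch g) (ha : a ∈ disc) (h0 : g a = 0) :
    ∃ g1, Sch g1 ∧ ∀ z ∈ disc, g z = bfac a z * g1 z := by
  have hd1 : DifferentiableOn ℂ (dslope g a) disc :=
    (Complex.differentiableOn_dslope (isOpen_ball.mem_nhds ha)).2 hg.1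
  have hd2 : DifferentiableOn ℂ (fun z => dslope g a z / kfac a z) disc :=
    hd1.div (kfac_diff ha) fun z hz => kfac_ne ha hz
  have heq : ∀ z ∈ disc, g z = bfac a z * (dslope g a z / kfac a z) := by
    intro z hz
    have h1 : (z - a) * dslope g a z = g z := by
      have := sub_smul_dslope g a z
      rw [h0, sub_zero, smul_eq_mul] at this
      exact this
    have hk := kfac_ne ha hz
    rw [bfac_eq, mul_assoc, mul_div_cancel₀ _ hk, h1]
  refine ⟨fun z => dslope g a z / kfac a z, ⟨hd2, ?_⟩, heq⟩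
  intro z hz
  have ha1 : ‖a‖ < 1 := mem_disc.1 ha
  have hz1 : ‖z‖ < 1 := mem_disc.1 hz
  set g1 : ℂ → ℂ := fun z => dslope g a z / kfac a z with hg1
  set C : ℝ := (1 - ‖a‖ ^ 2) / (1 - ‖a‖) ^ 2 with hC
  -- lower bound for the factor
  have hlow : ∀ w ∈ disc, 1 - C * (1 - ‖w‖ ^ 2) ≤ ‖bfac a w‖ ^ 2 := by
    intro w hw
    have e1 := one_sub_bfac ha hw
    have e2 : 1 - ‖a‖ ≤ ‖1 - conj a * w‖ := bden_ge hw
    have e3 : (1 - ‖a‖) ^ 2 ≤ ‖1 - conj a * w‖ ^ 2 := by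
      apply pow_le_pow_left₀ (by linarith) e2
    have e4 : 0 ≤ 1 - ‖bfac a w‖ ^ 2 := by
      have := bfac_le ha hw
      nlinarith [norm_nonneg (bfac a w)]
    have e5 : (1 - ‖bfac a w‖ ^ 2) * (1 - ‖a‖) ^ 2 ≤ (1 - ‖a‖ ^ 2) * (1 - ‖w‖ ^ 2) := by
      rw [← e1]
      exact mul_le_mul_of_nonneg_left e3 e4
    have e6 : 0 < (1 - ‖a‖) ^ 2 := by
      have : 0 < 1 - ‖a‖ := by linarith
      positivity
    have e7 : 1 - ‖bfac a w‖ ^ 2 ≤ (1 - ‖a‖ ^ 2) * (1 - ‖w‖ ^ 2) / (1 - ‖a‖) ^ 2 := by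
      rw [le_div_iff₀ e6]
      exact e5
    have e8 : (1 - ‖a‖ ^ 2) * (1 - ‖w‖ ^ 2) / (1 - ‖a‖) ^ 2 = C * (1 - ‖w‖ ^ 2) := by
      rw [hC]; ring
    linarith
  have hev : ∀ᶠ ρ : ℝ in 𝓝[<] 1, ‖g1 z‖ ^ 2 * (1 - C * (1 - ρ ^ 2)) ≤ 1 := by
    have h1 : ∀ᶠ ρ : ℝ in 𝓝[<] 1, ‖z‖ < ρ := by
      apply eventually_nhdsWithin_of_eventually_nhds
      exact eventually_gt_nhds hz1
    have h2 : ∀ᶠ ρ : ℝ in 𝓝[<] 1, 0 < 1 - C * (1 - ρ ^ 2) := by
      apply eventually_nhdsWithin_of_eventually_nhds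
      have : ContinuousAt (fun ρ : ℝ => 1 - C * (1 - ρ ^ 2)) 1 := by fun_prop
      refine this.eventually_const_lt ?_
      norm_num
    have h3 : ∀ᶠ ρ : ℝ in 𝓝[<] 1, ρ < 1 := self_mem_nhdsWithin
    filter_upwards [h1, h2, h3] with ρ hρz hm hρ1
    set m : ℝ := 1 - C * (1 - ρ ^ 2) with hmdef
    have hρ0 : 0 < ρ := lt_of_le_of_lt (norm_nonneg z) hρz
    have hcl : closure (ball (0 : ℂ) ρ) = closedBall 0 ρ := closure_ball 0 hρ0.ne'
    have hsub : closedBall (0 : ℂ) ρ ⊆ disc := closedBall_subset_ball hρ1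
    have hdc : DiffContOnCl ℂ g1 (ball 0 ρ) := by
      refine ⟨hd2.mono (ball_subset_ball hρ1.le), ?_⟩
      rw [hcl]
      exact hd2.continuousOn.mono hsub
    have hb : ∀ w ∈ frontier (ball (0 : ℂ) ρ), ‖g1 w‖ ≤ Real.sqrt (1 / m) := by
      intro w hw
      rw [frontier_ball 0 hρ0.ne', mem_sphere_zero_iff_norm] at hw
      have hwd : w ∈ disc := hsub (by rw [mem_closedBall_zero_iff, hw])
      apply Real.le_sqrt_of_sq_le
      rw [le_div_iff₀ hm]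
      have e1 := hlow w hwd
      rw [hw] at e1
      have e2 : ‖g w‖ = ‖bfac a w‖ * ‖g1 w‖ := by
        rw [heq w hwd, norm_mul]
      have e3 : ‖g w‖ ≤ 1 := hg.2 w hwd
      have e4 : ‖g1 w‖ ^ 2 * m ≤ ‖g1 w‖ ^ 2 * ‖bfac a w‖ ^ 2 :=
        mul_le_mul_of_nonneg_left e1 (by positivity)
      have e5 : ‖g1 w‖ ^ 2 * ‖bfac a w‖ ^ 2 = ‖g w‖ ^ 2 := by rw [e2]; ring
      have e6 : ‖g w‖ ^ 2 ≤ 1 := by nlinarith [norm_nonneg (g w)]
      linarith
    have h4 := Complex.norm_le_of_forall_mem_frontier_norm_le isBounded_ball hdc hb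
      (subset_closure (mem_ball_zero_iff.2 hρz))
    have h5 : ‖g1 z‖ ^ 2 ≤ 1 / m := by
      have e1 : ‖g1 z‖ ^ 2 ≤ Real.sqrt (1 / m) ^ 2 := pow_le_pow_left₀ (norm_nonneg _) h4 2
      rwa [Real.sq_sqrt (by positivity)] at e1
    rwa [le_div_iff₀ hm] at h5
  have hlim : Tendsto (fun ρ : ℝ => ‖g1 z‖ ^ 2 * (1 - C * (1 - ρ ^ 2))) (𝓝[<] 1)
      (𝓝 (‖g1 z‖ ^ 2 * (1 - C * (1 - 1 ^ 2)))) := by
    have : ContinuousAt (fun ρ : ℝ => ‖g1 z‖ ^ 2 * (1 - C * (1 - ρ ^ 2))) 1 := by fun_prop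
    exact this.tendsto.mono_left nhdsWithin_le_nhds
  have h6 := le_of_tendsto hlim hev
  have h7 : ‖g1 z‖ ^ 2 ≤ 1 := by nlinarith
  show ‖g1 z‖ ≤ 1
  nlinarith [norm_nonneg (g1 z)]

/-- finitely many divisions remove all zeros from a smaller closed disc -/
lemma factor {g : ℂ → ℂ} (hg : Sch g) {z1 : ℂ} (hz1 : z1 ∈ disc) (hne : g z1 ≠ 0) {r : ℝ}
    (hr : r < 1) :
    ∃ (n : ℕ) (a : Fin n → ℂ) (g1 : ℂ → ℂ), (∀ i, a i ∈ disc) ∧ Sch g1 ∧
      (∀ z ∈ disc, g z = (∏ i, bfac (a i) z) * g1 z) ∧ ∀ z, ‖z‖ ≤ r → g1 z ≠ 0 := by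
  by_contra hcon
  push Not at hcon
  have hP : ∀ n : ℕ, ∃ (a : Fin n → ℂ) (g1 : ℂ → ℂ), (∀ i, ‖a i‖ ≤ r) ∧ Sch g1 ∧
      (∀ z ∈ disc, g z = (∏ i, bfac (a i) z) * g1 z) := by
    intro n
    induction n with
    | zero => exact ⟨fun i => i.elim0, g, fun i => i.elim0, hg, fun z _ => by simp⟩
    | succ n ih =>
      obtain ⟨a, g1, ha, hg1, h⟩ := ih
      obtain ⟨b, hb, hb0⟩ := hcon n a g1 (fun i => mem_disc.2 (lt_of_le_of_lt (ha i) hr)) hg1 h
      have hbd : b ∈ disc := mem_disc.2 (lt_of_le_of_lt hb hr)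
      obtain ⟨g2, hg2, h2⟩ := div_bfac hg1 hbd hb0
      refine ⟨Fin.cons b a, g2, ?_, hg2, ?_⟩
      · intro i
        refine Fin.cases ?_ (fun j => ?_) i
        · simpa using hb
        · simpa using ha j
      · intro z hz
        rw [h z hz, h2 z hz, Fin.prod_univ_succ]
        simp only [Fin.cons_zero, Fin.cons_succ]
        ring
  have hz : ‖z1‖ < 1 := mem_disc.1 hz1
  set κ : ℝ := 1 - (1 - r) * (1 - ‖z1‖) / 4 with hκ
  have hκ1 : κ < 1 := by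
    have : 0 < (1 - r) * (1 - ‖z1‖) := mul_pos (by linarith) (by linarith)
    rw [hκ]; linarith
  have hfac : ∀ a : ℂ, ‖a‖ ≤ r → ‖bfac a z1‖ ^ 2 ≤ κ := by
    intro a ha
    have h1 := one_sub_le (mem_disc.2 (lt_of_le_of_lt ha hr)) hz1
    have h2 : (1 - r) * (1 - ‖z1‖) ≤ (1 - ‖a‖) * (1 - ‖z1‖) :=
      mul_le_mul_of_nonneg_right (by linarith) (by linarith)
    rw [hκ]; linarith
  have hκ0 : 0 ≤ κ := by
    obtain ⟨a, g1, ha, -, -⟩ := hP 1
    exact le_trans (by positivity) (hfac (a 0) (ha 0))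
  have hle : ∀ n : ℕ, ‖g z1‖ ^ 2 ≤ κ ^ n := by
    intro n
    obtain ⟨a, g1, ha, hg1, h⟩ := hP n
    have h1 : ‖g1 z1‖ ^ 2 ≤ 1 := by nlinarith [hg1.2 z1 hz1, norm_nonneg (g1 z1)]
    rw [h z1 hz1, norm_mul, mul_pow, norm_prod, ← Finset.prod_pow]
    have h2 : ∏ i, ‖bfac (a i) z1‖ ^ 2 ≤ κ ^ n := by
      calc ∏ i, ‖bfac (a i) z1‖ ^ 2 ≤ ∏ _i : Fin n, κ :=
            Finset.prod_le_prod (fun i _ => by positivity) fun i _ => hfac _ (ha i)
        _ = κ ^ n := by simp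
    calc (∏ i, ‖bfac (a i) z1‖ ^ 2) * ‖g1 z1‖ ^ 2 ≤ κ ^ n * 1 :=
          mul_le_mul h2 h1 (by positivity) (by positivity)
      _ = κ ^ n := mul_one _
  have hlim := tendsto_pow_atTop_nhds_zero_of_lt_one hκ0 hκ1
  have h3 := ge_of_tendsto' hlim hle
  have h4 : 0 < ‖g z1‖ := norm_pos_iff.2 hne
  nlinarith

/-- a bound of Schwarz-Pick type -/
lemma sp {g : ℂ → ℂ} (hg : Sch g) {z : ℂ} (hz : z ∈ disc) {δ : ℝ} (hδ : 0 < δ) :
    1 - ‖g z‖ ≤ (1 + δ - ‖g 0‖ ^ 2) * (2 / (1 - ‖z‖)) := by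
  have h0 : (0 : ℂ) ∈ disc := by simp [disc]
  have hc1 : ‖g 0‖ ≤ 1 := hg.2 0 h0
  have hz1 : ‖z‖ < 1 := mem_disc.1 hz
  set c : ℂ := g 0 with hc
  set t : ℝ := 1 + δ - ‖c‖ ^ 2 with ht
  have ht0 : 0 < t := by
    have : ‖c‖ ^ 2 ≤ 1 := by nlinarith [norm_nonneg c]
    rw [ht]; linarith
  set h : ℂ → ℂ := fun w => 1 + (δ : ℂ) - conj c * g w with hh
  have hre : ∀ w ∈ disc, 0 < (h w).re := by
    intro w hw
    have e1 : (conj c * g w).re ≤ 1 := by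
      refine (Complex.re_le_norm _).trans ?_
      rw [norm_mul, RCLike.norm_conj]
      exact mul_le_one₀ hc1 (norm_nonneg _) (hg.2 w hw)
    simp only [hh, Complex.sub_re, Complex.add_re, Complex.one_re, Complex.ofReal_re]
    linarith
  have hh0 : h 0 = (t : ℂ) := by
    have e1 : conj c * c = ((‖c‖ ^ 2 : ℝ) : ℂ) := by
      rw [mul_comm, Complex.mul_conj, Complex.normSq_eq_norm_sq]
    simp only [hh, ← hc, e1, ht]
    push_cast
    ring
  have hne : ∀ w ∈ disc, h w + t ≠ 0 := by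
    intro w hw e
    have := congrArg Complex.re e
    simp only [Complex.add_re, Complex.ofReal_re, Complex.zero_re] at this
    linarith [hre w hw]
  have hdh : DifferentiableOn ℂ h disc := by
    simp only [hh]
    exact (differentiableOn_const _).sub (hg.1.const_mul _)
  have hsch : Sch (fun w => (h w - t) / (h w + t)) := by
    refine ⟨(hdh.sub_const _).div (hdh.add_const _) hne, ?_⟩
    intro w hw
    rw [norm_div, div_le_one (norm_pos_iff.2 (hne w hw))]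
    have e1 := hre w hw
    have e2 : ‖h w - t‖ ^ 2 ≤ ‖h w + t‖ ^ 2 := by
      rw [← Complex.normSq_eq_norm_sq, ← Complex.normSq_eq_norm_sq]
      simp only [Complex.normSq_apply, Complex.sub_re, Complex.sub_im, Complex.add_re,
        Complex.add_im, Complex.ofReal_re, Complex.ofReal_im]
      nlinarith [mul_pos ht0 e1]
    exact (sq_le_sq₀ (norm_nonneg _) (norm_nonneg _)).1 e2
  obtain ⟨w1, hw1, hw⟩ := div_bfac hsch h0 (by simp [hh0])
  have h1 := hw z hz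
  have h2 : bfac 0 z = z := by simp [bfac]
  rw [h2] at h1
  have h3 : ‖(h z - t) / (h z + t)‖ ≤ ‖z‖ := by
    rw [h1, norm_mul]
    have := hw1.2 z hz
    nlinarith [norm_nonneg z]
  rw [norm_div, div_le_iff₀ (norm_pos_iff.2 (hne z hz))] at h3
  have h4 : ‖h z‖ - t ≤ ‖h z - t‖ := by
    have := norm_sub_norm_le (h z) (t : ℂ)
    rw [Complex.norm_real, Real.norm_of_nonneg ht0.le] at this
    exact this
  have h5 : ‖h z + t‖ ≤ ‖h z‖ + t := by
    have := norm_add_le (h z) (t : ℂ)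
    rw [Complex.norm_real, Real.norm_of_nonneg ht0.le] at this
    exact this
  have h6 : ‖h z‖ * (1 - ‖z‖) ≤ t * 2 := by
    have : ‖z‖ * ‖h z + t‖ ≤ ‖z‖ * (‖h z‖ + t) := mul_le_mul_of_nonneg_left h5 (norm_nonneg _)
    nlinarith [norm_nonneg z]
  have h7 : ‖h z‖ ≤ t * (2 / (1 - ‖z‖)) := by
    rw [mul_div_assoc', le_div_iff₀ (by linarith)]
    exact h6
  have h8 : ‖(1 + (δ : ℂ))‖ = 1 + δ := by
    have : (1 + (δ : ℂ)) = ((1 + δ : ℝ) : ℂ) := by push_cast; ring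
    rw [this, Complex.norm_real, Real.norm_of_nonneg (by linarith)]
  have h9 : 1 + δ - ‖conj c * g z‖ ≤ ‖h z‖ := by
    have := norm_sub_norm_le (1 + (δ : ℂ)) (conj c * g z)
    rw [h8] at this
    exact this
  have h10 : ‖conj c * g z‖ ≤ ‖g z‖ := by
    rw [norm_mul, RCLike.norm_conj]
    exact mul_le_of_le_one_left (norm_nonneg _) hc1
  linarith

/-- the sequence of quotients -/
lemma seq {f : ℂ → ℂ} (hf : Sch f) {z1 : ℂ} (hz1 : z1 ∈ disc) (hne : f z1 ≠ 0) :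
    ∃ (G : ℕ → ℂ → ℂ) (k : ℕ → ℕ) (A : ∀ n, Fin (k n) → ℂ), G 0 = f ∧ ∀ n, Sch (G n) ∧
      (∀ i, A n i ∈ disc) ∧ (∀ z ∈ disc, G n z = (∏ i, bfac (A n i) z) * G (n + 1) z) ∧
      ∀ z, ‖z‖ ≤ 1 - 1 / (n + 2 : ℝ) → G (n + 1) z ≠ 0 := by
  have key : ∀ (n : ℕ) (g : {g : ℂ → ℂ // Sch g ∧ g z1 ≠ 0}),
      ∃ (m : ℕ) (a : Fin m → ℂ) (g1 : {g : ℂ → ℂ // Sch g ∧ g z1 ≠ 0}), (∀ i, a i ∈ disc) ∧
      (∀ z ∈ disc, g.1 z = (∏ i, bfac (a i) z) * g1.1 z) ∧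
      ∀ z, ‖z‖ ≤ 1 - 1 / (n + 2 : ℝ) → g1.1 z ≠ 0 := by
    rintro n ⟨g, hg, hg0⟩
    have hr : 1 - 1 / (n + 2 : ℝ) < 1 := by
      have : 0 < 1 / (n + 2 : ℝ) := by positivity
      linarith
    obtain ⟨m, a, g1, ha, hg1, h1, h2⟩ := factor hg hz1 hg0 hr
    refine ⟨m, a, ⟨g1, hg1, fun h => hg0 ?_⟩, ha, h1, h2⟩
    rw [h1 z1 hz1, h, mul_zero]
  choose m a g1 ha h1 h2 using key
  let G : ℕ → {g : ℂ → ℂ // Sch g ∧ g z1 ≠ 0} := fun n => Nat.rec ⟨f, hf, hne⟩ (fun n g => g1 n g) n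
  refine ⟨fun n => (G n).1, fun n => m n (G n), fun n => a n (G n), rfl, fun n => ⟨(G n).2.1,
    ha n (G n), h1 n (G n), h2 n (G n)⟩⟩

section main

variable {f : ℂ → ℂ} {G : ℕ → ℂ → ℂ} {k : ℕ → ℕ} {A : ∀ n, Fin (k n) → ℂ}

/-- the family of all zeros -/
def fam (A : ∀ n, Fin (k n) → ℂ) (p : Σ n, Fin (k n)) : ℂ := A p.1 p.2

lemma prod_fin (hG0 : G 0 = f)
    (hG : ∀ n, ∀ z ∈ disc, G n z = (∏ i, bfac (A n i) z) * G (n + 1) z) (N : ℕ) :
    ∀ z ∈ disc, f z = (∏ p ∈ (Finset.range N).sigma fun n => (Finset.univ : Finset (Fin (k n))),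
      bfac (fam A p) z) * G N z := by
  intro z hz
  induction N with
  | zero => rw [Finset.prod_sigma]; simp [hG0]
  | succ N ih =>
    rw [ih, hG N z hz, Finset.prod_sigma, Finset.prod_sigma, Finset.prod_range_succ]
    simp only [fam]
    ring

lemma le_prod (hG0 : G 0 = f) (hS : ∀ n, Sch (G n)) (hA : ∀ n i, A n i ∈ disc)
    (hG : ∀ n, ∀ z ∈ disc, G n z = (∏ i, bfac (A n i) z) * G (n + 1) z)
    (s : Finset (Σ n, Fin (k n))) {z : ℂ} (hz : z ∈ disc) :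
    ‖f z‖ ≤ ∏ p ∈ s, ‖bfac (fam A p) z‖ := by
  classical
  obtain ⟨N, hN⟩ : ∃ N : ℕ, ∀ p ∈ s, p.1 < N := by
    refine ⟨s.sup (fun p => p.1 + 1), fun p hp => ?_⟩
    have := Finset.le_sup (f := fun p : (Σ n, Fin (k n)) => p.1 + 1) hp
    omega
  have hsub : s ⊆ (Finset.range N).sigma fun n => (Finset.univ : Finset (Fin (k n))) := by
    intro p hp
    simp [hN p hp]
  rw [prod_fin hG0 hG N z hz, norm_mul, norm_prod, ← Finset.prod_sdiff hsub]
  have hle : ∀ p : Σ n, Fin (k n), ‖bfac (fam A p) z‖ ≤ 1 := fun p => bfac_le (hA p.1 p.2) hz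
  have h1 : ∏ p ∈ ((Finset.range N).sigma fun n => (Finset.univ : Finset (Fin (k n)))) \ s,
      ‖bfac (fam A p) z‖ ≤ 1 := Finset.prod_le_one (fun _ _ => norm_nonneg _) fun p _ => hle p
  have h2 : 0 ≤ ∏ p ∈ s, ‖bfac (fam A p) z‖ := Finset.prod_nonneg fun _ _ => norm_nonneg _
  calc _ ≤ (1 * ∏ p ∈ s, ‖bfac (fam A p) z‖) * 1 :=
        mul_le_mul (mul_le_mul_of_nonneg_right h1 h2) ((hS N).2 z hz) (norm_nonneg _)
          (by rw [one_mul]; exact h2)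
    _ = _ := by ring

lemma fam_summable' (hG0 : G 0 = f) (hS : ∀ n, Sch (G n)) (hA : ∀ n i, A n i ∈ disc)
    (hG : ∀ n, ∀ z ∈ disc, G n z = (∏ i, bfac (A n i) z) * G (n + 1) z)
    {z1 : ℂ} (hz1 : z1 ∈ disc) (hne : f z1 ≠ 0) :
    Summable fun p : Σ n, Fin (k n) => 1 - ‖fam A p‖ := by
  have hz : ‖z1‖ < 1 := mem_disc.1 hz1
  have hpos0 : 0 < ‖f z1‖ := norm_pos_iff.2 hne
  refine summable_of_sum_le (c := 8 / (1 - ‖z1‖) * (-Real.log ‖f z1‖)) ?_ ?_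
  · intro p
    have := mem_disc.1 (hA p.1 p.2)
    show 0 ≤ 1 - ‖A p.1 p.2‖
    linarith
  intro s
  have h1 : ‖f z1‖ ≤ ∏ i ∈ s, ‖bfac (fam A i) z1‖ := le_prod hG0 hS hA hG s hz1
  have hpos : 0 < ∏ i ∈ s, ‖bfac (fam A i) z1‖ := lt_of_lt_of_le hpos0 h1
  have hne' : ∀ i ∈ s, ‖bfac (fam A i) z1‖ ≠ 0 := by
    intro i hi h
    rw [Finset.prod_eq_zero hi h] at hpos
    exact lt_irrefl _ hpos
  have h2 : ∑ i ∈ s, (1 - ‖bfac (fam A i) z1‖) ≤ - Real.log (∏ i ∈ s, ‖bfac (fam A i) z1‖) := by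
    rw [Real.log_prod (hf := hne'), ← Finset.sum_neg_distrib]
    refine Finset.sum_le_sum fun i hi => ?_
    have := Real.log_le_sub_one_of_pos (lt_of_le_of_ne (norm_nonneg _) (hne' i hi).symm)
    linarith
  have h3 : - Real.log (∏ i ∈ s, ‖bfac (fam A i) z1‖) ≤ - Real.log ‖f z1‖ :=
    neg_le_neg (Real.log_le_log hpos0 h1)
  have h8 : ∑ i ∈ s, (1 - ‖fam A i‖) ≤ 8 / (1 - ‖z1‖) * ∑ i ∈ s, (1 - ‖bfac (fam A i) z1‖) := by
    rw [Finset.mul_sum]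
    refine Finset.sum_le_sum fun i _ => ?_
    have hi : fam A i ∈ disc := hA i.1 i.2
    have h9 := one_sub_le hi hz1
    have h10 := bfac_le hi hz1
    have h11 := norm_nonneg (bfac (fam A i) z1)
    rw [div_mul_eq_mul_div, le_div_iff₀ (by linarith)]
    nlinarith
  have h12 : 0 ≤ 8 / (1 - ‖z1‖) := div_nonneg (by norm_num) (by linarith)
  calc ∑ i ∈ s, (1 - ‖fam A i‖) ≤ 8 / (1 - ‖z1‖) * ∑ i ∈ s, (1 - ‖bfac (fam A i) z1‖) := h8
    _ ≤ 8 / (1 - ‖z1‖) * (-Real.log ‖f z1‖) := mul_le_mul_of_nonneg_left (by linarith) h12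

end main

lemma cm_eq (r θ : ℝ) : (r : ℂ) * cm θ = circleMap 0 r θ := by
  simp [cm, circleMap]

/-- lower bound for a zero-free quotient at the origin -/
lemma mean {f g : ℂ → ℂ} {r : ℝ} (hr0 : 0 < r) (hr : r < 1) (hf : Sch f) (hg : Sch g)
    (hg0 : ∀ z, ‖z‖ ≤ r → g z ≠ 0) (hfg : ∀ z ∈ disc, ‖f z‖ ≤ ‖g z‖)
    (hfin : {z : ℂ | z ∈ disc ∧ ‖z‖ ≤ r ∧ f z = 0}.Countable) :
    ∫ θ in (0:ℝ)..(2 * Real.pi), Real.log ‖f (r * cm θ)‖ ≤ 2 * Real.pi * Real.log ‖g 0‖ := by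
  have hsub : closedBall (0 : ℂ) r ⊆ disc := closedBall_subset_ball hr
  have hfa : AnalyticOnNhd ℂ f disc := hf.1.analyticOnNhd isOpen_ball
  have hga : AnalyticOnNhd ℂ g disc := hg.1.analyticOnNhd isOpen_ball
  have habs : |r| = r := abs_of_pos hr0
  have h1 : Real.circleAverage (fun z => Real.log ‖g z‖) 0 r = Real.log ‖g 0‖ := by
    apply AnalyticOnNhd.circleAverage_log_norm_of_ne_zero
    · rw [habs]
      exact hga.mono hsub
    · rw [habs]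
      intro u hu
      exact hg0 u (mem_closedBall_zero_iff.1 hu)
  have hpi : (0 : ℝ) < 2 * Real.pi := by positivity
  have h2 : ∫ θ in (0:ℝ)..(2 * Real.pi), Real.log ‖g (r * cm θ)‖ =
      2 * Real.pi * Real.log ‖g 0‖ := by
    rw [← h1, Real.circleAverage_def, smul_eq_mul, ← mul_assoc, mul_inv_cancel₀ hpi.ne', one_mul]
    simp only [cm_eq]
  rw [← h2]
  have hsph : sphere (0 : ℂ) |r| ⊆ disc := by
    rw [habs]
    exact sphere_subset_closedBall.trans hsub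
  have hif : CircleIntegrable (fun z => Real.log ‖f z‖) 0 r :=
    MeromorphicOn.circleIntegrable_log_norm (hfa.mono hsph).meromorphicOn
  have hig : CircleIntegrable (fun z => Real.log ‖g z‖) 0 r :=
    MeromorphicOn.circleIntegrable_log_norm (hga.mono hsph).meromorphicOn
  have hif' : IntervalIntegrable (fun θ : ℝ => Real.log ‖f (r * cm θ)‖) volume 0 (2 * Real.pi) := by
    simp only [cm_eq]
    exact hif
  have hig' : IntervalIntegrable (fun θ : ℝ => Real.log ‖g (r * cm θ)‖) volume 0 (2 * Real.pi) := by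
    simp only [cm_eq]
    exact hig
  refine intervalIntegral.integral_mono_ae hpi.le hif' hig' ?_
  have hnull : volume (circleMap 0 r ⁻¹' {z : ℂ | z ∈ disc ∧ ‖z‖ ≤ r ∧ f z = 0}) = 0 :=
    (hfin.preimage_circleMap 0 hr0.ne').measure_zero _
  filter_upwards [measure_eq_zero_iff_ae_notMem.mp hnull] with θ hθ
  have hn : ‖circleMap 0 r θ‖ = r := by
    rw [norm_circleMap_zero, habs]
  have hmem : circleMap 0 r θ ∈ disc := mem_disc.2 (by rw [hn]; exact hr)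
  have hfne : f (circleMap 0 r θ) ≠ 0 := fun h => hθ ⟨hmem, hn.le, h⟩
  rw [cm_eq]
  exact Real.log_le_log (norm_pos_iff.2 hfne) (hfg _ hmem)

/-- all quotients together -/
lemma core {f : ℂ → ℂ} (hf : Sch f) {z1 : ℂ} (hz1 : z1 ∈ disc) (hne : f z1 ≠ 0)
    (hlog : ∀ ε > (0 : ℝ), ∃ r : ℝ, 0 < r ∧ r < 1 ∧
      -ε ≤ ∫ θ in (0:ℝ)..(2 * Real.pi), Real.log ‖f (r * cm θ)‖) : Form f := by
  obtain ⟨G, k, A, hG0, hall⟩ := seq hf hz1 hne
  have hS : ∀ n, Sch (G n) := fun n => (hall n).1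
  have hA : ∀ n i, A n i ∈ disc := fun n => (hall n).2.1
  have hG : ∀ n, ∀ z ∈ disc, G n z = (∏ i, bfac (A n i) z) * G (n + 1) z :=
    fun n => (hall n).2.2.1
  have hz : ∀ (n : ℕ) (z : ℂ), ‖z‖ ≤ 1 - 1 / (n + 2 : ℝ) → G (n + 1) z ≠ 0 :=
    fun n => (hall n).2.2.2
  have hmem : ∀ p, fam A p ∈ disc := fun p => hA p.1 p.2
  have hsum := fam_summable' hG0 hS hA hG hz1 hne
  have hfB : ∀ z ∈ disc, ‖f z‖ ≤ ‖bprod (fam A) z‖ := by
    intro z hzd
    refine ge_of_tendsto' (fam_hasProd hmem hsum hzd).norm fun s => ?_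
    exact le_prod hG0 hS hA hG s hzd
  have hBf : ∀ z ∈ disc, ‖bprod (fam A) z‖ ≤ ‖f z‖ := by
    intro z hzd
    have hzl : ‖z‖ < 1 := mem_disc.1 hzd
    have hB1 : ‖bprod (fam A) z‖ ≤ 1 := fam_le hmem hsum hzd
    have hstep : ∀ ε : ℝ, 0 < ε → ε ≤ 1 →
        ‖bprod (fam A) z‖ ≤ ‖f z‖ + 3 * ε * (2 / (1 - ‖z‖)) := by
      intro ε hε hε1
      obtain ⟨r, hr0, hr1, hr⟩ := hlog ε hε
      obtain ⟨n, hn⟩ : ∃ n : ℕ, r ≤ 1 - 1 / (n + 2 : ℝ) := by
        obtain ⟨n, hn⟩ := exists_nat_one_div_lt (show (0 : ℝ) < 1 - r by linarith)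
        refine ⟨n, ?_⟩
        have : 1 / (n + 2 : ℝ) ≤ 1 / (n + 1 : ℝ) := by
          apply one_div_le_one_div_of_le
          · positivity
          · linarith
        linarith
      have hg0 : ∀ w, ‖w‖ ≤ r → G (n + 1) w ≠ 0 := fun w hw => hz n w (hw.trans hn)
      have hfg : ∀ w ∈ disc, ‖f w‖ ≤ ‖G (n + 1) w‖ := by
        intro w hw
        rw [prod_fin hG0 hG (n + 1) w hw, norm_mul, norm_prod]
        refine mul_le_of_le_one_left (norm_nonneg _) ?_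
        exact Finset.prod_le_one (fun _ _ => norm_nonneg _) fun p _ => bfac_le (hmem p) hw
      have hfin : {w : ℂ | w ∈ disc ∧ ‖w‖ ≤ r ∧ f w = 0}.Countable := by
        refine Set.Finite.countable ?_
        refine (((Finset.range (n + 1)).sigma fun n =>
          (Finset.univ : Finset (Fin (k n)))).image (fam A)).finite_toSet.subset ?_
        rintro w ⟨hw, hwr, hw0⟩
        rw [prod_fin hG0 hG (n + 1) w hw] at hw0
        rcases mul_eq_zero.1 hw0 with h | h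
        · obtain ⟨p, hp, hp0⟩ := Finset.prod_eq_zero_iff.1 h
          rw [bfac_eq_zero (hmem p) hw] at hp0
          rw [Finset.mem_coe, Finset.mem_image]
          exact ⟨p, hp, hp0.symm⟩
        · exact absurd h (hg0 w hwr)
      have h1 := mean hr0 hr1 hf (hS (n + 1)) hg0 hfg hfin
      have h00 : (0 : ℂ) ∈ disc := by simp [disc]
      have hGpos : 0 < ‖G (n + 1) 0‖ := norm_pos_iff.2 (hg0 0 (by rw [norm_zero]; exact hr0.le))
      have hGle : ‖G (n + 1) 0‖ ≤ 1 := (hS (n + 1)).2 0 h00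
      have h2 : Real.log ‖G (n + 1) 0‖ ≤ ‖G (n + 1) 0‖ - 1 := Real.log_le_sub_one_of_pos hGpos
      have h3 : 1 - ε ≤ ‖G (n + 1) 0‖ := by
        have hpi := Real.pi_gt_three
        have h4 : -ε ≤ 2 * Real.pi * (‖G (n + 1) 0‖ - 1) := by
          refine (hr.trans h1).trans ?_
          exact mul_le_mul_of_nonneg_left h2 (by positivity)
        by_contra hc
        push Not at hc
        nlinarith
      have h5 : 1 - 2 * ε ≤ ‖G (n + 1) 0‖ ^ 2 := by nlinarith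
      have h6 := sp (hS (n + 1)) hzd hε
      have h7 : 0 ≤ 2 / (1 - ‖z‖) := div_nonneg (by norm_num) (by linarith)
      have h8 : (1 + ε - ‖G (n + 1) 0‖ ^ 2) * (2 / (1 - ‖z‖)) ≤ 3 * ε * (2 / (1 - ‖z‖)) :=
        mul_le_mul_of_nonneg_right (by linarith) h7
      have h9 : ‖bprod (fam A) z‖ * ‖G (n + 1) z‖ ≤ ‖f z‖ := by
        rw [prod_fin hG0 hG (n + 1) z hzd, norm_mul, norm_prod]
        exact mul_le_mul_of_nonneg_right (fam_le_fin hmem hsum _ hzd) (norm_nonneg _)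
      have h10 : ‖bprod (fam A) z‖ * (1 - ‖G (n + 1) z‖) ≤ 1 - ‖G (n + 1) z‖ := by
        have := (hS (n + 1)).2 z hzd
        exact mul_le_of_le_one_left (by linarith) hB1
      linarith
    have hlim : Tendsto (fun ε : ℝ => ‖f z‖ + 3 * ε * (2 / (1 - ‖z‖))) (𝓝[>] 0)
        (𝓝 (‖f z‖ + 3 * 0 * (2 / (1 - ‖z‖)))) := by
      have : ContinuousAt (fun ε : ℝ => ‖f z‖ + 3 * ε * (2 / (1 - ‖z‖))) 0 := by fun_prop
      exact this.tendsto.mono_left nhdsWithin_le_nhds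
    have hev : ∀ᶠ ε : ℝ in 𝓝[>] 0, ‖bprod (fam A) z‖ ≤ ‖f z‖ + 3 * ε * (2 / (1 - ‖z‖)) := by
      have h1 : ∀ᶠ ε : ℝ in 𝓝[>] 0, ε < 1 :=
        eventually_nhdsWithin_of_eventually_nhds (eventually_lt_nhds one_pos)
      filter_upwards [self_mem_nhdsWithin, h1] with ε h0 h1
      exact hstep ε h0 h1.le
    have := ge_of_tendsto hlim hev
    linarith
  have hz1B : bprod (fam A) z1 ≠ 0 := by
    have := lt_of_lt_of_le (norm_pos_iff.2 hne) (hfB z1 hz1)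
    exact norm_pos_iff.1 this
  obtain ⟨c, hc, h⟩ := eq_of_norm_eq hf.1 (fam_diff hmem hsum)
    (fun z hz => le_antisymm (hfB z hz) (hBf z hz)) ⟨z1, hz1, hz1B⟩
  exact ⟨c, _, fam A, hc, hmem, hsum, h⟩

end Pool.Agent.H928.IB.Crit

namespace Pool.Agent.H928.IB

theorem crit : S_CRIT := by
  intro f hd hlt hnc hlog
  have hf : Crit.Sch f := ⟨hd, fun z hz => (hlt z hz).le⟩
  obtain ⟨z1, hz1, hne⟩ : ∃ z ∈ disc, f z ≠ 0 := by
    obtain ⟨z, hz, w, hw, hzw⟩ := hnc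
    by_contra hc
    push Not at hc
    exact hzw ((hc z hz).trans (hc w hw).symm)
  exact Pool.Agent.Helper824_ind.blaschke_of_form (Crit.core hf hz1 hne hlog) hnc

end Pool.Agent.H928.IB
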