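import Pool.Agent.H928.IB.Stm

/-!
# P9: crude bound on the whole circle
-/

set_option autoImplicit false

open MeasureTheory Set Filter Topology Complex Metric
open scoped ComplexConjugate

namespace Pool.Agent.H928.IB

namespace Cru

theorem norm_cm (θ : ℝ) : ‖cm θ‖ = 1 := by
  rw [cm, Complex.norm_exp_ofReal_mul_I]

theorem hasDerivAt_cm (θ : ℝ) : HasDerivAt cm (I * cm θ) θ := by
  have h : HasDerivAt (fun x : ℝ => (x : ℂ) * I) (1 * I) θ :=
    (Complex.ofRealCLM.hasDerivAt (x := θ)).mul_const I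
  have h2 := h.cexp
  refine h2.congr_deriv ?_
  rw [cm]; ring

theorem HB.mono {γ : ℝ → ℂ} {x y B B' : ℝ} (h : HB γ x y B) (hB : B ≤ B') : HB γ x y B' :=
  fun a => ⟨(h a).1, (h a).2.1, (h a).2.2.trans hB⟩

theorem HB.shift {γ : ℝ → ℂ} {B : ℝ} (h : HB (fun t => γ (t - 1)) 1 (1 + 2 * Real.pi) B) :
    HB γ 0 (2 * Real.pi) B := by
  intro a
  obtain ⟨h1, h2, h3⟩ := h a
  refine ⟨?_, ?_, ?_⟩
  · have e : {θ : ℝ | θ ∈ Icc 0 (2 * Real.pi) ∧ γ θ = a} =
        (fun θ : ℝ => θ + 1) ⁻¹' {θ : ℝ | θ ∈ Icc 1 (1 + 2 * Real.pi) ∧ γ (θ - 1) = a} := by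
      ext θ
      simp only [mem_ofPred_eq, mem_preimage, mem_Icc, add_sub_cancel_right]
      constructor
      · rintro ⟨⟨a1, a2⟩, a3⟩
        exact ⟨⟨by linarith, by linarith⟩, a3⟩
      · rintro ⟨⟨a1, a2⟩, a3⟩
        exact ⟨⟨by linarith, by linarith⟩, a3⟩
    rw [e, measure_preimage_add_right]
    exact h1
  · have := h2.comp_add_right 1
    simpa using this
  · have := intervalIntegral.integral_comp_add_right (a := 0) (b := 2 * Real.pi)
      (fun θ => ‖γ (θ - 1) - a‖ ^ (-(1 / 2 : ℝ))) 1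
    simp only [add_sub_cancel_right, zero_add] at this
    rw [this, add_comm (2 * Real.pi) 1]
    exact h3

theorem norm_EE {N : ℝ} (hN : 1 ≤ N) {s : ℂ} (hs : ‖s‖ ≤ 1) :
    ‖EE N s‖ ≤ Real.exp (3 * N / 2) := by
  rw [EE, Complex.norm_exp]
  refine Real.exp_le_exp.2 ((Complex.re_le_norm _).trans ?_)
  rw [norm_mul, norm_neg, Complex.norm_real, Real.norm_eq_abs, abs_of_pos (by linarith)]
  have h : ‖s - s ^ 2 / 2‖ ≤ 3 / 2 := by
    calc ‖s - s ^ 2 / 2‖ ≤ ‖s‖ + ‖s ^ 2 / 2‖ := norm_sub_le _ _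
      _ = ‖s‖ + ‖s‖ ^ 2 / 2 := by rw [norm_div, norm_pow]; norm_num
      _ ≤ 3 / 2 := by nlinarith [norm_nonneg s]
  nlinarith

theorem hasDerivAt_EE (N : ℝ) (s : ℂ) : HasDerivAt (EE N) (EE N s * (-N * (1 - s))) s := by
  have h : HasDerivAt (fun s : ℂ => -(N : ℂ) * (s - s ^ 2 / 2)) (-N * (1 - s)) s := by
    have h2 := (((hasDerivAt_id s).sub (((hasDerivAt_id s).pow 2).div_const 2)).const_mul (-(N : ℂ)))
    refine h2.congr_deriv ?_
    simp only [id]
    ring
  exact h.cexp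

end Cru

open Cru

theorem cru (h : S_LI) (h2 : S_U) : S_CRU := by
  intro R p F α N hG hA
  obtain ⟨hR, hp, -, -⟩ := hG
  obtain ⟨hα, -, hN, -⟩ := hA
  -- the constant M
  have hsub : sphere (0 : ℂ) 1 ⊆ ball (0 : ℂ) R := by
    intro z hz
    rw [mem_sphere_zero_iff_norm] at hz
    rw [mem_ball_zero_iff, hz]; exact hR
  have cp : ContinuousOn p (sphere (0 : ℂ) 1) := hp.continuousOn.mono hsub
  have cdp : ContinuousOn (deriv p) (sphere (0 : ℂ) 1) :=
    ((hp.deriv isOpen_ball).continuousOn).mono hsub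
  have cα : ContinuousOn α (sphere (0 : ℂ) 1) := hα.continuous.continuousOn
  have cdα : ContinuousOn (deriv α) (sphere (0 : ℂ) 1) :=
    ((hα.differentiableOn (s := univ)).deriv isOpen_univ).continuousOn.mono (subset_univ _)
  obtain ⟨M1, hM1⟩ := (isCompact_sphere (0 : ℂ) 1).exists_bound_of_continuousOn cp
  obtain ⟨M2, hM2⟩ := (isCompact_sphere (0 : ℂ) 1).exists_bound_of_continuousOn cdp
  obtain ⟨M3, hM3⟩ := (isCompact_sphere (0 : ℂ) 1).exists_bound_of_continuousOn (cα.sub cp)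
  obtain ⟨M4, hM4⟩ := (isCompact_sphere (0 : ℂ) 1).exists_bound_of_continuousOn (cdα.sub cdp)
  set M : ℝ := |M1| + |M2| + |M3| + |M4| with hM
  have b1 := le_abs_self M1
  have b2 := le_abs_self M2
  have b3 := le_abs_self M3
  have b4 := le_abs_self M4
  have c1 := abs_nonneg M1
  have c2 := abs_nonneg M2
  have c3 := abs_nonneg M3
  have c4 := abs_nonneg M4
  have hM0 : 0 ≤ M := by positivity
  have mp : ∀ z : ℂ, ‖z‖ = 1 → ‖p z‖ ≤ M := fun z hz => by
    have := hM1 z (mem_sphere_zero_iff_norm.2 hz); linarith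
  have mdp : ∀ z : ℂ, ‖z‖ = 1 → ‖deriv p z‖ ≤ M := fun z hz => by
    have := hM2 z (mem_sphere_zero_iff_norm.2 hz); linarith
  have mb : ∀ z : ℂ, ‖z‖ = 1 → ‖α z - p z‖ ≤ M := fun z hz => by
    have : ‖α z - p z‖ ≤ M3 := hM3 z (mem_sphere_zero_iff_norm.2 hz)
    linarith
  have mdb : ∀ z : ℂ, ‖z‖ = 1 → ‖deriv α z - deriv p z‖ ≤ M := fun z hz => by
    have : ‖deriv α z - deriv p z‖ ≤ M4 := hM4 z (mem_sphere_zero_iff_norm.2 hz)
    linarith
  set K : ℝ := Real.exp (3 * N / 2) with hK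
  have hK0 : 0 < K := Real.exp_pos _
  set C : ℝ := 1 + M + M * (1 + K) + 4 * M * K * N with hC
  have hC1 : 1 ≤ C := by
    have h5 : 0 ≤ M * (1 + K) := by positivity
    have h6 : 0 ≤ 4 * M * K * N := by positivity
    linarith
  refine ⟨2 + M + M * (1 + K) + 2 * C + 4, ?_⟩
  intro L hL R' G hR'R hP
  obtain ⟨hR', hPd, hs, -, hGd⟩ := hP
  have h5 : 0 ≤ M * (1 + K) := by positivity
  have hL2 : 2 ≤ L := by linarith
  have hL0 : 0 < L := by linarith
  -- the number n
  set n : ℕ := nn L with hn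
  have he1 : L + 1 ≤ Real.exp L := Real.add_one_le_exp L
  have he0 : 0 < Real.exp L := Real.exp_pos L
  have hnle : (n : ℝ) ≤ Real.exp L / L + 1 := by
    have := Nat.ceil_lt_add_one (a := Real.exp L / L) (by positivity)
    exact this.le
  have hLn : L * n ≤ 2 * Real.exp L := by
    calc L * n ≤ L * (Real.exp L / L + 1) := by gcongr
      _ = Real.exp L + L := by field_simp
      _ ≤ 2 * Real.exp L := by linarith
  have hn2 : (n : ℝ) ≤ 2 * Real.exp L := by
    have : (n : ℝ) ≤ L * n := le_mul_of_one_le_left (Nat.cast_nonneg n) (by linarith)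
    linarith
  -- the number q
  have hq0 : 0 ≤ qq L := by
    unfold qq
    have : Real.exp (-2 * L) ≤ 1 := by
      rw [Real.exp_le_one_iff]; linarith
    linarith
  have hq1 : qq L ≤ 1 := by
    unfold qq
    have := Real.exp_pos (-2 * L)
    linarith
  have hqn : ‖(qq L : ℂ)‖ = qq L := by
    rw [Complex.norm_real, Real.norm_eq_abs, abs_of_nonneg hq0]
  -- derivative of pp
  set P : ℂ → ℂ := pp p α N L with hPdef
  have hder : ∀ z : ℂ, ‖z‖ = 1 → ∃ d : ℂ, HasDerivAt P d z ∧ 1 + ‖d‖ ≤ Real.exp (4 * L) := by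
    intro z hz
    have hzR : z ∈ ball (0 : ℂ) R := hsub (mem_sphere_zero_iff_norm.2 hz)
    have hzR' : z ∈ ball (0 : ℂ) R' := by rw [mem_ball_zero_iff, hz]; exact hR'
    have dp : HasDerivAt p (deriv p z) z :=
      (hp.differentiableAt (isOpen_ball.mem_nhds hzR)).hasDerivAt
    have dα : HasDerivAt α (deriv α z) z := (hα z).hasDerivAt
    have hsz := hs z hzR'
    set s : ℂ := (qq L : ℂ) * z ^ n with hsdef
    have hsn : ‖s‖ = qq L := by
      rw [hsdef, norm_mul, norm_pow, hz, one_pow, mul_one, hqn]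
    obtain ⟨du, -⟩ := h2.2 s hsz
    have dpow : HasDerivAt (fun w : ℂ => w ^ n) ((n : ℂ) * z ^ (n - 1)) z := hasDerivAt_pow n z
    have ds : HasDerivAt (fun w : ℂ => (qq L : ℂ) * w ^ n) ((qq L : ℂ) * ((n : ℂ) * z ^ (n - 1))) z :=
      dpow.const_mul _
    have d1 : HasDerivAt (fun w : ℂ => uu ((qq L : ℂ) * w ^ n))
        (((4 / Real.pi : ℝ) : ℂ) / (1 + s ^ 2) * ((qq L : ℂ) * ((n : ℂ) * z ^ (n - 1)))) z :=
      HasDerivAt.comp (h₂ := uu) (h := fun w : ℂ => (qq L : ℂ) * w ^ n) z du ds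
    have d2 : HasDerivAt (fun w : ℂ => EE N (w ^ n))
        (EE N (z ^ n) * (-N * (1 - z ^ n)) * ((n : ℂ) * z ^ (n - 1))) z :=
      HasDerivAt.comp (h₂ := EE N) (h := fun w : ℂ => w ^ n) z (hasDerivAt_EE N (z ^ n)) dpow
    have d3 := dp.add ((d1.const_mul (L : ℂ)).add ((dα.sub dp).mul (d2.const_sub 1)))
    refine ⟨_, d3, ?_⟩
    -- the bounds
    have n1 : ‖z ^ (n - 1)‖ = 1 := by rw [norm_pow, hz, one_pow]
    have n2 : ‖z ^ n‖ = 1 := by rw [norm_pow, hz, one_pow]
    have n3 : ‖((4 / Real.pi : ℝ) : ℂ) / (1 + s ^ 2)‖ ≤ 2 * Real.exp (2 * L) := by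
      rw [norm_div, Complex.norm_real, Real.norm_eq_abs, abs_of_pos (by positivity)]
      have hden : Real.exp (-2 * L) ≤ ‖1 + s ^ 2‖ := by
        have e1 : 1 - ‖s ^ 2‖ ≤ ‖1 + s ^ 2‖ := by
          have := norm_sub_norm_le (1 : ℂ) (-(s ^ 2))
          rw [norm_neg, norm_one, sub_neg_eq_add] at this
          exact this
        rw [norm_pow, hsn] at e1
        have e2 : qq L ^ 2 ≤ qq L := by rw [sq]; exact mul_le_of_le_one_left hq0 hq1
        have e3 : Real.exp (-2 * L) = 1 - qq L := by unfold qq; ring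
        linarith
      have hpos : 0 < Real.exp (-2 * L) := Real.exp_pos _
      calc 4 / Real.pi / ‖1 + s ^ 2‖ ≤ 4 / Real.pi / Real.exp (-2 * L) := by gcongr
        _ = 4 / Real.pi * Real.exp (2 * L) := by
          rw [div_eq_mul_inv (4 / Real.pi), ← Real.exp_neg]
          congr 2; ring
        _ ≤ 2 * Real.exp (2 * L) := by
          have : 4 / Real.pi ≤ 2 := by
            rw [div_le_iff₀ Real.pi_pos]
            have := Real.pi_gt_three
            linarith
          gcongr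
    have n4 : ‖(qq L : ℂ) * ((n : ℂ) * z ^ (n - 1))‖ ≤ n := by
      rw [norm_mul, norm_mul, hqn, n1, mul_one, Complex.norm_natCast]
      exact mul_le_of_le_one_left (Nat.cast_nonneg n) hq1
    have n5 : ‖EE N (z ^ n)‖ ≤ K := norm_EE hN n2.le
    have n6 : ‖(1 : ℂ) - EE N (z ^ n)‖ ≤ 1 + K := by
      calc ‖(1 : ℂ) - EE N (z ^ n)‖ ≤ ‖(1 : ℂ)‖ + ‖EE N (z ^ n)‖ := norm_sub_le _ _
        _ ≤ 1 + K := by rw [norm_one]; linarith
    have n7 : ‖-(EE N (z ^ n) * (-N * (1 - z ^ n)) * ((n : ℂ) * z ^ (n - 1)))‖ ≤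
        K * (N * 2) * n := by
      rw [norm_neg, norm_mul, norm_mul, norm_mul, norm_mul, n1, mul_one, Complex.norm_natCast,
        norm_neg, Complex.norm_real, Real.norm_eq_abs, abs_of_pos (by linarith : (0 : ℝ) < N)]
      have : ‖(1 : ℂ) - z ^ n‖ ≤ 2 := by
        calc ‖(1 : ℂ) - z ^ n‖ ≤ ‖(1 : ℂ)‖ + ‖z ^ n‖ := norm_sub_le _ _
          _ = 2 := by rw [norm_one, n2]; norm_num
      gcongr
    have n8 : ‖(L : ℂ)‖ = L := by
      rw [Complex.norm_real, Real.norm_eq_abs, abs_of_pos hL0]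
    have tot : ‖deriv p z + (↑L * (((4 / Real.pi : ℝ) : ℂ) / (1 + s ^ 2) *
        ((qq L : ℂ) * ((n : ℂ) * z ^ (n - 1)))) +
        ((deriv α z - deriv p z) * (1 - EE N (z ^ n)) + (α z - p z) *
        -(EE N (z ^ n) * (-N * (1 - z ^ n)) * ((n : ℂ) * z ^ (n - 1)))))‖ ≤
        M + (L * (2 * Real.exp (2 * L) * n) + (M * (1 + K) + M * (K * (N * 2) * n))) := by
      refine (norm_add_le _ _).trans (add_le_add (mdp z hz) ((norm_add_le _ _).trans
        (add_le_add ?_ ((norm_add_le _ _).trans (add_le_add ?_ ?_)))))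
      · rw [norm_mul, n8, norm_mul]
        gcongr
      · rw [norm_mul]
        have := mdb z hz
        gcongr
      · rw [norm_mul]
        have := mb z hz
        gcongr
    refine (add_le_add le_rfl tot).trans ?_
    have e1 : L * (2 * Real.exp (2 * L) * n) ≤ 4 * Real.exp (3 * L) := by
      calc L * (2 * Real.exp (2 * L) * n) = 2 * Real.exp (2 * L) * (L * n) := by ring
        _ ≤ 2 * Real.exp (2 * L) * (2 * Real.exp L) := by gcongr
        _ = 4 * (Real.exp (2 * L) * Real.exp L) := by ring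
        _ = 4 * Real.exp (3 * L) := by rw [← Real.exp_add]; congr 2; ring
    have e2 : M * (K * (N * 2) * n) ≤ 4 * M * K * N * Real.exp L := by
      calc M * (K * (N * 2) * n) ≤ M * (K * (N * 2) * (2 * Real.exp L)) := by gcongr
        _ = 4 * M * K * N * Real.exp L := by ring
    have e3 : 1 + M + M * (1 + K) ≤ (1 + M + M * (1 + K)) * Real.exp L := by
      have h6 : 0 ≤ 1 + M + M * (1 + K) := by positivity
      have h7 : 1 ≤ Real.exp L := by linarith
      exact le_mul_of_one_le_right h6 h7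
    have e4 : C * Real.exp L = (1 + M + M * (1 + K)) * Real.exp L + 4 * M * K * N * Real.exp L := by
      rw [hC]; ring
    have e5 : Real.exp (4 * L) = Real.exp L * Real.exp (3 * L) := by
      rw [← Real.exp_add]; congr 1; ring
    have e6 : Real.exp L ≤ Real.exp (3 * L) := Real.exp_le_exp.2 (by linarith)
    have e7 : 2 * C + 4 ≤ Real.exp L := by linarith
    have e8 : (2 * C + 4) * Real.exp (3 * L) ≤ Real.exp (4 * L) := by
      rw [e5]; gcongr
    have e9 : C * Real.exp L ≤ 2 * C * Real.exp (3 * L) := by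
      have i1 := mul_le_mul_of_nonneg_left e6 (by linarith : 0 ≤ C)
      have i2 : 0 ≤ C * Real.exp (3 * L) := mul_nonneg (by linarith) (Real.exp_pos _).le
      linarith
    have e10 : (2 * C + 4) * Real.exp (3 * L) = 2 * C * Real.exp (3 * L) + 4 * Real.exp (3 * L) := by
      ring
    linarith
  -- lower bound for the real part
  have hlow : ∀ z : ℂ, ‖z‖ = 1 → -2 * L ≤ (P z).re := by
    intro z hz
    have hzR' : z ∈ ball (0 : ℂ) R' := by rw [mem_ball_zero_iff, hz]; exact hR'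
    have hu := (h2.2 _ (hs z hzR')).2.2.1
    have e : P z = p z + (L * uu (qq L * z ^ n) + (α z - p z) * (1 - EE N (z ^ n))) := rfl
    have n2 : ‖z ^ n‖ = 1 := by rw [norm_pow, hz, one_pow]
    have a1 : -M ≤ (p z).re := by
      have := Complex.abs_re_le_norm (p z)
      have := mp z hz
      have := neg_abs_le (p z).re
      linarith
    have a2 : -(M * (1 + K)) ≤ ((α z - p z) * (1 - EE N (z ^ n))).re := by
      have h8 := Complex.abs_re_le_norm ((α z - p z) * (1 - EE N (z ^ n)))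
      have h9 : ‖(α z - p z) * (1 - EE N (z ^ n))‖ ≤ M * (1 + K) := by
        rw [norm_mul]
        have n5 : ‖EE N (z ^ n)‖ ≤ K := norm_EE hN n2.le
        have n6 : ‖(1 : ℂ) - EE N (z ^ n)‖ ≤ 1 + K := by
          calc ‖(1 : ℂ) - EE N (z ^ n)‖ ≤ ‖(1 : ℂ)‖ + ‖EE N (z ^ n)‖ := norm_sub_le _ _
            _ ≤ 1 + K := by rw [norm_one]; linarith
        have := mb z hz
        gcongr
      have := neg_abs_le ((α z - p z) * (1 - EE N (z ^ n))).re
      linarith
    have a3 : ((L : ℂ) * uu (qq L * z ^ n)).re = L * (uu (qq L * z ^ n)).re :=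
      Complex.re_ofReal_mul _ _
    rw [e, Complex.add_re, Complex.add_re, a3]
    have a4 : L * (-1) ≤ L * (uu (qq L * z ^ n)).re := by
      gcongr
    linarith
  -- apply the integral estimate
  have hin : ∀ θ : ℝ, cm θ ∈ ball (0 : ℂ) R' := fun θ => by
    rw [mem_ball_zero_iff, norm_cm]; exact hR'
  choose! d hd1 hd2 using hder
  have key := h 1 (1 + 2 * Real.pi) (8 * Real.exp (4 * L)) (Real.exp (-2 * L))
    (fun t => G (cm (t - 1))) (fun t => exp (P (cm (t - 1))) * (I * cm (t - 1)))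
    (fun t => exp (P (cm (t - 1))) * (I * cm (t - 1)) *
      (I * (d (cm (t - 1)) * cm (t - 1) + 1))) one_pos (by have := Real.pi_pos; linarith)
    (by
      have : 1 ≤ Real.exp (4 * L) := Real.one_le_exp (by linarith)
      linarith) (Real.exp_pos _) (by
      intro t ht
      have hc : HasDerivAt (fun t : ℝ => cm (t - 1)) (I * cm (t - 1)) t := by
        have := HasDerivAt.comp_sub_const t 1 (hasDerivAt_cm (t - 1))
        exact this
      set z := cm (t - 1) with hz
      have hz1 : ‖z‖ = 1 := norm_cm _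
      refine ⟨?_, ?_, ?_, ?_⟩
      · exact HasDerivAt.comp t (hGd z (hin _)) hc
      · have hP1 : HasDerivAt (fun t : ℝ => P (cm (t - 1))) (d z * (I * z)) t :=
          HasDerivAt.comp (h₂ := P) (h := fun t : ℝ => cm (t - 1)) t (hd1 z hz1) hc
        have h6 := hP1.cexp.mul (hc.const_mul I)
        refine h6.congr_deriv ?_
        simp only [← hz]
        ring
      · rw [norm_mul, norm_mul, Complex.norm_I, hz1, Complex.norm_exp]
        rw [mul_one, mul_one]
        exact Real.exp_le_exp.2 (hlow z hz1)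
      · rw [norm_mul _ (I * (d z * z + 1)), mul_comm]
        refine mul_le_mul_of_nonneg_right ?_ (norm_nonneg _)
        have h7 : ‖I * (d z * z + 1)‖ ≤ 1 + ‖d z‖ := by
          rw [norm_mul, Complex.norm_I, one_mul]
          refine (norm_add_le _ _).trans ?_
          rw [norm_mul, hz1, mul_one, norm_one, add_comm]
        refine (h7.trans (hd2 z hz1)).trans ?_
        have ht1 : 0 < t := by linarith [ht.1]
        rw [le_div_iff₀ ht1]
        have h8 : t ≤ 8 := by
          have := ht.2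
          have := Real.pi_lt_d2
          linarith
        have h9 : 0 < Real.exp (4 * L) := Real.exp_pos _
        have i1 := mul_le_mul_of_nonneg_left h8 h9.le
        linarith)
  refine HB.mono (HB.shift key) ?_
  have h8 : 8 * Real.exp (4 * L) * (1 + 2 * Real.pi) / Real.exp (-2 * L) ≤
      (8 * Real.exp (3 * L)) ^ 2 := by
    rw [div_le_iff₀ (Real.exp_pos _)]
    have e1 : (8 * Real.exp (3 * L)) ^ 2 * Real.exp (-2 * L) = 64 * Real.exp (4 * L) := by
      rw [mul_pow, ← Real.exp_nat_mul, mul_assoc, ← Real.exp_add]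
      norm_num
      ring_nf
    rw [e1]
    have hpi := Real.pi_lt_d2
    have h9 : 0 < Real.exp (4 * L) := Real.exp_pos _
    have i1 := mul_le_mul_of_nonneg_left (by linarith : 1 + 2 * Real.pi ≤ 8)
      (by linarith : 0 ≤ 8 * Real.exp (4 * L))
    linarith
  calc 64 * Real.sqrt (8 * Real.exp (4 * L) * (1 + 2 * Real.pi) / Real.exp (-2 * L))
      ≤ 64 * (8 * Real.exp (3 * L)) := by
        gcongr
        exact Real.sqrt_le_iff.2 ⟨by positivity, h8⟩
    _ = 512 * Real.exp (3 * L) := by ring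
    _ ≤ Real.exp (5 * L) * Real.exp (3 * L) := by
      gcongr
      calc (512 : ℝ) ≤ 2 ^ 10 := by norm_num
        _ ≤ Real.exp 1 ^ 10 := by
          gcongr
          have := Real.add_one_le_exp (1 : ℝ)
          linarith
        _ = Real.exp 10 := by rw [← Real.exp_nat_mul]; norm_num
        _ ≤ Real.exp (5 * L) := Real.exp_le_exp.2 (by linarith)
    _ = Real.exp (8 * L) := by rw [← Real.exp_add]; congr 1; ring

end Pool.Agent.H928.IB
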