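import Pool.Agent.H928.IB.Stm

set_option autoImplicit false

open MeasureTheory Set Filter Topology Complex Metric
open scoped ComplexConjugate

namespace Pool.Agent.H928.IB

namespace E1

theorem norm_EE (N : ℝ) (hN : 0 ≤ N) (s : ℂ) (h0 : 0 ≤ s.re) (h1 : ‖s‖ ≤ 1) :
    ‖EE N s‖ ≤ Real.exp (-N * (‖s‖ ^ 2 / 2)) := by
  unfold EE
  rw [Complex.norm_exp]
  apply Real.exp_le_exp.2
  have h2 : ((-N : ℂ) * (s - s ^ 2 / 2)).re = -N * (s.re - (s.re ^ 2 - s.im ^ 2) / 2) := by
    have e1 : (s ^ 2 / 2 : ℂ) = ((1 / 2 : ℝ) : ℂ) * (s * s) := by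
      push_cast
      ring
    rw [e1, ← Complex.ofReal_neg, Complex.re_ofReal_mul, Complex.sub_re, Complex.re_ofReal_mul,
      Complex.mul_re]
    ring
  have h3 : ‖s‖ ^ 2 = s.re ^ 2 + s.im ^ 2 := by
    rw [← Complex.normSq_eq_norm_sq, Complex.normSq_apply]
    ring
  rw [h2, h3]
  have h4 : s.re ≤ 1 := (Complex.re_le_norm s).trans h1
  have h5 : (s.re ^ 2 + s.im ^ 2) / 2 ≤ s.re - (s.re ^ 2 - s.im ^ 2) / 2 := by nlinarith
  nlinarith

theorem qq_nonneg {L : ℝ} (hL : 0 ≤ L) : 0 ≤ qq L := by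
  unfold qq
  have : Real.exp (-2 * L) ≤ 1 := Real.exp_le_one_iff.2 (by linarith)
  linarith

theorem qq_le {L : ℝ} : qq L ≤ 1 := by
  unfold qq
  have := Real.exp_pos (-2 * L)
  linarith

theorem norm_q {L : ℝ} (hL : 0 ≤ L) (x : ℂ) : ‖(qq L : ℂ) * x‖ ≤ ‖x‖ := by
  rw [norm_mul, Complex.norm_real, Real.norm_of_nonneg (qq_nonneg hL)]
  exact mul_le_of_le_one_left (norm_nonneg _) qq_le

theorem pp_eq (p α : ℂ → ℂ) (N L : ℝ) (w : ℂ) :
    pp p α N L w = α w + (L : ℂ) * uu (qq L * w ^ nn L) - (α w - p w) * EE N (w ^ nn L) := by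
  unfold pp gg
  ring

theorem re_pp (p α : ℂ → ℂ) (N L : ℝ) (w : ℂ) :
    (pp p α N L w).re ≤ (α w).re + L * (uu (qq L * w ^ nn L)).re +
      ‖α w - p w‖ * ‖EE N (w ^ nn L)‖ := by
  rw [pp_eq, Complex.sub_re, Complex.add_re, Complex.re_ofReal_mul]
  have h := Complex.abs_re_le_norm ((α w - p w) * EE N (w ^ nn L))
  rw [norm_mul] at h
  have := neg_abs_le ((α w - p w) * EE N (w ^ nn L)).re
  linarith

theorem ptA (hU : S_U) (p α : ℂ → ℂ) (N L : ℝ) (w : ℂ) (hN : 1 ≤ N) (hL : 0 ≤ L)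
    (hb : ‖α w - p w‖ * Real.exp (-N / 8) ≤ 1 / 2) (h0 : 0 ≤ (w ^ nn L).re)
    (h1 : ‖w ^ nn L‖ ≤ 1) (h2 : 1 / 2 ≤ ‖w ^ nn L‖) (hq : ‖(qq L : ℂ) * w ^ nn L‖ < 1) :
    ‖exp (pp p α N L w)‖ ≤
      Real.exp ((α w).re + 1 / 2 + (L - L * (1 - ‖w ^ nn L‖) / 2)) := by
  rw [Complex.norm_exp]
  apply Real.exp_le_exp.2
  refine (re_pp p α N L w).trans ?_
  have hE : ‖EE N (w ^ nn L)‖ ≤ Real.exp (-N / 8) := by
    refine (norm_EE N (by linarith) _ h0 h1).trans (Real.exp_le_exp.2 ?_)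
    have : (1 : ℝ) / 4 ≤ ‖w ^ nn L‖ ^ 2 := by nlinarith
    nlinarith
  have h3 : ‖α w - p w‖ * ‖EE N (w ^ nn L)‖ ≤ 1 / 2 :=
    le_trans (mul_le_mul_of_nonneg_left hE (norm_nonneg _)) hb
  have h4 := (hU.2 _ hq).2.1
  have h5 := norm_q hL (w ^ nn L)
  have h6 : L * (uu (qq L * w ^ nn L)).re ≤ L * (1 - (1 - ‖w ^ nn L‖) / 2) := by
    apply mul_le_mul_of_nonneg_left _ hL
    linarith
  linarith

theorem ptB (hU : S_U) (p α : ℂ → ℂ) (N L : ℝ) (w : ℂ) (hN : 1 ≤ N) (hL : 0 ≤ L)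
    (h0 : 0 ≤ (w ^ nn L).re) (h2 : ‖w ^ nn L‖ ≤ 1 / 2)
    (hq : ‖(qq L : ℂ) * w ^ nn L‖ < 1) :
    ‖exp (pp p α N L w)‖ ≤ Real.exp ((α w).re + ‖α w - p w‖ + 3 / 4 * L) := by
  rw [Complex.norm_exp]
  apply Real.exp_le_exp.2
  refine (re_pp p α N L w).trans ?_
  have hE : ‖EE N (w ^ nn L)‖ ≤ 1 := by
    refine (norm_EE N (by linarith) _ h0 (by linarith)).trans ?_
    rw [← Real.exp_zero]
    apply Real.exp_le_exp.2
    have : 0 ≤ ‖w ^ nn L‖ ^ 2 := by positivity
    nlinarith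
  have h3 : ‖α w - p w‖ * ‖EE N (w ^ nn L)‖ ≤ ‖α w - p w‖ :=
    mul_le_of_le_one_right (norm_nonneg _) hE
  have h4 := (hU.2 _ hq).2.1
  have h5 := norm_q hL (w ^ nn L)
  have h6 : L * (uu (qq L * w ^ nn L)).re ≤ L * (3 / 4) := by
    apply mul_le_mul_of_nonneg_left _ hL
    linarith
  linarith

theorem ptC (hU : S_U) (p α : ℂ → ℂ) (N L r : ℝ) (w : ℂ) (hN : 1 ≤ N) (hL : 0 ≤ L)
    (h2 : ‖w ^ nn L‖ ≤ r) (hr : r ≤ 1 / 2) (hr2 : 2 * N * r ≤ 1)
    (hr3 : L * (2 * r) + ‖α w - p w‖ * (4 * N * r) ≤ 1)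
    (hq : ‖(qq L : ℂ) * w ^ nn L‖ < 1) :
    ‖exp (pp p α N L w) - exp (p w)‖ ≤
      ‖exp (p w)‖ * (2 * (L * (2 * r) + ‖α w - p w‖ * (4 * N * r))) := by
  have hr0 : 0 ≤ r := (norm_nonneg _).trans h2
  have e : exp (pp p α N L w) - exp (p w) =
      exp (p w) * (exp (gg (fun w => α w - p w) N L w) - 1) := by
    unfold pp
    rw [Complex.exp_add]
    ring
  have h5 := norm_q hL (w ^ nn L)
  have hu : ‖uu (qq L * w ^ nn L)‖ ≤ 2 * r := by
    have := (hU.2 _ hq).2.2.2.2.1 (by linarith)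
    linarith
  have hE : ‖1 - EE N (w ^ nn L)‖ ≤ 4 * N * r := by
    unfold EE
    have h6 : ‖(-N : ℂ) * (w ^ nn L - (w ^ nn L) ^ 2 / 2)‖ ≤ 2 * N * r := by
      rw [norm_mul, norm_neg, Complex.norm_real, Real.norm_of_nonneg (by linarith)]
      have h7 : ‖w ^ nn L - (w ^ nn L) ^ 2 / 2‖ ≤ 2 * r := by
        refine (norm_sub_le _ _).trans ?_
        have h8 : ‖(w ^ nn L) ^ 2 / 2‖ ≤ r := by
          rw [norm_div, norm_pow]
          have : ‖(2 : ℂ)‖ = 2 := by norm_num
          rw [this]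
          nlinarith [norm_nonneg (w ^ nn L)]
        linarith
      calc N * ‖w ^ nn L - (w ^ nn L) ^ 2 / 2‖ ≤ N * (2 * r) :=
            mul_le_mul_of_nonneg_left h7 (by linarith)
        _ = 2 * N * r := by ring
    rw [norm_sub_rev]
    refine (Complex.norm_exp_sub_one_le (h6.trans hr2)).trans ?_
    linarith
  have hg : ‖gg (fun w => α w - p w) N L w‖ ≤ L * (2 * r) + ‖α w - p w‖ * (4 * N * r) := by
    unfold gg
    refine (norm_add_le _ _).trans ?_
    rw [norm_mul, norm_mul, Complex.norm_real, Real.norm_of_nonneg hL]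
    exact add_le_add (mul_le_mul_of_nonneg_left hu hL)
      (mul_le_mul_of_nonneg_left hE (norm_nonneg _))
  rw [e, norm_mul]
  refine mul_le_mul_of_nonneg_left ?_ (norm_nonneg _)
  refine (Complex.norm_exp_sub_one_le (hg.trans hr3)).trans ?_
  linarith

/-- the derivative along the radius -/
theorem der_ray (G : ℂ → ℂ) (g : ℂ) (z : ℂ) (t : ℝ) (h : HasDerivAt G g ((t : ℂ) * z)) :
    HasDerivAt (fun t : ℝ => G ((t : ℂ) * z)) (g * z) t := by
  have h1 : HasDerivAt (fun t : ℝ => (t : ℂ) * z) z t := by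
    simpa using (hasDerivAt_id' t).ofReal_comp.mul_const z
  exact h.comp t h1

theorem exp_le : Real.exp (11 / 20) ≤ 5 / 2 := by
  have h1 : (9 : ℝ) / 20 ≤ Real.exp (-(11 / 20)) := by
    have := Real.add_one_le_exp (-(11 / 20 : ℝ))
    linarith
  rw [Real.exp_neg] at h1
  have h2 := Real.exp_pos (11 / 20)
  rw [le_inv_comm₀ (by norm_num) h2] at h1
  refine h1.trans ?_
  norm_num

/-- the limits used for the choice of `L` -/
theorem ev_lim (M δ ε : ℝ) (hδ : 0 < δ) (hε : 0 < ε) : ∀ᶠ L : ℝ in atTop,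
    L * Real.exp (-L) ≤ δ ∧
      M * (L * Real.exp (-L)) + 12 * M * (L ^ 2 * Real.exp (-(L / 4))) ≤ ε := by
  have h1 : Tendsto (fun L : ℝ => L * Real.exp (-L)) atTop (𝓝 0) := by
    simpa using Real.tendsto_pow_mul_exp_neg_atTop_nhds_zero 1
  have h2 : Tendsto (fun L : ℝ => L ^ 2 * Real.exp (-(L / 4))) atTop (𝓝 0) := by
    have h3 := (Real.tendsto_pow_mul_exp_neg_atTop_nhds_zero 2).comp
      (tendsto_id.atTop_div_const (show (0 : ℝ) < 4 by norm_num))
    have h4 := h3.const_mul 16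
    rw [mul_zero] at h4
    refine h4.congr fun L => ?_
    simp only [Function.comp_apply, id_eq]
    ring
  have h5 : Tendsto (fun L : ℝ => M * (L * Real.exp (-L)) +
      12 * M * (L ^ 2 * Real.exp (-(L / 4)))) atTop (𝓝 0) := by
    have := (h1.const_mul M).add (h2.const_mul (12 * M))
    simpa using this
  exact (h1.eventually_le_const hδ).and (h5.eventually_le_const hε)

end E1

open E1

theorem e1 (h : S_U) (h2 : S_E2) : S_E1 := by
  intro R p F α N hG hA ε hε
  obtain ⟨hR, hp, hF, hF1⟩ := hG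
  have hA' := hA
  obtain ⟨hα, -, hN, hb⟩ := hA
  -- bounds
  have hBd : ∀ w : ℂ, ‖w‖ ≤ 1 → ‖α w - p w‖ ≤ Real.exp (N / 8) / 2 := by
    intro w hw
    have h3 := hb w hw
    have h4 : Real.exp (-N / 8) = (Real.exp (N / 8))⁻¹ := by
      rw [← Real.exp_neg]
      congr 1
      ring
    rw [h4, ← div_eq_mul_inv, div_le_iff₀ (Real.exp_pos _)] at h3
    linarith
  set Bd := Real.exp (N / 8) / 2 with hBdef
  have hBd0 : 0 ≤ Bd := by positivity
  have hcomp : IsCompact (closedBall (0 : ℂ) 1) := isCompact_closedBall 0 1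
  obtain ⟨A0, hA0⟩ := hcomp.exists_bound_of_continuousOn hα.continuous.continuousOn
  have huc : UniformContinuousOn α (closedBall (0 : ℂ) 1) :=
    hcomp.uniformContinuousOn_of_continuous hα.continuous.continuousOn
  rw [Metric.uniformContinuousOn_iff] at huc
  obtain ⟨δ, hδ, huc⟩ := huc (1 / 20) (by norm_num)
  set M := Real.exp (A0 + Bd) with hM
  have hM0 : 0 < M := Real.exp_pos _
  have hαM : ∀ w : ℂ, ‖w‖ ≤ 1 → (α w).re ≤ A0 := by
    intro w hw
    exact (Complex.re_le_norm _).trans (hA0 w (by simpa using hw))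
  have hpM : ∀ w : ℂ, ‖w‖ ≤ 1 → ‖exp (p w)‖ ≤ M := by
    intro w hw
    rw [Complex.norm_exp]
    apply Real.exp_le_exp.2
    have e : p w = α w - (α w - p w) := by ring
    rw [e, Complex.sub_re]
    have h3 := Complex.abs_re_le_norm (α w - p w)
    have h4 := neg_abs_le (α w - p w).re
    have h5 := hBd w hw
    have h6 := hαM w hw
    linarith
  -- choice of `L`
  obtain ⟨L2, hL2⟩ := h2 R p F α N ⟨hR, hp, hF, hF1⟩ hA'
  obtain ⟨L1, hL1⟩ := eventually_atTop.1 (ev_lim M (δ / 2) (ε / 2) (by positivity)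
    (by positivity))
  set c := 2 + 4 * N * Bd + 2 * N with hc
  have hc0 : 0 < c := by positivity
  refine ⟨max (max L1 L2) (max (max 2 (1 / ε)) (max c (c * (4 * M / ε)))), ?_⟩
  intro L hL R' G hR' hPrim z hz
  have hLL1 : L1 ≤ L := le_trans (le_trans (le_max_left _ _) (le_max_left _ _)) hL
  have hLL2 : L2 ≤ L := le_trans (le_trans (le_max_right _ _) (le_max_left _ _)) hL
  have hL3 : 2 ≤ L := le_trans (le_trans (le_trans (le_max_left _ _) (le_max_left _ _))
    (le_max_right _ _)) hL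
  have hL4 : 1 / ε ≤ L := le_trans (le_trans (le_trans (le_max_right _ _) (le_max_left _ _))
    (le_max_right _ _)) hL
  have hL5 : c ≤ L := le_trans (le_trans (le_trans (le_max_left _ _) (le_max_right _ _))
    (le_max_right _ _)) hL
  have hL6 : c * (4 * M / ε) ≤ L := le_trans (le_trans (le_trans (le_max_right _ _)
    (le_max_right _ _)) (le_max_right _ _)) hL
  obtain ⟨hlim1, hlim2⟩ := hL1 L hLL1
  have hL0 : 0 < L := by linarith
  rcases le_or_gt (z ^ nn L).re 0 with hre | hre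
  · have h3 := (hL2 L hLL2 R' G hR' hPrim).2 z hz hre
    have h4 : (L ^ 3)⁻¹ ≤ ε := by
      rw [inv_le_comm₀ (by positivity) hε, ← one_div]
      refine hL4.trans ?_
      nlinarith [mul_pos hL0 hL0]
    have h5 := Real.exp_pos (α z).re
    linarith
  -- the main case
  obtain ⟨hR1, hpp, hqz, hG0, hGd⟩ := hPrim
  set n := nn L with hn
  have hnL : Real.exp L / L ≤ n := Nat.le_ceil _
  have heL : 0 < Real.exp L / L := by positivity
  have hn0 : (0 : ℝ) < n := lt_of_lt_of_le heL hnL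
  have hn1 : n ≠ 0 := by
    intro h3
    rw [h3, Nat.cast_zero] at hn0
    exact lt_irrefl _ hn0
  have hninv : 1 / (n : ℝ) ≤ L * Real.exp (-L) := by
    have h3 := one_div_le_one_div_of_le heL hnL
    refine h3.trans (le_of_eq ?_)
    rw [one_div_div, Real.exp_neg, div_eq_mul_inv]
  -- the points on the ray
  have hw : ∀ t : ℝ, 0 ≤ t → t ≤ 1 → ‖(t : ℂ) * z‖ = t := by
    intro t ht0 _
    rw [norm_mul, hz, mul_one, Complex.norm_real, Real.norm_of_nonneg ht0]
  have hw1 : ∀ t : ℝ, 0 ≤ t → t ≤ 1 → ‖(t : ℂ) * z‖ ≤ 1 := by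
    intro t ht0 ht1
    rw [hw t ht0 ht1]
    exact ht1
  have hpow : ∀ t : ℝ, ((t : ℂ) * z) ^ n = ((t ^ n : ℝ) : ℂ) * z ^ n := by
    intro t
    rw [mul_pow, Complex.ofReal_pow]
  have hnorm : ∀ t : ℝ, 0 ≤ t → ‖((t : ℂ) * z) ^ n‖ = t ^ n := by
    intro t ht0
    rw [norm_pow, norm_mul, hz, mul_one, Complex.norm_real, Real.norm_of_nonneg ht0]
  have hreal : ∀ t : ℝ, 0 ≤ t → 0 ≤ (((t : ℂ) * z) ^ n).re := by
    intro t ht0
    rw [hpow, Complex.re_ofReal_mul]
    exact mul_nonneg (pow_nonneg ht0 n) hre.le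
  have hball : ∀ t : ℝ, 0 ≤ t → t ≤ 1 → (t : ℂ) * z ∈ ball (0 : ℂ) R' := by
    intro t ht0 ht1
    rw [mem_ball_zero_iff, hw t ht0 ht1]
    linarith
  have hqq : ∀ t : ℝ, 0 ≤ t → t ≤ 1 → ‖(qq L : ℂ) * ((t : ℂ) * z) ^ n‖ < 1 := fun t ht0 ht1 =>
    hqz _ (hball t ht0 ht1)
  set D : ℝ → ℂ := fun t => G ((t : ℂ) * z) - F ((t : ℂ) * z) with hD
  set D' : ℝ → ℂ := fun t => exp (pp p α N L ((t : ℂ) * z)) * z - exp (p ((t : ℂ) * z)) * z
    with hD'
  have hDd : ∀ t : ℝ, 0 ≤ t → t ≤ 1 → HasDerivAt D (D' t) t := by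
    intro t ht0 ht1
    have h3 := hball t ht0 ht1
    have h4 : (t : ℂ) * z ∈ ball (0 : ℂ) R := ball_subset_ball hR' h3
    exact (der_ray G _ z t (hGd _ h3)).sub (der_ray F _ z t (hF _ h4))
  have hD'n : ∀ t : ℝ, ‖D' t‖ = ‖exp (pp p α N L ((t : ℂ) * z)) - exp (p ((t : ℂ) * z))‖ := by
    intro t
    show ‖exp (pp p α N L ((t : ℂ) * z)) * z - exp (p ((t : ℂ) * z)) * z‖ = _
    rw [← sub_mul, norm_mul, hz, mul_one]
  -- the two points
  have hlog0 : 0 ≤ Real.log L := Real.log_nonneg (by linarith)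
  have hlogL : Real.log L ≤ L := (Real.log_le_sub_one_of_pos hL0).trans (by linarith)
  set t1 := Real.exp (-(6 * Real.log L) / n) with ht1
  set t0 := Real.exp (-Real.log 2 / n) with ht0
  have hpt1 : t1 ^ n = (L ^ 6)⁻¹ := by
    rw [ht1, ← Real.exp_nat_mul]
    have e : (n : ℝ) * (-(6 * Real.log L) / n) = -(6 * Real.log L) := by
      field_simp
    rw [e, Real.exp_neg]
    congr 1
    have e2 : (6 : ℝ) * Real.log L = ((6 : ℕ) : ℝ) * Real.log L := by norm_num
    rw [e2, Real.exp_nat_mul, Real.exp_log hL0]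
  have hpt0 : t0 ^ n = 1 / 2 := by
    rw [ht0, ← Real.exp_nat_mul]
    have e : (n : ℝ) * (-Real.log 2 / n) = -Real.log 2 := by
      field_simp
    rw [e, Real.exp_neg, Real.exp_log (by norm_num)]
    norm_num
  have ht1pos : 0 < t1 := Real.exp_pos _
  have ht0pos : 0 < t0 := Real.exp_pos _
  have hlog2 : Real.log 2 ≤ 1 := by
    have := Real.log_le_sub_one_of_pos (show (0 : ℝ) < 2 by norm_num)
    linarith
  have hlog20 : 0 ≤ Real.log 2 := Real.log_nonneg (by norm_num)
  have ht01 : t0 ≤ 1 := by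
    rw [ht0, Real.exp_le_one_iff]
    exact div_nonpos_of_nonpos_of_nonneg (by linarith) hn0.le
  have ht10 : t1 ≤ t0 := by
    rw [ht0, ht1]
    apply Real.exp_le_exp.2
    apply div_le_div_of_nonneg_right _ hn0.le
    have : Real.log 2 ≤ Real.log L := Real.log_le_log (by norm_num) hL3
    linarith
  have h1t0 : 1 - t0 ≤ L * Real.exp (-L) := by
    have h3 := Real.add_one_le_exp (-Real.log 2 / n)
    have h4 : Real.log 2 / n ≤ 1 / n := div_le_div_of_nonneg_right hlog2 hn0.le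
    have h5 : -Real.log 2 / n = -(Real.log 2 / n) := neg_div _ _
    rw [← ht0, h5] at h3
    linarith
  have h1t1 : 1 - t1 ≤ 6 * L * (L * Real.exp (-L)) := by
    have h3 := Real.add_one_le_exp (-(6 * Real.log L) / n)
    have h4 : 6 * Real.log L / n ≤ 6 * L * (1 / n) := by
      rw [mul_one_div]
      exact div_le_div_of_nonneg_right (by linarith) hn0.le
    have h5 : -(6 * Real.log L) / n = -(6 * Real.log L / n) := neg_div _ _
    have h6 : 6 * L * (1 / n) ≤ 6 * L * (L * Real.exp (-L)) :=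
      mul_le_mul_of_nonneg_left hninv (by linarith)
    rw [← ht1, h5] at h3
    linarith
  -- first segment
  have hs1 : ‖D t1 - D 0‖ ≤ ε / 2 := by
    have hL61 : 0 < L ^ 6 := by positivity
    set r := (L ^ 6)⁻¹ with hr
    have hr0 : 0 < r := by positivity
    have hLr : L * r ≤ 1 / L := by
      rw [hr, ← div_eq_mul_inv, div_le_div_iff₀ hL61 hL0]
      have e : L ^ 6 = L * L * L ^ 4 := by ring
      have h4 : (1 : ℝ) ≤ L ^ 4 := one_le_pow₀ (by linarith)
      rw [e, one_mul]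
      nlinarith [mul_pos hL0 hL0]
    have hrL : r ≤ 1 / L := by
      refine le_trans ?_ hLr
      nlinarith
    have hcL : c * (1 / L) ≤ 1 := by
      rw [mul_one_div, div_le_one hL0]
      exact hL5
    have hcL2 : c * (1 / L) * (4 * M) ≤ ε := by
      have h3 : c * (4 * M) ≤ L * ε := by
        have e : c * (4 * M / ε) = c * (4 * M) / ε := by ring
        rw [e, div_le_iff₀ hε] at hL6
        exact hL6
      have e : c * (1 / L) * (4 * M) = c * (4 * M) / L := by ring
      rw [e, div_le_iff₀ hL0]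
      linarith
    have hNB : 0 ≤ N * Bd := by positivity
    have hN0 : 0 ≤ N := by linarith
    have hκ : L * (2 * r) + Bd * (4 * N * r) ≤ c * (1 / L) := by
      have e1 : L * (2 * r) ≤ 2 * (1 / L) := by linarith
      have e2 : Bd * (4 * N * r) ≤ 4 * N * Bd * (1 / L) := by
        have : 4 * (N * Bd) * r ≤ 4 * (N * Bd) * (1 / L) :=
          mul_le_mul_of_nonneg_left hrL (by positivity)
        linarith
      have e3 : 0 ≤ 2 * N * (1 / L) := by positivity
      rw [hc]
      linarith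
    have hr12 : r ≤ 1 / 2 := by
      refine hrL.trans ?_
      exact one_div_le_one_div_of_le (by norm_num) hL3
    have hNr : 2 * N * r ≤ 1 := by
      have e1 : 2 * N * r ≤ 2 * N * (1 / L) := mul_le_mul_of_nonneg_left hrL (by positivity)
      have e2 : 2 * N * (1 / L) ≤ c * (1 / L) := by
        apply mul_le_mul_of_nonneg_right _ (by positivity)
        rw [hc]
        nlinarith
      linarith
    have hbound : ∀ t ∈ Ico (0 : ℝ) t1, ‖D' t‖ ≤ ε / 2 := by
      rintro t ⟨ht0', ht1'⟩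
      have ht1'' : t ≤ 1 := by linarith
      have hwt := hw1 t ht0' ht1''
      rw [hD'n]
      have hbt := hBd _ hwt
      have hκt : L * (2 * r) + ‖α ((t : ℂ) * z) - p ((t : ℂ) * z)‖ * (4 * N * r) ≤
          c * (1 / L) := by
        refine le_trans ?_ hκ
        have : ‖α ((t : ℂ) * z) - p ((t : ℂ) * z)‖ * (4 * N * r) ≤ Bd * (4 * N * r) :=
          mul_le_mul_of_nonneg_right hbt (by positivity)
        linarith
      have h3 := ptC h p α N L r ((t : ℂ) * z) hN hL0.le (by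
        rw [hnorm t ht0', ← hpt1]
        exact pow_le_pow_left₀ ht0' ht1'.le n) hr12 hNr (hκt.trans hcL) (hqq t ht0' ht1'')
      refine h3.trans ?_
      have h4 := hpM _ hwt
      calc ‖exp (p ((t : ℂ) * z))‖ * (2 * (L * (2 * r) +
            ‖α ((t : ℂ) * z) - p ((t : ℂ) * z)‖ * (4 * N * r)))
          ≤ M * (2 * (c * (1 / L))) := by
            refine mul_le_mul h4 (by linarith) (by positivity) hM0.le
        _ ≤ ε / 2 := by linarith
    have h3 := norm_image_sub_le_of_norm_deriv_le_segment' (f := D) (f' := D') (a := 0)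
      (b := t1) (C := ε / 2) (fun t ht => (hDd t ht.1 (by linarith [ht.2])).hasDerivWithinAt)
      hbound t1 ⟨ht1pos.le, le_rfl⟩
    refine h3.trans ?_
    rw [sub_zero]
    have : t1 ≤ 1 := by linarith
    nlinarith
  -- second segment
  have hs2 : ‖D t0 - D t1‖ ≤ 12 * M * (L ^ 2 * Real.exp (-(L / 4))) := by
    have hbound : ∀ t ∈ Ico t1 t0, ‖D' t‖ ≤ 2 * M * Real.exp (3 / 4 * L) := by
      rintro t ⟨ht1', ht0'⟩
      have htt0 : 0 ≤ t := by linarith
      have htt1 : t ≤ 1 := by linarith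
      have hwt := hw1 t htt0 htt1
      rw [hD'n]
      refine (norm_sub_le _ _).trans ?_
      have h3 := ptB h p α N L ((t : ℂ) * z) hN hL0.le (hreal t htt0) (by
        rw [hnorm t htt0, ← hpt0]
        exact pow_le_pow_left₀ htt0 ht0'.le n) (hqq t htt0 htt1)
      have h4 : Real.exp ((α ((t : ℂ) * z)).re + ‖α ((t : ℂ) * z) - p ((t : ℂ) * z)‖ +
          3 / 4 * L) ≤ M * Real.exp (3 / 4 * L) := by
        rw [hM, ← Real.exp_add]
        apply Real.exp_le_exp.2
        linarith [hαM _ hwt, hBd _ hwt]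
      have h5 : (1 : ℝ) ≤ Real.exp (3 / 4 * L) := Real.one_le_exp (by linarith)
      have h6 : M ≤ M * Real.exp (3 / 4 * L) := le_mul_of_one_le_right hM0.le h5
      linarith [hpM _ hwt]
    have h3 := norm_image_sub_le_of_norm_deriv_le_segment' (f := D) (f' := D') (a := t1)
      (b := t0) (C := 2 * M * Real.exp (3 / 4 * L))
      (fun t ht => (hDd t (by linarith [ht.1]) (by linarith [ht.2])).hasDerivWithinAt)
      hbound t0 ⟨ht10, le_rfl⟩
    refine h3.trans ?_
    have h4 : t0 - t1 ≤ 6 * L * (L * Real.exp (-L)) := by linarith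
    calc 2 * M * Real.exp (3 / 4 * L) * (t0 - t1)
        ≤ 2 * M * Real.exp (3 / 4 * L) * (6 * L * (L * Real.exp (-L))) :=
          mul_le_mul_of_nonneg_left h4 (by positivity)
      _ = 12 * M * (L ^ 2 * (Real.exp (3 / 4 * L) * Real.exp (-L))) := by ring
      _ = 12 * M * (L ^ 2 * Real.exp (-(L / 4))) := by
          rw [← Real.exp_add]
          congr 3
          ring
  -- third segment
  have hs3 : ‖D 1 - D t0‖ ≤ 10 * Real.exp (α z).re + M * (L * Real.exp (-L)) := by
    set C0 := (α z).re + 11 / 20 with hC0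
    have hbound : ∀ t ∈ Ico t0 1, ‖D' t‖ ≤
        4 / (n * L) * (Real.exp (C0 + (L - L * (1 - t ^ n) / 2)) *
          (L * (n * t ^ (n - 1)) / 2)) + M := by
      rintro t ⟨htl, htr⟩
      have htt0 : 0 ≤ t := by linarith
      have hwt := hw1 t htt0 htr.le
      have htn : 1 / 2 ≤ t ^ n := by
        rw [← hpt0]
        exact pow_le_pow_left₀ ht0pos.le htl n
      have htn1 : t ^ n ≤ 1 := pow_le_one₀ htt0 htr.le
      rw [hD'n]
      refine (norm_sub_le _ _).trans (add_le_add ?_ (hpM _ hwt))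
      have h3 := ptA h p α N L ((t : ℂ) * z) hN hL0.le (hb _ hwt) (hreal t htt0)
        (by rw [hnorm t htt0]; exact htn1) (by rw [hnorm t htt0]; exact htn)
        (hqq t htt0 htr.le)
      rw [hnorm t htt0] at h3
      have h4 : (α ((t : ℂ) * z)).re ≤ (α z).re + 1 / 20 := by
        have h5 : dist ((t : ℂ) * z) z < δ := by
          rw [dist_eq_norm]
          have e : (t : ℂ) * z - z = ((t - 1 : ℝ) : ℂ) * z := by
            push_cast
            ring
          rw [e, norm_mul, hz, mul_one, Complex.norm_real, Real.norm_eq_abs, abs_sub_comm,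
            abs_of_nonneg (by linarith)]
          linarith
        have h6 := huc ((t : ℂ) * z) (by simpa using hwt) z (by simp [hz]) h5
        rw [dist_eq_norm] at h6
        have h7 := Complex.re_le_norm (α ((t : ℂ) * z) - α z)
        rw [Complex.sub_re] at h7
        linarith
      refine h3.trans ?_
      have h5 : Real.exp ((α ((t : ℂ) * z)).re + 1 / 2 + (L - L * (1 - t ^ n) / 2)) ≤
          Real.exp (C0 + (L - L * (1 - t ^ n) / 2)) := by
        apply Real.exp_le_exp.2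
        rw [hC0]
        linarith
      refine h5.trans ?_
      have h6 : 4 / (n * L) * (Real.exp (C0 + (L - L * (1 - t ^ n) / 2)) *
          (L * (n * t ^ (n - 1)) / 2)) =
          Real.exp (C0 + (L - L * (1 - t ^ n) / 2)) * (2 * t ^ (n - 1)) := by
        field_simp
        ring
      rw [h6]
      refine le_mul_of_one_le_right (Real.exp_pos _).le ?_
      have h7 : t ^ n ≤ t ^ (n - 1) := pow_le_pow_of_le_one htt0 htr.le (Nat.sub_le n 1)
      linarith
    have hB : ∀ x : ℝ, HasDerivAt (fun t : ℝ => 4 / (n * L) *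
        Real.exp (C0 + (L - L * (1 - t ^ n) / 2)) + M * (t - t0))
        (4 / (n * L) * (Real.exp (C0 + (L - L * (1 - x ^ n) / 2)) *
          (L * (n * x ^ (n - 1)) / 2)) + M) x := by
      intro x
      have e1 : HasDerivAt (fun t : ℝ => t ^ n) (n * x ^ (n - 1)) x := hasDerivAt_pow n x
      have e2 : HasDerivAt (fun t : ℝ => C0 + (L - L * (1 - t ^ n) / 2))
          (L * (n * x ^ (n - 1)) / 2) x := by
        have e3 := ((((e1.const_sub 1).const_mul L).div_const 2).const_sub L).const_add C0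
        have e4 : -(L * -(n * x ^ (n - 1)) / 2) = L * (n * x ^ (n - 1)) / 2 := by ring
        rw [e4] at e3
        exact e3
      have e5 := (e2.exp.const_mul (4 / (n * L))).add
        (((hasDerivAt_id' x).sub_const t0).const_mul M)
      rw [mul_one] at e5
      exact e5
    have h3 := image_norm_le_of_norm_deriv_right_le_deriv_boundary (f := fun t => D t - D t0)
      (f' := D') (a := t0) (b := 1)
      (fun t ht => ((hDd t (by linarith [ht.1]) ht.2).continuousAt.continuousWithinAt).sub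
        continuousWithinAt_const)
      (fun t ht => ((hDd t (by linarith [ht.1]) ht.2.le).sub_const _).hasDerivWithinAt)
      (B := fun t : ℝ => 4 / (n * L) *
        Real.exp (C0 + (L - L * (1 - t ^ n) / 2)) + M * (t - t0)) (by
          simp only [sub_self, norm_zero, mul_zero, add_zero]
          positivity) hB hbound (show (1 : ℝ) ∈ Icc t0 1 from ⟨ht01, le_rfl⟩)
    refine h3.trans ?_
    simp only [one_pow, sub_self, mul_zero, zero_div, sub_zero]
    have h4 : 4 / (n * L) * Real.exp (C0 + L) ≤ 10 * Real.exp (α z).re := by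
      have h5 : Real.exp L ≤ n * L := by
        rw [div_le_iff₀ hL0] at hnL
        exact hnL
      have hnLpos : 0 < (n : ℝ) * L := by positivity
      have h6 : Real.exp (C0 + L) = Real.exp (α z).re * Real.exp (11 / 20) * Real.exp L := by
        rw [hC0, Real.exp_add, Real.exp_add]
      rw [h6, div_mul_eq_mul_div, div_le_iff₀ hnLpos]
      have h7 := exp_le
      have h8 := Real.exp_pos (α z).re
      calc 4 * (Real.exp (α z).re * Real.exp (11 / 20) * Real.exp L)
          ≤ 4 * (Real.exp (α z).re * (5 / 2) * (n * L)) := by gcongr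
        _ = 10 * Real.exp (α z).re * (n * L) := by ring
    have h5 : M * (1 - t0) ≤ M * (L * Real.exp (-L)) :=
      mul_le_mul_of_nonneg_left h1t0 hM0.le
    linarith
  -- conclusion
  have hD0 : D 0 = 0 := by
    rw [hD]
    simp only [Complex.ofReal_zero, zero_mul]
    rw [hG0, sub_self]
  have hD1 : D 1 = G z - F z := by
    rw [hD]
    simp only [Complex.ofReal_one, one_mul]
  have hsum : G z - F z = (D 1 - D t0) + (D t0 - D t1) + (D t1 - D 0) := by
    rw [← hD1, hD0]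
    ring
  rw [hsum]
  refine (norm_add₃_le).trans ?_
  linarith

end Pool.Agent.H928.IB
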