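import Pool.Agent.H928.IB.Stm

/-!
# The change is at most `L⁻³` on the left arcs
-/

set_option autoImplicit false

open MeasureTheory Set Filter Topology Complex Metric
open scoped ComplexConjugate

namespace Pool.Agent.H928.IB

namespace E2

lemma qq_pos {L : ℝ} (hL : 0 < L) : 0 < qq L := by
  unfold qq
  have : Real.exp (-2 * L) < 1 := Real.exp_lt_one_iff.2 (by linarith)
  linarith

lemma qq_lt (L : ℝ) : qq L < 1 := by
  unfold qq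
  have := Real.exp_pos (-2 * L)
  linarith

lemma arg_bound {N : ℝ} (hN : 0 ≤ N) {s : ℂ} (hs : ‖s‖ ≤ 1) :
    ‖-(N : ℂ) * (s - s ^ 2 / 2)‖ ≤ 3 / 2 * N * ‖s‖ := by
  have h1 : ‖s - s ^ 2 / 2‖ ≤ 3 / 2 * ‖s‖ := by
    have h2 := norm_sub_le s (s ^ 2 / 2)
    have h3 : ‖s ^ 2 / 2‖ = ‖s‖ ^ 2 / 2 := by
      rw [norm_div, norm_pow, Complex.norm_ofNat]
    rw [h3] at h2
    nlinarith [norm_nonneg s]
  rw [norm_mul, norm_neg, Complex.norm_real, Real.norm_eq_abs, abs_of_nonneg hN]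
  nlinarith [norm_nonneg s]

lemma EE_bound {N : ℝ} (hN : 0 ≤ N) {s : ℂ} (hs : ‖s‖ ≤ 1) : ‖EE N s‖ ≤ Real.exp (3 / 2 * N) := by
  unfold EE
  rw [Complex.norm_exp]
  apply Real.exp_le_exp.2
  refine (Complex.re_le_norm _).trans ((arg_bound hN hs).trans ?_)
  nlinarith [norm_nonneg s]

lemma EE_sub {N : ℝ} (hN : 0 ≤ N) {s : ℂ} (hs : ‖s‖ ≤ 1) (hs1 : 3 / 2 * N * ‖s‖ ≤ 1) :
    ‖1 - EE N s‖ ≤ 3 * N * ‖s‖ := by
  have h1 := arg_bound hN hs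
  have h2 := Complex.norm_exp_sub_one_le (h1.trans hs1)
  rw [norm_sub_rev]
  unfold EE
  linarith

lemma gg_re (hU : S_U) {b : ℂ → ℂ} {N L M : ℝ} (hN : 0 ≤ N) (hL : 0 < L) {w : ℂ}
    (hw : ‖w ^ nn L‖ ≤ 1) (hre : (w ^ nn L).re ≤ 0) (hb : ‖b w‖ ≤ M) :
    ‖exp (gg b N L w)‖ ≤ Real.exp (M * (1 + Real.exp (3 / 2 * N))) := by
  rw [Complex.norm_exp]
  apply Real.exp_le_exp.2
  unfold gg
  rw [Complex.add_re]
  have hq := qq_pos hL
  have hq1 := qq_lt L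
  have h1 : ‖(qq L : ℂ) * w ^ nn L‖ < 1 := by
    rw [norm_mul, Complex.norm_real, Real.norm_eq_abs, abs_of_pos hq]
    nlinarith [norm_nonneg (w ^ nn L)]
  have h2 : ((qq L : ℂ) * w ^ nn L).re ≤ 0 := by
    rw [Complex.re_ofReal_mul]
    nlinarith
  have h3 := (hU.2 _ h1).2.2.2.1 h2
  have h4 : ((L : ℂ) * uu (qq L * w ^ nn L)).re ≤ 0 := by
    rw [Complex.re_ofReal_mul]
    nlinarith
  have h5 : (b w * (1 - EE N (w ^ nn L))).re ≤ M * (1 + Real.exp (3 / 2 * N)) := by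
    refine (Complex.re_le_norm _).trans ?_
    rw [norm_mul]
    refine mul_le_mul hb ?_ (norm_nonneg _) ((norm_nonneg _).trans hb)
    refine (norm_sub_le _ _).trans ?_
    rw [norm_one]
    linarith [EE_bound hN hw]
  linarith

lemma gg_small (hU : S_U) {b : ℂ → ℂ} {N L M δ : ℝ} (hN : 0 ≤ N) (hL : 0 < L) {w : ℂ}
    (hw : ‖w ^ nn L‖ ≤ δ) (hδ : δ ≤ 1 / 2) (hδN : 3 / 2 * N * δ ≤ 1) (hb : ‖b w‖ ≤ M) :
    ‖gg b N L w‖ ≤ (2 * L + 3 * N * M) * δ := by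
  unfold gg
  have hM : 0 ≤ M := (norm_nonneg _).trans hb
  have hδ0 : 0 ≤ δ := (norm_nonneg _).trans hw
  have hq := qq_pos hL
  have hq1 := qq_lt L
  have h0 : ‖(qq L : ℂ) * w ^ nn L‖ ≤ δ := by
    rw [norm_mul, Complex.norm_real, Real.norm_eq_abs, abs_of_pos hq]
    nlinarith [norm_nonneg (w ^ nn L)]
  have h1 : ‖(qq L : ℂ) * w ^ nn L‖ < 1 := by linarith
  have h3 := (hU.2 _ h1).2.2.2.2.1 (by linarith)
  have h4 : ‖(L : ℂ) * uu (qq L * w ^ nn L)‖ ≤ 2 * L * δ := by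
    rw [norm_mul, Complex.norm_real, Real.norm_eq_abs, abs_of_pos hL]
    nlinarith
  have h5 : ‖b w * (1 - EE N (w ^ nn L))‖ ≤ 3 * N * M * δ := by
    rw [norm_mul]
    have h6 : ‖1 - EE N (w ^ nn L)‖ ≤ 3 * N * ‖w ^ nn L‖ := by
      apply EE_sub hN (by linarith)
      refine le_trans ?_ hδN
      exact mul_le_mul_of_nonneg_left hw (by positivity)
    have h7 : 3 * N * ‖w ^ nn L‖ ≤ 3 * N * δ := mul_le_mul_of_nonneg_left hw (by positivity)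
    calc ‖b w‖ * ‖1 - EE N (w ^ nn L)‖ ≤ M * (3 * N * δ) :=
          mul_le_mul hb (h6.trans h7) (norm_nonneg _) hM
      _ = 3 * N * M * δ := by ring
  calc ‖(L : ℂ) * uu (qq L * w ^ nn L) + b w * (1 - EE N (w ^ nn L))‖
      ≤ 2 * L * δ + 3 * N * M * δ := (norm_add_le _ _).trans (add_le_add h4 h5)
    _ = (2 * L + 3 * N * M) * δ := by ring

lemma bdd {f : ℂ → ℂ} (hf : ContinuousOn f (closedBall 0 1)) :
    ∃ M : ℝ, 0 ≤ M ∧ ∀ z : ℂ, ‖z‖ ≤ 1 → ‖f z‖ ≤ M := by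
  obtain ⟨M, hM⟩ := (isCompact_closedBall (0 : ℂ) 1).exists_bound_of_continuousOn hf
  refine ⟨M, (norm_nonneg (f 0)).trans (hM 0 (by simp)), fun z hz => hM z (by simpa using hz)⟩

lemma nn_ge {L : ℝ} : Real.exp L / L ≤ (nn L : ℝ) := Nat.le_ceil _

/-- all conditions on `L` -/
lemma large (N M1 M2 C : ℝ) : ∃ L0 : ℝ, ∀ L, L0 ≤ L → 2 ≤ L ∧ 3 / 2 * N * (L ^ 6)⁻¹ ≤ 1 ∧
    (2 * L + 3 * N * M2) ≤ L ^ 6 ∧ 4 * M1 * (2 * L + 3 * N * M2) ≤ L ^ 3 ∧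
    12 * M1 * (C + 1) * L ^ 5 ≤ Real.exp L := by
  have t1 : ∀ᶠ L : ℝ in atTop, 2 ≤ L := eventually_ge_atTop 2
  have hp : ∀ k : ℕ, k ≠ 0 → Tendsto (fun L : ℝ => L ^ k) atTop atTop := fun k hk =>
    tendsto_pow_atTop hk
  have t2 : ∀ᶠ L : ℝ in atTop, 3 / 2 * N ≤ L ^ 6 := (hp 6 (by norm_num)).eventually_ge_atTop _
  have t3 : ∀ᶠ L : ℝ in atTop, 2 + 3 * N * M2 ≤ L := eventually_ge_atTop _
  have t3' : ∀ᶠ L : ℝ in atTop, |3 * N * M2| ≤ L := eventually_ge_atTop _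
  have t4 : ∀ᶠ L : ℝ in atTop, 12 * |M1| ≤ L := eventually_ge_atTop _
  have t5 : ∀ᶠ L : ℝ in atTop, 12 * M1 * (C + 1) * (L ^ 5 * Real.exp (-L)) ≤ 1 := by
    have h := (Real.tendsto_pow_mul_exp_neg_atTop_nhds_zero 5).const_mul (12 * M1 * (C + 1))
    rw [mul_zero] at h
    exact h.eventually_le_const one_pos
  have := (t1.and (t2.and (t3'.and (t4.and t5))))
  obtain ⟨L0, hL0⟩ := eventually_atTop.1 this
  refine ⟨L0, fun L hL => ?_⟩
  obtain ⟨h1, h2, h3, h4, h5⟩ := hL0 L hL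
  have hLpos : 0 < L := by linarith
  have h3' := (le_abs_self _).trans h3
  have hM := (le_abs_self M1).trans (by linarith [abs_nonneg M1] : |M1| ≤ L / 12)
  have h6 : 0 ≤ |M1| := abs_nonneg M1
  have h7 : M1 * (2 * L + 3 * N * M2) ≤ |M1| * (3 * L) := by
    calc M1 * (2 * L + 3 * N * M2) ≤ |M1 * (2 * L + 3 * N * M2)| := le_abs_self _
      _ = |M1| * |2 * L + 3 * N * M2| := abs_mul _ _
      _ ≤ |M1| * (3 * L) := by
        apply mul_le_mul_of_nonneg_left _ h6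
        have := abs_add_le (2 * L) (3 * N * M2)
        have h8 : |2 * L| = 2 * L := abs_of_pos (by linarith)
        linarith
  refine ⟨h1, ?_, ?_, ?_, ?_⟩
  · rw [← div_eq_mul_inv, div_le_one (by positivity)]
    exact h2
  · have h8 : L * 2 ^ 5 ≤ L * L ^ 5 :=
      mul_le_mul_of_nonneg_left (pow_le_pow_left₀ (by norm_num) h1 5) hLpos.le
    have h9 : L ^ 6 = L * L ^ 5 := by ring
    linarith
  · have h8 : |M1| * (3 * L) ≤ L / 12 * (3 * L) :=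
      mul_le_mul_of_nonneg_right (by linarith) (by linarith)
    have h9 : L ^ 3 = L * (L * L) := by ring
    nlinarith [mul_pos hLpos hLpos]
  · have h8 : Real.exp (-L) * Real.exp L = 1 := by rw [← Real.exp_add]; simp
    have h9 := mul_le_mul_of_nonneg_right h5 (Real.exp_pos L).le
    calc 12 * M1 * (C + 1) * L ^ 5 = 12 * M1 * (C + 1) * L ^ 5 * (Real.exp (-L) * Real.exp L) := by
          rw [h8, mul_one]
      _ = 12 * M1 * (C + 1) * (L ^ 5 * Real.exp (-L)) * Real.exp L := by ring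
      _ ≤ 1 * Real.exp L := h9
      _ = Real.exp L := one_mul _

lemma core (hU : S_U) {R R' : ℝ} {p F α G : ℂ → ℂ} {N L M1 M2 : ℝ} (hg : Good R p F)
    (hN : 1 ≤ N) (hP : Prim R' p F α N L G) (hM1 : 0 ≤ M1)
    (h1 : ∀ z : ℂ, ‖z‖ ≤ 1 → ‖exp (p z)‖ ≤ M1) (h2 : ∀ z : ℂ, ‖z‖ ≤ 1 → ‖α z - p z‖ ≤ M2)
    (hL : 2 ≤ L) (hL1 : 3 / 2 * N * (L ^ 6)⁻¹ ≤ 1) (hL2 : (2 * L + 3 * N * M2) ≤ L ^ 6)
    (hL3 : 4 * M1 * (2 * L + 3 * N * M2) ≤ L ^ 3)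
    (hL4 : 12 * M1 * (Real.exp (M2 * (1 + Real.exp (3 / 2 * N))) + 1) * L ^ 5 ≤ Real.exp L)
    {z : ℂ} (hz : ‖z‖ = 1) (hre : (z ^ nn L).re ≤ 0) : ‖G z - F z‖ ≤ (L ^ 3)⁻¹ := by
  obtain ⟨hR, hpd, hF, -⟩ := hg
  obtain ⟨hR', -, -, hG0, hG⟩ := hP
  have hLpos : 0 < L := by linarith
  have hN0 : 0 ≤ N := by linarith
  have hM2 : 0 ≤ M2 := (norm_nonneg _).trans (h2 0 (by simp))
  set C : ℝ := Real.exp (M2 * (1 + Real.exp (3 / 2 * N))) with hC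
  have hCpos : 0 < C := Real.exp_pos _
  have hnpos : (0 : ℝ) < nn L := lt_of_lt_of_le (by positivity) (nn_ge (L := L))
  -- the path
  have hw : ∀ t : ℝ, t ∈ Icc (0 : ℝ) 1 → ‖(t : ℂ) * z‖ ≤ 1 ∧ ‖((t : ℂ) * z) ^ nn L‖ = t ^ nn L ∧
      (((t : ℂ) * z) ^ nn L).re ≤ 0 := by
    intro t ht
    have h3 : ‖(t : ℂ) * z‖ = t := by
      rw [norm_mul, hz, mul_one, Complex.norm_real, Real.norm_eq_abs, abs_of_nonneg ht.1]
    refine ⟨by rw [h3]; exact ht.2, by rw [norm_pow, h3], ?_⟩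
    rw [mul_pow, ← Complex.ofReal_pow, Complex.re_ofReal_mul]
    exact mul_nonpos_of_nonneg_of_nonpos (pow_nonneg ht.1 _) hre
  have hder : ∀ t : ℝ, t ∈ Icc (0 : ℝ) 1 → HasDerivAt (fun t : ℝ => G ((t : ℂ) * z) - F ((t : ℂ) * z))
      (z * (exp (p ((t : ℂ) * z)) * (exp (gg (fun w => α w - p w) N L ((t : ℂ) * z)) - 1))) t := by
    intro t ht
    have h3 := (hw t ht).1
    have hb : (t : ℂ) * z ∈ ball (0 : ℂ) R' := by
      rw [mem_ball_zero_iff]; linarith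
    have hb' : (t : ℂ) * z ∈ ball (0 : ℂ) R := by
      rw [mem_ball_zero_iff]; linarith
    have hl : HasDerivAt (fun s : ℂ => s * z) z (t : ℂ) := by
      simpa using (hasDerivAt_id (t : ℂ)).mul_const z
    have h4 := (HasDerivAt.comp (t : ℂ) (hG _ hb) hl).comp_ofReal
    have h5 := (HasDerivAt.comp (t : ℂ) (hF _ hb') hl).comp_ofReal
    refine (h4.sub h5).congr_deriv ?_
    unfold pp
    rw [Complex.exp_add]
    ring
  -- the two bounds of the derivative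
  have hb1 : ∀ t : ℝ, t ∈ Icc (0 : ℝ) 1 →
      ‖z * (exp (p ((t : ℂ) * z)) * (exp (gg (fun w => α w - p w) N L ((t : ℂ) * z)) - 1))‖ ≤
        M1 * (C + 1) := by
    intro t ht
    obtain ⟨h3, h4, h5⟩ := hw t ht
    rw [norm_mul, hz, one_mul, norm_mul]
    refine mul_le_mul (h1 _ h3) ?_ (norm_nonneg _) hM1
    refine (norm_sub_le _ _).trans ?_
    rw [norm_one]
    have h6 := gg_re hU (b := fun w => α w - p w) hN0 hLpos
      (by rw [h4]; exact pow_le_one₀ ht.1 ht.2) h5 (h2 _ h3)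
    linarith
  have hL6 : (L ^ 6)⁻¹ ≤ 1 / 2 := by
    rw [one_div]
    apply inv_anti₀ (by norm_num)
    calc (2 : ℝ) ≤ 2 ^ 6 := by norm_num
      _ ≤ L ^ 6 := pow_le_pow_left₀ (by norm_num) hL 6
  have hb2 : ∀ t : ℝ, t ∈ Icc (0 : ℝ) 1 → t ^ nn L ≤ (L ^ 6)⁻¹ →
      ‖z * (exp (p ((t : ℂ) * z)) * (exp (gg (fun w => α w - p w) N L ((t : ℂ) * z)) - 1))‖ ≤
        M1 * (2 * ((2 * L + 3 * N * M2) * (L ^ 6)⁻¹)) := by
    intro t ht ht1
    obtain ⟨h3, h4, h5⟩ := hw t ht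
    rw [norm_mul, hz, one_mul, norm_mul]
    refine mul_le_mul (h1 _ h3) ?_ (norm_nonneg _) hM1
    have h6 := gg_small hU (b := fun w => α w - p w) hN0 hLpos (δ := (L ^ 6)⁻¹)
      (by rw [h4]; exact ht1) hL6 hL1 (h2 _ h3)
    have h7 : (2 * L + 3 * N * M2) * (L ^ 6)⁻¹ ≤ 1 := by
      rw [← div_eq_mul_inv, div_le_one (by positivity)]
      exact hL2
    have h8 := Complex.norm_exp_sub_one_le (h6.trans h7)
    linarith
  -- the splitting point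
  obtain ⟨t1, ht1⟩ : ∃ t1 : ℝ, t1 = Real.exp (-(6 * Real.log L) / nn L) := ⟨_, rfl⟩
  have hlog : 0 ≤ Real.log L := Real.log_nonneg (by linarith)
  have ht1pos : 0 < t1 := by rw [ht1]; exact Real.exp_pos _
  have ht1le : t1 ≤ 1 := by
    rw [ht1]
    apply Real.exp_le_one_iff.2
    rw [neg_div]
    have : 0 ≤ 6 * Real.log L / nn L := by positivity
    linarith
  have ht1n : t1 ^ nn L = (L ^ 6)⁻¹ := by
    rw [ht1, ← Real.exp_nat_mul, mul_div_cancel₀ _ hnpos.ne', Real.exp_neg]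
    congr 1
    rw [show (6 : ℝ) * Real.log L = ((6 : ℕ) : ℝ) * Real.log L by norm_num, Real.exp_nat_mul,
      Real.exp_log hLpos]
  have ht1ge : 1 - t1 ≤ 6 * Real.log L / nn L := by
    have h := Real.add_one_le_exp (-(6 * Real.log L) / nn L)
    rw [← ht1, neg_div] at h
    linarith
  -- the interval [0, t1]
  have hI1 : ‖(G ((t1 : ℂ) * z) - F ((t1 : ℂ) * z)) - (G (((0 : ℝ) : ℂ) * z) - F (((0 : ℝ) : ℂ) * z))‖ ≤
      M1 * (2 * ((2 * L + 3 * N * M2) * (L ^ 6)⁻¹)) * ‖t1 - 0‖ := by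
    refine Convex.norm_image_sub_le_of_norm_hasDerivWithin_le
      (f := fun t : ℝ => G ((t : ℂ) * z) - F ((t : ℂ) * z)) (s := Icc 0 t1)
      (fun t ht => (hder t ⟨ht.1, ht.2.trans ht1le⟩).hasDerivWithinAt)
      (fun t ht => hb2 t ⟨ht.1, ht.2.trans ht1le⟩ ?_) (convex_Icc 0 t1)
      (left_mem_Icc.2 ht1pos.le) (right_mem_Icc.2 ht1pos.le)
    rw [← ht1n]
    exact pow_le_pow_left₀ ht.1 ht.2 _
  have hI2 : ‖(G (((1 : ℝ) : ℂ) * z) - F (((1 : ℝ) : ℂ) * z)) - (G ((t1 : ℂ) * z) - F ((t1 : ℂ) * z))‖ ≤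
      M1 * (C + 1) * ‖1 - t1‖ := by
    refine Convex.norm_image_sub_le_of_norm_hasDerivWithin_le
      (f := fun t : ℝ => G ((t : ℂ) * z) - F ((t : ℂ) * z)) (s := Icc t1 1)
      (fun t ht => (hder t ⟨ht1pos.le.trans ht.1, ht.2⟩).hasDerivWithinAt)
      (fun t ht => hb1 t ⟨ht1pos.le.trans ht.1, ht.2⟩) (convex_Icc t1 1)
      (left_mem_Icc.2 ht1le) (right_mem_Icc.2 ht1le)
  rw [Complex.ofReal_zero, zero_mul, hG0, sub_self, sub_zero, sub_zero, Real.norm_eq_abs,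
    abs_of_pos ht1pos] at hI1
  rw [Complex.ofReal_one, one_mul, Real.norm_eq_abs, abs_of_nonneg (by linarith : 0 ≤ 1 - t1)]
    at hI2
  -- sizes
  have hA : M1 * (2 * ((2 * L + 3 * N * M2) * (L ^ 6)⁻¹)) * t1 ≤ (L ^ 3)⁻¹ / 2 := by
    have hpos : 0 ≤ M1 * (2 * ((2 * L + 3 * N * M2) * (L ^ 6)⁻¹)) := by positivity
    calc M1 * (2 * ((2 * L + 3 * N * M2) * (L ^ 6)⁻¹)) * t1
        ≤ M1 * (2 * ((2 * L + 3 * N * M2) * (L ^ 6)⁻¹)) * 1 :=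
          mul_le_mul_of_nonneg_left ht1le hpos
      _ = (4 * M1 * (2 * L + 3 * N * M2)) * (L ^ 6)⁻¹ / 2 := by ring
      _ ≤ L ^ 3 * (L ^ 6)⁻¹ / 2 := by
        have := mul_le_mul_of_nonneg_right hL3 (by positivity : (0 : ℝ) ≤ (L ^ 6)⁻¹)
        linarith
      _ = (L ^ 3)⁻¹ / 2 := by
        congr 1
        field_simp
  have hB : M1 * (C + 1) * (1 - t1) ≤ (L ^ 3)⁻¹ / 2 := by
    have hpos : 0 ≤ M1 * (C + 1) := by positivity
    have h3 : 1 - t1 ≤ 6 * L * (L / Real.exp L) := by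
      refine ht1ge.trans ?_
      have h4 : (nn L : ℝ)⁻¹ ≤ L / Real.exp L := by
        have h5 := inv_anti₀ (by positivity) (nn_ge (L := L))
        rwa [inv_div] at h5
      have h6 : Real.log L ≤ L := (Real.log_le_sub_one_of_pos hLpos).trans (by linarith)
      rw [div_eq_mul_inv]
      exact mul_le_mul (by linarith) h4 (by positivity) (by positivity)
    calc M1 * (C + 1) * (1 - t1) ≤ M1 * (C + 1) * (6 * L * (L / Real.exp L)) :=
          mul_le_mul_of_nonneg_left h3 hpos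
      _ = (12 * M1 * (C + 1) * L ^ 5) * ((L ^ 3)⁻¹ / Real.exp L) / 2 := by
        field_simp
        ring
      _ ≤ Real.exp L * ((L ^ 3)⁻¹ / Real.exp L) / 2 := by
        have := mul_le_mul_of_nonneg_right hL4
          (by positivity : (0 : ℝ) ≤ (L ^ 3)⁻¹ / Real.exp L)
        linarith
      _ = (L ^ 3)⁻¹ / 2 := by
        congr 1
        have := Real.exp_pos L
        field_simp
  calc ‖G z - F z‖ = ‖(G z - F z - (G ((t1 : ℂ) * z) - F ((t1 : ℂ) * z))) +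
        (G ((t1 : ℂ) * z) - F ((t1 : ℂ) * z))‖ := by rw [sub_add_cancel]
    _ ≤ ‖G z - F z - (G ((t1 : ℂ) * z) - F ((t1 : ℂ) * z))‖ +
        ‖G ((t1 : ℂ) * z) - F ((t1 : ℂ) * z)‖ := norm_add_le _ _
    _ ≤ (L ^ 3)⁻¹ / 2 + (L ^ 3)⁻¹ / 2 := add_le_add (hI2.trans hB) (hI1.trans hA)
    _ = (L ^ 3)⁻¹ := by ring

end E2

open E2

theorem e2 (h : S_U) : S_E2 := by
  intro R p F α N hg hA
  obtain ⟨hα, -, hN, -⟩ := hA
  have hsub : closedBall (0 : ℂ) 1 ⊆ ball 0 R := closedBall_subset_ball hg.1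
  have hpc : ContinuousOn p (closedBall 0 1) := hg.2.1.continuousOn.mono hsub
  obtain ⟨M1, hM1, h1⟩ := bdd (f := fun z => exp (p z)) (Complex.continuous_exp.comp_continuousOn hpc)
  obtain ⟨M2, -, h2⟩ := bdd (f := fun z => α z - p z) (hα.continuous.continuousOn.sub hpc)
  obtain ⟨L0, hL0⟩ := large N M1 M2 (Real.exp (M2 * (1 + Real.exp (3 / 2 * N))))
  refine ⟨L0, fun L hL R' G _ hP => ?_⟩
  obtain ⟨h3, h4, h5, h6, h7⟩ := hL0 L hL
  exact ⟨by linarith, fun z hz hre => core h hg hN hP hM1 h1 h2 h3 h4 h5 h6 h7 hz hre⟩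

end Pool.Agent.H928.IB
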