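import Pool.Agent.H928.IB.Stm

set_option autoImplicit false

open MeasureTheory Set Filter Topology Complex Metric
open scoped ComplexConjugate

namespace Pool.Agent.H928.IB

namespace E3

lemma exp_ge (L : ℝ) (hL : 6 ≤ L) : L ^ 2 + L ≤ Real.exp L := by
  have h1 := Real.sum_le_exp_of_nonneg (x := L) (by linarith) 4
  simp only [Finset.sum_range_succ, Finset.sum_range_zero, Nat.factorial] at h1
  norm_num at h1
  nlinarith [mul_nonneg (mul_self_nonneg L) (by linarith : 0 ≤ L - 6)]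

lemma nn_ge (L : ℝ) (hL : 6 ≤ L) : L + 1 ≤ (nn L : ℝ) := by
  have h1 := exp_ge L hL
  have h2 : L + 1 ≤ Real.exp L / L := by
    rw [le_div_iff₀ (by linarith)]
    nlinarith
  exact h2.trans (Nat.le_ceil _)

lemma nn_tendsto : Tendsto nn atTop atTop := by
  have h1 : Tendsto (fun L => (nn L : ℝ)) atTop atTop := by
    refine tendsto_atTop_mono' atTop ?_ tendsto_id
    filter_upwards [eventually_ge_atTop 6] with L hL
    have := nn_ge L hL
    simp only [id]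
    linarith
  exact tendsto_natCast_atTop_iff.mp h1

lemma lim1 (r : ℝ) (h0 : 0 ≤ r) (h1 : r < 1) :
    Tendsto (fun L : ℝ => (nn L : ℝ) * r ^ nn L) atTop (𝓝 0) := by
  have h2 := tendsto_self_mul_const_pow_of_abs_lt_one (r := r) (by rw [abs_of_nonneg h0]; exact h1)
  exact h2.comp nn_tendsto

lemma ev1 (r : ℝ) (h0 : 0 ≤ r) (h1 : r < 1) (c : ℝ) (hc : 0 < c) :
    ∃ L0 : ℝ, 6 ≤ L0 ∧ ∀ L, L0 ≤ L → (L + 1) * r ^ nn L ≤ c := by
  have h2 := lim1 r h0 h1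
  have h3 := h2.eventually (gt_mem_nhds hc)
  obtain ⟨L1, hL1⟩ := eventually_atTop.mp h3
  refine ⟨max 6 L1, le_max_left _ _, fun L hL => ?_⟩
  have h4 := hL1 L ((le_max_right _ _).trans hL)
  have h5 := nn_ge L ((le_max_left _ _).trans hL)
  have h6 : 0 ≤ r ^ nn L := pow_nonneg h0 _
  nlinarith [mul_le_mul_of_nonneg_right h5 h6]

lemma qq_norm (L : ℝ) (hL : 0 ≤ L) : ‖(qq L : ℂ)‖ ≤ 1 := by
  rw [Complex.norm_real, Real.norm_eq_abs, abs_le]
  unfold qq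
  have h1 := Real.exp_pos (-2 * L)
  have h2 : Real.exp (-2 * L) ≤ 1 := Real.exp_le_one_iff.mpr (by linarith)
  constructor <;> linarith

lemma EE_bd (N : ℝ) (hN : 0 ≤ N) (s : ℂ) (ρ : ℝ) (hs : ‖s‖ ≤ ρ) (h1 : ρ ≤ 1 / 2)
    (h2 : N * (3 / 2) * ρ ≤ 1) : ‖1 - EE N s‖ ≤ 3 * N * ρ := by
  have h0 := norm_nonneg s
  have h3 : ‖s - s ^ 2 / 2‖ ≤ 3 / 2 * ρ := by
    calc ‖s - s ^ 2 / 2‖ ≤ ‖s‖ + ‖s ^ 2 / 2‖ := norm_sub_le _ _
      _ = ‖s‖ + ‖s‖ ^ 2 / 2 := by rw [norm_div, norm_pow]; norm_num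
      _ ≤ 3 / 2 * ρ := by nlinarith
  have h4 : ‖-(N : ℂ) * (s - s ^ 2 / 2)‖ ≤ N * (3 / 2 * ρ) := by
    rw [norm_mul, norm_neg, Complex.norm_real, Real.norm_eq_abs, abs_of_nonneg hN]
    exact mul_le_mul_of_nonneg_left h3 hN
  unfold EE
  rw [norm_sub_rev]
  refine (Complex.norm_exp_sub_one_le (h4.trans (by linarith))).trans ?_
  linarith

lemma gg_bd (hU : S_U) (b : ℂ → ℂ) (N L : ℝ) (hN : 0 ≤ N) (hL : 0 ≤ L) (w : ℂ) (r M2 : ℝ)
    (hw : ‖w‖ ≤ r) (hM : ‖b w‖ ≤ M2) (h1 : r ^ nn L ≤ 1 / 2)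
    (h2 : N * (3 / 2) * r ^ nn L ≤ 1) :
    ‖gg b N L w‖ ≤ 2 * L * r ^ nn L + M2 * (3 * N * r ^ nn L) := by
  have hs : ‖w ^ nn L‖ ≤ r ^ nn L := by
    rw [norm_pow]
    exact pow_le_pow_left₀ (norm_nonneg _) hw _
  have hq : ‖(qq L : ℂ) * w ^ nn L‖ ≤ r ^ nn L := by
    rw [norm_mul]
    calc ‖(qq L : ℂ)‖ * ‖w ^ nn L‖ ≤ 1 * ‖w ^ nn L‖ :=
          mul_le_mul_of_nonneg_right (qq_norm L hL) (norm_nonneg _)
      _ ≤ r ^ nn L := by rw [one_mul]; exact hs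
  have hu : ‖uu ((qq L : ℂ) * w ^ nn L)‖ ≤ 2 * r ^ nn L := by
    have h3 := (hU.2 ((qq L : ℂ) * w ^ nn L) (by linarith)).2.2.2.2.1 (hq.trans h1)
    linarith
  unfold gg
  refine (norm_add_le _ _).trans (add_le_add ?_ ?_)
  · rw [norm_mul, Complex.norm_real, Real.norm_eq_abs, abs_of_nonneg hL]
    calc L * ‖uu ((qq L : ℂ) * w ^ nn L)‖ ≤ L * (2 * r ^ nn L) := mul_le_mul_of_nonneg_left hu hL
      _ = 2 * L * r ^ nn L := by ring
  · rw [norm_mul]
    exact mul_le_mul hM (EE_bd N hN _ _ hs h1 h2) (norm_nonneg _) ((norm_nonneg _).trans hM)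

lemma main (hU : S_U) (R : ℝ) (p F α : ℂ → ℂ) (N : ℝ) (hG : Good R p F) (hA : Amp p F α N)
    (r : ℝ) (hr0 : 0 ≤ r) (hr : r < 1) (ε : ℝ) (hε : 0 < ε) :
    Ev R p F α N (fun _ G => ∀ z : ℂ, ‖z‖ ≤ r → ‖G z - F z‖ ≤ ε) := by
  obtain ⟨hR, hp, hF, -⟩ := hG
  obtain ⟨hα, -, hN, -⟩ := hA
  have hKR : closedBall (0 : ℂ) r ⊆ ball 0 R := closedBall_subset_ball (by linarith)
  have hK : IsCompact (closedBall (0 : ℂ) r) := isCompact_closedBall _ _
  have hpc : ContinuousOn p (closedBall 0 r) := hp.continuousOn.mono hKR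
  obtain ⟨M1, hM1⟩ := hK.exists_bound_of_continuousOn hpc.cexp
  obtain ⟨M2, hM2⟩ := hK.exists_bound_of_continuousOn
    (f := fun w => α w - p w) (hα.continuous.continuousOn.sub hpc)
  have hM2' : 0 ≤ M2 := (norm_nonneg _).trans (hM2 0 (by simp [hr0]))
  have hM1' : 0 ≤ M1 := (norm_nonneg _).trans (hM1 0 (by simp [hr0]))
  -- choose c
  have hD : 0 < 2 + 3 * N * (M2 + 1) := by positivity
  obtain ⟨L0, hL6, hL0⟩ := ev1 r hr0 hr (min (1 / (2 + 3 * N * (M2 + 1)))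
    (ε / (2 * (M1 + 1) * (2 + 3 * N * (M2 + 1))))) (by positivity)
  refine ⟨L0, fun L hL R' G hRR hP => ?_⟩
  obtain ⟨hR1, -, -, hG0, hGd⟩ := hP
  have hL' : 6 ≤ L := hL6.trans hL
  have hb := hL0 L hL
  have hb1 : (L + 1) * r ^ nn L ≤ 1 / (2 + 3 * N * (M2 + 1)) := hb.trans (min_le_left _ _)
  have hb2 : (L + 1) * r ^ nn L ≤ ε / (2 * (M1 + 1) * (2 + 3 * N * (M2 + 1))) :=
    hb.trans (min_le_right _ _)
  have hρ : 0 ≤ r ^ nn L := pow_nonneg hr0 _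
  have hρL : r ^ nn L ≤ (L + 1) * r ^ nn L := by nlinarith
  rw [le_div_iff₀ hD] at hb1
  rw [le_div_iff₀ (by positivity)] at hb2
  have hx : 0 ≤ (L + 1) * r ^ nn L := by positivity
  have h3 : r ^ nn L ≤ 1 / 2 := by
    have : 0 ≤ (L + 1) * r ^ nn L * (3 * N * (M2 + 1)) := by positivity
    nlinarith
  have h4 : N * (3 / 2) * r ^ nn L ≤ 1 := by
    have e1 : 0 ≤ (L + 1) * r ^ nn L * (3 * N * M2) := by positivity
    have e2 : N * r ^ nn L ≤ N * ((L + 1) * r ^ nn L) :=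
      mul_le_mul_of_nonneg_left hρL (by linarith)
    have e3 : 0 ≤ N * ((L + 1) * r ^ nn L) := by positivity
    nlinarith
  have hδ : 2 * L * r ^ nn L + M2 * (3 * N * r ^ nn L) ≤
      (L + 1) * r ^ nn L * (2 + 3 * N * (M2 + 1)) := by
    have e1 : 0 ≤ (L + 1) * r ^ nn L * (3 * N) := by positivity
    have e2 : M2 * (3 * N * r ^ nn L) ≤ M2 * (3 * N * ((L + 1) * r ^ nn L)) := by
      refine mul_le_mul_of_nonneg_left (mul_le_mul_of_nonneg_left hρL (by positivity)) hM2'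
    nlinarith
  have hder : ∀ w ∈ closedBall (0 : ℂ) r,
      HasDerivWithinAt (fun z => G z - F z) (exp (pp p α N L w) - exp (p w))
        (closedBall (0 : ℂ) r) w := by
    intro w hw
    have hw' : ‖w‖ ≤ r := by simpa using hw
    have hw1 : w ∈ ball (0 : ℂ) R' := by
      simp only [mem_ball, dist_zero_right]; linarith
    exact ((hGd w hw1).sub (hF w (hKR hw))).hasDerivWithinAt
  have hbound : ∀ w ∈ closedBall (0 : ℂ) r, ‖exp (pp p α N L w) - exp (p w)‖ ≤ ε := by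
    intro w hw
    have hw' : ‖w‖ ≤ r := by simpa using hw
    have hg := gg_bd hU (fun w => α w - p w) N L (by linarith) (by linarith) w r M2 hw'
      (hM2 w hw) h3 h4
    have hg2 : ‖gg (fun w => α w - p w) N L w‖ ≤
        (L + 1) * r ^ nn L * (2 + 3 * N * (M2 + 1)) := hg.trans hδ
    have he : exp (pp p α N L w) - exp (p w) =
        exp (p w) * (exp (gg (fun w => α w - p w) N L w) - 1) := by
      unfold pp
      rw [Complex.exp_add]
      ring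
    rw [he, norm_mul]
    have h5 := Complex.norm_exp_sub_one_le (hg2.trans hb1)
    have h6 := hM1 w hw
    calc ‖exp (p w)‖ * ‖exp (gg (fun w => α w - p w) N L w) - 1‖ ≤
        (M1 + 1) * (2 * ((L + 1) * r ^ nn L * (2 + 3 * N * (M2 + 1)))) := by
          refine mul_le_mul (by linarith) (h5.trans ?_) (norm_nonneg _) (by linarith)
          linarith
      _ = (L + 1) * r ^ nn L * (2 * (M1 + 1) * (2 + 3 * N * (M2 + 1))) := by ring
      _ ≤ ε := hb2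
  intro z hz
  have h7 := (convex_closedBall (0 : ℂ) r).norm_image_sub_le_of_norm_hasDerivWithin_le hder hbound
    (x := 0) (y := z) (by simp [hr0]) (by simpa using hz)
  have h8 : G 0 - F 0 = 0 := by rw [hG0, sub_self]
  rw [h8, sub_zero, sub_zero] at h7
  refine h7.trans ?_
  calc ε * ‖z‖ ≤ ε * 1 := mul_le_mul_of_nonneg_left (by linarith) hε.le
    _ = ε := mul_one _

end E3

theorem e3 (h : S_U) : S_E3 := by
  intro R p F α N hG hA r hr ε hε
  obtain ⟨L0, hL0⟩ := E3.main h R p F α N hG hA (max r 0) (le_max_right _ _)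
    (max_lt hr one_pos) ε hε
  refine ⟨L0, fun L hL R' G hR hP z hz => hL0 L hL R' G hR hP z (hz.trans (le_max_left _ _))⟩

end Pool.Agent.H928.IB
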