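import Pool.Agent.H928.IB.Stm

/-!
# P14: equidistribution
-/

set_option autoImplicit false

open MeasureTheory Set Filter Topology Complex Metric
open scoped ComplexConjugate

namespace Pool.Agent.H928.IB.Eq

open Pool.Agent.H928.IB

theorem cm_sub (s t : ℝ) : ‖cm s - cm t‖ ≤ |s - t| := by
  have h : cm s - cm t = Complex.exp (t * I) * (Complex.exp (I * ((s - t : ℝ) : ℂ)) - 1) := by
    unfold cm
    rw [mul_sub, ← Complex.exp_add, mul_one]
    congr 2
    push_cast
    ring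
  rw [h, norm_mul, Complex.norm_exp_ofReal_mul_I, one_mul]
  exact Real.norm_exp_I_mul_ofReal_sub_one_le

theorem norm_cm (t : ℝ) : ‖cm t‖ = 1 := Complex.norm_exp_ofReal_mul_I t

theorem cm_per (t : ℝ) : cm (t + 2 * Real.pi) = cm t := by
  unfold cm
  rw [show ((t + 2 * Real.pi : ℝ) : ℂ) * I = t * I + 2 * Real.pi * I by push_cast; ring]
  rw [Complex.exp_add, Complex.exp_two_pi_mul_I, mul_one]

theorem cm_cont : Continuous cm := by
  unfold cm
  fun_prop

/-- Equidistribution for slowly varying functions. -/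
theorem equi (n : ℕ) (hn : 1 ≤ n) (g : ℝ → ℝ) (hg : Continuous g)
    (hper : ∀ θ, g (θ + 2 * Real.pi) = g θ) (δ : ℝ) (hδ : 0 ≤ δ)
    (hl : ∀ θ, g (θ + Real.pi / n) ≤ g θ + δ) :
    ∫ θ in {θ : ℝ | θ ∈ Icc 0 (2 * Real.pi) ∧ Real.cos (n * θ) ≤ 0}, g θ ≤
      1 / 2 * (∫ θ in (0:ℝ)..(2 * Real.pi), g θ) + Real.pi * δ := by
  have hpi := Real.pi_pos
  have hT : (0 : ℝ) ≤ 2 * Real.pi := by linarith
  have hn0 : (0 : ℝ) < n := Nat.cast_pos.2 hn
  set S : Set ℝ := {θ : ℝ | Real.cos (n * θ) ≤ 0} with hSd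
  have hS : MeasurableSet S := by
    have : IsClosed S := isClosed_le (by fun_prop) continuous_const
    exact this.measurableSet
  set H : ℝ → ℝ := S.indicator g with hHd
  have hgi : ∀ x y, IntervalIntegrable g volume x y := fun x y => hg.intervalIntegrable x y
  have hHi : ∀ x y, IntervalIntegrable H volume x y := fun x y =>
    ⟨(hgi x y).1.indicator hS, (hgi x y).2.indicator hS⟩
  have hHper : Function.Periodic H (2 * Real.pi) := by
    intro θ
    have h1 : Real.cos (n * (θ + 2 * Real.pi)) = Real.cos (n * θ) := by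
      have : (n : ℝ) * (θ + 2 * Real.pi) = n * θ + n * (2 * Real.pi) := by ring
      rw [this, Real.cos_add_nat_mul_two_pi]
    by_cases h : θ ∈ S
    · have h' : θ + 2 * Real.pi ∈ S := by
        simp only [hSd, mem_ofPred_eq] at h ⊢
        rw [h1]; exact h
      rw [hHd, indicator_of_mem h, indicator_of_mem h', hper]
    · have h' : θ + 2 * Real.pi ∉ S := by
        simp only [hSd, mem_ofPred_eq] at h ⊢
        rw [h1]; exact h
      rw [hHd, indicator_of_notMem h, indicator_of_notMem h']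
  -- the set integral
  have hset : ∫ θ in {θ : ℝ | θ ∈ Icc 0 (2 * Real.pi) ∧ Real.cos (n * θ) ≤ 0}, g θ =
      ∫ θ in (0:ℝ)..(2 * Real.pi), H θ := by
    have h1 : {θ : ℝ | θ ∈ Icc 0 (2 * Real.pi) ∧ Real.cos (n * θ) ≤ 0} =
        Icc 0 (2 * Real.pi) ∩ S := rfl
    rw [h1, intervalIntegral.integral_of_le hT, ← integral_Icc_eq_integral_Ioc, hHd,
      setIntegral_indicator hS]
  rw [hset]
  have hshift : ∫ θ in (0:ℝ)..(2 * Real.pi), H (θ + Real.pi / n) =
      ∫ θ in (0:ℝ)..(2 * Real.pi), H θ := by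
    rw [intervalIntegral.integral_comp_add_right]
    have := hHper.intervalIntegral_add_eq (Real.pi / n) 0
    rw [zero_add] at this ⊢
    rw [add_comm (2 * Real.pi) (Real.pi / n)]
    exact this
  have hHi2 : IntervalIntegrable (fun θ => H (θ + Real.pi / n)) volume 0 (2 * Real.pi) := by
    have := (hHi (0 + Real.pi / n) (2 * Real.pi + Real.pi / n)).comp_add_right (Real.pi / n)
    simpa using this
  have hnull : ∀ᵐ θ : ℝ, Real.cos (n * θ) ≠ 0 := by
    have hc : {θ : ℝ | ¬ Real.cos (n * θ) ≠ 0} ⊆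
        range (fun k : ℤ => (2 * (k : ℝ) + 1) * Real.pi / 2 / n) := by
      intro θ hθ
      simp only [mem_ofPred_eq, not_not] at hθ
      obtain ⟨k, hk⟩ := Real.cos_eq_zero_iff.1 hθ
      refine ⟨k, ?_⟩
      simp only
      rw [← hk]
      field_simp
    exact ae_iff.2 (measure_mono_null hc ((countable_range _).measure_zero volume))
  have hsum : ∫ θ in (0:ℝ)..(2 * Real.pi), (H θ + H (θ + Real.pi / n)) ≤
      ∫ θ in (0:ℝ)..(2 * Real.pi), (g θ + δ) := by
    refine intervalIntegral.integral_mono_ae hT ((hHi _ _).add hHi2)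
      ((hgi _ _).add intervalIntegrable_const) ?_
    filter_upwards [hnull] with θ hθ
    have h2 : Real.cos (n * (θ + Real.pi / n)) = -Real.cos (n * θ) := by
      have : (n : ℝ) * (θ + Real.pi / n) = n * θ + Real.pi := by field_simp
      rw [this, Real.cos_add_pi]
    rcases lt_or_gt_of_ne hθ with h | h
    · have h3 : θ ∈ S := h.le
      have h4 : θ + Real.pi / n ∉ S := by
        simp only [hSd, mem_ofPred_eq, h2]
        linarith
      simp only [hHd]
      rw [indicator_of_mem h3, indicator_of_notMem h4]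
      linarith
    · have h3 : θ ∉ S := by
        simp only [hSd, mem_ofPred_eq]
        linarith
      have h4 : θ + Real.pi / n ∈ S := by
        simp only [hSd, mem_ofPred_eq, h2]
        linarith
      simp only [hHd]
      rw [indicator_of_notMem h3, indicator_of_mem h4]
      linarith [hl θ]
  rw [intervalIntegral.integral_add (hHi _ _) hHi2, hshift,
    intervalIntegral.integral_add (hgi _ _) intervalIntegrable_const,
    intervalIntegral.integral_const] at hsum
  simp only [sub_zero, smul_eq_mul] at hsum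
  linarith

theorem log_le4 (y : ℝ) (hy : 0 < y) : Real.log y ≤ 4 * y ^ (1 / 4 : ℝ) := by
  have h1 : Real.log (y ^ (1 / 4 : ℝ)) ≤ y ^ (1 / 4 : ℝ) - 1 :=
    Real.log_le_sub_one_of_pos (Real.rpow_pos_of_pos hy _)
  rw [Real.log_rpow hy] at h1
  linarith

/-- the modulus of `T_a w` -/
noncomputable def tt (a w : ℂ) : ℝ := ‖(w - a) / (1 - conj a * w)‖

theorem den_pos {a w : ℂ} {ρ : ℝ} (hρ : ρ < 1) (ha : ‖a‖ ≤ ρ) (hw : ‖w‖ ≤ 1) :
    1 - ρ ≤ ‖1 - conj a * w‖ := by
  have h1 : ‖(1 : ℂ)‖ - ‖conj a * w‖ ≤ ‖1 - conj a * w‖ := norm_sub_norm_le _ _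
  rw [norm_mul, RCLike.norm_conj, norm_one] at h1
  have h2 : ‖a‖ * ‖w‖ ≤ ρ * 1 :=
    mul_le_mul ha hw (norm_nonneg _) ((norm_nonneg a).trans ha)
  linarith

theorem tt_le_one {a w : ℂ} {ρ : ℝ} (hρ : ρ < 1) (ha : ‖a‖ ≤ ρ) (hw : ‖w‖ ≤ 1) :
    tt a w ≤ 1 := by
  have hd := den_pos hρ ha hw
  have hd0 : 0 < ‖1 - conj a * w‖ := by linarith
  unfold tt
  rw [norm_div, div_le_one hd0]
  have key : ‖1 - conj a * w‖ ^ 2 - ‖w - a‖ ^ 2 = (1 - ‖a‖ ^ 2) * (1 - ‖w‖ ^ 2) := by
    rw [← Complex.normSq_eq_norm_sq, ← Complex.normSq_eq_norm_sq, ← Complex.normSq_eq_norm_sq,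
      ← Complex.normSq_eq_norm_sq]
    simp only [Complex.normSq_apply, Complex.sub_re, Complex.sub_im, Complex.one_re,
      Complex.one_im, Complex.mul_re, Complex.mul_im, Complex.conj_re, Complex.conj_im]
    ring
  have hp : 0 ≤ (1 - ‖a‖ ^ 2) * (1 - ‖w‖ ^ 2) := by
    apply mul_nonneg <;> nlinarith [norm_nonneg a, norm_nonneg w]
  nlinarith [norm_nonneg (w - a), norm_nonneg (1 - conj a * w)]

theorem tt_ge {a w : ℂ} {ρ : ℝ} (hρ : ρ < 1) (ha : ‖a‖ ≤ ρ) (hw : ‖w‖ ≤ 1) :
    ‖w - a‖ / 2 ≤ tt a w := by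
  have hd := den_pos hρ ha hw
  have hd0 : 0 < ‖1 - conj a * w‖ := by linarith
  unfold tt
  rw [norm_div]
  have h1 : ‖1 - conj a * w‖ ≤ 2 := by
    have h1 : ‖1 - conj a * w‖ ≤ ‖(1 : ℂ)‖ + ‖conj a * w‖ := norm_sub_le _ _
    rw [norm_mul, RCLike.norm_conj, norm_one] at h1
    have h2 : ‖a‖ * ‖w‖ ≤ 1 * 1 :=
      mul_le_mul (by linarith) hw (norm_nonneg _) zero_le_one
    linarith
  exact div_le_div_of_nonneg_left (norm_nonneg _) hd0 h1

theorem tt_lip {a w w' : ℂ} {ρ : ℝ} (hρ : ρ < 1) (ha : ‖a‖ ≤ ρ) (hw : ‖w‖ ≤ 1) (hw' : ‖w'‖ ≤ 1) :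
    |tt a w - tt a w'| ≤ ‖w - w'‖ / (1 - ρ) ^ 2 := by
  have hd := den_pos hρ ha hw
  have hd' := den_pos hρ ha hw'
  have hρ' : 0 < 1 - ρ := by linarith
  have hne : 1 - conj a * w ≠ 0 := norm_pos_iff.1 (by linarith)
  have hne' : 1 - conj a * w' ≠ 0 := norm_pos_iff.1 (by linarith)
  unfold tt
  refine (abs_norm_sub_norm_le _ _).trans ?_
  have h1 : (w - a) / (1 - conj a * w) - (w' - a) / (1 - conj a * w') =
      (w - w') * (1 - conj a * a) / ((1 - conj a * w) * (1 - conj a * w')) := by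
    rw [div_sub_div _ _ hne hne']
    congr 1
    ring
  rw [h1, norm_div, norm_mul, norm_mul]
  have h2 : ‖1 - conj a * a‖ ≤ 1 := by
    have h3 : (1 : ℂ) - conj a * a = ((1 - ‖a‖ ^ 2 : ℝ) : ℂ) := by
      rw [← Complex.normSq_eq_conj_mul_self, Complex.normSq_eq_norm_sq]
      push_cast
      ring
    rw [h3, Complex.norm_real, Real.norm_eq_abs, abs_le]
    constructor <;> nlinarith [norm_nonneg a]
  refine div_le_div₀ (norm_nonneg _) ?_ (by positivity) ?_
  · exact mul_le_of_le_one_right (norm_nonneg _) h2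
  · rw [sq]
    exact mul_le_mul hd hd' hρ'.le (norm_nonneg _)

theorem log_max_lip (c x y : ℝ) (hc : 0 < c) :
    -Real.log (max y c) ≤ -Real.log (max x c) + |x - y| / c := by
  have hx : c ≤ max x c := le_max_right _ _
  have hy : c ≤ max y c := le_max_right _ _
  have hy0 : 0 < max y c := hc.trans_le hy
  have hx0 : 0 < max x c := hc.trans_le hx
  have h1 : Real.log (max x c) - Real.log (max y c) ≤ (max x c - max y c) / max y c := by
    rw [← Real.log_div hx0.ne' hy0.ne']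
    have := Real.log_le_sub_one_of_pos (div_pos hx0 hy0)
    have h2 : max x c / max y c - 1 = (max x c - max y c) / max y c := by
      field_simp
    linarith
  have h3 : (max x c - max y c) / max y c ≤ |x - y| / c := by
    have h4 : max x c - max y c ≤ |x - y| := (le_abs_self _).trans (abs_max_sub_max_le_abs x y c)
    refine (div_le_div_of_nonneg_right h4 hy0.le).trans ?_
    exact div_le_div_of_nonneg_left (abs_nonneg _) hc hy
  linarith

end Pool.Agent.H928.IB.Eq

namespace Pool.Agent.H928.IB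

open Pool.Agent.H928.IB.Eq

theorem eqd (h : S_LIF) : S_EQ := by
  intro R p F hGood ρ hρ ε hε
  have hpi := Real.pi_pos
  obtain ⟨B0, hB0⟩ := h R p F hGood
  obtain ⟨hR, hpd, hder, hlt⟩ := hGood
  rcases lt_or_ge ρ 0 with hneg | hρ0
  · exact ⟨0, fun n _ a ha => absurd ((norm_nonneg a).trans ha) (not_le.2 hneg)⟩
  have hT : (0 : ℝ) ≤ 2 * Real.pi := by linarith
  set γ : ℝ → ℂ := fun θ => F (cm θ) with hγd
  have hFc : ContinuousOn F (closedBall 0 1) := by
    intro z hz
    have hz1 : z ∈ ball (0 : ℂ) R := by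
      rw [mem_ball_zero_iff]
      rw [mem_closedBall_zero_iff] at hz
      linarith
    exact (hder z hz1).continuousAt.continuousWithinAt
  have hcmb : ∀ θ, cm θ ∈ closedBall (0 : ℂ) 1 := fun θ => by
    rw [mem_closedBall_zero_iff, norm_cm]
  have hγc : Continuous γ := by
    have := hFc.comp_continuous cm_cont hcmb
    exact this
  have hγ1 : ∀ θ, ‖γ θ‖ ≤ 1 := fun θ => (hlt _ (norm_cm θ).le).le
  have hγp : ∀ θ, γ (θ + 2 * Real.pi) = γ θ := fun θ => by
    simp only [hγd]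
    rw [cm_per]
  -- the constant
  set B : ℝ := max B0 0 with hBd
  have hB : 0 ≤ B := le_max_right _ _
  obtain ⟨M, hM0, hM⟩ : ∃ M : ℝ, 0 ≤ M ∧ 8 * Real.exp (-M / 4) * B ≤ ε / 2 := by
    refine ⟨4 * (16 * B / ε), by positivity, ?_⟩
    have h1 : -(4 * (16 * B / ε)) / 4 = -(16 * B / ε) := by ring
    rw [h1, Real.exp_neg]
    have h2 : 1 + 16 * B / ε ≤ Real.exp (16 * B / ε) := by
      have := Real.add_one_le_exp (16 * B / ε)
      linarith
    have h3 : (Real.exp (16 * B / ε))⁻¹ ≤ (1 + 16 * B / ε)⁻¹ :=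
      inv_anti₀ (by positivity) h2
    have h4 : 8 * (1 + 16 * B / ε)⁻¹ * B ≤ ε / 2 := by
      have h5 : 0 < 1 + 16 * B / ε := by positivity
      rw [show 8 * (1 + 16 * B / ε)⁻¹ * B = 8 * B / (1 + 16 * B / ε) by field_simp]
      rw [div_le_iff₀ h5]
      have h6 : ε / 2 * (1 + 16 * B / ε) = ε / 2 + 8 * B := by
        field_simp
        ring
      rw [h6]
      linarith
    refine le_trans ?_ h4
    have : 8 * (Real.exp (16 * B / ε))⁻¹ ≤ 8 * (1 + 16 * B / ε)⁻¹ := by linarith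
    exact mul_le_mul_of_nonneg_right this hB
  set c : ℝ := Real.exp (-M) with hcd
  have hc : 0 < c := Real.exp_pos _
  have hc1 : c ≤ 1 := Real.exp_le_one_iff.2 (by linarith)
  have hρ' : 0 < 1 - ρ := by linarith
  -- uniform continuity
  set δ : ℝ := ε / (2 * Real.pi) with hδd
  have hδ : 0 < δ := by positivity
  have huc : UniformContinuousOn F (closedBall 0 1) :=
    (isCompact_closedBall 0 1).uniformContinuousOn_of_continuous hFc
  obtain ⟨η, hη, hηF⟩ := Metric.uniformContinuousOn_iff.1 huc (δ * c * (1 - ρ) ^ 2) (by positivity)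
  obtain ⟨n1, hn1⟩ := exists_nat_gt (Real.pi / η)
  refine ⟨n1 + 1, fun n hn a ha => ?_⟩
  have hn1' : 1 ≤ n := le_trans (Nat.le_add_left 1 n1) hn
  have hn0 : (0 : ℝ) < n := Nat.cast_pos.2 hn1'
  have hnη : Real.pi / n < η := by
    rw [div_lt_iff₀ hn0]
    have h1 : (n1 : ℝ) ≤ n := Nat.cast_le.2 (le_trans (Nat.le_add_right n1 1) hn)
    rw [div_lt_iff₀ hη] at hn1
    nlinarith
  have ha1 : ‖a‖ < 1 := ha.trans_lt hρ
  set t : ℝ → ℝ := fun θ => tt a (γ θ) with htd
  have hden : ∀ θ, 1 - conj a * γ θ ≠ 0 := fun θ => by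
    have := den_pos hρ ha (hγ1 θ)
    exact norm_pos_iff.1 (by linarith)
  have htc : Continuous t := by
    simp only [htd, tt]
    exact ((hγc.sub continuous_const).div (continuous_const.sub (continuous_const.mul hγc))
      hden).norm
  have ht0 : ∀ θ, 0 ≤ t θ := fun θ => norm_nonneg _
  have ht1 : ∀ θ, t θ ≤ 1 := fun θ => tt_le_one hρ ha (hγ1 θ)
  have htx : ∀ θ, ‖γ θ - a‖ / 2 ≤ t θ := fun θ => tt_ge hρ ha (hγ1 θ)
  set f : ℝ → ℝ := fun θ => ell a (γ θ) with hfd
  have hf : ∀ θ, f θ = -Real.log (t θ) := fun θ => rfl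
  have hf0 : ∀ θ, 0 ≤ f θ := fun θ => by
    rw [hf]
    have := Real.log_nonpos (ht0 θ) (ht1 θ)
    linarith
  set g : ℝ → ℝ := fun θ => -Real.log (max (t θ) c) with hgd
  have hgc : Continuous g := by
    refine Continuous.neg (Continuous.log (htc.max continuous_const) fun θ => ?_)
    exact (hc.trans_le (le_max_right _ _)).ne'
  have hg0 : ∀ θ, 0 ≤ g θ := fun θ => by
    have := Real.log_nonpos (hc.le.trans (le_max_right (t θ) c)) (max_le (ht1 θ) hc1)
    simp only [hgd]
    linarith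
  have hgper : ∀ θ, g (θ + 2 * Real.pi) = g θ := fun θ => by
    simp only [hgd, htd]
    rw [hγp]
  have hglip : ∀ θ, g (θ + Real.pi / n) ≤ g θ + δ := by
    intro θ
    have h1 := log_max_lip c (t θ) (t (θ + Real.pi / n)) hc
    have h2 : |t θ - t (θ + Real.pi / n)| ≤ ‖γ θ - γ (θ + Real.pi / n)‖ / (1 - ρ) ^ 2 :=
      tt_lip hρ ha (hγ1 _) (hγ1 _)
    have h3 : ‖γ θ - γ (θ + Real.pi / n)‖ < δ * c * (1 - ρ) ^ 2 := by
      have h4 : dist (cm θ) (cm (θ + Real.pi / n)) < η := by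
        rw [dist_eq_norm]
        refine (cm_sub _ _).trans_lt ?_
        have h5 : θ - (θ + Real.pi / n) = -(Real.pi / n) := by ring
        rw [h5, abs_neg, abs_of_pos (by positivity)]
        exact hnη
      have := hηF _ (hcmb θ) _ (hcmb (θ + Real.pi / n)) h4
      rwa [dist_eq_norm] at this
    have h6 : |t θ - t (θ + Real.pi / n)| / c ≤ δ := by
      rw [div_le_iff₀ hc]
      refine h2.trans ?_
      rw [div_le_iff₀ (by positivity)]
      exact h3.le
    simp only [hgd]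
    linarith
  -- the tail
  obtain ⟨hnull, hint, hle⟩ := hB0 a
  set k : ℝ := 8 * Real.exp (-M / 4) with hkd
  have hk : 0 ≤ k := by positivity
  set s : ℝ → ℝ := fun θ => k * ‖γ θ - a‖ ^ (-(1 / 2 : ℝ)) with hsd
  have hs0 : ∀ θ, 0 ≤ s θ := fun θ => mul_nonneg hk (Real.rpow_nonneg (norm_nonneg _) _)
  have hfgs : ∀ θ, f θ ≤ g θ + s θ := by
    intro θ
    rcases (norm_nonneg (γ θ - a)).eq_or_lt with h0 | hpos
    · have h1 : t θ = 0 := by
        simp only [htd, tt, norm_div]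
        rw [← h0, zero_div]
      have h2 : f θ = 0 := by rw [hf, h1, Real.log_zero, neg_zero]
      rw [h2]
      exact add_nonneg (hg0 θ) (hs0 θ)
    · have htpos : 0 < t θ := (by positivity : 0 < ‖γ θ - a‖ / 2).trans_le (htx θ)
      rcases le_or_gt c (t θ) with h1 | h1
      · have h2 : g θ = f θ := by
          simp only [hgd]
          rw [hf, max_eq_left h1]
        rw [h2]
        linarith [hs0 θ]
      · have h2 : f θ ≤ s θ := by
          set y : ℝ := (t θ)⁻¹ with hyd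
          have hy : 0 < y := inv_pos.2 htpos
          have h3 : f θ = Real.log y := by rw [hf, hyd, Real.log_inv]
          have h4 : Real.exp M ≤ y := by
            have h5 : Real.exp M = c⁻¹ := by rw [hcd, Real.exp_neg, inv_inv]
            rw [h5, hyd]
            exact inv_anti₀ htpos h1.le
          have h6 : Real.log y ≤ 4 * y ^ (1 / 4 : ℝ) := log_le4 y hy
          have h7 : y ^ (1 / 4 : ℝ) ≤ Real.exp (-M / 4) * y ^ (1 / 2 : ℝ) := by
            have h8 : y ^ (1 / 2 : ℝ) = y ^ (1 / 4 : ℝ) * y ^ (1 / 4 : ℝ) := by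
              rw [← Real.rpow_add hy]; norm_num
            have h9 : Real.exp (M / 4) ≤ y ^ (1 / 4 : ℝ) := by
              have h10 : Real.exp (M / 4) = (Real.exp M) ^ (1 / 4 : ℝ) := by
                rw [← Real.exp_mul]; congr 1; ring
              rw [h10]
              exact Real.rpow_le_rpow (Real.exp_pos _).le h4 (by norm_num)
            have h11 : 1 ≤ Real.exp (-M / 4) * y ^ (1 / 4 : ℝ) := by
              have h12 : Real.exp (-M / 4) * Real.exp (M / 4) = 1 := by
                rw [← Real.exp_add, show -M / 4 + M / 4 = 0 by ring, Real.exp_zero]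
              have h12' := mul_le_mul_of_nonneg_left h9 (Real.exp_pos (-M / 4)).le
              linarith
            have h13 : 0 ≤ y ^ (1 / 4 : ℝ) := Real.rpow_nonneg hy.le _
            rw [h8]
            nlinarith
          have h14 : y ^ (1 / 2 : ℝ) ≤ 2 * ‖γ θ - a‖ ^ (-(1 / 2 : ℝ)) := by
            have h15 : y ≤ 2 / ‖γ θ - a‖ := by
              rw [hyd, show 2 / ‖γ θ - a‖ = (‖γ θ - a‖ / 2)⁻¹ by rw [inv_div]]
              exact inv_anti₀ (by positivity) (htx θ)
            have h16 : y ^ (1 / 2 : ℝ) ≤ (2 / ‖γ θ - a‖) ^ (1 / 2 : ℝ) :=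
              Real.rpow_le_rpow hy.le h15 (by norm_num)
            rw [Real.div_rpow (by norm_num) (norm_nonneg _)] at h16
            have h17 : (2 : ℝ) ^ (1 / 2 : ℝ) ≤ 2 := by
              have : (2 : ℝ) ^ (1 / 2 : ℝ) ≤ (2 : ℝ) ^ (1 : ℝ) :=
                Real.rpow_le_rpow_of_exponent_le (by norm_num) (by norm_num)
              simpa using this
            rw [Real.rpow_neg (norm_nonneg _), ← div_eq_mul_inv]
            exact h16.trans (div_le_div_of_nonneg_right h17 (Real.rpow_nonneg (norm_nonneg _) _))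
          have h18 : 0 ≤ Real.exp (-M / 4) := (Real.exp_pos _).le
          have h19 : Real.exp (-M / 4) * y ^ (1 / 2 : ℝ) ≤
              Real.exp (-M / 4) * (2 * ‖γ θ - a‖ ^ (-(1 / 2 : ℝ))) :=
            mul_le_mul_of_nonneg_left h14 h18
          rw [h3]
          simp only [hsd, hkd]
          calc Real.log y ≤ 4 * y ^ (1 / 4 : ℝ) := h6
            _ ≤ 4 * (Real.exp (-M / 4) * y ^ (1 / 2 : ℝ)) := by linarith
            _ ≤ 4 * (Real.exp (-M / 4) * (2 * ‖γ θ - a‖ ^ (-(1 / 2 : ℝ)))) := by linarith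
            _ = 8 * Real.exp (-M / 4) * ‖γ θ - a‖ ^ (-(1 / 2 : ℝ)) := by ring
        linarith [hg0 θ]
  -- integrability
  have hsi : IntervalIntegrable s volume 0 (2 * Real.pi) := hint.const_mul k
  have hgi : IntervalIntegrable g volume 0 (2 * Real.pi) := hgc.intervalIntegrable _ _
  have hfm : Measurable f := by
    have : f = fun θ => -Real.log (t θ) := rfl
    rw [this]
    exact (Real.measurable_log.comp htc.measurable).neg
  have hfi : IntervalIntegrable f volume 0 (2 * Real.pi) := by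
    refine (hgi.add hsi).mono_fun' hfm.aestronglyMeasurable (Eventually.of_forall fun θ => ?_)
    show ‖f θ‖ ≤ g θ + s θ
    rw [Real.norm_eq_abs, abs_of_nonneg (hf0 θ)]
    exact hfgs θ
  have hIoc : ∀ q : ℝ → ℝ, IntervalIntegrable q volume 0 (2 * Real.pi) →
      IntegrableOn q (Icc 0 (2 * Real.pi)) := fun q hq =>
    (intervalIntegrable_iff_integrableOn_Icc_of_le hT).1 hq
  set D : Set ℝ := {θ : ℝ | θ ∈ Icc 0 (2 * Real.pi) ∧ Real.cos (n * θ) ≤ 0} with hDd
  have hDm : MeasurableSet D := by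
    have h1 : MeasurableSet {θ : ℝ | Real.cos (n * θ) ≤ 0} :=
      (isClosed_le (by fun_prop) continuous_const).measurableSet
    exact measurableSet_Icc.inter h1
  have hDs : D ⊆ Icc 0 (2 * Real.pi) := fun θ hθ => hθ.1
  have hfD : IntegrableOn f D := (hIoc f hfi).mono_set hDs
  have hgD : IntegrableOn g D := (hIoc g hgi).mono_set hDs
  have hsD : IntegrableOn s D := (hIoc s hsi).mono_set hDs
  have e1 : ∫ θ in D, f θ ≤ ∫ θ in D, (g θ + s θ) :=
    setIntegral_mono_on hfD (hgD.add hsD) hDm fun θ _ => hfgs θ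
  rw [integral_add hgD hsD] at e1
  have e2 : ∫ θ in D, s θ ≤ ε / 2 := by
    have h1 : ∫ θ in D, s θ ≤ ∫ θ in Icc 0 (2 * Real.pi), s θ :=
      setIntegral_mono_set (hIoc s hsi) (Eventually.of_forall hs0) (LE.le.eventuallyLE hDs)
    have h2 : ∫ θ in Icc 0 (2 * Real.pi), s θ =
        k * ∫ θ in (0:ℝ)..(2 * Real.pi), ‖γ θ - a‖ ^ (-(1 / 2 : ℝ)) := by
      rw [integral_Icc_eq_integral_Ioc, ← intervalIntegral.integral_of_le hT,
        ← intervalIntegral.integral_const_mul]
    have h3 : k * ∫ θ in (0:ℝ)..(2 * Real.pi), ‖γ θ - a‖ ^ (-(1 / 2 : ℝ)) ≤ k * B :=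
      mul_le_mul_of_nonneg_left (hle.trans (le_max_left _ _)) hk
    linarith
  have e3 := equi n hn1' g hgc hgper δ hδ.le hglip
  have e4 : ∫ θ in (0:ℝ)..(2 * Real.pi), g θ ≤ Psi a F := by
    unfold Psi
    refine intervalIntegral.integral_mono_ae_restrict hT hgi hfi ?_
    rw [EventuallyLE, ae_restrict_iff' measurableSet_Icc]
    have h1 : ∀ᵐ θ : ℝ, ¬ (θ ∈ Icc 0 (2 * Real.pi) ∧ γ θ = a) := by
      rw [ae_iff]
      simp only [not_not]
      exact hnull
    filter_upwards [h1] with θ hθ hθI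
    have hne : γ θ ≠ a := fun h => hθ ⟨hθI, h⟩
    have hx : 0 < ‖γ θ - a‖ := norm_pos_iff.2 (sub_ne_zero.2 hne)
    have htpos : 0 < t θ := (by positivity : 0 < ‖γ θ - a‖ / 2).trans_le (htx θ)
    show -Real.log (max (t θ) c) ≤ f θ
    rw [hf]
    have := Real.log_le_log htpos (le_max_left (t θ) c)
    linarith
  have e5 : Real.pi * δ = ε / 2 := by
    rw [hδd]
    field_simp
  show ∫ θ in D, f θ ≤ 1 / 2 * Psi a F + ε
  have e3' : ∫ θ in D, g θ ≤ 1 / 2 * (∫ θ in (0:ℝ)..(2 * Real.pi), g θ) + Real.pi * δ := e3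
  linarith

end Pool.Agent.H928.IB
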