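import Pool.Agent.H928.IB.Stm

/-! The key bound on the right arcs. -/

set_option autoImplicit false

open MeasureTheory Set Filter Topology Complex Metric
open scoped ComplexConjugate

namespace Pool.Agent.H928.IB

namespace KB

theorem norm_cm (θ : ℝ) : ‖cm θ‖ = 1 := Complex.norm_exp_ofReal_mul_I θ

theorem hasDerivAt_cm (θ : ℝ) : HasDerivAt cm (I * cm θ) θ := by
  unfold cm
  have h1 : HasDerivAt (fun t : ℝ => (t : ℂ) * I) (1 * I) θ :=
    (Complex.ofRealCLM.hasDerivAt).mul_const I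
  have h2 := h1.cexp
  rw [one_mul, mul_comm] at h2
  exact h2

theorem cm_pow (θ : ℝ) (n : ℕ) : cm θ ^ n = cm (n * θ) := by
  unfold cm
  rw [← Complex.exp_nat_mul]
  congr 1
  push_cast
  ring

theorem cm_re (θ : ℝ) : (cm θ).re = Real.cos θ := by
  unfold cm
  exact Complex.exp_ofReal_mul_I_re θ

theorem HB.mono {γ : ℝ → ℂ} {x y B B' : ℝ} (h : HB γ x y B) (hB : B ≤ B') : HB γ x y B' :=
  fun a => ⟨(h a).1, (h a).2.1, (h a).2.2.trans hB⟩

theorem HB.sub {γ : ℝ → ℂ} {x y B : ℝ} (c : ℝ) (h : HB (fun τ => γ (c - τ)) x y B) :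
    HB γ (c - y) (c - x) B := by
  intro a
  obtain ⟨h1, h2, h3⟩ := h a
  refine ⟨?_, ?_, ?_⟩
  · have e1 : {τ : ℝ | τ ∈ Icc x y ∧ γ (c - τ) = a} =
        (MeasurableEquiv.subLeft c) ⁻¹' {θ : ℝ | θ ∈ Icc (c - y) (c - x) ∧ γ θ = a} := by
      ext τ
      have e0 : (MeasurableEquiv.subLeft c) τ = c - τ := rfl
      simp only [Set.mem_preimage, Set.mem_ofPred_eq, Set.mem_Icc, e0]
      constructor
      · rintro ⟨⟨h4, h5⟩, h6⟩
        exact ⟨⟨by linarith, by linarith⟩, h6⟩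
      · rintro ⟨⟨h4, h5⟩, h6⟩
        exact ⟨⟨by linarith, by linarith⟩, h6⟩
    rw [e1] at h1
    rwa [MeasurePreserving.measure_preimage_equiv (f := MeasurableEquiv.subLeft c)
      (Measure.measurePreserving_sub_left volume c)] at h1
  · have h4 := h2.comp_sub_left c
    simp only [sub_sub_cancel] at h4
    exact h4.symm
  · rw [intervalIntegral.integral_comp_sub_left (fun θ => ‖γ θ - a‖ ^ (-(1 / 2 : ℝ))) c] at h3
    exact h3

theorem HB.add {γ : ℝ → ℂ} {x y B : ℝ} (c : ℝ) (h : HB (fun τ => γ (c + τ)) x y B) :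
    HB γ (c + x) (c + y) B := by
  intro a
  obtain ⟨h1, h2, h3⟩ := h a
  refine ⟨?_, ?_, ?_⟩
  · have e1 : {τ : ℝ | τ ∈ Icc x y ∧ γ (c + τ) = a} =
        (MeasurableEquiv.addLeft c) ⁻¹' {θ : ℝ | θ ∈ Icc (c + x) (c + y) ∧ γ θ = a} := by
      ext τ
      simp only [Set.mem_preimage, Set.mem_ofPred_eq, Set.mem_Icc, MeasurableEquiv.coe_addLeft]
      constructor
      · rintro ⟨⟨h4, h5⟩, h6⟩
        exact ⟨⟨by linarith, by linarith⟩, h6⟩
      · rintro ⟨⟨h4, h5⟩, h6⟩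
        exact ⟨⟨by linarith, by linarith⟩, h6⟩
    rw [e1] at h1
    rwa [MeasurePreserving.measure_preimage_equiv (f := MeasurableEquiv.addLeft c)
      (measurePreserving_add_left volume c)] at h1
  · have h4 := h2.comp_add_left (-c)
    simp only [add_neg_cancel_left, sub_neg_eq_add] at h4
    rw [add_comm c x, add_comm c y]
    exact h4
  · rw [intervalIntegral.integral_comp_add_left (fun θ => ‖γ θ - a‖ ^ (-(1 / 2 : ℝ))) c] at h3
    exact h3

/-! ### Estimates on the unit circle -/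

theorem EE_le {N : ℝ} (hN : 1 ≤ N) {φ : ℝ} (hc : 0 ≤ Real.cos φ) :
    ‖EE N (cm φ)‖ ≤ Real.exp (-N / 8) := by
  unfold EE
  rw [Complex.norm_exp]
  apply Real.exp_le_exp.2
  have h1 : (cm φ - cm φ ^ 2 / 2).re = Real.cos φ - Real.cos (2 * φ) / 2 := by
    have e : cm φ ^ 2 / 2 = ((1 / 2 : ℝ) : ℂ) * cm (2 * φ) := by
      rw [cm_pow]; push_cast; ring
    rw [e, Complex.sub_re, Complex.re_ofReal_mul, cm_re, cm_re]
    ring
  have h2 : (-(N : ℂ) * (cm φ - cm φ ^ 2 / 2)).re = -N * (Real.cos φ - Real.cos (2 * φ) / 2) := by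
    rw [← Complex.ofReal_neg, Complex.re_ofReal_mul, h1]
  rw [h2, Real.cos_two_mul]
  have h3 := Real.cos_le_one φ
  nlinarith [mul_nonneg hc (sub_nonneg.2 h3)]

theorem hasDerivAt_EE (N : ℝ) (s : ℂ) : HasDerivAt (EE N) (EE N s * (-N * (1 - s))) s := by
  unfold EE
  have h1 : HasDerivAt (fun s : ℂ => -(N : ℂ) * (s - s ^ 2 / 2)) (-N * (1 - s)) s := by
    have h2 : HasDerivAt (fun s : ℂ => s - s ^ 2 / 2) (1 - s) s := by
      have h3 := (hasDerivAt_id s).sub ((hasDerivAt_pow 2 s).div_const 2)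
      exact h3.congr_deriv (by simp)
    exact h2.const_mul _
  exact h1.cexp

/-- `|1 + q² s²| ≥ 2 q cos φ` -/
theorem den_ge {q φ : ℝ} (hq : 0 < q) (hc : 0 < Real.cos φ) :
    2 * q * Real.cos φ ≤ ‖1 + ((q : ℂ) * cm φ) ^ 2‖ := by
  have h1 : ‖1 + ((q : ℂ) * cm φ) ^ 2‖ ^ 2 = (1 - q ^ 2) ^ 2 + 4 * q ^ 2 * Real.cos φ ^ 2 := by
    rw [← Complex.normSq_eq_norm_sq]
    have e : 1 + ((q : ℂ) * cm φ) ^ 2 = 1 + ((q ^ 2 : ℝ) : ℂ) * cm (2 * φ) := by
      have h2 := cm_pow φ 2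
      push_cast at h2
      rw [← h2]; push_cast; ring
    rw [e, Complex.normSq_apply, Complex.add_re, Complex.add_im, Complex.re_ofReal_mul,
      Complex.im_ofReal_mul, cm_re]
    have him : (cm (2 * φ)).im = Real.sin (2 * φ) := by
      unfold cm
      exact Complex.exp_ofReal_mul_I_im _
    rw [him, Complex.one_re, Complex.one_im]
    have h3 := Real.sin_sq_add_cos_sq (2 * φ)
    have h4 := Real.cos_two_mul φ
    have h5 : Real.sin (2 * φ) ^ 2 = 1 - Real.cos (2 * φ) ^ 2 := by linarith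
    calc (1 + q ^ 2 * Real.cos (2 * φ)) * (1 + q ^ 2 * Real.cos (2 * φ)) +
        (0 + q ^ 2 * Real.sin (2 * φ)) * (0 + q ^ 2 * Real.sin (2 * φ)) =
        1 + 2 * q ^ 2 * Real.cos (2 * φ) + q ^ 4 * (Real.cos (2 * φ) ^ 2 + Real.sin (2 * φ) ^ 2) := by
          ring
      _ = 1 + 2 * q ^ 2 * (2 * Real.cos φ ^ 2 - 1) + q ^ 4 := by rw [h5, h4]; ring
      _ = _ := by ring
  by_contra hcon
  push Not at hcon
  have h6 := norm_nonneg (1 + ((q : ℂ) * cm φ) ^ 2)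
  nlinarith [mul_pos hq hc, sq_nonneg (1 - q ^ 2)]

/-! ### Parameters -/

theorem qq_facts {L : ℝ} (hL : 1 ≤ L) : 1 / 2 ≤ qq L ∧ qq L < 1 ∧ 1 - qq L ^ 2 ≤ 2 * Real.exp (-2 * L) := by
  unfold qq
  have h0 := Real.exp_pos (-2 * L)
  have h1 : Real.exp (-2 * L) ≤ 1 / 2 := by
    have h2 : Real.exp (-2 * L) * Real.exp (2 * L) = 1 := by
      rw [← Real.exp_add]; simp
    have h3 := Real.add_one_le_exp (2 * L)
    nlinarith
  refine ⟨by linarith, by linarith, ?_⟩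
  nlinarith

theorem nn_facts {L : ℝ} (hL : 1 ≤ L) : (1 : ℝ) ≤ nn L ∧ (nn L : ℝ) * L ≤ 2 * Real.exp L ∧
    L / 2 ≤ nn L := by
  have hL0 : 0 < L := by linarith
  have h1 : Real.exp L / L ≤ nn L := Nat.le_ceil _
  have h2 := Real.add_one_le_exp L
  have h3 := Real.quadratic_le_exp_of_nonneg hL0.le
  have h4 : 1 ≤ Real.exp L / L := by
    rw [le_div_iff₀ hL0]; linarith
  have h5 : (nn L : ℝ) < Real.exp L / L + 1 := Nat.ceil_lt_add_one (by positivity)
  refine ⟨h4.trans h1, ?_, ?_⟩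
  · have h6 : (nn L : ℝ) ≤ 2 * (Real.exp L / L) := by linarith
    calc (nn L : ℝ) * L ≤ 2 * (Real.exp L / L) * L := by gcongr
      _ = 2 * Real.exp L := by field_simp
  · refine le_trans ?_ h1
    rw [le_div_iff₀ hL0]
    nlinarith

section

variable {R R' : ℝ} {p F α G : ℂ → ℂ} {N L : ℝ}

theorem cm_mem {R : ℝ} (hR : 1 < R) (θ : ℝ) : cm θ ∈ ball (0 : ℂ) R := by
  rw [mem_ball_zero_iff, norm_cm]; exact hR

theorem dpp_le (h2 : S_U) (hG : Good R p F) (hA : Amp p F α N) (hR : R' ≤ R)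
    (hP : Prim R' p F α N L G) {M1 M2 M3 : ℝ} (hM1 : ∀ z : ℂ, ‖z‖ ≤ 1 → ‖deriv p z‖ ≤ M1)
    (hM2 : ∀ z : ℂ, ‖z‖ ≤ 1 → ‖deriv α z‖ ≤ M2) (hM3 : ∀ z : ℂ, ‖z‖ ≤ 1 → ‖α z - p z‖ ≤ M3)
    (hL : 1 ≤ L) {θ : ℝ} (hc : 0 < Real.cos (nn L * θ)) :
    ‖deriv (pp p α N L) (cm θ)‖ ≤ M1 + 2 * (M1 + M2) + 2 * M3 * N * nn L +
      L * nn L * (2 / Real.pi / Real.cos (nn L * θ)) := by
  obtain ⟨hR1, hpd, hFd, hF1⟩ := hG
  obtain ⟨hαd, hα, hN, hb⟩ := hA
  obtain ⟨hR'1, hppd, hqz, hG0, hGd⟩ := hP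
  obtain ⟨q1, q2, q3⟩ := qq_facts hL
  obtain ⟨n1, n2, n3⟩ := nn_facts hL
  set n := nn L with hn
  set q := qq L with hq
  set ζ := cm θ with hζ
  have hζ1 : ‖ζ‖ = 1 := norm_cm θ
  have hζR : ζ ∈ ball (0 : ℂ) R := cm_mem hR1 θ
  have hζR' : ζ ∈ ball (0 : ℂ) R' := cm_mem hR'1 θ
  have hs : ζ ^ n = cm (n * θ) := cm_pow θ n
  have hM3' := hM3 ζ hζ1.le
  have hM30 : 0 ≤ M3 := (norm_nonneg _).trans hM3'
  have d1 : HasDerivAt p (deriv p ζ) ζ :=
    ((hpd ζ hζR).differentiableAt (isOpen_ball.mem_nhds hζR)).hasDerivAt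
  have d2 : HasDerivAt α (deriv α ζ) ζ := (hαd ζ).hasDerivAt
  have d3 : HasDerivAt (fun z : ℂ => z ^ n) (n * ζ ^ (n - 1)) ζ := hasDerivAt_pow n ζ
  have d4 : HasDerivAt (fun z : ℂ => uu (q * z ^ n))
      (((4 / Real.pi : ℝ) / (1 + ((q : ℂ) * ζ ^ n) ^ 2)) * (q * (n * ζ ^ (n - 1)))) ζ := by
    have e1 := (h2.2 ((q : ℂ) * ζ ^ n) (hqz ζ hζR')).1
    have e2 : HasDerivAt (fun z : ℂ => (q : ℂ) * z ^ n) (q * (n * ζ ^ (n - 1))) ζ := d3.const_mul _
    exact HasDerivAt.comp (h₂ := uu) ζ e1 e2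
  have d5 : HasDerivAt (fun z : ℂ => EE N (z ^ n))
      ((EE N (ζ ^ n) * (-N * (1 - ζ ^ n))) * (n * ζ ^ (n - 1))) ζ :=
    (hasDerivAt_EE N (ζ ^ n)).comp ζ d3
  have d6 : HasDerivAt (pp p α N L) (deriv p ζ +
      (L * (((4 / Real.pi : ℝ) / (1 + ((q : ℂ) * ζ ^ n) ^ 2)) * (q * (n * ζ ^ (n - 1)))) +
        ((deriv α ζ - deriv p ζ) * (1 - EE N (ζ ^ n)) + (α ζ - p ζ) *
          (-((EE N (ζ ^ n) * (-N * (1 - ζ ^ n))) * (n * ζ ^ (n - 1))))))) ζ := by
    unfold pp gg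
    exact d1.add ((d4.const_mul _).add ((d2.sub d1).mul (d5.const_sub 1)))
  rw [d6.deriv]
  have hc0 : 0 ≤ Real.cos (n * θ) := hc.le
  have hE : ‖EE N (ζ ^ n)‖ ≤ 1 := by
    rw [hs]
    refine (EE_le hN hc0).trans ?_
    rw [Real.exp_le_one_iff]; linarith
  have hzn : ‖ζ ^ (n - 1)‖ = 1 := by rw [norm_pow, hζ1, one_pow]
  have hzn' : ‖ζ ^ n‖ = 1 := by rw [norm_pow, hζ1, one_pow]
  have hnn : ‖(n : ℂ) * ζ ^ (n - 1)‖ = n := by
    rw [norm_mul, hzn, mul_one, Complex.norm_natCast]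
  have b1 := hM1 ζ hζ1.le
  have b2 := hM2 ζ hζ1.le
  have b3 : ‖(deriv α ζ - deriv p ζ) * (1 - EE N (ζ ^ n))‖ ≤ (M1 + M2) * 2 := by
    rw [norm_mul]
    have e1 : ‖deriv α ζ - deriv p ζ‖ ≤ M1 + M2 := (norm_sub_le _ _).trans (by linarith)
    have e2 : ‖1 - EE N (ζ ^ n)‖ ≤ 2 := (norm_sub_le _ _).trans (by rw [norm_one]; linarith)
    exact mul_le_mul e1 e2 (norm_nonneg _) ((norm_nonneg _).trans e1)
  have b4 : ‖(α ζ - p ζ) * (-((EE N (ζ ^ n) * (-N * (1 - ζ ^ n))) * (n * ζ ^ (n - 1))))‖ ≤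
      2 * M3 * N * n := by
    rw [norm_mul, norm_neg, norm_mul, norm_mul, norm_mul, hnn, norm_neg, Complex.norm_real,
      Real.norm_eq_abs, abs_of_nonneg (by linarith : 0 ≤ N)]
    have e2 : ‖1 - ζ ^ n‖ ≤ 2 := (norm_sub_le _ _).trans (by rw [norm_one, hzn']; norm_num)
    calc ‖α ζ - p ζ‖ * (‖EE N (ζ ^ n)‖ * (N * ‖1 - ζ ^ n‖) * n) ≤ M3 * (1 * (N * 2) * n) := by
          gcongr
      _ = 2 * M3 * N * n := by ring
  have b5 : ‖(L : ℂ) * (((4 / Real.pi : ℝ) / (1 + ((q : ℂ) * ζ ^ n) ^ 2)) * (q * (n * ζ ^ (n - 1))))‖ ≤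
      L * n * (2 / Real.pi / Real.cos (n * θ)) := by
    have hq0 : 0 < q := by linarith
    have e1 := den_ge hq0 hc
    rw [← hs] at e1
    have e0 : 0 < 2 * q * Real.cos (n * θ) := by positivity
    rw [norm_mul, norm_mul, norm_mul, hnn, norm_div, Complex.norm_real, Complex.norm_real,
      Complex.norm_real, Real.norm_eq_abs, Real.norm_eq_abs, Real.norm_eq_abs,
      abs_of_nonneg (by linarith : 0 ≤ L), abs_of_pos hq0,
      abs_of_pos (by positivity : 0 < 4 / Real.pi)]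
    calc L * (4 / Real.pi / ‖1 + ((q : ℂ) * ζ ^ n) ^ 2‖ * (q * n)) ≤
        L * (4 / Real.pi / (2 * q * Real.cos (n * θ)) * (q * n)) := by gcongr
      _ = L * n * (2 / Real.pi / Real.cos (n * θ)) := by
          field_simp
          ring
  calc _ ≤ ‖deriv p ζ‖ + (‖(L : ℂ) * (((4 / Real.pi : ℝ) / (1 + ((q : ℂ) * ζ ^ n) ^ 2)) *
        (q * (n * ζ ^ (n - 1))))‖ + (‖(deriv α ζ - deriv p ζ) * (1 - EE N (ζ ^ n))‖ +
        ‖(α ζ - p ζ) * (-((EE N (ζ ^ n) * (-N * (1 - ζ ^ n))) * (n * ζ ^ (n - 1))))‖)) := by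
        refine (norm_add_le _ _).trans ?_
        gcongr
        refine (norm_add_le _ _).trans ?_
        gcongr
        exact norm_add_le _ _
    _ ≤ _ := by linarith

theorem re_pp_ge (h2 : S_U) (hA : Amp p F α N)
    (hP : Prim R' p F α N L G) (hL : 1 ≤ L) {θ : ℝ}
    (hc : 2 / Real.pi * Real.exp (-L) ≤ Real.cos (nn L * θ)) :
    (α (cm θ)).re + L - 3 / 2 ≤ (pp p α N L (cm θ)).re := by
  obtain ⟨hαd, hα, hN, hb⟩ := hA
  obtain ⟨hR'1, hppd, hqz, hG0, hGd⟩ := hP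
  obtain ⟨q1, q2, q3⟩ := qq_facts hL
  set n := nn L with hn
  set q := qq L with hq
  set ζ := cm θ with hζ
  have hζ1 : ‖ζ‖ = 1 := norm_cm θ
  have hζR' : ζ ∈ ball (0 : ℂ) R' := cm_mem hR'1 θ
  have hs : ζ ^ n = cm (n * θ) := cm_pow θ n
  have hpi := Real.pi_pos
  have he := Real.exp_pos (-L)
  have hc0 : 0 < Real.cos (n * θ) := lt_of_lt_of_le (by positivity) hc
  have hq0 : 0 < q := by linarith
  have e1 : (pp p α N L ζ) = α ζ + L * uu (q * ζ ^ n) - (α ζ - p ζ) * EE N (ζ ^ n) := by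
    unfold pp gg
    ring
  rw [e1, Complex.sub_re, Complex.add_re, Complex.re_ofReal_mul]
  have hre : ((q : ℂ) * ζ ^ n).re = q * Real.cos (n * θ) := by
    rw [hs, Complex.re_ofReal_mul, cm_re]
  have hnorm : ‖(q : ℂ) * ζ ^ n‖ = q := by
    rw [norm_mul, norm_pow, hζ1, one_pow, mul_one, Complex.norm_real, Real.norm_eq_abs,
      abs_of_pos hq0]
  have b1 := (h2.2 ((q : ℂ) * ζ ^ n) (hqz ζ hζR')).2.2.2.2.2 (by rw [hre]; positivity)
  rw [hre, hnorm] at b1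
  have b2 : (1 - q ^ 2) / (Real.pi * (q * Real.cos (n * θ))) ≤ 2 * Real.exp (-L) := by
    rw [div_le_iff₀ (by positivity)]
    have e2 : Real.exp (-2 * L) = Real.exp (-L) * Real.exp (-L) := by
      rw [← Real.exp_add]; congr 1; ring
    have e3 : Real.exp (-L) ≤ Real.pi * (q * Real.cos (n * θ)) := by
      calc Real.exp (-L) = Real.pi * (1 / 2 * (2 / Real.pi * Real.exp (-L))) := by
            field_simp
        _ ≤ Real.pi * (q * Real.cos (n * θ)) := by gcongr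
    rw [e2] at q3
    nlinarith
  have b3 : L * (2 * Real.exp (-L)) ≤ 1 := by
    have e2 : Real.exp (-L) * Real.exp L = 1 := by rw [← Real.exp_add]; simp
    have e3 := Real.quadratic_le_exp_of_nonneg (by linarith : 0 ≤ L)
    have e4 : 2 * L ≤ Real.exp L := by nlinarith [sq_nonneg (L - 1)]
    nlinarith
  have b4 : L * (uu (q * ζ ^ n)).re ≥ L - 1 := by
    have e2 : 1 - 2 * Real.exp (-L) ≤ (uu (q * ζ ^ n)).re := by linarith
    nlinarith
  have b5 : ((α ζ - p ζ) * EE N (ζ ^ n)).re ≤ 1 / 2 := by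
    refine (Complex.re_le_norm _).trans ?_
    rw [norm_mul]
    refine le_trans ?_ (hb ζ hζ1.le)
    gcongr
    rw [hs]
    exact EE_le hN hc0.le
  linarith

theorem curve (h1 : S_LI) (h2 : S_U) (hG : Good R p F) (hA : Amp p F α N) (hR : R' ≤ R)
    (hP : Prim R' p F α N L G) {M1 M2 M3 : ℝ} (hM1 : ∀ z : ℂ, ‖z‖ ≤ 1 → ‖deriv p z‖ ≤ M1)
    (hM2 : ∀ z : ℂ, ‖z‖ ≤ 1 → ‖deriv α z‖ ≤ M2) (hM3 : ∀ z : ℂ, ‖z‖ ≤ 1 → ‖α z - p z‖ ≤ M3)
    (hL : 1 ≤ L) (hLC : 1 + 3 * M1 + 2 * M2 + 2 * M3 * N ≤ L) (hLM : 7 * M2 ≤ L)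
    (σ : ℝ) (hσ : σ = 1 ∨ σ = -1) (j : ℤ) :
    HB (fun τ => G (cm (2 * Real.pi * j / nn L + σ * (Real.pi / (2 * nn L) - τ))))
      (Real.exp (-L) / nn L) (Real.pi / (2 * nn L))
      (1000 / nn L * Real.exp (-(α (cm (2 * Real.pi * j / nn L))).re / 2)) := by
  have hpi := Real.pi_pos
  have hpi3 := Real.pi_gt_three
  have hpi4 := Real.pi_lt_four
  have hpi315 := Real.pi_lt_d2
  obtain ⟨n1, n2, n3⟩ := nn_facts hL
  set tj : ℝ := 2 * Real.pi * j / nn L with htj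
  set n := nn L with hn
  have hn0 : (0 : ℝ) < n := by linarith
  have hL0 : 0 < L := by linarith
  have hM10 : 0 ≤ M1 := (norm_nonneg _).trans (hM1 0 (by simp))
  have hM20 : 0 ≤ M2 := (norm_nonneg _).trans (hM2 0 (by simp))
  have hM30 : 0 ≤ M3 := (norm_nonneg _).trans (hM3 0 (by simp))
  have hN := hA.2.2.1
  have hσa : |σ| = 1 := by rcases hσ with h | h <;> rw [h] <;> norm_num
  set θ : ℝ → ℝ := fun τ => tj + σ * (Real.pi / (2 * n) - τ) with hθ
  set A : ℝ := (α (cm tj)).re with hAdef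
  set m : ℝ := Real.exp (A + L - 2) with hm
  have hdθ : ∀ τ, HasDerivAt θ (-σ) τ := by
    intro τ
    have h3 := (((hasDerivAt_id τ).const_sub (Real.pi / (2 * n))).const_mul σ).const_add tj
    exact h3.congr_deriv (by ring)
  have hdζ : ∀ τ, HasDerivAt (fun τ => cm (θ τ)) ((-σ : ℝ) * (I * cm (θ τ))) τ := by
    intro τ
    have h3 := (hasDerivAt_cm (θ τ)).scomp τ (hdθ τ)
    exact h3.congr_deriv (by rw [Complex.real_smul])
  set γ1 : ℝ → ℂ := fun τ => exp (pp p α N L (cm (θ τ))) * ((-σ : ℝ) * (I * cm (θ τ))) with hγ1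
  set γ2 : ℝ → ℂ := fun τ => γ1 τ * (deriv (pp p α N L) (cm (θ τ)) * ((-σ : ℝ) * (I * cm (θ τ))) +
    (-σ : ℝ) * I) with hγ2
  have hcm : ∀ τ, cm (θ τ) ∈ ball (0 : ℂ) R' := fun τ => cm_mem hP.1 _
  have hd1 : ∀ τ, HasDerivAt (fun τ => G (cm (θ τ))) (γ1 τ) τ := by
    intro τ
    exact (hP.2.2.2.2 _ (hcm τ)).comp τ (hdζ τ)
  have hd2 : ∀ τ, HasDerivAt γ1 (γ2 τ) τ := by
    intro τ
    have e1 : HasDerivAt (pp p α N L) (deriv (pp p α N L) (cm (θ τ))) (cm (θ τ)) :=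
      ((hP.2.1 _ (hcm τ)).differentiableAt (isOpen_ball.mem_nhds (hcm τ))).hasDerivAt
    have e2 : HasDerivAt (fun τ => pp p α N L (cm (θ τ)))
        (deriv (pp p α N L) (cm (θ τ)) * ((-σ : ℝ) * (I * cm (θ τ)))) τ :=
      HasDerivAt.comp (h₂ := pp p α N L) τ e1 (hdζ τ)
    have e3 : HasDerivAt (fun τ => ((-σ : ℝ) : ℂ) * (I * cm (θ τ)))
        (((-σ : ℝ) : ℂ) * (I * ((-σ : ℝ) * (I * cm (θ τ))))) τ :=
      ((hdζ τ).const_mul I).const_mul _
    exact (e2.cexp.mul e3).congr_deriv (by simp only [hγ2, hγ1]; ring)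
  have hang : ∀ τ, Real.cos (n * θ τ) = Real.sin (n * τ) := by
    intro τ
    have e1 : n * θ τ = σ * (Real.pi / 2 - n * τ) + (j : ℤ) * (2 * Real.pi) := by
      simp only [hθ, htj]
      field_simp
      ring
    rw [e1, Real.cos_add_int_mul_two_pi]
    rcases hσ with h | h
    · rw [h, one_mul, Real.cos_pi_div_two_sub]
    · rw [h, neg_one_mul, Real.cos_neg, Real.cos_pi_div_two_sub]
  have hαd : ∀ τ ∈ Icc (Real.exp (-L) / n) (Real.pi / (2 * n)), A - 1 / 2 ≤ (α (cm (θ τ))).re := by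
    intro τ hτ
    have ht0 : 0 ≤ τ := le_trans (by positivity) hτ.1
    have e1 : ‖α (cm (θ τ)) - α (cm tj)‖ ≤ M2 * ‖θ τ - tj‖ := by
      refine Convex.norm_image_sub_le_of_norm_hasDerivWithin_le (f := fun t : ℝ => α (cm t))
        (f' := fun t => deriv α (cm t) * (I * cm t)) (s := Set.univ) ?_ ?_ convex_univ
        (Set.mem_univ _) (Set.mem_univ _)
      · intro t _
        exact (HasDerivAt.comp (h₂ := α) t (hA.1 (cm t)).hasDerivAt
          (hasDerivAt_cm t)).hasDerivWithinAt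
      · intro t _
        rw [norm_mul, norm_mul, Complex.norm_I, norm_cm, mul_one, mul_one]
        exact hM2 _ (norm_cm t).le
    have e2 : ‖θ τ - tj‖ ≤ Real.pi / (2 * n) := by
      have e3 : θ τ - tj = σ * (Real.pi / (2 * n) - τ) := by simp only [hθ]; ring
      rw [e3, Real.norm_eq_abs, abs_mul, hσa, one_mul, abs_of_nonneg (by linarith [hτ.2])]
      linarith
    have e4 : M2 * (Real.pi / (2 * n)) ≤ 1 / 2 := by
      rw [mul_div_assoc', div_le_iff₀ (by positivity)]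
      nlinarith
    have e5 : ‖α (cm (θ τ)) - α (cm tj)‖ ≤ 1 / 2 :=
      e1.trans ((mul_le_mul_of_nonneg_left e2 hM20).trans e4)
    have e6 := (abs_le.1 ((Complex.abs_re_le_norm _).trans e5)).1
    rw [Complex.sub_re] at e6
    linarith
  have hmain := h1 (Real.exp (-L) / n) (Real.pi / (2 * n)) (4 * L) m (fun τ => G (cm (θ τ))) γ1 γ2
    (by positivity) (by
      rw [div_le_div_iff₀ hn0 (by positivity)]
      have : Real.exp (-L) ≤ 1 := by rw [Real.exp_le_one_iff]; linarith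
      nlinarith) (by linarith) (Real.exp_pos _) (by
      intro τ hτ
      have hτ0 : 0 < τ := lt_of_lt_of_le (by positivity) hτ.1
      have hnτ : n * τ ≤ Real.pi / 2 := by
        have := hτ.2
        rw [le_div_iff₀ (by positivity)] at this
        linarith
      have hnτ' : Real.exp (-L) ≤ n * τ := by
        have := hτ.1
        rw [div_le_iff₀ hn0] at this
        linarith
      have hsin : 2 / Real.pi * (n * τ) ≤ Real.sin (n * τ) :=
        Real.mul_le_sin (by positivity) hnτ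
      have hc : 2 / Real.pi * Real.exp (-L) ≤ Real.cos (n * θ τ) := by
        rw [hang]
        refine le_trans ?_ hsin
        gcongr
      have hc0 : 0 < Real.cos (n * θ τ) := lt_of_lt_of_le (by positivity) hc
      refine ⟨hd1 τ, hd2 τ, ?_, ?_⟩
      · have e1 := re_pp_ge h2 hA hP hL hc
        have e2 := hαd τ hτ
        have e3 : ‖γ1 τ‖ = Real.exp (pp p α N L (cm (θ τ))).re := by
          simp only [hγ1]
          rw [norm_mul, norm_mul, norm_mul, Complex.norm_I, norm_cm, Complex.norm_real,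
            Real.norm_eq_abs, abs_neg, hσa, Complex.norm_exp]
          ring
        rw [e3]
        apply Real.exp_le_exp.2
        linarith
      · have e1 := dpp_le h2 hG hA hR hP hM1 hM2 hM3 hL hc0
        rw [hang] at e1
        simp only [hγ2]
        rw [norm_mul, mul_comm]
        gcongr
        have e2 : ‖deriv (pp p α N L) (cm (θ τ)) * ((-σ : ℝ) * (I * cm (θ τ))) + (-σ : ℝ) * I‖ ≤
            ‖deriv (pp p α N L) (cm (θ τ))‖ + 1 := by
          refine (norm_add_le _ _).trans (le_of_eq ?_)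
          rw [norm_mul, norm_mul, norm_mul, norm_mul, Complex.norm_I, norm_cm, Complex.norm_real,
            Real.norm_eq_abs, abs_neg, hσa]
          ring
        refine e2.trans ?_
        have e3 : L * n * (2 / Real.pi / Real.sin (n * τ)) ≤ L / τ := by
          calc L * n * (2 / Real.pi / Real.sin (n * τ)) ≤
              L * n * (2 / Real.pi / (2 / Real.pi * (n * τ))) := by gcongr
            _ = L / τ := by field_simp
        have e4 : 1 + (M1 + 2 * (M1 + M2) + 2 * M3 * N * n) ≤ L * n := by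
          have e5 : 1 + (M1 + 2 * (M1 + M2) + 2 * M3 * N * n) ≤
              (1 + 3 * M1 + 2 * M2 + 2 * M3 * N) * n := by nlinarith
          nlinarith
        have e6 : L * n ≤ 3 * L / τ := by
          rw [le_div_iff₀ hτ0]
          nlinarith
        calc _ ≤ 1 + (M1 + 2 * (M1 + M2) + 2 * M3 * N * n) +
              L * n * (2 / Real.pi / Real.sin (n * τ)) := by linarith
          _ ≤ 3 * L / τ + L / τ := by linarith
          _ = 4 * L / τ := by ring)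
  refine HB.mono hmain ?_
  have hb : 4 * L * (Real.pi / (2 * n)) / m ≤ (15 / n * Real.exp (-A / 2)) ^ 2 := by
    have e1 : Real.exp (-A / 2) ^ 2 = Real.exp (-A) := by
      rw [← Real.exp_nat_mul]; congr 1; push_cast; ring
    have e2 : m = Real.exp L / (Real.exp (-A) * Real.exp 2) := by
      rw [hm, eq_div_iff (by positivity), ← Real.exp_add, ← Real.exp_add]
      congr 1; ring
    have e3 : Real.exp 2 ≤ 7.5 := by
      have e4 : Real.exp 2 = Real.exp 1 * Real.exp 1 := by rw [← Real.exp_add]; norm_num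
      have e5 := Real.exp_one_lt_d9
      rw [e4]
      nlinarith [Real.exp_pos 1]
    rw [mul_pow, e1, e2, div_pow, div_div_eq_mul_div, div_le_iff₀ (Real.exp_pos L)]
    have e6 : 4 * L * (Real.pi / (2 * n)) * (Real.exp (-A) * Real.exp 2) =
        (2 * Real.pi * (n * L) * Real.exp 2) * (Real.exp (-A) / n ^ 2) := by
      field_simp
      ring
    have e7 : (15 : ℝ) ^ 2 / n ^ 2 * Real.exp (-A) * Real.exp L =
        (225 * Real.exp L) * (Real.exp (-A) / n ^ 2) := by ring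
    rw [e6, e7]
    refine mul_le_mul_of_nonneg_right ?_ (by positivity)
    calc 2 * Real.pi * (n * L) * Real.exp 2 ≤ 2 * Real.pi * (2 * Real.exp L) * 7.5 := by gcongr
      _ ≤ 225 * Real.exp L := by nlinarith [Real.exp_pos L]
  have hsq : Real.sqrt (4 * L * (Real.pi / (2 * n)) / m) ≤ 15 / n * Real.exp (-A / 2) := by
    rw [← Real.sqrt_sq (by positivity : (0 : ℝ) ≤ 15 / n * Real.exp (-A / 2))]
    exact Real.sqrt_le_sqrt hb
  calc 64 * Real.sqrt (4 * L * (Real.pi / (2 * n)) / m) ≤ 64 * (15 / n * Real.exp (-A / 2)) := by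
        gcongr
    _ = 960 / n * Real.exp (-A / 2) := by ring
    _ ≤ 1000 / n * Real.exp (-A / 2) := by gcongr; norm_num

end

end KB

theorem kb (h : S_LI) (h2 : S_U) : S_KB := by
  intro R p F α N hG hA
  have hcp : IsCompact (closedBall (0 : ℂ) 1) := isCompact_closedBall 0 1
  have hsub : closedBall (0 : ℂ) 1 ⊆ ball (0 : ℂ) R := closedBall_subset_ball hG.1
  obtain ⟨M1, hM1⟩ := hcp.exists_bound_of_continuousOn (f := deriv p)
    ((hG.2.1.deriv isOpen_ball).continuousOn.mono hsub)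
  obtain ⟨M2, hM2⟩ := hcp.exists_bound_of_continuousOn (f := deriv α)
    ((hA.1.differentiableOn (s := Set.univ)).deriv isOpen_univ |>.continuousOn.mono
      (Set.subset_univ _))
  obtain ⟨M3, hM3⟩ := hcp.exists_bound_of_continuousOn (f := fun z => α z - p z)
    (hA.1.continuous.continuousOn.sub (hG.2.1.continuousOn.mono hsub))
  have hM1' : ∀ z : ℂ, ‖z‖ ≤ 1 → ‖deriv p z‖ ≤ M1 := fun z hz => hM1 z (by simpa using hz)
  have hM2' : ∀ z : ℂ, ‖z‖ ≤ 1 → ‖deriv α z‖ ≤ M2 := fun z hz => hM2 z (by simpa using hz)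
  have hM3' : ∀ z : ℂ, ‖z‖ ≤ 1 → ‖α z - p z‖ ≤ M3 := fun z hz => hM3 z (by simpa using hz)
  refine ⟨max 1 (max (1 + 3 * M1 + 2 * M2 + 2 * M3 * N) (7 * M2)), ?_⟩
  intro L hL R' G hR hP
  have hL1 : 1 ≤ L := (le_max_left _ _).trans hL
  have hL2 : 1 + 3 * M1 + 2 * M2 + 2 * M3 * N ≤ L :=
    (le_max_left _ _).trans ((le_max_right _ _).trans hL)
  have hL3 : 7 * M2 ≤ L := (le_max_right _ _).trans ((le_max_right _ _).trans hL)
  refine ⟨by linarith, fun j => ?_⟩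
  obtain ⟨n1, _, _⟩ := KB.nn_facts hL1
  have hn0 : (0 : ℝ) < nn L := by linarith
  have hcurve := KB.curve h h2 hG hA hR hP hM1' hM2' hM3' hL1 hL2 hL3
  constructor
  · have h3 := hcurve 1 (Or.inl rfl) j
    have e1 : (fun τ : ℝ => G (cm (2 * Real.pi * j / nn L + 1 * (Real.pi / (2 * nn L) - τ)))) =
        fun τ => (fun θ => G (cm θ)) ((2 * Real.pi * j / nn L + Real.pi / (2 * nn L)) - τ) := by
      funext τ
      simp only
      congr 2
      ring
    rw [e1] at h3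
    have h4 := KB.HB.sub (γ := fun θ => G (cm θ)) _ h3
    have e2 : 2 * Real.pi * j / nn L + Real.pi / (2 * nn L) - Real.pi / (2 * nn L) =
        2 * Real.pi * j / nn L := by ring
    have e3 : 2 * Real.pi * j / nn L + Real.pi / (2 * nn L) - Real.exp (-L) / nn L =
        2 * Real.pi * j / nn L + (Real.pi / 2 - Real.exp (-L)) / nn L := by
      field_simp
      ring
    rw [e2, e3] at h4
    exact h4
  · have h3 := hcurve (-1) (Or.inr rfl) j
    have e1 : (fun τ : ℝ => G (cm (2 * Real.pi * j / nn L + -1 * (Real.pi / (2 * nn L) - τ)))) =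
        fun τ => (fun θ => G (cm θ)) ((2 * Real.pi * j / nn L - Real.pi / (2 * nn L)) + τ) := by
      funext τ
      simp only
      congr 2
      ring
    rw [e1] at h3
    have h4 := KB.HB.add (γ := fun θ => G (cm θ)) _ h3
    have e2 : 2 * Real.pi * j / nn L - Real.pi / (2 * nn L) + Real.pi / (2 * nn L) =
        2 * Real.pi * j / nn L := by ring
    have e3 : 2 * Real.pi * j / nn L - Real.pi / (2 * nn L) + Real.exp (-L) / nn L =
        2 * Real.pi * j / nn L - (Real.pi / 2 - Real.exp (-L)) / nn L := by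
      field_simp
      ring
    rw [e2, e3] at h4
    exact h4

end Pool.Agent.H928.IB
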