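import Pool.Agent.H928.IB.Stm

/-!
# The key integral estimate for curves with controlled logarithmic derivative of `γ'` (helper387)
-/

set_option autoImplicit false

open MeasureTheory Set Filter Topology Complex Metric
open scoped ComplexConjugate

namespace Pool.Agent.H928.IB

namespace LI

theorem right_piece {f : ℝ → ℝ} {c y K : ℝ} (hcy : c ≤ y)
    (hm : AEStronglyMeasurable f (volume.restrict (Ioc c y)))
    (h0 : ∀ θ ∈ Ioo c y, 0 ≤ f θ ∧ f θ ≤ K * (θ - c) ^ (-(1 / 2 : ℝ))) :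
    IntervalIntegrable f volume c y ∧ ∫ θ in c..y, f θ ≤ 2 * K * Real.sqrt (y - c) := by
  have hg0 : IntervalIntegrable (fun θ : ℝ => (θ - c) ^ (-(1 / 2 : ℝ))) volume c y := by
    have h := (intervalIntegral.intervalIntegrable_rpow' (a := 0) (b := y - c)
      (r := -(1 / 2 : ℝ)) (by norm_num)).comp_sub_right c
    simpa using h
  have hg : IntervalIntegrable (fun θ : ℝ => K * (θ - c) ^ (-(1 / 2 : ℝ))) volume c y :=
    hg0.const_mul K
  have hne : ∀ᵐ θ ∂(volume.restrict (Ioc c y)), θ ≠ y :=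
    ae_restrict_of_ae (by simp [ae_iff, Real.volume_singleton])
  have hf : IntervalIntegrable f volume c y := by
    refine hg.mono_fun' (by rwa [uIoc_of_le hcy]) ?_
    rw [uIoc_of_le hcy]
    filter_upwards [hne, ae_restrict_mem measurableSet_Ioc] with θ h1 h2
    have h3 := h0 θ ⟨h2.1, lt_of_le_of_ne h2.2 h1⟩
    rw [Real.norm_of_nonneg h3.1]
    exact h3.2
  refine ⟨hf, ?_⟩
  have h1 : ∫ θ in c..y, f θ ≤ ∫ θ in c..y, K * (θ - c) ^ (-(1 / 2 : ℝ)) :=
    intervalIntegral.integral_mono_on_of_le_Ioo hcy hf hg fun θ hθ => (h0 θ hθ).2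
  refine h1.trans (le_of_eq ?_)
  rw [intervalIntegral.integral_const_mul,
    intervalIntegral.integral_comp_sub_right (fun x : ℝ => x ^ (-(1 / 2 : ℝ))),
    integral_rpow (Or.inl (by norm_num)), sub_self, Real.sqrt_eq_rpow]
  norm_num
  ring

theorem left_piece {f : ℝ → ℝ} {x c K : ℝ} (hxc : x ≤ c)
    (hm : AEStronglyMeasurable f (volume.restrict (Ioc x c)))
    (h0 : ∀ θ ∈ Ioo x c, 0 ≤ f θ ∧ f θ ≤ K * (c - θ) ^ (-(1 / 2 : ℝ))) :
    IntervalIntegrable f volume x c ∧ ∫ θ in x..c, f θ ≤ 2 * K * Real.sqrt (c - x) := by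
  have hg0 : IntervalIntegrable (fun θ : ℝ => (c - θ) ^ (-(1 / 2 : ℝ))) volume x c := by
    have h := (intervalIntegral.intervalIntegrable_rpow' (a := 0) (b := c - x)
      (r := -(1 / 2 : ℝ)) (by norm_num)).comp_sub_left c
    have h' := h.symm
    simpa using h'
  have hg : IntervalIntegrable (fun θ : ℝ => K * (c - θ) ^ (-(1 / 2 : ℝ))) volume x c :=
    hg0.const_mul K
  have hne : ∀ᵐ θ ∂(volume.restrict (Ioc x c)), θ ≠ c :=
    ae_restrict_of_ae (by simp [ae_iff, Real.volume_singleton])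
  have hf : IntervalIntegrable f volume x c := by
    refine hg.mono_fun' (by rwa [uIoc_of_le hxc]) ?_
    rw [uIoc_of_le hxc]
    filter_upwards [hne, ae_restrict_mem measurableSet_Ioc] with θ h1 h2
    have h3 := h0 θ ⟨h2.1, lt_of_le_of_ne h2.2 h1⟩
    rw [Real.norm_of_nonneg h3.1]
    exact h3.2
  refine ⟨hf, ?_⟩
  have h1 : ∫ θ in x..c, f θ ≤ ∫ θ in x..c, K * (c - θ) ^ (-(1 / 2 : ℝ)) :=
    intervalIntegral.integral_mono_on_of_le_Ioo hxc hf hg fun θ hθ => (h0 θ hθ).2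
  refine h1.trans (le_of_eq ?_)
  rw [intervalIntegral.integral_const_mul,
    intervalIntegral.integral_comp_sub_left (fun x : ℝ => x ^ (-(1 / 2 : ℝ))),
    integral_rpow (Or.inl (by norm_num)), sub_self, Real.sqrt_eq_rpow]
  norm_num
  ring

/-- the lower bound for the distances on a short piece -/
theorem dist_lower {x y κ m : ℝ} {γ γ' γ'' : ℝ → ℂ} (hx : 0 < x) (hxy : x ≤ y) (hκ : 1 ≤ κ)
    (hβ : (1 - 1 / (4 * κ)) * y ≤ x)
    (H : ∀ t ∈ Icc x y, HasDerivAt γ (γ' t) t ∧ HasDerivAt γ' (γ'' t) t ∧ m ≤ ‖γ' t‖ ∧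
      ‖γ'' t‖ ≤ κ / t * ‖γ' t‖) :
    ∀ s ∈ Icc x y, ∀ t ∈ Icc x y, m / 2 * |t - s| ≤ ‖γ t - γ s‖ := by
  have hy : 0 < y := hx.trans_le hxy
  have hκ0 : 0 < κ := by linarith
  have hcont : ContinuousOn γ' (Icc x y) := fun t ht => (H t ht).2.1.continuousAt.continuousWithinAt
  obtain ⟨c, hc, hmax⟩ := isCompact_Icc.exists_isMaxOn (nonempty_Icc.2 hxy) hcont.norm
  have hM : ∀ t ∈ Icc x y, ‖γ' t‖ ≤ ‖γ' c‖ := fun t ht => hmax ht
  set M := ‖γ' c‖ with hMdef
  have hM0 : 0 ≤ M := norm_nonneg _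
  have hlen : κ * (y - x) ≤ y / 4 := by
    have h1 : y - x ≤ 1 / (4 * κ) * y := by linarith
    calc κ * (y - x) ≤ κ * (1 / (4 * κ) * y) := mul_le_mul_of_nonneg_left h1 hκ0.le
      _ = y / 4 := by field_simp
  have hx34 : 3 / 4 * y ≤ x := by
    have h1 : y - x ≤ κ * (y - x) := by nlinarith [sub_nonneg.2 hxy]
    linarith
  -- derivative close to the one at the right end
  have hclose1 : ∀ t ∈ Icc x y, ‖γ' t - γ' y‖ ≤ M / 3 := by
    intro t ht
    have h1 : ‖γ' t - γ' y‖ ≤ κ / x * M * ‖t - y‖ := by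
      refine (convex_Icc x y).norm_image_sub_le_of_norm_hasDerivWithin_le (f' := γ'')
        (fun s hs => (H s hs).2.1.hasDerivWithinAt) ?_ (right_mem_Icc.2 hxy) ht
      intro s hs
      refine (H s hs).2.2.2.trans ?_
      have hs0 : 0 < s := hx.trans_le hs.1
      have h2 : κ / s ≤ κ / x := div_le_div_of_nonneg_left hκ0.le hx hs.1
      exact mul_le_mul h2 (hM s hs) (norm_nonneg _) (by positivity)
    refine h1.trans ?_
    have h2 : ‖t - y‖ ≤ y - x := by
      rw [Real.norm_eq_abs, abs_sub_comm, abs_of_nonneg (sub_nonneg.2 ht.2)]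
      linarith [ht.1]
    calc κ / x * M * ‖t - y‖ ≤ κ / x * M * (y - x) :=
          mul_le_mul_of_nonneg_left h2 (by positivity)
      _ = (κ * (y - x)) / x * M := by ring
      _ ≤ 1 / 3 * M := by
          apply mul_le_mul_of_nonneg_right _ hM0
          rw [div_le_iff₀ hx]
          linarith
      _ = M / 3 := by ring
  have hMy : M ≤ 3 / 2 * ‖γ' y‖ := by
    have h1 := hclose1 c hc
    have h2 : M ≤ ‖γ' c - γ' y‖ + ‖γ' y‖ := by
      have := norm_add_le (γ' c - γ' y) (γ' y)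
      rwa [sub_add_cancel] at this
    linarith
  have hclose : ∀ t ∈ Icc x y, ‖γ' t - γ' y‖ ≤ ‖γ' y‖ / 2 := fun t ht => by
    have := hclose1 t ht
    linarith
  intro s hs t ht
  have h1 : ‖(γ t - t • γ' y) - (γ s - s • γ' y)‖ ≤ ‖γ' y‖ / 2 * ‖t - s‖ := by
    refine (convex_Icc x y).norm_image_sub_le_of_norm_hasDerivWithin_le
      (f := fun t : ℝ => γ t - t • γ' y) (f' := fun t => γ' t - γ' y) ?_ hclose hs ht
    intro r hr
    have h2 : HasDerivAt (fun t : ℝ => t • γ' y) ((1 : ℝ) • γ' y) r :=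
      (hasDerivAt_id r).smul_const (γ' y)
    rw [one_smul] at h2
    exact ((H r hr).1.sub h2).hasDerivWithinAt
  have h2 : ‖(t - s) • γ' y‖ ≤ ‖γ t - γ s‖ + ‖(γ t - t • γ' y) - (γ s - s • γ' y)‖ := by
    have h3 : (t - s) • γ' y = (γ t - γ s) - ((γ t - t • γ' y) - (γ s - s • γ' y)) := by
      rw [sub_smul]; abel
    rw [h3]
    exact norm_sub_le _ _
  rw [norm_smul] at h2
  have h4 : ‖t - s‖ = |t - s| := Real.norm_eq_abs _
  rw [h4] at h1 h2
  have h5 : m ≤ ‖γ' y‖ := (H y (right_mem_Icc.2 hxy)).2.2.1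
  have h6 : m * |t - s| ≤ ‖γ' y‖ * |t - s| := mul_le_mul_of_nonneg_right h5 (abs_nonneg _)
  nlinarith [abs_nonneg (t - s)]

/-- one short piece -/
theorem piece {x y κ m : ℝ} {γ γ' γ'' : ℝ → ℂ} (hx : 0 < x) (hxy : x ≤ y) (hκ : 1 ≤ κ)
    (hm : 0 < m) (hβ : (1 - 1 / (4 * κ)) * y ≤ x)
    (H : ∀ t ∈ Icc x y, HasDerivAt γ (γ' t) t ∧ HasDerivAt γ' (γ'' t) t ∧ m ≤ ‖γ' t‖ ∧
      ‖γ'' t‖ ≤ κ / t * ‖γ' t‖) : HB γ x y (8 * Real.sqrt ((y - x) / m)) := by
  have hdl := dist_lower hx hxy hκ hβ H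
  have hcont : ContinuousOn γ (Icc x y) := fun t ht => (H t ht).1.continuousAt.continuousWithinAt
  intro a
  have hcont2 : ContinuousOn (fun t => ‖γ t - a‖) (Icc x y) := (hcont.sub continuousOn_const).norm
  obtain ⟨c, hc, hmin⟩ := isCompact_Icc.exists_isMinOn (nonempty_Icc.2 hxy) hcont2
  have hlow : ∀ t ∈ Icc x y, m / 4 * |t - c| ≤ ‖γ t - a‖ := by
    intro t ht
    have h1 := hdl c hc t ht
    have h2 : ‖γ t - γ c‖ ≤ ‖γ t - a‖ + ‖γ c - a‖ := by
      have h3 : γ t - γ c = (γ t - a) - (γ c - a) := by ring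
      rw [h3]
      exact norm_sub_le _ _
    have h4 : ‖γ c - a‖ ≤ ‖γ t - a‖ := hmin ht
    nlinarith
  have hmeas : AEStronglyMeasurable (fun θ => ‖γ θ - a‖ ^ (-(1 / 2 : ℝ)))
      (volume.restrict (Icc x y)) := by
    have h1 : AEMeasurable (fun t => ‖γ t - a‖) (volume.restrict (Icc x y)) :=
      hcont2.aemeasurable measurableSet_Icc
    exact (h1.pow_const _).aestronglyMeasurable
  -- the pointwise bound
  have hpt : ∀ t ∈ Icc x y, ∀ d : ℝ, 0 < d → |t - c| = d →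
      0 ≤ ‖γ t - a‖ ^ (-(1 / 2 : ℝ)) ∧
      ‖γ t - a‖ ^ (-(1 / 2 : ℝ)) ≤ 2 / Real.sqrt m * d ^ (-(1 / 2 : ℝ)) := by
    intro t ht d hd hdc
    refine ⟨by positivity, ?_⟩
    have h1 := hlow t ht
    rw [hdc] at h1
    have h2 : 0 < m / 4 * d := by positivity
    have h3 : ‖γ t - a‖ ^ (-(1 / 2 : ℝ)) ≤ (m / 4 * d) ^ (-(1 / 2 : ℝ)) :=
      Real.rpow_le_rpow_of_nonpos h2 h1 (by norm_num)
    refine h3.trans (le_of_eq ?_)
    rw [Real.mul_rpow (by positivity) hd.le]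
    congr 1
    rw [Real.rpow_neg (by positivity), ← Real.sqrt_eq_rpow, Real.sqrt_div hm.le,
      show (4 : ℝ) = 2 ^ 2 by norm_num, Real.sqrt_sq (by norm_num), inv_div]
  have hsub1 : Ioc x c ⊆ Icc x y := fun t ht => ⟨ht.1.le, ht.2.trans hc.2⟩
  have hsub2 : Ioc c y ⊆ Icc x y := fun t ht => ⟨hc.1.trans ht.1.le, ht.2⟩
  obtain ⟨i1, b1⟩ := left_piece (f := fun θ => ‖γ θ - a‖ ^ (-(1 / 2 : ℝ))) (K := 2 / Real.sqrt m)
    hc.1 (hmeas.mono_measure (Measure.restrict_mono hsub1 le_rfl)) (fun t ht => by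
      refine hpt t ⟨ht.1.le, ht.2.le.trans hc.2⟩ (c - t) (sub_pos.2 ht.2) ?_
      rw [abs_sub_comm, abs_of_pos (sub_pos.2 ht.2)])
  obtain ⟨i2, b2⟩ := right_piece (f := fun θ => ‖γ θ - a‖ ^ (-(1 / 2 : ℝ))) (K := 2 / Real.sqrt m)
    hc.2 (hmeas.mono_measure (Measure.restrict_mono hsub2 le_rfl)) (fun t ht => by
      refine hpt t ⟨hc.1.trans ht.1.le, ht.2.le⟩ (t - c) (sub_pos.2 ht.1) ?_
      rw [abs_of_pos (sub_pos.2 ht.1)])
  refine ⟨?_, i1.trans i2, ?_⟩
  · refine measure_mono_null (t := {c}) ?_ (by simp)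
    rintro t ⟨ht, hta⟩
    have h1 := hlow t ht
    rw [hta, sub_self, norm_zero] at h1
    have h2 : |t - c| ≤ 0 := by
      by_contra hcon
      push Not at hcon
      have : 0 < m / 4 * |t - c| := by positivity
      linarith
    have h3 := abs_nonpos_iff.1 h2
    exact sub_eq_zero.1 h3
  · rw [← intervalIntegral.integral_add_adjacent_intervals i1 i2]
    have h1 : Real.sqrt (c - x) ≤ Real.sqrt (y - x) := Real.sqrt_le_sqrt (by linarith [hc.2])
    have h2 : Real.sqrt (y - c) ≤ Real.sqrt (y - x) := Real.sqrt_le_sqrt (by linarith [hc.1])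
    have h3 : 0 ≤ 2 * (2 / Real.sqrt m) := by positivity
    have h4 : Real.sqrt ((y - x) / m) = Real.sqrt (y - x) / Real.sqrt m :=
      Real.sqrt_div (sub_nonneg.2 hxy) m
    calc _ ≤ 2 * (2 / Real.sqrt m) * Real.sqrt (c - x) +
          2 * (2 / Real.sqrt m) * Real.sqrt (y - c) := add_le_add b1 b2
      _ ≤ 2 * (2 / Real.sqrt m) * Real.sqrt (y - x) +
          2 * (2 / Real.sqrt m) * Real.sqrt (y - x) :=
          add_le_add (mul_le_mul_of_nonneg_left h1 h3) (mul_le_mul_of_nonneg_left h2 h3)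
      _ = 8 * Real.sqrt ((y - x) / m) := by rw [h4]; ring

theorem HB_add {γ : ℝ → ℂ} {x z y B1 B2 : ℝ} (h1 : HB γ x z B1) (h2 : HB γ z y B2) :
    HB γ x y (B1 + B2) := by
  intro a
  obtain ⟨n1, i1, b1⟩ := h1 a
  obtain ⟨n2, i2, b2⟩ := h2 a
  refine ⟨?_, i1.trans i2, ?_⟩
  · refine measure_mono_null ?_ (measure_union_null n1 n2)
    rintro t ⟨ht, hta⟩
    rcases le_total t z with h | h
    · exact Or.inl ⟨⟨ht.1, h⟩, hta⟩
    · exact Or.inr ⟨⟨h, ht.2⟩, hta⟩
  · rw [← intervalIntegral.integral_add_adjacent_intervals i1 i2]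
    exact add_le_add b1 b2

theorem HB_mono {γ : ℝ → ℂ} {x y B B' : ℝ} (h : HB γ x y B) (hB : B ≤ B') : HB γ x y B' :=
  fun a => ⟨(h a).1, (h a).2.1, (h a).2.2.trans hB⟩

theorem induct {t0 h κ m : ℝ} {γ γ' γ'' : ℝ → ℂ} (ht0 : 0 < t0) (hκ : 1 ≤ κ) (hm : 0 < m)
    (H : ∀ t ∈ Icc t0 h, HasDerivAt γ (γ' t) t ∧ HasDerivAt γ' (γ'' t) t ∧ m ≤ ‖γ' t‖ ∧
      ‖γ'' t‖ ≤ κ / t * ‖γ' t‖) (n : ℕ) :
    ∀ x y : ℝ, t0 ≤ x → x ≤ y → y ≤ h → (1 - 1 / (4 * κ)) ^ n * y ≤ x →
      HB γ x y (32 * Real.sqrt (κ / m) * (Real.sqrt y - Real.sqrt x) +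
        4 * Real.sqrt (κ * y / m)) := by
  have hκ0 : 0 < κ := by linarith
  set β := 1 - 1 / (4 * κ) with hβ
  have hβ0 : 0 < β := by
    have : 1 / (4 * κ) ≤ 1 / 4 := by
      apply one_div_le_one_div_of_le (by norm_num)
      linarith
    rw [hβ]; linarith
  have hβ1 : β < 1 := by
    rw [hβ]
    have : 0 < 1 / (4 * κ) := by positivity
    linarith
  have short : ∀ x y : ℝ, t0 ≤ x → x ≤ y → y ≤ h → β * y ≤ x →
      HB γ x y (8 * Real.sqrt ((y - x) / m)) := fun x y h1 h2 h3 h4 =>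
    piece (ht0.trans_le h1) h2 hκ hm h4 fun t ht => H t ⟨h1.trans ht.1, ht.2.trans h3⟩
  have lenb : ∀ x y : ℝ, 0 ≤ y → β * y ≤ x → Real.sqrt ((y - x) / m) ≤
      1 / 2 * Real.sqrt (y / (κ * m)) := by
    intro x y hy hxy
    have h1 : (y - x) / m ≤ (1 / 2) ^ 2 * (y / (κ * m)) := by
      have h2 : y - x ≤ 1 / (4 * κ) * y := by
        have : β * y = y - 1 / (4 * κ) * y := by rw [hβ]; ring
        linarith
      calc (y - x) / m ≤ (1 / (4 * κ) * y) / m := div_le_div_of_nonneg_right h2 hm.le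
        _ = (1 / 2) ^ 2 * (y / (κ * m)) := by field_simp; ring
    calc Real.sqrt ((y - x) / m) ≤ Real.sqrt ((1 / 2) ^ 2 * (y / (κ * m))) := Real.sqrt_le_sqrt h1
      _ = 1 / 2 * Real.sqrt (y / (κ * m)) := by
        rw [Real.sqrt_mul (by positivity), Real.sqrt_sq (by norm_num)]
  have single : ∀ x y : ℝ, t0 ≤ x → x ≤ y → y ≤ h → β * y ≤ x →
      HB γ x y (32 * Real.sqrt (κ / m) * (Real.sqrt y - Real.sqrt x) +
        4 * Real.sqrt (κ * y / m)) := by
    intro x y h1 h2 h3 h4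
    have hy0 : 0 < y := (ht0.trans_le h1).trans_le h2
    refine HB_mono (short x y h1 h2 h3 h4) ?_
    have h5 := lenb x y hy0.le h4
    have h6 : Real.sqrt (y / (κ * m)) ≤ Real.sqrt (κ * y / m) := by
      apply Real.sqrt_le_sqrt
      rw [div_le_div_iff₀ (by positivity) hm]
      have : y * m ≤ κ * κ * (y * m) := by
        have : 1 ≤ κ * κ := by nlinarith
        nlinarith [mul_pos hy0 hm]
      nlinarith
    have h7 : 0 ≤ 32 * Real.sqrt (κ / m) * (Real.sqrt y - Real.sqrt x) :=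
      mul_nonneg (by positivity) (sub_nonneg.2 (Real.sqrt_le_sqrt h2))
    linarith
  induction n with
  | zero =>
    intro x y h1 h2 h3 h4
    rw [pow_zero, one_mul] at h4
    have hy0 : 0 < y := (ht0.trans_le h1).trans_le h2
    exact single x y h1 h2 h3 (le_trans (by nlinarith) h4)
  | succ n ih =>
    intro x y h1 h2 h3 h4
    have hy0 : 0 < y := (ht0.trans_le h1).trans_le h2
    rcases le_total (β * y) x with h5 | h5
    · exact single x y h1 h2 h3 h5
    · have hz : β * y ≤ y := by nlinarith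
      have hz0 : 0 < β * y := by positivity
      have a1 := ih x (β * y) h1 h5 (hz.trans h3) (by
        have : β ^ n * (β * y) = β ^ (n + 1) * y := by ring
        rw [this]; exact h4)
      have a2 := short (β * y) y (h1.trans h5) hz h3 le_rfl
      refine HB_mono (HB_add a1 a2) ?_
      have h6 : Real.sqrt (κ * (β * y) / m) ≤ Real.sqrt (κ * y / m) := by
        apply Real.sqrt_le_sqrt
        apply div_le_div_of_nonneg_right _ hm.le
        exact mul_le_mul_of_nonneg_left hz hκ0.le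
      have h7 : 8 * Real.sqrt ((y - β * y) / m) ≤
          32 * Real.sqrt (κ / m) * (Real.sqrt y - Real.sqrt (β * y)) := by
        have h8 := lenb (β * y) y hy0.le le_rfl
        have h9 : Real.sqrt (y / (κ * m)) = Real.sqrt y * Real.sqrt (κ / m) / κ := by
          have e1 : y / (κ * m) = (y * (κ / m)) / κ ^ 2 := by field_simp
          rw [e1, Real.sqrt_div (by positivity), Real.sqrt_sq hκ0.le,
            Real.sqrt_mul hy0.le]
        have h10 : Real.sqrt (β * y) = Real.sqrt β * Real.sqrt y := Real.sqrt_mul hβ0.le y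
        have h11 : 1 / (8 * κ) ≤ 1 - Real.sqrt β := by
          have k1 : Real.sqrt β ≤ 1 - 1 / (8 * κ) := by
            rw [Real.sqrt_le_left]
            · have : (1 - 1 / (8 * κ)) ^ 2 = β + (1 / (8 * κ)) ^ 2 := by
                rw [hβ]; field_simp; ring
              rw [this]
              have := sq_nonneg (1 / (8 * κ))
              linarith
            · have : 1 / (8 * κ) ≤ 1 / 8 := by
                apply one_div_le_one_div_of_le (by norm_num)
                linarith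
              linarith
          linarith
        have h12 : 0 ≤ Real.sqrt y * Real.sqrt (κ / m) := by positivity
        rw [h9] at h8
        rw [h10]
        have h13 : Real.sqrt y * Real.sqrt (κ / m) * (1 / (8 * κ)) ≤
          Real.sqrt y * Real.sqrt (κ / m) * (1 - Real.sqrt β) := mul_le_mul_of_nonneg_left h11 h12
        have h14 : 8 * (1 / 2 * (Real.sqrt y * Real.sqrt (κ / m) / κ)) =
          32 * (Real.sqrt y * Real.sqrt (κ / m) * (1 / (8 * κ))) := by field_simp; norm_num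
        nlinarith
      nlinarith

end LI

theorem li : S_LI := by
  intro t0 h κ m γ γ' γ'' ht0 hth hκ hm H
  have hκ0 : 0 < κ := by linarith
  have hh0 : 0 < h := ht0.trans_le hth
  have hβ0 : 0 ≤ 1 - 1 / (4 * κ) := by
    have : 1 / (4 * κ) ≤ 1 / 4 := by
      apply one_div_le_one_div_of_le (by norm_num)
      linarith
    linarith
  have hβ1 : 1 - 1 / (4 * κ) < 1 := by
    have : 0 < 1 / (4 * κ) := by positivity
    linarith
  obtain ⟨n, hn⟩ := exists_pow_lt_of_lt_one (show 0 < t0 / h by positivity) hβ1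
  have h1 : (1 - 1 / (4 * κ)) ^ n * h ≤ t0 := by
    have := (lt_div_iff₀ hh0).1 hn
    exact this.le
  refine LI.HB_mono (LI.induct ht0 hκ hm H n t0 h le_rfl hth le_rfl h1) ?_
  have h2 : Real.sqrt (κ * h / m) = Real.sqrt (κ / m) * Real.sqrt h := by
    rw [← Real.sqrt_mul (by positivity)]
    congr 1
    ring
  rw [h2]
  have h3 : 0 ≤ Real.sqrt t0 := Real.sqrt_nonneg _
  have h4 : 0 ≤ Real.sqrt (κ / m) := Real.sqrt_nonneg _
  have h5 : 0 ≤ Real.sqrt h := Real.sqrt_nonneg _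
  nlinarith [mul_nonneg h4 h3, mul_nonneg h4 h5]

end Pool.Agent.H928.IB
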