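import Pool.Agent.H928.IB.Stm

/-!
# IB, task Lif (helper155): the bound for a fixed stage
-/

set_option autoImplicit false

open MeasureTheory Set Filter Topology Complex Metric
open scoped ComplexConjugate

namespace Pool.Agent.H928.IB

namespace Lif

lemma norm_cm (θ : ℝ) : ‖cm θ‖ = 1 := by
  unfold cm
  exact Complex.norm_exp_ofReal_mul_I θ

lemma hasDerivAt_cm (θ : ℝ) : HasDerivAt cm (I * cm θ) θ := by
  have h1 : HasDerivAt (fun θ : ℝ => (θ : ℂ) * I) (1 * I) θ :=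
    (Complex.ofRealCLM.hasDerivAt (x := θ)).mul_const I
  have h2 := h1.cexp
  rw [one_mul, mul_comm] at h2
  exact h2

/-- shift of the parameter -/
lemma HB_shift (γ : ℝ → ℂ) (y B : ℝ) (h : HB (fun t => γ (t - 1)) 1 (1 + y) B) :
    HB γ 0 y B := by
  intro a
  obtain ⟨h1, h2, h3⟩ := h a
  refine ⟨?_, ?_, ?_⟩
  · have e : {θ : ℝ | θ ∈ Icc 0 y ∧ γ θ = a} =
        (fun θ => θ + 1) ⁻¹' {t : ℝ | t ∈ Icc 1 (1 + y) ∧ γ (t - 1) = a} := by
      ext θ
      simp only [mem_preimage, mem_setOf_eq, mem_Icc, add_sub_cancel_right]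
      constructor
      · rintro ⟨⟨h4, h5⟩, h6⟩
        exact ⟨⟨by linarith, by linarith⟩, h6⟩
      · rintro ⟨⟨h4, h5⟩, h6⟩
        exact ⟨⟨by linarith, by linarith⟩, h6⟩
    rw [e, measure_preimage_add_right]
    exact h1
  · have h4 := h2.comp_add_right 1
    simp only [add_sub_cancel_right, sub_self, add_sub_cancel_left] at h4
    exact h4
  · have h4 := intervalIntegral.integral_comp_add_right
      (a := 0) (b := y) (fun t => ‖γ (t - 1) - a‖ ^ (-(1 / 2 : ℝ))) 1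
    simp only [add_sub_cancel_right, zero_add] at h4
    rw [h4, add_comm y 1]
    exact h3

end Lif

open Lif in
/-- P10 -/
theorem lif (h : S_LI) : S_LIF := by
  intro R p F hG
  obtain ⟨hR, hp, hF, -⟩ := hG
  have hmem : ∀ θ : ℝ, cm θ ∈ ball (0 : ℂ) R := fun θ => by
    rw [mem_ball_zero_iff, norm_cm]
    exact hR
  have hsub : sphere (0 : ℂ) 1 ⊆ ball (0 : ℂ) R := fun z hz => by
    rw [mem_sphere_zero_iff_norm] at hz
    rw [mem_ball_zero_iff, hz]
    exact hR
  have hms : ∀ θ : ℝ, cm θ ∈ sphere (0 : ℂ) 1 := fun θ => by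
    rw [mem_sphere_zero_iff_norm, norm_cm]
  have hpd : ∀ z ∈ ball (0 : ℂ) R, HasDerivAt p (deriv p z) z := fun z hz =>
    (hp.differentiableAt (isOpen_ball.mem_nhds hz)).hasDerivAt
  obtain ⟨C1, hC1⟩ := (isCompact_sphere (0 : ℂ) 1).exists_bound_of_continuousOn
    (hp.continuousOn.mono hsub)
  obtain ⟨C2, hC2⟩ := (isCompact_sphere (0 : ℂ) 1).exists_bound_of_continuousOn
    ((hp.deriv isOpen_ball).continuousOn.mono hsub)
  have hC20 : 0 ≤ C2 := (norm_nonneg _).trans (hC2 _ (hms 0))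
  have hpi := Real.pi_pos
  refine ⟨64 * Real.sqrt ((1 + C2) * (1 + 2 * Real.pi) * (1 + 2 * Real.pi) / Real.exp (-C1)),
    HB_shift _ _ _ ?_⟩
  refine h 1 (1 + 2 * Real.pi) ((1 + C2) * (1 + 2 * Real.pi)) (Real.exp (-C1))
    (fun t => F (cm (t - 1))) (fun t => I * cm (t - 1) * exp (p (cm (t - 1))))
    (fun t => (I * (I * cm (t - 1))) * exp (p (cm (t - 1))) + I * cm (t - 1) *
      (exp (p (cm (t - 1))) * (I * cm (t - 1) * deriv p (cm (t - 1)))))
    one_pos (by linarith) ?_ (Real.exp_pos _) ?_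
  · nlinarith
  intro t ht
  have hcm : HasDerivAt (fun t : ℝ => cm (t - 1)) (I * cm (t - 1)) t := by
    have h1 := (hasDerivAt_cm (t - 1)).scomp t ((hasDerivAt_id t).sub_const 1)
    rw [one_smul] at h1
    exact h1
  have hz := hmem (t - 1)
  have hn := norm_cm (t - 1)
  have hFd : HasDerivAt (fun t : ℝ => F (cm (t - 1))) (I * cm (t - 1) * exp (p (cm (t - 1)))) t := by
    have h1 := HasDerivAt.scomp t (hF _ hz) hcm
    exact h1
  have hpc : HasDerivAt (fun t : ℝ => p (cm (t - 1))) (I * cm (t - 1) * deriv p (cm (t - 1))) t := by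
    have h1 := HasDerivAt.scomp t (hpd _ hz) hcm
    exact h1
  have hEn : ‖exp (p (cm (t - 1)))‖ = Real.exp (p (cm (t - 1))).re := Complex.norm_exp _
  have hg : ‖I * cm (t - 1) * exp (p (cm (t - 1)))‖ = ‖exp (p (cm (t - 1)))‖ := by
    rw [norm_mul, norm_mul, Complex.norm_I, hn, one_mul, one_mul]
  refine ⟨hFd, ?_, ?_, ?_⟩
  · exact (hcm.const_mul I).mul hpc.cexp
  · rw [hg, hEn, Real.exp_le_exp]
    have h1 := hC1 _ (hms (t - 1))
    have h2 := Complex.abs_re_le_norm (p (cm (t - 1)))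
    have h3 := neg_abs_le (p (cm (t - 1))).re
    linarith
  · rw [hg]
    have h1 : ‖(I * (I * cm (t - 1))) * exp (p (cm (t - 1)))‖ = ‖exp (p (cm (t - 1)))‖ := by
      rw [norm_mul, norm_mul, norm_mul, Complex.norm_I, hn, one_mul, one_mul, one_mul]
    have h2 : ‖I * cm (t - 1) * (exp (p (cm (t - 1))) * (I * cm (t - 1) * deriv p (cm (t - 1))))‖ =
        ‖exp (p (cm (t - 1)))‖ * ‖deriv p (cm (t - 1))‖ := by
      rw [norm_mul, norm_mul, norm_mul, norm_mul, norm_mul, Complex.norm_I, hn, one_mul, one_mul,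
        one_mul]
    have h3 := hC2 _ (hms (t - 1))
    have h4 := norm_nonneg (exp (p (cm (t - 1))))
    have h5 : 1 + C2 ≤ (1 + C2) * (1 + 2 * Real.pi) / t := by
      rw [le_div_iff₀ (by linarith [ht.1])]
      exact mul_le_mul_of_nonneg_left ht.2 (by linarith)
    refine (norm_add_le _ _).trans ?_
    rw [h1, h2]
    calc ‖exp (p (cm (t - 1)))‖ + ‖exp (p (cm (t - 1)))‖ * ‖deriv p (cm (t - 1))‖
        ≤ (1 + C2) * ‖exp (p (cm (t - 1)))‖ := by nlinarith
      _ ≤ _ := mul_le_mul_of_nonneg_right h5 h4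

end Pool.Agent.H928.IB
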