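import Pool.Agent.H928.IB.Stm

set_option autoImplicit false

open MeasureTheory Set Filter Topology Complex Metric
open scoped ComplexConjugate

namespace Pool.Agent.H928.IB

namespace Lim

/-- minimum principle -/
theorem zero_of_small (g : ℂ → ℂ) (c : ℂ) (ρ m : ℝ) (hρ : 0 < ρ)
    (hd : ∀ z ∈ closedBall c ρ, DifferentiableAt ℂ g z)
    (hs : ∀ z ∈ sphere c ρ, m ≤ ‖g z‖) (hc : ‖g c‖ < m) :
    ∃ z ∈ closedBall c ρ, g z = 0 := by
  by_contra hne
  push Not at hne
  have hm : 0 < m := lt_of_le_of_lt (norm_nonneg _) hc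
  have h1 : DiffContOnCl ℂ (fun z => (g z)⁻¹) (ball c ρ) := by
    refine ⟨fun z hz => ?_, ?_⟩
    · exact ((hd z (ball_subset_closedBall hz)).inv
        (hne z (ball_subset_closedBall hz))).differentiableWithinAt
    · rw [closure_ball c hρ.ne']
      intro z hz
      exact ((hd z hz).continuousAt.inv₀ (hne z hz)).continuousWithinAt
  have h2 := Complex.norm_le_of_forall_mem_frontier_norm_le (U := ball c ρ) isBounded_ball h1
    (C := m⁻¹) (by
      intro z hz
      rw [frontier_ball c hρ.ne'] at hz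
      rw [norm_inv]
      exact inv_anti₀ hm (hs z hz)) (z := c) (subset_closure (mem_ball_self hρ))
  rw [norm_inv] at h2
  have h3 : 0 < ‖g c‖ := norm_pos_iff.2 (hne c (mem_closedBall_self hρ.le))
  have h4 := (inv_le_inv₀ h3 hm).1 h2
  linarith

end Lim

open Lim in
theorem lim (h : S_SEQ) : S_LIM := by
  obtain ⟨F, r, δ, hF0, hGood, hr, hmono, hrt, hδ0, hδ00, hδh, hstep, hlast⟩ := h
  -- decay of δ
  have hδpow : ∀ k j : ℕ, δ (k + j) ≤ δ k * (1 / 2) ^ j := by
    intro k j
    induction j with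
    | zero => simp
    | succ j ih =>
      have h1 := hδh (k + j)
      rw [← add_assoc, pow_succ]
      calc δ (k + j + 1) ≤ δ (k + j) / 2 := h1
        _ ≤ (δ k * (1 / 2) ^ j) / 2 := by linarith
        _ = δ k * ((1 / 2) ^ j * (1 / 2)) := by ring
  have hδt : Tendsto δ atTop (𝓝 0) := by
    have h1 : Tendsto (fun j : ℕ => δ 0 * (1 / 2 : ℝ) ^ j) atTop (𝓝 0) := by
      have := (tendsto_pow_atTop_nhds_zero_of_lt_one (by norm_num : (0 : ℝ) ≤ 1 / 2)
        (by norm_num : (1 / 2 : ℝ) < 1)).const_mul (δ 0)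
      simpa using this
    refine squeeze_zero (fun k => (hδ0 k).le) (fun k => ?_) h1
    have := hδpow 0 k
    simpa using this
  have hdist : ∀ k j : ℕ, ∀ z : ℂ, ‖z‖ ≤ r k →
      ‖F (k + j) z - F k z‖ ≤ δ k * (1 - (1 / 2) ^ j) := by
    intro k j z hz
    induction j with
    | zero => simp
    | succ j ih =>
      have h1 := hstep (k + j) z (hz.trans (hmono (Nat.le_add_right k j)))
      have h2 := hδpow k j
      have h3 : ‖F (k + (j + 1)) z - F k z‖ ≤ ‖F (k + j + 1) z - F (k + j) z‖ +
          ‖F (k + j) z - F k z‖ := by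
        have := norm_add_le (F (k + j + 1) z - F (k + j) z) (F (k + j) z - F k z)
        simpa [add_assoc] using this
      rw [pow_succ]
      linarith
  have hbig : ∀ ρ : ℝ, ρ < 1 → ∀ᶠ k in atTop, ρ ≤ r k := fun ρ hρ =>
    (hrt.eventually (lt_mem_nhds hρ)).mono fun _ h => h.le
  have hex : ∀ z : ℂ, ∃ w : ℂ, ‖z‖ < 1 → Tendsto (fun k => F k z) atTop (𝓝 w) := by
    intro z
    by_cases hz : ‖z‖ < 1
    · obtain ⟨k, hk⟩ := (hbig ‖z‖ hz).exists
      have hc : CauchySeq (fun j => F (k + j) z) := by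
        refine cauchySeq_of_le_geometric (1 / 2) (δ k / 2) (by norm_num) fun j => ?_
        rw [dist_comm, dist_eq_norm]
        have h1 := hstep (k + j) z (hk.trans (hmono (Nat.le_add_right k j)))
        have h2 := hδpow k j
        have h3 : F (k + (j + 1)) z = F (k + j + 1) z := rfl
        rw [h3]
        linarith
      obtain ⟨w, hw⟩ := cauchySeq_tendsto_of_complete hc
      refine ⟨w, fun _ => ?_⟩
      have hw' : Tendsto (fun j => F (j + k) z) atTop (𝓝 w) := by
        simpa [add_comm] using hw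
      exact (tendsto_add_atTop_iff_nat k).1 hw'
    · exact ⟨0, fun h => absurd h hz⟩
  choose G hG using hex
  have hGF : ∀ k : ℕ, ∀ z : ℂ, ‖z‖ ≤ r k → ‖G z - F k z‖ ≤ δ k := by
    intro k z hz
    have hz1 : ‖z‖ < 1 := hz.trans_lt (hr k).2
    have h1 : Tendsto (fun j => ‖F (k + j) z - F k z‖) atTop (𝓝 ‖G z - F k z‖) := by
      have h2 : Tendsto (fun j => F (j + k) z) atTop (𝓝 (G z)) :=
        (tendsto_add_atTop_iff_nat k).2 (hG z hz1)
      have h3 : Tendsto (fun j => F (k + j) z) atTop (𝓝 (G z)) := by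
        simpa [add_comm] using h2
      exact (h3.sub_const _).norm
    refine le_of_tendsto h1 (Eventually.of_forall fun j => (hdist k j z hz).trans ?_)
    have : (0 : ℝ) ≤ (1 / 2) ^ j := by positivity
    nlinarith [hδ0 k]
  have hFd : ∀ k, ∀ z : ℂ, ‖z‖ ≤ 1 → DifferentiableAt ℂ (F k) z := by
    intro k z hz
    obtain ⟨R, p, hR, hp, hF, hlt⟩ := hGood k
    exact (hF z (by rw [mem_ball_zero_iff]; linarith)).differentiableAt
  have hFdOn : ∀ k, DifferentiableOn ℂ (F k) (ball 0 1) := fun k z hz =>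
    (hFd k z (by rw [mem_ball_zero_iff] at hz; exact hz.le)).differentiableWithinAt
  have hLU : TendstoLocallyUniformlyOn F G atTop (ball 0 1) := by
    rw [Metric.tendstoLocallyUniformlyOn_iff]
    intro ε hε x hx
    rw [mem_ball_zero_iff] at hx
    obtain ⟨ρ, hρ1, hρ2⟩ := exists_between hx
    refine ⟨ball 0 ρ, mem_nhdsWithin_of_mem_nhds (isOpen_ball.mem_nhds (by
      rw [mem_ball_zero_iff]; exact hρ1)), ?_⟩
    filter_upwards [hbig ρ hρ2, hδt.eventually (gt_mem_nhds hε)] with k hk1 hk2 y hy
    rw [mem_ball_zero_iff] at hy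
    rw [dist_eq_norm]
    exact (hGF k y (hy.le.trans hk1)).trans_lt hk2
  have hGd : DifferentiableOn ℂ G (ball 0 1) :=
    hLU.differentiableOn (Eventually.of_forall hFdOn) isOpen_ball
  have hLUd : TendstoLocallyUniformlyOn (deriv ∘ F) (deriv G) atTop (ball 0 1) :=
    hLU.deriv (Eventually.of_forall hFdOn) isOpen_ball
  have hGle : ∀ z ∈ disc, ‖G z‖ ≤ 1 := by
    intro z hz
    have hz1 : ‖z‖ < 1 := by simpa [disc] using hz
    refine le_of_tendsto (hG z hz1).norm (Eventually.of_forall fun k => ?_)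
    obtain ⟨R, p, hR, hp, hF, hlt⟩ := hGood k
    exact (hlt z hz1.le).le
  -- numbers
  have he5 : (1 : ℝ) / 149 < Real.exp (-5) := by
    rw [Real.exp_neg, one_div]
    refine inv_strictAnti₀ (Real.exp_pos _) ?_
    have h1 : Real.exp 5 = Real.exp 1 ^ 5 := by rw [← Real.exp_nat_mul]; norm_num
    rw [h1]
    have h2 := Real.exp_one_lt_d9
    calc Real.exp 1 ^ 5 < 2.7182818286 ^ 5 := by gcongr
      _ < 149 := by norm_num
  have he5' : Real.exp (-5) < 1 / 32 := by
    rw [Real.exp_neg, one_div]
    refine inv_strictAnti₀ (by norm_num) ?_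
    have h1 : Real.exp 5 = Real.exp 1 ^ 5 := by rw [← Real.exp_nat_mul]; norm_num
    rw [h1]
    have h2 := Real.exp_one_gt_d9
    calc (32 : ℝ) = 2 ^ 5 := by norm_num
      _ < Real.exp 1 ^ 5 := by gcongr; linarith
  have hnc : ¬ ∀ z ∈ disc, G z = G 0 := by
    intro hc
    have h1 := hc (9 / 10 : ℝ) (by
      simp only [disc, mem_ball_zero_iff, Complex.norm_real]
      rw [Real.norm_eq_abs, abs_of_pos (by norm_num)]; norm_num)
    have h2 := hGF 0 ((9 / 10 : ℝ) : ℂ) (by
      rw [Complex.norm_real, Real.norm_eq_abs, abs_of_pos (by norm_num)]; exact (hr 0).1)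
    have h3 := hGF 0 0 (by rw [norm_zero]; linarith [(hr 0).1])
    rw [h1] at h2
    have h4 : ‖F 0 ((9 / 10 : ℝ) : ℂ) - F 0 0‖ ≤ 2 * δ 0 := by
      have := norm_sub_le (G 0 - F 0 0) (G 0 - F 0 ((9 / 10 : ℝ) : ℂ))
      have h5 : G 0 - F 0 0 - (G 0 - F 0 ((9 / 10 : ℝ) : ℂ)) =
        F 0 ((9 / 10 : ℝ) : ℂ) - F 0 0 := by ring
      rw [h5] at this
      linarith
    have h6 : F 0 ((9 / 10 : ℝ) : ℂ) - F 0 0 =
        ((1 / 2 * Real.exp (-(1 / 2)) - 1 / 2 * Real.exp (-5) : ℝ) : ℂ) := by
      rw [hF0, hF0]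
      push_cast
      congr 3 <;> norm_num
    rw [h6, Complex.norm_real, Real.norm_eq_abs] at h4
    have h7 := le_abs_self (1 / 2 * Real.exp (-(1 / 2)) - 1 / 2 * Real.exp (-5))
    have h8 : (1 : ℝ) / 2 ≤ Real.exp (-(1 / 2)) := by
      have := Real.add_one_le_exp (-(1 / 2 : ℝ))
      linarith
    linarith
  have hGlt : ∀ z ∈ disc, ‖G z‖ < 1 := by
    intro z hz
    by_contra hge
    push Not at hge
    have hmax : IsMaxOn (norm ∘ G) (ball 0 1) z := by
      intro w hw
      exact (hGle w hw).trans hge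
    have h1 := Complex.eqOn_of_isPreconnected_of_isMaxOn_norm
      (convex_ball (0 : ℂ) 1).isPreconnected isOpen_ball hGd hz hmax
    apply hnc
    intro w hw
    have h2 := h1 hw
    have h3 := h1 (show (0 : ℂ) ∈ ball (0 : ℂ) 1 by simp)
    simp only [Function.const_apply] at h2 h3
    rw [h2, h3]
  have hGderiv : ∀ z ∈ disc, deriv G z ≠ 0 := by
    intro z₀ hz₀ hzero
    have hA : AnalyticOnNhd ℂ (deriv G) (ball 0 1) :=
      (hGd.analyticOnNhd isOpen_ball).deriv
    rcases (hA z₀ hz₀).eventually_eq_zero_or_eventually_ne_zero with h0 | h0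
    · have h1 : EqOn (deriv G) 0 (ball 0 1) :=
        hA.eqOn_zero_of_preconnected_of_eventuallyEq_zero
          (convex_ball (0 : ℂ) 1).isPreconnected hz₀ h0
      apply hnc
      intro w hw
      exact isOpen_ball.is_const_of_deriv_eq_zero (convex_ball (0 : ℂ) 1).isPreconnected hGd h1 hw
        (by simp)
    · rw [eventually_nhdsWithin_iff, Metric.eventually_nhds_iff] at h0
      obtain ⟨ρ₁, hρ₁, h1⟩ := h0
      obtain ⟨ρ₂, hρ₂, h2⟩ := Metric.isOpen_iff.1 (isOpen_ball (x := (0 : ℂ)) (ε := 1)) z₀ hz₀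
      set ρ := min ρ₁ ρ₂ / 2 with hρdef
      have hρ : 0 < ρ := by positivity
      have hρ1 : ρ < ρ₁ := by
        have := min_le_left ρ₁ ρ₂
        linarith
      have hρ2 : ρ < ρ₂ := by
        have := min_le_right ρ₁ ρ₂
        linarith
      have hsub : closedBall z₀ ρ ⊆ ball 0 1 := (closedBall_subset_ball hρ2).trans h2
      have hne : (sphere z₀ ρ).Nonempty := NormedSpace.sphere_nonempty.2 hρ.le
      have hcont : ContinuousOn (fun z => ‖deriv G z‖) (sphere z₀ ρ) :=
        ((hA.continuousOn).mono (sphere_subset_closedBall.trans hsub)).norm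
      obtain ⟨x, hx, hxm⟩ := (isCompact_sphere z₀ ρ).exists_isMinOn hne hcont
      have hxpos : 0 < ‖deriv G x‖ := by
        refine norm_pos_iff.2 (h1 ?_ ?_)
        · rw [mem_sphere] at hx
          rw [hx]; exact hρ1
        · intro hxz
          rw [mem_sphere, hxz, dist_self] at hx
          exact hρ.ne hx
      set e := ‖deriv G x‖ / 4 with he
      have hepos : 0 < e := by positivity
      have hU : TendstoUniformlyOn (deriv ∘ F) (deriv G) atTop (closedBall z₀ ρ) :=
        (tendstoLocallyUniformlyOn_iff_forall_isCompact isOpen_ball).1 hLUd _ hsub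
          (isCompact_closedBall _ _)
      rw [Metric.tendstoUniformlyOn_iff] at hU
      obtain ⟨k, hk⟩ := (hU e hepos).exists
      obtain ⟨R, p, hR, hp, hF, hlt⟩ := hGood k
      have hsub' : closedBall z₀ ρ ⊆ ball 0 R := hsub.trans (ball_subset_ball hR.le)
      have hder : ∀ z ∈ ball (0 : ℂ) R, deriv (F k) z = exp (p z) := fun z hz => (hF z hz).deriv
      obtain ⟨z, hz, hz0⟩ := zero_of_small (fun z => exp (p z)) z₀ ρ (2 * e) hρ
        (by
          intro z hz
          exact (hp.differentiableAt (isOpen_ball.mem_nhds (hsub' hz))).cexp)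
        (by
          intro z hz
          have h3 := hk z (sphere_subset_closedBall hz)
          simp only [Function.comp_apply] at h3
          rw [hder z (hsub' (sphere_subset_closedBall hz)), dist_eq_norm] at h3
          have h4 : ‖deriv G x‖ ≤ ‖deriv G z‖ := hxm hz
          have h5 := norm_sub_norm_le (deriv G z) (exp (p z))
          have h6 : 4 * e = ‖deriv G x‖ := by rw [he]; ring
          linarith)
        (by
          have h3 := hk z₀ (mem_closedBall_self hρ.le)
          simp only [Function.comp_apply] at h3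
          rw [hder z₀ (hsub' (mem_closedBall_self hρ.le)), dist_eq_norm, hzero, zero_sub,
            norm_neg] at h3
          linarith)
      exact Complex.exp_ne_zero _ hz0
  refine ⟨G, hGd, hGlt, hGderiv, ?_, ?_⟩
  · -- not injective
    have hpi := Real.pi_gt_three
    have hpi' := Real.pi_lt_d2
    have key : ∀ s : ℝ, (s = 1 ∨ s = -1) →
        ∃ z ∈ closedBall (((s * Real.pi / 5 : ℝ) : ℂ) * I) (1 / 10),
          z ∈ disc ∧ G z = -(1 / 2) * exp (-5) := by
      intro s hs
      set c : ℂ := ((s * Real.pi / 5 : ℝ) : ℂ) * I with hc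
      have hsabs : |s| = 1 := by rcases hs with h | h <;> simp [h]
      have hcn : ‖c‖ = Real.pi / 5 := by
        rw [hc, norm_mul, Complex.norm_real, Complex.norm_I, mul_one, Real.norm_eq_abs, abs_div,
          abs_mul, hsabs, one_mul, abs_of_pos Real.pi_pos]
        norm_num
      have hin : ∀ z ∈ closedBall c (1 / 10), ‖z‖ ≤ 9 / 10 := by
        intro z hz
        rw [mem_closedBall, dist_eq_norm] at hz
        have h1 : ‖z‖ ≤ ‖z - c‖ + ‖c‖ := by
          have := norm_add_le (z - c) c
          simpa using this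
        linarith
      have hexp : exp (5 * c) = -1 := by
        have h1 : (5 : ℂ) * c = ((s * Real.pi : ℝ) : ℂ) * I := by
          rw [hc]; push_cast; ring
        rw [h1]
        rcases hs with h | h
        · rw [h]; simp
        · rw [h]
          have : (((-1 : ℝ) * Real.pi : ℝ) : ℂ) * I = -(Real.pi * I) := by push_cast; ring
          rw [this, Complex.exp_neg, Complex.exp_pi_mul_I]; norm_num
      have hF0z : ∀ z : ℂ, F 0 z - (-(1 / 2) * exp (-5)) =
          1 / 2 * exp (-5) * (1 - exp (5 * (z - c))) := by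
        intro z
        rw [hF0]
        have h1 : exp (5 * (z - 1)) = exp (-5) * (exp (5 * c) * exp (5 * (z - c))) := by
          rw [← Complex.exp_add, ← Complex.exp_add]; congr 1; ring
        rw [h1, hexp]; ring
      have hexpn : ‖exp (-5 : ℂ)‖ = Real.exp (-5) := by
        rw [Complex.norm_exp]; norm_num
      obtain ⟨z, hz, hz0⟩ := zero_of_small (fun z => G z - (-(1 / 2) * exp (-5))) c (1 / 10)
        (1 / 5000) (by norm_num)
        (by
          intro z hz
          have h1 : z ∈ ball (0 : ℂ) 1 := by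
            rw [mem_ball_zero_iff]; linarith [hin z hz]
          exact (hGd.differentiableAt (isOpen_ball.mem_nhds h1)).sub_const _)
        (by
          intro z hz
          have hz' := sphere_subset_closedBall hz
          rw [mem_sphere, dist_eq_norm] at hz
          have h1 := hGF 0 z ((hin z hz').trans (hr 0).1)
          have h2 : ‖F 0 z - (-(1 / 2) * exp (-5))‖ ≤ ‖G z - (-(1 / 2) * exp (-5))‖ +
              ‖G z - F 0 z‖ := by
            have := norm_sub_le (G z - (-(1 / 2) * exp (-5))) (G z - F 0 z)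
            have h3 : G z - (-(1 / 2) * exp (-5)) - (G z - F 0 z) =
              F 0 z - (-(1 / 2) * exp (-5)) := by ring
            rw [h3] at this
            exact this
          have h5 : ‖(5 : ℂ) * (z - c)‖ = 1 / 2 := by
            rw [norm_mul, hz]; norm_num
          have h6 := Complex.norm_exp_sub_one_sub_id_le (x := 5 * (z - c)) (by rw [h5]; norm_num)
          rw [h5] at h6
          have h7 : 1 / 4 ≤ ‖1 - exp (5 * (z - c))‖ := by
            have h8 := norm_sub_le (exp (5 * (z - c)) - 1) (exp (5 * (z - c)) - 1 - 5 * (z - c))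
            have h9 : exp (5 * (z - c)) - 1 - (exp (5 * (z - c)) - 1 - 5 * (z - c)) =
              5 * (z - c) := by ring
            rw [h9, h5] at h8
            rw [norm_sub_rev]
            linarith
          have h10 : ‖F 0 z - (-(1 / 2) * exp (-5))‖ =
              1 / 2 * Real.exp (-5) * ‖1 - exp (5 * (z - c))‖ := by
            rw [hF0z, norm_mul, norm_mul, hexpn]; norm_num
          have h11 : 1 / 2 * (1 / 149) * (1 / 4) ≤
              1 / 2 * Real.exp (-5) * ‖1 - exp (5 * (z - c))‖ := by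
            gcongr
          have h12 := hδ00
          have h13 : (1 : ℝ) / 5000 + 1 / 10000 ≤ 1 / 2 * (1 / 149) * (1 / 4) := by norm_num
          linarith)
        (by
          have h1 := hGF 0 c (by rw [hcn]; linarith [(hr 0).1])
          have h2 : F 0 c = -(1 / 2) * exp (-5) := by
            have := hF0z c
            simp only [sub_self, mul_zero, Complex.exp_zero] at this
            exact sub_eq_zero.1 this
          rw [h2] at h1
          linarith)
      refine ⟨z, hz, ?_, sub_eq_zero.1 hz0⟩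
      simp only [disc, mem_ball_zero_iff]
      linarith [hin z hz]
    obtain ⟨z, hz, hzd, hzG⟩ := key 1 (Or.inl rfl)
    obtain ⟨w, hw, hwd, hwG⟩ := key (-1) (Or.inr rfl)
    intro hinj
    have hzw : z = w := hinj hzd hwd (hzG.trans hwG.symm)
    subst hzw
    rw [mem_closedBall, dist_eq_norm] at hz hw
    have h1 := norm_sub_le (z - ((-1 * Real.pi / 5 : ℝ) : ℂ) * I)
      (z - ((1 * Real.pi / 5 : ℝ) : ℂ) * I)
    have h2 : z - ((-1 * Real.pi / 5 : ℝ) : ℂ) * I - (z - ((1 * Real.pi / 5 : ℝ) : ℂ) * I) =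
        ((2 * Real.pi / 5 : ℝ) : ℂ) * I := by push_cast; ring
    rw [h2, norm_mul, Complex.norm_real, Complex.norm_I, mul_one, Real.norm_eq_abs,
      abs_of_pos (by positivity)] at h1
    linarith
  · intro a ha ε hε
    obtain ⟨k, s, hs0, hsr, hJ⟩ := hlast a ha ε hε
    exact ⟨s, hs0, hsr.trans (hr k).2, hJ G hGd hGle (hGF k)⟩

end Pool.Agent.H928.IB
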