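import Pool.Agent.H928.IB.Stm

/-!
# IB, Low: lower bound for the size of the change in mean square (helper294)
-/

set_option autoImplicit false

open MeasureTheory Set Filter Topology Complex Metric
open scoped ComplexConjugate

namespace Pool.Agent.H928.IB

namespace Low

/-- the tangent line inequality -/
theorem el {x s : ℝ} (hx : 0 < x) (hs : 0 < s) :
    5 * s ^ 4 - 4 * s ^ 5 * x ^ (-(1 / 2 : ℝ)) ≤ x ^ 2 := by
  have h1 : x ^ (-(1 / 2 : ℝ)) = (Real.sqrt x)⁻¹ := by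
    rw [Real.rpow_neg hx.le, Real.sqrt_eq_rpow]
  set r := Real.sqrt x with hr
  have hr0 : 0 < r := Real.sqrt_pos.2 hx
  have h2 : x = r ^ 2 := (Real.sq_sqrt hx.le).symm
  rw [h1, h2]
  have h3 : 0 ≤ (r - s) ^ 2 * (r ^ 3 + 2 * r ^ 2 * s + 3 * r * s ^ 2 + 4 * s ^ 3) := by positivity
  have h4 : (r - s) ^ 2 * (r ^ 3 + 2 * r ^ 2 * s + 3 * r * s ^ 2 + 4 * s ^ 3) =
      r ^ 5 - 5 * s ^ 4 * r + 4 * s ^ 5 := by ring
  rw [h4] at h3
  have h5 : (5 * s ^ 4 - 4 * s ^ 5 * r⁻¹) * r ≤ ((r ^ 2) ^ 2) * r := by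
    have : (5 * s ^ 4 - 4 * s ^ 5 * r⁻¹) * r = 5 * s ^ 4 * r - 4 * s ^ 5 := by
      field_simp
    rw [this]
    nlinarith
  exact le_of_mul_le_mul_right h5 hr0

/-- integration of the tangent line inequality -/
theorem int_el {γ : ℝ → ℂ} (hγ : Continuous γ) {x y B s : ℝ} (hxy : x ≤ y) (hs : 0 < s)
    (h : HB γ x y B) (a : ℂ) :
    5 * s ^ 4 * (y - x) - 4 * s ^ 5 * B ≤ ∫ θ in x..y, ‖γ θ - a‖ ^ 2 := by
  obtain ⟨h1, h2, h3⟩ := h a
  have hi1 : IntervalIntegrable (fun θ => 5 * s ^ 4 - 4 * s ^ 5 * ‖γ θ - a‖ ^ (-(1 / 2 : ℝ)))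
      volume x y := (intervalIntegrable_const).sub (h2.const_mul _)
  have hi2 : IntervalIntegrable (fun θ => ‖γ θ - a‖ ^ 2) volume x y := by
    apply Continuous.intervalIntegrable
    fun_prop
  have h4 : ∫ θ in x..y, (5 * s ^ 4 - 4 * s ^ 5 * ‖γ θ - a‖ ^ (-(1 / 2 : ℝ))) ≤
      ∫ θ in x..y, ‖γ θ - a‖ ^ 2 := by
    apply intervalIntegral.integral_mono_ae_restrict hxy hi1 hi2
    rw [EventuallyLE, ae_restrict_iff' measurableSet_Icc, ae_iff]
    refine measure_mono_null ?_ h1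
    intro θ hθ
    rw [mem_ofPred_eq, Classical.not_imp] at hθ
    refine ⟨hθ.1, ?_⟩
    by_contra hne
    apply hθ.2
    exact el (norm_pos_iff.2 (sub_ne_zero.2 hne)) hs
  rw [intervalIntegral.integral_sub intervalIntegrable_const (h2.const_mul _),
    intervalIntegral.integral_const, intervalIntegral.integral_const_mul, smul_eq_mul] at h4
  have h5 : 4 * s ^ 5 * ∫ θ in x..y, ‖γ θ - a‖ ^ (-(1 / 2 : ℝ)) ≤ 4 * s ^ 5 * B :=
    mul_le_mul_of_nonneg_left h3 (by positivity)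
  linarith

/-- one cell -/
theorem cell {g φ : ℝ → ℂ} (hg : Continuous g) (hφ : Continuous φ) {t h y ν e : ℝ}
    (hν : 0 < ν) (hh : 3 / 2 ≤ h) (hh' : h ≤ 2) (he0 : 0 ≤ e) (he1 : e ≤ 1)
    (hHB : HB g t (t + h * ν) (1000 * ν * Real.exp (-y / 2)))
    (hA : (1 - ‖φ t‖) / 40 ≤ Real.exp y) (hφ1 : ∀ θ, ‖φ θ‖ ≤ 1)
    (hu : ∀ θ ∈ Icc t (t + 2 * Real.pi * ν), ‖φ θ - φ t‖ ≤ e) :
    1 / 10 ^ 16 * (∫ θ in t..(t + 2 * Real.pi * ν), (1 - ‖φ θ‖) ^ 2) - 3 * e * ν ≤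
      ∫ θ in t..(t + 2 * Real.pi * ν), ‖g θ - φ θ‖ ^ 2 := by
  have hpi := Real.pi_gt_three
  have hpi' := Real.pi_lt_d2
  have hle1 : t ≤ t + h * ν := by nlinarith
  have hle2 : t + h * ν ≤ t + 2 * Real.pi * ν := by nlinarith
  have hle3 : t ≤ t + 2 * Real.pi * ν := hle1.trans hle2
  -- the right hand side
  set E := Real.exp (y / 2) with hE
  have hE0 : 0 < E := Real.exp_pos _
  have hEy : Real.exp y = E ^ 2 := by
    rw [hE, ← Real.exp_nat_mul]; congr 1; push_cast; ring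
  have hEn : Real.exp (-y / 2) = E⁻¹ := by
    rw [hE, ← Real.exp_neg]; congr 1; ring
  rw [hEn] at hHB
  have k1 := int_el hg hle1 (s := E / 1000) (by positivity) hHB (φ t)
  have k2 : 35 / 10 / 10 ^ 12 * E ^ 4 * ν ≤
      5 * (E / 1000) ^ 4 * (t + h * ν - t) - 4 * (E / 1000) ^ 5 * (1000 * ν * E⁻¹) := by
    have e1 : 5 * (E / 1000) ^ 4 * (t + h * ν - t) - 4 * (E / 1000) ^ 5 * (1000 * ν * E⁻¹) =
        (5 * h - 4) / 10 ^ 12 * E ^ 4 * ν := by
      field_simp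
      ring
    rw [e1]
    have e2 : 0 ≤ E ^ 4 * ν := by positivity
    nlinarith
  have k3 : ∫ θ in t..(t + h * ν), ‖g θ - φ t‖ ^ 2 ≤
      ∫ θ in t..(t + h * ν), (2 * ‖g θ - φ θ‖ ^ 2 + 2 * e ^ 2) := by
    apply intervalIntegral.integral_mono_on hle1
    · apply Continuous.intervalIntegrable; fun_prop
    · apply Continuous.intervalIntegrable; fun_prop
    · intro θ hθ
      have e1 := hu θ ⟨hθ.1, hθ.2.trans hle2⟩
      have e2 : ‖g θ - φ t‖ ≤ ‖g θ - φ θ‖ + ‖φ θ - φ t‖ := by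
        have : g θ - φ t = (g θ - φ θ) + (φ θ - φ t) := by ring
        rw [this]
        exact norm_add_le _ _
      have e3 := norm_nonneg (g θ - φ t)
      have e4 := norm_nonneg (g θ - φ θ)
      have e5 := norm_nonneg (φ θ - φ t)
      have e6 : ‖g θ - φ t‖ ^ 2 ≤ (‖g θ - φ θ‖ + e) ^ 2 :=
        pow_le_pow_left₀ e3 (e2.trans (by linarith)) 2
      nlinarith [sq_nonneg (‖g θ - φ θ‖ - e)]
  rw [intervalIntegral.integral_add (by apply Continuous.intervalIntegrable; fun_prop) (by simp),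
    intervalIntegral.integral_const_mul, intervalIntegral.integral_const, smul_eq_mul] at k3
  have k4 : ∫ θ in t..(t + h * ν), ‖g θ - φ θ‖ ^ 2 ≤
      ∫ θ in t..(t + 2 * Real.pi * ν), ‖g θ - φ θ‖ ^ 2 := by
    apply intervalIntegral.integral_mono_interval le_rfl hle1 hle2
    · exact Filter.Eventually.of_forall fun θ => by positivity
    · apply Continuous.intervalIntegrable; fun_prop
  -- the left hand side
  have k5 : ∫ θ in t..(t + 2 * Real.pi * ν), (1 - ‖φ θ‖) ^ 2 ≤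
      ∫ _θ in t..(t + 2 * Real.pi * ν), ((1 - ‖φ t‖) ^ 2 + 2 * e) := by
    apply intervalIntegral.integral_mono_on hle3
    · apply Continuous.intervalIntegrable; fun_prop
    · simp
    · intro θ hθ
      have e1 := hu θ hθ
      have e2 : |‖φ t‖ - ‖φ θ‖| ≤ e := by
        rw [abs_sub_comm]
        exact (abs_norm_sub_norm_le _ _).trans e1
      have e3 := hφ1 θ
      have e4 := hφ1 t
      have e5 := norm_nonneg (φ θ)
      have e6 := norm_nonneg (φ t)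
      have e7 := (abs_le.1 e2).2
      have e8 : (1 - ‖φ θ‖) ^ 2 - (1 - ‖φ t‖) ^ 2 =
          (‖φ t‖ - ‖φ θ‖) * (2 - ‖φ θ‖ - ‖φ t‖) := by ring
      have e9 : (‖φ t‖ - ‖φ θ‖) * (2 - ‖φ θ‖ - ‖φ t‖) ≤ e * 2 := by
        have : 0 ≤ 2 - ‖φ θ‖ - ‖φ t‖ := by linarith
        calc (‖φ t‖ - ‖φ θ‖) * (2 - ‖φ θ‖ - ‖φ t‖) ≤ e * (2 - ‖φ θ‖ - ‖φ t‖) :=
              mul_le_mul_of_nonneg_right e7 this
          _ ≤ e * 2 := mul_le_mul_of_nonneg_left (by linarith) he0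
      linarith
  rw [intervalIntegral.integral_const, smul_eq_mul] at k5
  -- assembly
  set S := 1 - ‖φ t‖ with hS
  have hS0 : 0 ≤ S := by have := hφ1 t; linarith
  have hSE : (S / 40) ^ 2 ≤ (E ^ 2) ^ 2 := by
    rw [hEy] at hA
    exact pow_le_pow_left₀ (by positivity) hA 2
  have k6 : S ^ 2 / 1600 * ν ≤ E ^ 4 * ν := by
    apply mul_le_mul_of_nonneg_right _ hν.le
    nlinarith
  have k7 : 1 / 10 ^ 16 * ((t + 2 * Real.pi * ν - t) * (S ^ 2 + 2 * e)) ≤
      1 / 10 ^ 15 * (S ^ 2 * ν) + e * ν := by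
    have e1 : 0 ≤ S ^ 2 * ν := by positivity
    have e2 : 0 ≤ e * ν := by positivity
    have e3 : 1 / 10 ^ 16 * ((t + 2 * Real.pi * ν - t) * (S ^ 2 + 2 * e)) =
        (2 * Real.pi / 10 ^ 16) * (S ^ 2 * ν) + (4 * Real.pi / 10 ^ 16) * (e * ν) := by ring
    rw [e3]
    have e4 : 2 * Real.pi / 10 ^ 16 ≤ 1 / 10 ^ 15 := by
      rw [div_le_div_iff₀ (by positivity) (by positivity)]
      linarith
    have e5 : 4 * Real.pi / 10 ^ 16 ≤ 1 := by
      rw [div_le_one (by positivity)]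
      linarith
    have e6 := mul_le_mul_of_nonneg_right e4 e1
    have e7 := mul_le_mul_of_nonneg_right e5 e2
    linarith
  have k8 : (t + h * ν - t) * (2 * e ^ 2) ≤ 4 * (e * ν) := by
    have e1 : 0 ≤ e * ν := by positivity
    have e2 : (t + h * ν - t) * (2 * e ^ 2) = 2 * (h * e) * (e * ν) := by ring
    rw [e2]
    have e3 : h * e ≤ 2 := by nlinarith
    nlinarith
  have k9 := mul_le_mul_of_nonneg_left k5 (by norm_num : (0 : ℝ) ≤ 1 / 10 ^ 16)
  nlinarith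

theorem cont_cm : Continuous cm := by
  unfold cm
  fun_prop

theorem norm_cm (θ : ℝ) : ‖cm θ‖ = 1 := by
  unfold cm
  exact Complex.norm_exp_ofReal_mul_I θ

theorem cont_circle {R : ℝ} (hR : 1 < R) {F F' : ℂ → ℂ}
    (h : ∀ z ∈ ball (0 : ℂ) R, HasDerivAt F (F' z) z) : Continuous (fun θ => F (cm θ)) := by
  rw [continuous_iff_continuousAt]
  intro θ
  have h1 : cm θ ∈ ball (0 : ℂ) R := by
    rw [mem_ball_zero_iff, norm_cm]
    exact hR
  exact ContinuousAt.comp (h _ h1).continuousAt cont_cm.continuousAt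

theorem nn_ge {L : ℝ} (hL : 0 < L) : L / 2 ≤ nn L := by
  unfold nn
  refine le_trans ?_ (Nat.le_ceil _)
  rw [div_le_div_iff₀ (by norm_num) hL]
  have := Real.quadratic_le_exp_of_nonneg hL.le
  nlinarith

end Low

theorem low (h : S_KB) : S_LOW := by
  refine ⟨1 / 10 ^ 16, by norm_num, ?_⟩
  intro R p F α N hG hA ε hε
  obtain ⟨L0, hL0⟩ := h R p F α N hG hA
  have hpi := Real.pi_gt_d2
  have hpi' := Real.pi_lt_d2
  have hFc : Continuous (fun θ => F (cm θ)) := Low.cont_circle hG.1 hG.2.2.1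
  set e := min 1 (ε / 3) with he
  have he0 : 0 < e := by positivity
  have he1 : e ≤ 1 := min_le_left _ _
  have he3 : 3 * e ≤ ε := by
    have := min_le_right 1 (ε / 3)
    linarith
  have huc := (isCompact_Icc (a := (0 : ℝ)) (b := 2 * Real.pi)).uniformContinuousOn_of_continuous
    hFc.continuousOn
  rw [Metric.uniformContinuousOn_iff_le] at huc
  obtain ⟨δ, hδ, hδ2⟩ := huc e he0
  refine ⟨max L0 (max 3 (4 * Real.pi / δ)), ?_⟩
  intro L hL R' G hR' hP
  have hLL0 : L0 ≤ L := (le_max_left _ _).trans hL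
  have hL3 : 3 ≤ L := ((le_max_left _ _).trans (le_max_right _ _)).trans hL
  have hLδ : 4 * Real.pi / δ ≤ L := ((le_max_right _ _).trans (le_max_right _ _)).trans hL
  obtain ⟨hLp, hHB⟩ := hL0 L hLL0 R' G hR' hP
  have hGc : Continuous (fun θ => G (cm θ)) := Low.cont_circle hP.1 hP.2.2.2.2
  set n := nn L with hn
  have hnL : L / 2 ≤ n := Low.nn_ge hLp
  have hn0 : (0 : ℝ) < n := by linarith
  have hν : 0 < 1 / (n : ℝ) := by positivity
  have hcell : 2 * Real.pi * (1 / (n : ℝ)) ≤ δ := by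
    rw [mul_one_div, div_le_iff₀ hn0]
    rw [div_le_iff₀ hδ] at hLδ
    nlinarith
  have hexp : Real.exp (-L) ≤ 7 / 100 := by
    have h1 : Real.exp (-L) ≤ Real.exp (-3) := Real.exp_le_exp.2 (by linarith)
    have h2 : Real.exp (-3) ≤ 7 / 100 := by
      rw [Real.exp_neg, inv_le_comm₀ (Real.exp_pos _) (by norm_num)]
      have h3 : Real.exp 3 = Real.exp 1 ^ 3 := by
        rw [← Real.exp_nat_mul]; norm_num
      rw [h3]
      have h4 : (2.7 : ℝ) ≤ Real.exp 1 := by linarith [Real.exp_one_gt_d9]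
      calc (7 / 100 : ℝ)⁻¹ ≤ 2.7 ^ 3 := by norm_num
        _ ≤ Real.exp 1 ^ 3 := pow_le_pow_left₀ (by norm_num) h4 3
    linarith
  have hexp0 := Real.exp_pos (-L)
  have hcells : ∀ j ∈ Finset.range n,
      1 / 10 ^ 16 * (∫ θ in (2 * Real.pi * (j : ℝ) / n)..(2 * Real.pi * ((j + 1 : ℕ) : ℝ) / n),
        (1 - ‖F (cm θ)‖) ^ 2) - 3 * e * (1 / n) ≤
      ∫ θ in (2 * Real.pi * (j : ℝ) / n)..(2 * Real.pi * ((j + 1 : ℕ) : ℝ) / n),
        ‖G (cm θ) - F (cm θ)‖ ^ 2 := by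
    intro j hj
    have hjn : (j : ℝ) + 1 ≤ n := by
      have := Finset.mem_range.1 hj
      exact_mod_cast this
    have e1 : 2 * Real.pi * ((j + 1 : ℕ) : ℝ) / n = 2 * Real.pi * (j : ℝ) / n +
        2 * Real.pi * (1 / n) := by
      push_cast
      field_simp
    rw [e1]
    obtain ⟨hB, -⟩ := hHB (j : ℤ)
    refine Low.cell (g := fun θ => G (cm θ)) (φ := fun θ => F (cm θ)) hGc hFc hν
      (h := Real.pi / 2 - Real.exp (-L)) (y := (α (cm (2 * Real.pi * (j : ℝ) / n))).re)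
      (by linarith) (by linarith) he0.le he1 ?_ (hA.2.1 _).1 (fun θ => ?_) ?_
    · have e2 : (Real.pi / 2 - Real.exp (-L)) * (1 / (n : ℝ)) =
          (Real.pi / 2 - Real.exp (-L)) / n := by rw [mul_one_div]
      have e3 : 1000 * (1 / (n : ℝ)) = 1000 / n := by rw [mul_one_div]
      rw [e2, e3]
      simpa using hB
    · exact (hG.2.2.2 _ (Low.norm_cm θ).le).le
    · intro θ hθ
      have h0 : 0 ≤ 2 * Real.pi * (j : ℝ) / n := by positivity
      have h1 : 2 * Real.pi * (j : ℝ) / n + 2 * Real.pi * (1 / n) ≤ 2 * Real.pi := by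
        have : 2 * Real.pi * (j : ℝ) / n + 2 * Real.pi * (1 / n) =
            2 * Real.pi * ((j + 1) / n) := by field_simp
        rw [this]
        have h2 : ((j : ℝ) + 1) / n ≤ 1 := by rw [div_le_one hn0]; exact hjn
        nlinarith
      have h3 := hδ2 θ ⟨h0.trans hθ.1, hθ.2.trans h1⟩ (2 * Real.pi * (j : ℝ) / n)
        ⟨h0, le_trans (by have := hν; nlinarith) h1⟩ (by
          rw [Real.dist_eq, abs_of_nonneg (by linarith [hθ.1])]
          linarith [hθ.2])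
      rwa [dist_eq_norm] at h3
  have hsum := Finset.sum_le_sum hcells
  have hadj : ∀ f : ℝ → ℝ, Continuous f →
      ∑ j ∈ Finset.range n, ∫ θ in (2 * Real.pi * (j : ℝ) / n)..(2 * Real.pi * ((j + 1 : ℕ) : ℝ) / n),
        f θ = ∫ θ in (0 : ℝ)..(2 * Real.pi), f θ := by
    intro f hf
    have h1 := intervalIntegral.sum_integral_adjacent_intervals (μ := volume) (f := f) (n := n)
      (a := fun j : ℕ => 2 * Real.pi * (j : ℝ) / n) (fun k _ => hf.intervalIntegrable _ _)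
    have h2 : 2 * Real.pi * ((0 : ℕ) : ℝ) / n = 0 := by simp
    have h3 : 2 * Real.pi * ((n : ℕ) : ℝ) / n = 2 * Real.pi := by field_simp
    simp only [h2, h3] at h1
    exact h1
  have c1 : Continuous (fun θ : ℝ => (1 - ‖F (cm θ)‖) ^ 2) :=
    (continuous_const.sub hFc.norm).pow 2
  have c2 : Continuous (fun θ : ℝ => ‖G (cm θ) - F (cm θ)‖ ^ 2) := (hGc.sub hFc).norm.pow 2
  rw [Finset.sum_sub_distrib, ← Finset.mul_sum, Finset.sum_const, Finset.card_range,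
    hadj _ c1, hadj _ c2, nsmul_eq_mul] at hsum
  have h9 : (n : ℝ) * (3 * e * (1 / n)) = 3 * e := by field_simp
  rw [h9] at hsum
  unfold sig
  linarith

end Pool.Agent.H928.IB
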