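import Pool.Agent.H928.IB.Stm

/-!
# A locally univalent maximal Blaschke product is injective (`S_MAX`)
-/

set_option autoImplicit false

open MeasureTheory Set Filter Topology Complex Metric
open scoped ComplexConjugate

namespace Pool.Agent.H928.IB

namespace Max

lemma zero_mem : (0 : ℂ) ∈ disc := by simp

lemma den_ne {b w : ℂ} (hb : ‖b‖ < 1) (hw : ‖w‖ ≤ 1) : 1 - conj b * w ≠ 0 := by
  intro h
  have h1 : ‖conj b * w‖ < 1 := by
    rw [norm_mul, RCLike.norm_conj]
    calc ‖b‖ * ‖w‖ ≤ ‖b‖ * 1 := mul_le_mul_of_nonneg_left hw (norm_nonneg _)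
      _ < 1 := by rw [mul_one]; exact hb
  rw [← sub_eq_zero.1 h, norm_one] at h1
  exact lt_irrefl _ h1

lemma norm_id (b w : ℂ) :
    ‖1 - conj b * w‖ ^ 2 - ‖w - b‖ ^ 2 = (1 - ‖w‖ ^ 2) * (1 - ‖b‖ ^ 2) := by
  rw [← Complex.normSq_eq_norm_sq, ← Complex.normSq_eq_norm_sq, ← Complex.normSq_eq_norm_sq,
    ← Complex.normSq_eq_norm_sq, Complex.normSq_apply, Complex.normSq_apply,
    Complex.normSq_apply, Complex.normSq_apply]
  simp only [Complex.sub_re, Complex.sub_im, Complex.one_re, Complex.one_im, Complex.mul_re,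
    Complex.mul_im, Complex.conj_re, Complex.conj_im]
  ring

lemma mob_le {b w : ℂ} (hb : ‖b‖ < 1) (hw : ‖w‖ ≤ 1) : ‖(w - b) / (1 - conj b * w)‖ ≤ 1 := by
  rw [norm_div, div_le_one (norm_pos_iff.2 (den_ne hb hw))]
  have h := norm_id b w
  have h1 : 0 ≤ (1 - ‖w‖ ^ 2) * (1 - ‖b‖ ^ 2) := by
    apply mul_nonneg
    · nlinarith [norm_nonneg w]
    · nlinarith [norm_nonneg b]
  exact le_of_sq_le_sq (by linarith) (norm_nonneg _)

lemma mob_inj {b u v : ℂ} (hb : ‖b‖ < 1) (hu : ‖u‖ ≤ 1) (hv : ‖v‖ ≤ 1)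
    (h : (u - b) / (1 - conj b * u) = (v - b) / (1 - conj b * v)) : u = v := by
  rw [div_eq_div_iff (den_ne hb hu) (den_ne hb hv)] at h
  have h1 : (u - v) * (1 - conj b * b) = 0 := by linear_combination h
  have h2 : 1 - conj b * b ≠ 0 := den_ne hb hb.le
  exact sub_eq_zero.1 ((mul_eq_zero.1 h1).resolve_right h2)

lemma mob_diff {b w : ℂ} (hb : ‖b‖ < 1) (hw : ‖w‖ ≤ 1) :
    DifferentiableAt ℂ (fun w => (w - b) / (1 - conj b * w)) w := by
  apply DifferentiableAt.div
  · exact differentiableAt_id.sub (differentiableAt_const b)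
  · exact (differentiableAt_const _).sub ((differentiableAt_const _).mul differentiableAt_id)
  · exact den_ne hb hw

lemma maps_ball {g : ℂ → ℂ} (hg : DifferentiableOn ℂ g disc) (hb : ∀ z ∈ disc, ‖g z‖ ≤ 1)
    (hd : deriv g 0 ≠ 0) : ∀ z ∈ disc, ‖g z‖ < 1 := by
  by_contra h
  push Not at h
  obtain ⟨z, hz, hz1⟩ := h
  have heq : ‖g z‖ = 1 := le_antisymm (hb z hz) hz1
  have hmax : IsMaxOn (norm ∘ g) disc z := by
    intro w hw
    show ‖g w‖ ≤ ‖g z‖
    rw [heq]
    exact hb w hw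
  have hc := Complex.eqOn_of_isPreconnected_of_isMaxOn_norm
    (convex_ball (0 : ℂ) 1).isPreconnected isOpen_ball hg hz hmax
  apply hd
  have h1 : g =ᶠ[𝓝 0] fun _ => g z := by
    filter_upwards [isOpen_ball.mem_nhds zero_mem] with w hw
    exact hc hw
  rw [h1.deriv_eq]
  simp

/-- the rotation case of the Schwarz lemma, from `Re g'(0) ≥ 1` -/
lemma rigid {g : ℂ → ℂ} (hg : DifferentiableOn ℂ g disc) (hb : ∀ z ∈ disc, ‖g z‖ ≤ 1)
    (hd : 1 ≤ (deriv g 0).re) : ∃ c : ℂ, c ≠ 0 ∧ ∀ z ∈ disc, g z = z * c := by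
  have hd1 : 1 ≤ ‖deriv g 0‖ := hd.trans (Complex.re_le_norm _)
  have hd0 : deriv g 0 ≠ 0 := by
    intro h
    rw [h, norm_zero] at hd1
    linarith
  have hlt := maps_ball hg hb hd0
  set b := g 0 with hbdef
  have hb1 : ‖b‖ < 1 := hlt 0 zero_mem
  have hg0 : DifferentiableAt ℂ g 0 := hg.differentiableAt (isOpen_ball.mem_nhds zero_mem)
  have hden : (1 - conj b * b : ℂ) ≠ 0 := den_ne hb1 hb1.le
  -- Schwarz-Pick
  have hh : DifferentiableOn ℂ (fun z => (g z - b) / (1 - conj b * g z)) disc := by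
    intro z hz
    have h1 : DifferentiableAt ℂ g z := hg.differentiableAt (isOpen_ball.mem_nhds hz)
    exact ((mob_diff hb1 (hb z hz)).comp z h1).differentiableWithinAt
  have hmaps : MapsTo (fun z => (g z - b) / (1 - conj b * g z)) (ball (0 : ℂ) 1)
      (closedBall ((fun z => (g z - b) / (1 - conj b * g z)) 0) 1) := by
    intro z hz
    have h0 : (fun z => (g z - b) / (1 - conj b * g z)) 0 = 0 := by
      simp [← hbdef]
    rw [h0, mem_closedBall_zero_iff]
    exact mob_le hb1 (hb z hz)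
  have hSP := Complex.norm_deriv_le_div_of_mapsTo_ball hh hmaps one_pos
  rw [div_one] at hSP
  have hder : HasDerivAt (fun z => (g z - b) / (1 - conj b * g z))
      ((deriv g 0 * (1 - conj b * g 0) - (g 0 - b) * (-(conj b * deriv g 0))) /
        (1 - conj b * g 0) ^ 2) 0 := by
    have e1 : HasDerivAt (fun z => g z - b) (deriv g 0) 0 := hg0.hasDerivAt.sub_const b
    have e2 : HasDerivAt (fun z => 1 - conj b * g z) (-(conj b * deriv g 0)) 0 :=
      (hg0.hasDerivAt.const_mul (conj b)).const_sub 1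
    exact e1.div e2 (den_ne hb1 hb1.le)
  have hval : (deriv g 0 * (1 - conj b * g 0) - (g 0 - b) * (-(conj b * deriv g 0))) /
        (1 - conj b * g 0) ^ 2 = deriv g 0 / (1 - conj b * b) := by
    rw [← hbdef, sub_self, zero_mul, sub_zero, sq, mul_div_mul_right _ _ hden]
  rw [hder.deriv, hval, norm_div, div_le_one (norm_pos_iff.2 hden)] at hSP
  have hbb : (1 - conj b * b : ℂ) = ((1 - ‖b‖ ^ 2 : ℝ) : ℂ) := by
    rw [mul_comm, Complex.mul_conj, Complex.normSq_eq_norm_sq]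
    push_cast
    ring
  have hn : ‖(1 - conj b * b : ℂ)‖ = 1 - ‖b‖ ^ 2 := by
    rw [hbb, Complex.norm_real, Real.norm_eq_abs, abs_of_nonneg]
    nlinarith [norm_nonneg b]
  rw [hn] at hSP
  have hb0 : b = 0 := by
    have : ‖b‖ ^ 2 ≤ 0 := by linarith
    have h2 : ‖b‖ = 0 := by nlinarith [norm_nonneg b]
    exact norm_eq_zero.1 h2
  have hone : ‖deriv g 0‖ = 1 := by
    rw [hb0, norm_zero] at hSP
    exact le_antisymm (by linarith) hd1
  have hmaps' : MapsTo g (ball (0 : ℂ) 1) (closedBall (g 0) 1) := by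
    intro z hz
    rw [← hbdef, hb0, mem_closedBall_zero_iff]
    exact hb z hz
  have haff := Complex.affine_of_mapsTo_ball_of_norm_dslope_eq_div hg hmaps' zero_mem
    (by rw [dslope_same, hone, div_one])
  refine ⟨deriv g 0, hd0, fun z hz => ?_⟩
  have := haff hz
  rw [← hbdef, hb0, dslope_same] at this
  simpa using this

end Max

open Pool.Agent.H928.IB.Max in
theorem maxb : S_MAX := by
  rintro f hf hder hinj ⟨m, -, g, ⟨⟨⟨hgd, -⟩, hord⟩, hg1, hext⟩, φ, a, ha, hfg⟩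
  have ha1 : ‖a‖ < 1 := mem_ball_zero_iff.1 ha
  have hgder : ∀ z ∈ disc, deriv g z ≠ 0 := by
    intro z hz h0
    apply hder z hz
    have hgz : DifferentiableAt ℂ g z := hgd.differentiableAt (isOpen_ball.mem_nhds hz)
    have h1 : f =ᶠ[𝓝 z] fun y => aut φ a (g y) := by
      filter_upwards [isOpen_ball.mem_nhds hz] with y hy
      exact hfg y hy
    rw [h1.deriv_eq]
    have h2 : DifferentiableAt ℂ (aut φ a) (g z) :=
      (mob_diff ha1 (hg1 z hz)).const_mul _
    have h3 : HasDerivAt (fun y => aut φ a (g y)) (deriv (aut φ a) (g z) * deriv g z) z :=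
      h2.hasDerivAt.comp z hgz.hasDerivAt
    rw [h3.deriv, h0, mul_zero]
  have hm : ∀ z ∈ disc, m z = 0 := by
    intro z hz
    have h1 : AnalyticAt ℂ (deriv g) z :=
      (hgd.analyticAt (isOpen_ball.mem_nhds hz)).deriv
    have h2 := hord z hz
    rw [h1.analyticOrderAt_eq_zero.2 (hgder z hz)] at h2
    have h3 : ((m z : ℕ∞)) = 0 := le_antisymm h2 bot_le
    exact_mod_cast h3
  have hid : InF m (fun z => z) := by
    refine ⟨⟨differentiableOn_id, 1, fun z hz => (mem_ball_zero_iff.1 hz).le⟩, fun z hz => ?_⟩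
    rw [hm z hz]
    simp
  have h1 := hext (fun z => z) hid (fun z hz => (mem_ball_zero_iff.1 hz).le)
  rw [hm 0 zero_mem, zero_add, iteratedDeriv_one, iteratedDeriv_one] at h1
  have hid1 : deriv (fun z : ℂ => z) 0 = 1 := (hasDerivAt_id (0 : ℂ)).deriv
  rw [hid1, Complex.one_re] at h1
  obtain ⟨c, hc, hgc⟩ := rigid hgd hg1 h1
  apply hinj
  intro z hz w hw hzw
  rw [hfg z hz, hfg w hw] at hzw
  unfold aut at hzw
  have h2 := mul_left_cancel₀ (Complex.exp_ne_zero _) hzw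
  have h3 := mob_inj ha1 (hg1 z hz) (hg1 w hw) h2
  rw [hgc z hz, hgc w hw] at h3
  exact mul_right_cancel₀ hc h3

end Pool.Agent.H928.IB
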