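import Pool.Agent.H928.IB.Stm

/-!
# P11: a function which is small inside the disc is almost orthogonal to `F`
-/

set_option autoImplicit false

open MeasureTheory Set Filter Topology Complex Metric
open scoped ComplexConjugate

namespace Pool.Agent.H928.IB

namespace Ort

/-- the reflected function -/
noncomputable def HH (F : ℂ → ℂ) (z : ℂ) : ℂ := conj (F (conj z⁻¹))

theorem HH_diff {F : ℂ → ℂ} {R : ℝ} (hF : ∀ z ∈ ball (0 : ℂ) R, DifferentiableAt ℂ F z) {z : ℂ}
    (h0 : z ≠ 0) (hz : ‖z‖⁻¹ < R) : DifferentiableAt ℂ (HH F) z := by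
  have h1 : DifferentiableAt ℂ F (conj z⁻¹) := by
    apply hF
    rw [mem_ball_zero_iff, RCLike.norm_conj, norm_inv]
    exact hz
  have h2 := h1.conj_conj
  rw [RCLike.conj_conj] at h2
  have h3 : HH F = (conj ∘ F ∘ conj) ∘ (fun z : ℂ => z⁻¹) := by
    funext w
    rfl
  rw [h3]
  exact DifferentiableAt.comp z h2 (differentiableAt_inv h0)

theorem HH_norm (F : ℂ → ℂ) (z : ℂ) : ‖HH F z‖ = ‖F (conj z⁻¹)‖ := by
  unfold HH
  rw [RCLike.norm_conj]

theorem HH_cm (F : ℂ → ℂ) (θ : ℝ) : HH F (cm θ) = conj (F (cm θ)) := by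
  unfold HH
  congr 2
  unfold cm
  rw [← Complex.exp_neg, ← Complex.exp_conj]
  congr 1
  simp

theorem circ (f : ℂ → ℂ) (r : ℝ) (hr : 0 < r) :
    (∮ z in C(0, r), (z - 0)⁻¹ • f z) = I * ∫ θ in (0 : ℝ)..(2 * Real.pi), f (r * cm θ) := by
  rw [circleIntegral, ← intervalIntegral.integral_const_mul]
  congr 1
  funext θ
  rw [deriv_circleMap, circleMap_zero]
  have h1 : (r : ℂ) * Complex.exp (θ * I) ≠ 0 :=
    mul_ne_zero (by exact_mod_cast hr.ne') (Complex.exp_ne_zero _)
  rw [sub_zero, smul_eq_mul, smul_eq_mul]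
  unfold cm
  have h2 : (r : ℂ) ≠ 0 := by exact_mod_cast hr.ne'
  field_simp

theorem mean_eq {f : ℂ → ℂ} {r : ℝ} (hr : 0 < r) (hr1 : r ≤ 1)
    (hc : ContinuousOn f (closedBall 0 1 \ ball 0 r))
    (hd : ∀ z ∈ ball (0 : ℂ) 1 \ closedBall 0 r, DifferentiableAt ℂ f z) :
    ∫ θ in (0 : ℝ)..(2 * Real.pi), f (cm θ) = ∫ θ in (0 : ℝ)..(2 * Real.pi), f (r * cm θ) := by
  have h1 := circleIntegral_sub_center_inv_smul_eq_of_differentiable_on_annulus_off_countable
    (c := 0) (r := r) (R := 1) hr hr1 (f := f) (s := ∅) Set.countable_empty hc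
    (fun z hz => hd z hz.1)
  rw [circ f 1 one_pos, circ f r hr] at h1
  have h2 := mul_left_cancel₀ Complex.I_ne_zero h1
  rw [← h2]
  congr 1
  funext θ
  rw [Complex.ofReal_one, one_mul]

theorem norm_cm (θ : ℝ) : ‖cm θ‖ = 1 := by
  unfold cm
  exact Complex.norm_exp_ofReal_mul_I θ

end Ort

open Ort in
theorem ort : S_ORT := by
  intro R p F hG ε hε
  obtain ⟨hR, -, hF, -⟩ := hG
  have hFd : ∀ z ∈ ball (0 : ℂ) R, DifferentiableAt ℂ F z := fun z hz => (hF z hz).differentiableAt
  have hR0 : 0 < R := by linarith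
  obtain ⟨r, hr1, hr2⟩ := exists_between (show 1 / R < 1 by rw [div_lt_one hR0]; exact hR)
  have hr0 : 0 < r := lt_trans (by positivity) hr1
  have hrR : r⁻¹ < R := by
    rw [inv_lt_comm₀ hr0 hR0, ← one_div]
    exact hr1
  -- a bound for `F` on the closed ball of radius `1 / r`
  have hcont : ContinuousOn F (closedBall 0 r⁻¹) := fun z hz =>
    (hFd z (closedBall_subset_ball hrR hz)).continuousAt.continuousWithinAt
  obtain ⟨M, hM⟩ := (isCompact_closedBall (0 : ℂ) r⁻¹).exists_bound_of_continuousOn hcont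
  have hM0 : 0 ≤ M := (norm_nonneg _).trans (hM 0 (mem_closedBall_self (by positivity)))
  refine ⟨r, ε / (2 * Real.pi * (M + 1)), hr0, hr2, by positivity, ?_⟩
  intro D hD hDc hD2 hDδ
  set δ := ε / (2 * Real.pi * (M + 1)) with hδ
  have hδ0 : 0 < δ := by positivity
  set f : ℂ → ℂ := fun z => HH F z * D z with hf
  have hne : ∀ z : ℂ, r ≤ ‖z‖ → z ≠ 0 := by
    intro z hz h
    rw [h, norm_zero] at hz
    linarith
  have hinv : ∀ z : ℂ, r ≤ ‖z‖ → ‖z‖⁻¹ < R := by
    intro z hz
    exact (inv_anti₀ hr0 hz).trans_lt hrR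
  have h1 : ∫ θ in (0 : ℝ)..(2 * Real.pi), f (cm θ) =
      ∫ θ in (0 : ℝ)..(2 * Real.pi), f (r * cm θ) := by
    apply mean_eq hr0 hr2.le
    · intro z hz
      have hz1 : r ≤ ‖z‖ := by
        have := hz.2
        rw [mem_ball_zero_iff, not_lt] at this
        exact this
      exact ((HH_diff hFd (hne z hz1) (hinv z hz1)).continuousAt.continuousWithinAt).mul
        ((hDc z hz.1).mono Set.sdiff_subset)
    · intro z hz
      have hz1 : r ≤ ‖z‖ := by
        have := hz.2
        rw [mem_closedBall_zero_iff, not_le] at this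
        exact this.le
      exact (HH_diff hFd (hne z hz1) (hinv z hz1)).mul
        ((hD z hz.1).differentiableAt (isOpen_ball.mem_nhds hz.1))
  have h2 : ‖∫ θ in (0 : ℝ)..(2 * Real.pi), f (r * cm θ)‖ ≤ M * δ * |2 * Real.pi - 0| := by
    apply intervalIntegral.norm_integral_le_of_norm_le_const
    intro θ _
    have hn : ‖(r : ℂ) * cm θ‖ = r := by
      rw [norm_mul, norm_cm, mul_one, Complex.norm_real, Real.norm_eq_abs, abs_of_pos hr0]
    rw [hf]
    simp only
    rw [norm_mul, HH_norm]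
    refine mul_le_mul (hM _ ?_) (hDδ _ hn.le) (norm_nonneg _) hM0
    rw [mem_closedBall_zero_iff, RCLike.norm_conj, norm_inv, hn]
  have h3 : (fun θ : ℝ => (conj (F (cm θ)) * D (cm θ)).re) = fun θ => (f (cm θ)).re := by
    funext θ
    rw [hf]
    simp only
    rw [HH_cm]
  have hint : IntervalIntegrable (fun θ : ℝ => f (cm θ)) volume 0 (2 * Real.pi) := by
    apply Continuous.intervalIntegrable
    have hcm : Continuous cm := by
      unfold cm
      fun_prop
    have hfc : ContinuousOn f (sphere 0 1) := by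
      intro z hz
      rw [mem_sphere_zero_iff_norm] at hz
      refine ((HH_diff hFd (hne z (by linarith)) (hinv z (by linarith))).continuousAt.continuousWithinAt).mul
        ((hDc z (by rw [mem_closedBall_zero_iff]; linarith)).mono ?_)
      exact sphere_subset_closedBall
    exact hfc.comp_continuous hcm (fun θ => by rw [mem_sphere_zero_iff_norm, norm_cm])
  rw [h3]
  have h4 : ∫ θ in (0 : ℝ)..(2 * Real.pi), (f (cm θ)).re =
      (∫ θ in (0 : ℝ)..(2 * Real.pi), f (cm θ)).re := by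
    have := Complex.reCLM.intervalIntegral_comp_comm hint
    simpa using this
  rw [h4]
  refine (Complex.abs_re_le_norm _).trans ?_
  rw [h1]
  refine h2.trans ?_
  rw [sub_zero, abs_of_pos (by positivity)]
  have h5 : M * δ * (2 * Real.pi) ≤ (M + 1) * δ * (2 * Real.pi) := by
    have : 0 < Real.pi := Real.pi_pos
    gcongr
    linarith
  refine h5.trans (le_of_eq ?_)
  rw [hδ]
  have : (M + 1) ≠ 0 := by positivity
  have : Real.pi ≠ 0 := Real.pi_ne_zero
  field_simp

end Pool.Agent.H928.IB
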