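import Pool.Agent.H928.IB.Stm

/-!
# P4: existence of the new function `G`
-/

set_option autoImplicit false

open MeasureTheory Set Filter Topology Complex Metric
open scoped ComplexConjugate

namespace Pool.Agent.H928.IB

namespace Prim

theorem qq_lt {L : ℝ} : qq L < 1 := by
  unfold qq
  have := Real.exp_pos (-2 * L)
  linarith

theorem qq_nonneg {L : ℝ} (hL : 1 ≤ L) : 0 ≤ qq L := by
  unfold qq
  have : Real.exp (-2 * L) ≤ 1 := Real.exp_le_one_iff.2 (by linarith)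
  linarith

theorem exists_radius {R : ℝ} (hR : 1 < R) (L : ℝ) :
    ∃ R' : ℝ, 1 < R' ∧ R' ≤ R ∧ qq L * R' ^ nn L < 1 := by
  have hc : Continuous (fun t : ℝ => qq L * t ^ nn L) := by fun_prop
  have h1 : ∀ᶠ t in 𝓝 (1 : ℝ), qq L * t ^ nn L < 1 := by
    refine hc.continuousAt.eventually_lt continuousAt_const ?_
    simp only [one_pow, mul_one]
    exact qq_lt
  have h2 : ∀ᶠ t in 𝓝[>] (1 : ℝ), qq L * t ^ nn L < 1 := h1.filter_mono nhdsWithin_le_nhds
  have h3 : ∀ᶠ t in 𝓝[>] (1 : ℝ), t ∈ Ioc (1 : ℝ) R := Ioc_mem_nhdsGT hR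
  obtain ⟨t, ht, ht1, ht2⟩ := (h2.and h3).exists
  exact ⟨t, ht1, ht2, ht⟩

theorem norm_lt {L R' : ℝ} (hL : 1 ≤ L) (h : qq L * R' ^ nn L < 1) {z : ℂ}
    (hz : z ∈ ball (0 : ℂ) R') : ‖(qq L : ℂ) * z ^ nn L‖ < 1 := by
  rw [mem_ball_zero_iff] at hz
  rw [norm_mul, norm_pow, Complex.norm_real, Real.norm_eq_abs, abs_of_nonneg (qq_nonneg hL)]
  refine lt_of_le_of_lt ?_ h
  exact mul_le_mul_of_nonneg_left (pow_le_pow_left₀ (norm_nonneg _) hz.le _) (qq_nonneg hL)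

theorem pp_diff (h : S_U) {R R' : ℝ} {p α : ℂ → ℂ} {N L : ℝ} (hp : DifferentiableOn ℂ p (ball 0 R))
    (hα : Differentiable ℂ α) (hR : R' ≤ R)
    (hq : ∀ z ∈ ball (0 : ℂ) R', ‖(qq L : ℂ) * z ^ nn L‖ < 1) :
    DifferentiableOn ℂ (pp p α N L) (ball 0 R') := by
  intro z hz
  have hzR : z ∈ ball (0 : ℂ) R := ball_subset_ball hR hz
  have hpz : DifferentiableAt ℂ p z := hp.differentiableAt (isOpen_ball.mem_nhds hzR)
  have hαz : DifferentiableAt ℂ α z := hα z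
  have hu : DifferentiableAt ℂ (fun w : ℂ => uu (qq L * w ^ nn L)) z := by
    have h1 : DifferentiableAt ℂ uu ((qq L : ℂ) * z ^ nn L) :=
      ((h.2 _ (hq z hz)).1).differentiableAt
    exact h1.comp z (f := fun w : ℂ => (qq L : ℂ) * w ^ nn L) (by fun_prop)
  have hE : DifferentiableAt ℂ (fun w : ℂ => EE N (w ^ nn L)) z := by
    unfold EE
    fun_prop
  refine DifferentiableAt.differentiableWithinAt ?_
  unfold pp gg
  fun_prop

end Prim

open Prim in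
theorem prim (h : S_U) : S_PRIM := by
  intro R p F α N hG hA L hL
  obtain ⟨hR, hp, _, _⟩ := hG
  obtain ⟨R', h1, h2, h3⟩ := exists_radius hR L
  have hq : ∀ z ∈ ball (0 : ℂ) R', ‖(qq L : ℂ) * z ^ nn L‖ < 1 := fun z hz => norm_lt hL h3 hz
  have hd : DifferentiableOn ℂ (pp p α N L) (ball 0 R') := pp_diff h hp hA.1 h2 hq
  have he : DifferentiableOn ℂ (fun z => exp (pp p α N L z)) (ball 0 R') := hd.cexp
  obtain ⟨G, hG⟩ := he.isExactOn_ball
  refine ⟨R', fun z => G z + (F 0 - G 0), h2, h1, hd, hq, ?_, ?_⟩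
  · show G 0 + (F 0 - G 0) = F 0
    ring
  · intro z hz
    exact (hG z hz).add_const _

end Pool.Agent.H928.IB
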