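import Pool.Agent.H928.IB.Stm

set_option autoImplicit false

open MeasureTheory Set Filter Topology Complex Metric
open scoped ComplexConjugate

namespace Pool.Agent.H928.IB

namespace SM

theorem norm_cm (θ : ℝ) : ‖cm θ‖ = 1 := Complex.norm_exp_ofReal_mul_I θ

theorem log_bound (x M : ℝ) (hx : 0 < x) :
    Real.log (2 / x) ≤ 1 + 2 * M + 2 * Real.exp (-M) * x ^ (-(1 / 2 : ℝ)) := by
  have hy : 0 < x ^ (-(1 / 2 : ℝ)) := Real.rpow_pos_of_pos hx _
  have h1 : Real.log (Real.exp (-M) * x ^ (-(1 / 2 : ℝ))) ≤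
      Real.exp (-M) * x ^ (-(1 / 2 : ℝ)) - 1 :=
    Real.log_le_sub_one_of_pos (mul_pos (Real.exp_pos _) hy)
  rw [Real.log_mul (Real.exp_pos _).ne' hy.ne', Real.log_exp, Real.log_rpow hx] at h1
  rw [Real.log_div two_ne_zero hx.ne']
  have h2 : Real.log 2 ≤ 1 := by
    have := Real.log_two_lt_d9
    linarith
  linarith

theorem den_ne {a w : ℂ} (ha : ‖a‖ < 1) (hw : ‖w‖ ≤ 1) : 1 - conj a * w ≠ 0 := by
  intro h
  have h1 : conj a * w = 1 := by linear_combination -h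
  have h2 : ‖conj a * w‖ = 1 := by rw [h1]; simp
  rw [norm_mul, RCLike.norm_conj] at h2
  nlinarith [norm_nonneg a, norm_nonneg w]

theorem ell_le (a w : ℂ) (M : ℝ) (hM : 0 ≤ M) (ha : ‖a‖ < 1) (hw : ‖w‖ ≤ 1) :
    ell a w ≤ 1 + 2 * M + 2 * Real.exp (-M) * ‖w - a‖ ^ (-(1 / 2 : ℝ)) := by
  by_cases hwa : w = a
  · have h0 : 0 ≤ 1 + 2 * M + 2 * Real.exp (-M) * ‖w - a‖ ^ (-(1 / 2 : ℝ)) := by positivity
    have h1 : ell a w = 0 := by
      rw [hwa, ell, sub_self, zero_div, norm_zero, Real.log_zero, neg_zero]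
    rw [h1]
    exact h0
  · have hx : 0 < ‖w - a‖ := norm_pos_iff.2 (sub_ne_zero.2 hwa)
    have hd := den_ne ha hw
    have hd2 : ‖1 - conj a * w‖ ≤ 2 := by
      have h3 : ‖1 - conj a * w‖ ≤ ‖(1 : ℂ)‖ + ‖conj a * w‖ := norm_sub_le _ _
      rw [norm_one, norm_mul, RCLike.norm_conj] at h3
      nlinarith [norm_nonneg a, norm_nonneg w]
    have h4 : ell a w = Real.log (‖1 - conj a * w‖ / ‖w - a‖) := by
      rw [ell, norm_div, ← Real.log_inv, inv_div]
    rw [h4]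
    calc Real.log (‖1 - conj a * w‖ / ‖w - a‖) ≤ Real.log (2 / ‖w - a‖) :=
          Real.log_le_log (div_pos (norm_pos_iff.2 hd) hx) (by gcongr)
      _ ≤ _ := log_bound _ _ hx

/-- `1 - |F|` is bounded below on the circle -/
theorem lower {R : ℝ} {p F : ℂ → ℂ} (h : Good R p F) :
    ∃ m : ℝ, 0 < m ∧ ∀ θ : ℝ, m ≤ 1 - ‖F (cm θ)‖ := by
  obtain ⟨hR, -, hF, hlt⟩ := h
  have hc : ContinuousOn F (Metric.closedBall 0 1) := by
    intro z hz
    have hz' : z ∈ ball (0 : ℂ) R := by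
      rw [mem_ball_zero_iff]
      rw [mem_closedBall_zero_iff] at hz
      linarith
    exact (hF z hz').continuousAt.continuousWithinAt
  have hne : (Metric.closedBall (0 : ℂ) 1).Nonempty := ⟨0, Metric.mem_closedBall_self zero_le_one⟩
  obtain ⟨z0, hz0, hmax⟩ := (isCompact_closedBall (0 : ℂ) 1).exists_isMaxOn hne hc.norm
  refine ⟨1 - ‖F z0‖, ?_, fun θ => ?_⟩
  · have := hlt z0 (mem_closedBall_zero_iff.1 hz0)
    linarith
  · have hθ : cm θ ∈ Metric.closedBall (0 : ℂ) 1 := by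
      rw [mem_closedBall_zero_iff, norm_cm]
    have := hmax hθ
    have h2 : ‖F (cm θ)‖ ≤ ‖F z0‖ := this
    linarith

theorem tend : Tendsto (fun L : ℝ => (1 + 18 * L) * (4 * Real.exp (-L)) +
    2 * Real.exp (-L)) atTop (𝓝 0) := by
  have h1 := Real.tendsto_pow_mul_exp_neg_atTop_nhds_zero 1
  have h0 := Real.tendsto_pow_mul_exp_neg_atTop_nhds_zero 0
  have h2 := (h1.const_mul 72).add (h0.const_mul 6)
  rw [mul_zero, mul_zero, add_zero] at h2
  refine h2.congr fun L => ?_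
  ring

end SM

open SM in
theorem sm (h1 : S_CRU) (h2 : S_E1) : S_SM := by
  intro R p F α N hG hA ε hε
  obtain ⟨m, hm, hmF⟩ := lower hG
  obtain ⟨L1, hL1⟩ := h1 R p F α N hG hA
  obtain ⟨L2, hL2⟩ := h2 R p F α N hG hA (m / 4) (by linarith)
  obtain ⟨L3, hL3⟩ : ∃ L3 : ℝ, ∀ L, L3 ≤ L →
      (1 + 18 * L) * (4 * Real.exp (-L)) + 2 * Real.exp (-L) ≤ ε := by
    have := tend.eventually (gt_mem_nhds hε)
    obtain ⟨L3, h⟩ := eventually_atTop.1 this
    exact ⟨L3, fun L hL => (h L hL).le⟩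
  refine ⟨max 0 (max L1 (max L2 L3)), ?_⟩
  intro L hL R' G hR' hP S hSm hS hvol a ha
  have hL0 : 0 ≤ L := (le_max_left _ _).trans hL
  have hLr := (le_max_right _ _).trans hL
  have hLL1 : L1 ≤ L := (le_max_left _ _).trans hLr
  have hLr2 := (le_max_right _ _).trans hLr
  have hLL2 : L2 ≤ L := (le_max_left _ _).trans hLr2
  have hLL3 : L3 ≤ L := (le_max_right _ _).trans hLr2
  have hHB := hL1 L hLL1 R' G hR' hP a
  have hE := hL2 L hLL2 R' G hR' hP
  have hfin := hL3 L hLL3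
  obtain ⟨-, hint, hle⟩ := hHB
  have hw : ∀ θ : ℝ, ‖G (cm θ)‖ ≤ 1 := by
    intro θ
    have h3 := hE (cm θ) (norm_cm θ)
    have h4 := (hA.2.1 θ).2
    have h5 := hmF θ
    have h6 : ‖G (cm θ)‖ ≤ ‖G (cm θ) - F (cm θ)‖ + ‖F (cm θ)‖ := by
      have := norm_add_le (G (cm θ) - F (cm θ)) (F (cm θ))
      rwa [sub_add_cancel] at this
    linarith
  by_cases hell : IntegrableOn (fun θ => ell a (G (cm θ))) S
  swap
  · rw [integral_undef hell]
    exact hε.le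
  have hpi : (0 : ℝ) ≤ 2 * Real.pi := by positivity
  have hintI : IntegrableOn (fun θ => ‖G (cm θ) - a‖ ^ (-(1 / 2 : ℝ))) (Icc 0 (2 * Real.pi)) := by
    rw [integrableOn_Icc_iff_integrableOn_Ioc]
    exact (intervalIntegrable_iff_integrableOn_Ioc_of_le hpi).1 hint
  have hintS : IntegrableOn (fun θ => ‖G (cm θ) - a‖ ^ (-(1 / 2 : ℝ))) S := hintI.mono_set hS
  have hvolS : volume S ≠ ⊤ := (hvol.trans_lt ENNReal.ofReal_lt_top).ne
  have hconst : IntegrableOn (fun _ : ℝ => 1 + 2 * (9 * L)) S :=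
    integrableOn_const hvolS
  have hg : IntegrableOn (fun θ => 1 + 2 * (9 * L) +
      2 * Real.exp (-(9 * L)) * ‖G (cm θ) - a‖ ^ (-(1 / 2 : ℝ))) S :=
    hconst.add (hintS.const_mul _)
  have hreal : volume.real S ≤ 4 * Real.exp (-L) :=
    ENNReal.toReal_le_of_le_ofReal (by positivity) hvol
  have hSle : ∫ θ in S, ‖G (cm θ) - a‖ ^ (-(1 / 2 : ℝ)) ≤ Real.exp (8 * L) := by
    calc ∫ θ in S, ‖G (cm θ) - a‖ ^ (-(1 / 2 : ℝ)) ≤
          ∫ θ in Icc 0 (2 * Real.pi), ‖G (cm θ) - a‖ ^ (-(1 / 2 : ℝ)) :=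
          setIntegral_mono_set hintI (Eventually.of_forall fun θ => by positivity)
            (LE.le.eventuallyLE hS)
      _ = ∫ θ in (0 : ℝ)..(2 * Real.pi), ‖G (cm θ) - a‖ ^ (-(1 / 2 : ℝ)) := by
          rw [intervalIntegral.integral_of_le hpi, integral_Icc_eq_integral_Ioc]
      _ ≤ Real.exp (8 * L) := hle
  calc ∫ θ in S, ell a (G (cm θ)) ≤ ∫ θ in S, (1 + 2 * (9 * L) +
        2 * Real.exp (-(9 * L)) * ‖G (cm θ) - a‖ ^ (-(1 / 2 : ℝ))) := by
        refine setIntegral_mono hell hg fun θ => ?_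
        exact ell_le a (G (cm θ)) (9 * L) (by positivity) ha (hw θ)
    _ = (1 + 2 * (9 * L)) * volume.real S +
        2 * Real.exp (-(9 * L)) * ∫ θ in S, ‖G (cm θ) - a‖ ^ (-(1 / 2 : ℝ)) := by
        rw [integral_add hconst (hintS.const_mul _), integral_const_mul, setIntegral_const,
          smul_eq_mul, mul_comm (volume.real S)]
    _ ≤ (1 + 2 * (9 * L)) * (4 * Real.exp (-L)) +
        2 * Real.exp (-(9 * L)) * Real.exp (8 * L) := by
        gcongr
    _ = (1 + 18 * L) * (4 * Real.exp (-L)) + 2 * Real.exp (-L) := by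
        rw [mul_assoc 2 (Real.exp (-(9 * L))), ← Real.exp_add]
        ring_nf
    _ ≤ ε := hfin

end Pool.Agent.H928.IB
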