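import Pool.Agent.H928.IB.Stm

/-!
# The sequence of stages (task Seq of helper928; helper553)
-/

set_option autoImplicit false

open MeasureTheory Set Filter Topology Complex Metric
open scoped ComplexConjugate

namespace Pool.Agent.H928.IB

namespace Seq

/-- a finite stage -/
structure Stg where
  R : ℝ
  p : ℂ → ℂ
  F : ℂ → ℂ
  good : Good R p F

/-- a stage with a radius and a tolerance -/
structure St where
  X : Stg
  r : ℝ
  δ : ℝ
  hr0 : 9 / 10 ≤ r
  hr1 : r < 1
  hδ : 0 < δ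

theorem good0 : Good 2 (fun z => 5 * z - 5 + Complex.log (5 / 2))
    (fun z => 1 / 2 * exp (5 * (z - 1))) := by
  refine ⟨by norm_num, ?_, ?_, ?_⟩
  · intro z _
    exact (((differentiable_id.const_mul (5 : ℂ)).sub_const 5).add_const _).differentiableAt.differentiableWithinAt
  · intro z _
    have h1 : HasDerivAt (fun w : ℂ => 5 * (w - 1)) 5 z := by
      simpa using ((hasDerivAt_id z).sub_const 1).const_mul (5 : ℂ)
    have h2 := h1.cexp.const_mul (1 / 2 : ℂ)
    have h3 : exp (5 * z - 5 + Complex.log (5 / 2)) = 1 / 2 * (exp (5 * (z - 1)) * 5) := by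
      rw [Complex.exp_add, Complex.exp_log (by norm_num)]
      have h4 : (5 : ℂ) * z - 5 = 5 * (z - 1) := by ring
      rw [h4]
      ring
    rw [h3]
    exact h2
  · intro z hz
    have h1 : ‖(1 / 2 : ℂ) * exp (5 * (z - 1))‖ = 1 / 2 * Real.exp (5 * (z.re - 1)) := by
      rw [norm_mul, Complex.norm_exp]
      congr 1
      · simp
      · simp
    rw [h1]
    have h2 : z.re ≤ 1 := (Complex.re_le_norm z).trans hz
    have h3 : Real.exp (5 * (z.re - 1)) ≤ 1 := Real.exp_le_one_iff.2 (by linarith)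
    linarith

theorem mass_le {R : ℝ} {p F : ℂ → ℂ} (h : Good R p F) : mass F ≤ 2 * Real.pi := by
  have h1 : ‖∫ θ in (0:ℝ)..(2 * Real.pi), ‖F (cm θ)‖ ^ 2‖ ≤ 1 * |2 * Real.pi - 0| := by
    refine intervalIntegral.norm_integral_le_of_norm_le_const fun θ _ => ?_
    have h2 : ‖F (cm θ)‖ < 1 := h.2.2.2 _ (by
      unfold cm
      rw [Complex.norm_exp_ofReal_mul_I])
    rw [Real.norm_eq_abs, abs_of_nonneg (by positivity)]
    nlinarith [norm_nonneg (F (cm θ))]
  have h3 : |2 * Real.pi - 0| = 2 * Real.pi := by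
    rw [sub_zero, abs_of_pos (by positivity)]
  rw [h3, one_mul] at h1
  exact (le_abs_self _).trans h1

theorem mass_nonneg (F : ℂ → ℂ) : 0 ≤ mass F := by
  refine intervalIntegral.integral_nonneg (by positivity) fun θ _ => by positivity

theorem sig_nonneg (F : ℂ → ℂ) : 0 ≤ sig F := by
  refine intervalIntegral.integral_nonneg (by positivity) fun θ _ => by positivity

end Seq

open Pool.Agent.H928.IB.Seq in
theorem seq (h1 : S_STEP) (h2 : S_CONT) : S_SEQ := by
  obtain ⟨c, hc, K, hK, hstep⟩ := h1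
  -- continuity data
  have hC : ∀ (X : Stg) (k : ℕ), ∃ s r' d : ℝ, 0 < s ∧ s < r' ∧ r' < 1 ∧ 0 < d ∧
      ∀ J : ℂ → ℂ, DifferentiableOn ℂ J (ball 0 1) → (∀ z ∈ disc, ‖J z‖ ≤ 1) →
        (∀ z : ℂ, ‖z‖ ≤ r' → ‖J z - X.F z‖ ≤ d) → ∀ a : ℂ, ‖a‖ ≤ 1 - 1 / ((k : ℝ) + 2) →
          ∫ θ in (0:ℝ)..(2 * Real.pi), ell a (J (s * cm θ)) ≤ Psi a X.F + (1 / 2) ^ k := by
    intro X k
    have hk : (0 : ℝ) < (k : ℝ) + 2 := by positivity
    obtain ⟨s, r', d, a1, a2, a3, a4, a5⟩ := h2 X.R X.p X.F X.good (1 - 1 / ((k : ℝ) + 2))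
      (by have : 0 < 1 / ((k : ℝ) + 2) := by positivity
          linarith) ((1 / 2) ^ k) (by positivity)
    exact ⟨s, r', d, a1, a2, a3, a4, a5⟩
  choose s r' d hs0 hsr hr1 hd hJ using hC
  -- the step
  have hS : ∀ (S : St) (k : ℕ), ∃ Y : Stg,
      (∀ z : ℂ, ‖z‖ ≤ S.r → ‖Y.F z - S.X.F z‖ ≤ min (S.δ / 2) ((1 / 2) ^ k)) ∧
      mass S.X.F + c * sig S.X.F - min (S.δ / 2) ((1 / 2) ^ k) ≤ mass Y.F ∧
      ∀ a : ℂ, ‖a‖ ≤ 1 - 32 * sig S.X.F ^ (1 / 10 : ℝ) →
        Psi a Y.F ≤ 1 / 2 * Psi a S.X.F + K * sig S.X.F ^ (1 / 10 : ℝ) +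
          min (S.δ / 2) ((1 / 2) ^ k) := by
    intro S k
    have hδ := S.hδ
    obtain ⟨R', p', G, hG, a1, a2, a3⟩ := hstep S.X.R S.X.p S.X.F S.X.good S.r S.hr1
      (min (S.δ / 2) ((1 / 2) ^ k)) (by
        apply lt_min
        · linarith
        · positivity)
    exact ⟨⟨R', p', G, hG⟩, a1, a2, a3⟩
  choose nx hn1 hn2 hn3 using hS
  -- the sequence
  let X0 : Stg := ⟨2, fun z => 5 * z - 5 + Complex.log (5 / 2), fun z => 1 / 2 * exp (5 * (z - 1)),
    good0⟩
  let S0 : St := ⟨X0, max (r' X0 0) (9 / 10), min (d X0 0) (1 / 10000), le_max_right _ _,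
    max_lt (hr1 X0 0) (by norm_num), lt_min (hd X0 0) (by norm_num)⟩
  let next : ℕ → St → St := fun k S =>
    ⟨nx S k, max (r' (nx S k) (k + 1)) (max S.r (1 - 1 / ((k : ℝ) + 11))),
      min (d (nx S k) (k + 1)) (S.δ / 2),
      S.hr0.trans ((le_max_left _ _).trans (le_max_right _ _)),
      max_lt (hr1 _ _) (max_lt S.hr1 (by
        have : 0 < 1 / ((k : ℝ) + 11) := by positivity
        linarith)),
      lt_min (hd _ _) (by have := S.hδ; linarith)⟩
  let T : ℕ → St := fun k => Nat.rec S0 next k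
  have hT0 : T 0 = S0 := rfl
  have hTs : ∀ k, T (k + 1) = next k (T k) := fun k => rfl
  have hrT : ∀ k, r' (T k).X k ≤ (T k).r := by
    intro k
    cases k with
    | zero => exact le_max_left _ _
    | succ k => exact le_max_left _ _
  have hdT : ∀ k, (T k).δ ≤ d (T k).X k := by
    intro k
    cases k with
    | zero => exact min_le_left _ _
    | succ k => exact min_le_left _ _
  have hrm : ∀ k, (T k).r ≤ (T (k + 1)).r := fun k => (le_max_left _ _).trans (le_max_right _ _)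
  have hrl : ∀ k : ℕ, 1 - 1 / ((k : ℝ) + 10) ≤ (T k).r := by
    intro k
    cases k with
    | zero =>
      have h3 := (T 0).hr0
      norm_num at h3 ⊢
      linarith
    | succ k =>
      have h3 : 1 - 1 / ((k : ℝ) + 11) ≤ (T (k + 1)).r := (le_max_right _ _).trans (le_max_right _ _)
      have h4 : ((k + 1 : ℕ) : ℝ) + 10 = (k : ℝ) + 11 := by push_cast; ring
      rw [h4]
      exact h3
  have hδm : ∀ k, (T (k + 1)).δ ≤ (T k).δ / 2 := fun k => min_le_right _ _
  -- tends to zero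
  have hsig : Summable (fun k => sig (T k).X.F) := by
    have hpart : ∀ n, c * ∑ k ∈ Finset.range n, sig (T k).X.F ≤
        mass (T n).X.F + ∑ k ∈ Finset.range n, (1 / 2 : ℝ) ^ k := by
      intro n
      induction n with
      | zero =>
        simp only [Finset.range_zero, Finset.sum_empty, mul_zero, add_zero]
        exact mass_nonneg _
      | succ n ih =>
        rw [Finset.sum_range_succ, Finset.sum_range_succ, mul_add]
        have h3 : mass (T n).X.F + c * sig (T n).X.F - min ((T n).δ / 2) ((1 / 2) ^ n) ≤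
            mass (T (n + 1)).X.F := hn2 (T n) n
        have h4 : min ((T n).δ / 2) ((1 / 2 : ℝ) ^ n) ≤ (1 / 2) ^ n := min_le_right _ _
        linarith
    refine summable_of_sum_range_le (c := (2 * Real.pi + 2) / c) (fun k => sig_nonneg _) ?_
    intro n
    have h3 := hpart n
    have h4 := mass_le (T n).X.good
    have h5 : ∑ k ∈ Finset.range n, (1 / 2 : ℝ) ^ k ≤ 2 := by
      have h6 : Summable (fun k : ℕ => (1 / 2 : ℝ) ^ k) := summable_geometric_two
      have h7 := h6.sum_le_tsum (Finset.range n) (fun k _ => by positivity)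
      rwa [tsum_geometric_two] at h7
    rw [le_div_iff₀ hc]
    linarith
  have hsig0 : Tendsto (fun k => sig (T k).X.F ^ (1 / 10 : ℝ)) atTop (𝓝 0) := by
    have h3 := hsig.tendsto_atTop_zero
    have h4 := h3.rpow_const (p := (1 / 10 : ℝ)) (Or.inr (by norm_num))
    rwa [Real.zero_rpow (by norm_num)] at h4
  have hpow : Tendsto (fun k : ℕ => (1 / 2 : ℝ) ^ k) atTop (𝓝 0) :=
    tendsto_pow_atTop_nhds_zero_of_lt_one (by norm_num) (by norm_num)
  refine ⟨fun k => (T k).X.F, fun k => (T k).r, fun k => (T k).δ, fun z => rfl,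
    fun k => ⟨_, _, (T k).X.good⟩, fun k => ⟨(T k).hr0, (T k).hr1⟩, monotone_nat_of_le_succ hrm,
    ?_, fun k => (T k).hδ, min_le_right _ _, hδm, ?_, ?_⟩
  · -- r tends to one
    refine tendsto_of_tendsto_of_tendsto_of_le_of_le (g := fun k : ℕ => 1 - 1 / ((k : ℝ) + 10))
      (h := fun _ => 1) ?_ tendsto_const_nhds hrl (fun k => (T k).hr1.le)
    have h3 : Tendsto (fun k : ℕ => 1 / ((k : ℝ) + 10)) atTop (𝓝 0) := by
      have h4 : Tendsto (fun k : ℕ => (k : ℝ) + 10) atTop atTop :=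
        tendsto_atTop_add_const_right _ _ tendsto_natCast_atTop_atTop
      simp only [one_div]
      exact h4.inv_tendsto_atTop
    simpa using h3.const_sub 1
  · intro k z hz
    exact (hn1 (T k) k z hz).trans (min_le_left _ _)
  · intro a ha ε hε
    have ha1 : ‖a‖ < 1 := by simpa [disc] using ha
    -- choose K0
    have e1 : ∀ᶠ k : ℕ in atTop, ‖a‖ ≤ 1 - 1 / ((k : ℝ) + 2) := by
      have h4 : Tendsto (fun k : ℕ => 1 - 1 / ((k : ℝ) + 2)) atTop (𝓝 1) := by
        have h5 : Tendsto (fun k : ℕ => (k : ℝ) + 2) atTop atTop :=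
          tendsto_atTop_add_const_right _ _ tendsto_natCast_atTop_atTop
        have h6 : Tendsto (fun k : ℕ => 1 / ((k : ℝ) + 2)) atTop (𝓝 0) := by
          simp only [one_div]
          exact h5.inv_tendsto_atTop
        simpa using h6.const_sub 1
      filter_upwards [h4.eventually (lt_mem_nhds ha1)] with k hk using hk.le
    have e2 : ∀ᶠ k : ℕ in atTop, (1 / 2 : ℝ) ^ k ≤ ε / 16 := by
      filter_upwards [hpow.eventually (gt_mem_nhds (show (0 : ℝ) < ε / 16 by positivity))] with k hk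
        using hk.le
    have e3 : ∀ᶠ k : ℕ in atTop, ‖a‖ ≤ 1 - 32 * sig (T k).X.F ^ (1 / 10 : ℝ) := by
      have h4 : Tendsto (fun k => 1 - 32 * sig (T k).X.F ^ (1 / 10 : ℝ)) atTop (𝓝 1) := by
        simpa using (hsig0.const_mul 32).const_sub 1
      filter_upwards [h4.eventually (lt_mem_nhds ha1)] with k hk using hk.le
    have e4 : ∀ᶠ k : ℕ in atTop, K * sig (T k).X.F ^ (1 / 10 : ℝ) ≤ ε / 16 := by
      have h4 : Tendsto (fun k => K * sig (T k).X.F ^ (1 / 10 : ℝ)) atTop (𝓝 0) := by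
        simpa using hsig0.const_mul K
      filter_upwards [h4.eventually (gt_mem_nhds (show (0 : ℝ) < ε / 16 by positivity))] with k hk
        using hk.le
    obtain ⟨K0, hK0⟩ := eventually_atTop.1 (e1.and (e2.and (e3.and e4)))
    have hx : ∀ j : ℕ, Psi a (T (K0 + j)).X.F ≤ (1 / 2) ^ j * |Psi a (T K0).X.F| + ε / 4 := by
      intro j
      induction j with
      | zero =>
        simp only [add_zero, pow_zero, one_mul]
        linarith [le_abs_self (Psi a (T K0).X.F)]
      | succ j ih =>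
        obtain ⟨f1, f2, f3, f4⟩ := hK0 (K0 + j) (by omega)
        have h3 : Psi a (T (K0 + j + 1)).X.F ≤ 1 / 2 * Psi a (T (K0 + j)).X.F +
            K * sig (T (K0 + j)).X.F ^ (1 / 10 : ℝ) +
            min ((T (K0 + j)).δ / 2) ((1 / 2) ^ (K0 + j)) := hn3 (T (K0 + j)) (K0 + j) a f3
        have h4 : min ((T (K0 + j)).δ / 2) ((1 / 2 : ℝ) ^ (K0 + j)) ≤ (1 / 2) ^ (K0 + j) :=
          min_le_right _ _
        have h5 : (1 / 2 : ℝ) ^ (j + 1) = 1 / 2 * (1 / 2) ^ j := by ring
        rw [← add_assoc, h5]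
        linarith
    have e5 : ∀ᶠ j : ℕ in atTop, (1 / 2 : ℝ) ^ j * |Psi a (T K0).X.F| ≤ ε / 4 := by
      have h4 : Tendsto (fun j : ℕ => (1 / 2 : ℝ) ^ j * |Psi a (T K0).X.F|) atTop (𝓝 0) := by
        simpa using hpow.mul_const (|Psi a (T K0).X.F|)
      filter_upwards [h4.eventually (gt_mem_nhds (show (0 : ℝ) < ε / 4 by positivity))] with k hk
        using hk.le
    obtain ⟨j, hj⟩ := e5.exists
    obtain ⟨f1, f2, -, -⟩ := hK0 (K0 + j) (by omega)
    refine ⟨K0 + j, s (T (K0 + j)).X (K0 + j), hs0 _ _, (hsr _ _).trans_le (hrT _), ?_⟩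
    intro J hJd hJ1 hJ2
    have h3 := hJ (T (K0 + j)).X (K0 + j) J hJd hJ1 (fun z hz =>
      (hJ2 z (hz.trans (hrT _))).trans (hdT _)) a f1
    have h4 := hx j
    linarith

end Pool.Agent.H928.IB
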