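import Pool.Agent.H928.IB.Stm

/-!
# The step (assembly)
-/

set_option autoImplicit false

open MeasureTheory Set Filter Topology Complex Metric
open scoped ComplexConjugate

namespace Pool.Agent.H928.IB

namespace Step

lemma norm_cm (θ : ℝ) : ‖cm θ‖ = 1 := by
  rw [cm, Complex.norm_exp_ofReal_mul_I]

lemma continuous_cm : Continuous cm := by
  unfold cm
  fun_prop

lemma cm_arg {z : ℂ} (hz : ‖z‖ = 1) : cm (arg z) = z := by
  have h := Complex.norm_mul_exp_arg_mul_I z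
  rw [hz] at h
  simpa [cm] using h

lemma ell_meas (a : ℂ) {γ : ℝ → ℂ} (hγ : Continuous γ) : Measurable fun θ => ell a (γ θ) := by
  unfold ell
  have h1 : Measurable fun θ => (γ θ - a) / (1 - conj a * γ θ) :=
    ((hγ.sub continuous_const).measurable).div
      ((continuous_const.sub (continuous_const.mul hγ)).measurable)
  exact (Real.measurable_log.comp h1.norm).neg

lemma den_ne {a w : ℂ} (ha : ‖a‖ < 1) (hw : ‖w‖ ≤ 1) : 1 - conj a * w ≠ 0 := by
  intro h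
  have h1 : conj a * w = 1 := by linear_combination -h
  have h2 : ‖conj a * w‖ = 1 := by rw [h1]; simp
  rw [norm_mul, RCLike.norm_conj] at h2
  nlinarith [norm_nonneg a, norm_nonneg w]

lemma ell_nonneg {a w : ℂ} (ha : ‖a‖ < 1) (hw : ‖w‖ ≤ 1) : 0 ≤ ell a w := by
  have hne := den_ne ha hw
  rw [ell, neg_nonneg]
  refine Real.log_nonpos (norm_nonneg _) ?_
  rw [norm_div, div_le_one (norm_pos_iff.2 hne)]
  have key : ‖1 - conj a * w‖ ^ 2 - ‖w - a‖ ^ 2 = (1 - ‖a‖ ^ 2) * (1 - ‖w‖ ^ 2) := by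
    rw [← Complex.normSq_eq_norm_sq, ← Complex.normSq_eq_norm_sq, ← Complex.normSq_eq_norm_sq,
      ← Complex.normSq_eq_norm_sq]
    simp only [Complex.normSq_apply, Complex.sub_re, Complex.sub_im, Complex.one_re,
      Complex.one_im, Complex.mul_re, Complex.mul_im, Complex.conj_re, Complex.conj_im]
    ring
  have hp : 0 ≤ (1 - ‖a‖ ^ 2) * (1 - ‖w‖ ^ 2) := by
    apply mul_nonneg <;> nlinarith [norm_nonneg a, norm_nonneg w]
  exact (sq_le_sq₀ (norm_nonneg _) (norm_nonneg _)).1 (by linarith)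

lemma ell_le {a w : ℂ} (ha : ‖a‖ < 1) (hw : ‖w‖ ≤ 1) :
    ell a w ≤ 4 * ‖w - a‖ ^ (-(1 / 2 : ℝ)) := by
  have hne := den_ne ha hw
  rcases eq_or_ne w a with rfl | hwa
  · rw [ell, sub_self, zero_div, norm_zero, Real.log_zero, Real.zero_rpow (by norm_num)]
    norm_num
  · have hx : 0 < ‖w - a‖ := norm_pos_iff.2 (sub_ne_zero.2 hwa)
    have hd : 0 < ‖1 - conj a * w‖ := norm_pos_iff.2 hne
    have hd2 : ‖1 - conj a * w‖ ≤ 2 := by
      calc ‖1 - conj a * w‖ ≤ ‖(1 : ℂ)‖ + ‖conj a * w‖ := norm_sub_le _ _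
        _ ≤ 2 := by
          rw [norm_one, norm_mul, RCLike.norm_conj]
          nlinarith [norm_nonneg a, norm_nonneg w]
    have h1 : ell a w = Real.log (‖1 - conj a * w‖ / ‖w - a‖) := by
      rw [ell, norm_div, ← Real.log_inv, inv_div]
    rw [h1]
    have h2 : Real.log (‖1 - conj a * w‖ / ‖w - a‖) ≤ Real.log (2 / ‖w - a‖) :=
      Real.log_le_log (div_pos hd hx) (by gcongr)
    have h3 : (2 / ‖w - a‖) = (Real.sqrt (2 / ‖w - a‖)) ^ 2 :=
      (Real.sq_sqrt (by positivity)).symm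
    have h4 : Real.log (2 / ‖w - a‖) ≤ 2 * Real.sqrt (2 / ‖w - a‖) := by
      have h5 : 0 < Real.sqrt (2 / ‖w - a‖) := Real.sqrt_pos.2 (by positivity)
      rw [h3, Real.log_pow, ← h3]
      have := Real.log_le_sub_one_of_pos h5
      push_cast
      linarith
    have h6 : Real.sqrt (2 / ‖w - a‖) ≤ 2 * ‖w - a‖ ^ (-(1 / 2 : ℝ)) := by
      rw [Real.sqrt_div (by norm_num), Real.rpow_neg hx.le, ← Real.sqrt_eq_rpow, div_eq_mul_inv]
      have : Real.sqrt 2 ≤ 2 := by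
        rw [Real.sqrt_le_left (by norm_num)]
        norm_num
      gcongr
    linarith

lemma ell_int {a : ℂ} (ha : ‖a‖ < 1) {γ : ℝ → ℂ} (hγ : Continuous γ) (h1 : ∀ θ, ‖γ θ‖ ≤ 1)
    {B : ℝ} (hB : HB γ 0 (2 * Real.pi) B) :
    IntegrableOn (fun θ => ell a (γ θ)) (Icc 0 (2 * Real.pi)) := by
  have h2 := (hB a).2.1
  rw [intervalIntegrable_iff_integrableOn_Icc_of_le (by positivity)] at h2
  refine Integrable.mono' (h2.const_mul 4) (ell_meas a hγ).aestronglyMeasurable ?_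
  refine Filter.Eventually.of_forall fun θ => ?_
  rw [Real.norm_eq_abs, abs_of_nonneg (ell_nonneg ha (h1 θ))]
  exact ell_le ha (h1 θ)

lemma psi_split {a : ℂ} {G : ℂ → ℂ} (n : ℕ)
    (h : IntegrableOn (fun θ => ell a (G (cm θ))) (Icc 0 (2 * Real.pi))) :
    Psi a G = (∫ θ in {θ : ℝ | θ ∈ Icc 0 (2 * Real.pi) ∧ Real.cos (n * θ) ≤ 0},
      ell a (G (cm θ))) + ∫ θ in {θ : ℝ | θ ∈ Icc 0 (2 * Real.pi) ∧ 0 < Real.cos (n * θ)},
      ell a (G (cm θ)) := by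
  rw [Psi, intervalIntegral.integral_of_le (by positivity), ← integral_Icc_eq_integral_Ioc]
  have hm : MeasurableSet {θ : ℝ | Real.cos (n * θ) ≤ 0} := by
    refine (isClosed_le ?_ continuous_const).measurableSet
    fun_prop
  have h1 := MeasureTheory.setIntegral_union (μ := volume) (f := fun θ => ell a (G (cm θ)))
    (s := {θ : ℝ | θ ∈ Icc 0 (2 * Real.pi) ∧ Real.cos (n * θ) ≤ 0})
    (t := {θ : ℝ | θ ∈ Icc 0 (2 * Real.pi) ∧ 0 < Real.cos (n * θ)})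
    (by
      rw [Set.disjoint_left]
      rintro θ ⟨_, h1⟩ ⟨_, h2⟩
      exact absurd h1 (not_le.2 h2))
    (by
      have : {θ : ℝ | θ ∈ Icc 0 (2 * Real.pi) ∧ 0 < Real.cos (n * θ)} =
          Icc 0 (2 * Real.pi) ∩ {θ : ℝ | Real.cos (n * θ) ≤ 0}ᶜ := by
        ext θ
        simp only [mem_ofPred_eq, mem_inter_iff, mem_compl_iff, not_le]
      rw [this]
      exact measurableSet_Icc.inter hm.compl)
    (h.mono_set fun θ hθ => hθ.1) (h.mono_set fun θ hθ => hθ.1)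
  rw [← h1]
  refine congrArg (fun s => ∫ θ in s, ell a (G (cm θ))) ?_
  ext θ
  simp only [mem_union, mem_ofPred_eq]
  constructor
  · intro hθ
    rcases le_or_gt (Real.cos (n * θ)) 0 with h2 | h2
    · exact Or.inl ⟨hθ, h2⟩
    · exact Or.inr ⟨hθ, h2⟩
  · rintro (h2 | h2)
    · exact h2.1
    · exact h2.1

lemma good_cont {R : ℝ} {p F : ℂ → ℂ} (hR : 1 < R)
    (hF : ∀ z ∈ ball (0 : ℂ) R, HasDerivAt F (exp (p z)) z) :
    DifferentiableOn ℂ F (ball 0 1) ∧ ContinuousOn F (closedBall 0 1) := by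
  constructor
  · intro z hz
    exact (hF z (ball_subset_ball hR.le hz)).differentiableAt.differentiableWithinAt
  · intro z hz
    refine (hF z ?_).continuousAt.continuousWithinAt
    rw [mem_ball_zero_iff]
    rw [mem_closedBall_zero_iff] at hz
    linarith

lemma cont_circ {F : ℂ → ℂ} (hF : ContinuousOn F (closedBall 0 1)) :
    Continuous fun θ => F (cm θ) := by
  refine hF.comp_continuous continuous_cm fun θ => ?_
  rw [mem_closedBall_zero_iff, norm_cm]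

lemma mass_eq {F G : ℂ → ℂ} (hF : ContinuousOn F (closedBall 0 1))
    (hG : ContinuousOn G (closedBall 0 1)) :
    mass G = mass F + 2 * (∫ θ in (0:ℝ)..(2 * Real.pi),
      (conj (F (cm θ)) * (G (cm θ) - F (cm θ))).re) +
        ∫ θ in (0:ℝ)..(2 * Real.pi), ‖G (cm θ) - F (cm θ)‖ ^ 2 := by
  have h1 := cont_circ hF
  have h2 := cont_circ hG
  rw [mass, mass, ← intervalIntegral.integral_const_mul, ← intervalIntegral.integral_add,
    ← intervalIntegral.integral_add]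
  · refine intervalIntegral.integral_congr fun θ _ => ?_
    rw [← Complex.normSq_eq_norm_sq, ← Complex.normSq_eq_norm_sq, ← Complex.normSq_eq_norm_sq]
    simp only [Complex.normSq_apply, Complex.sub_re, Complex.sub_im, Complex.mul_re,
      Complex.conj_re, Complex.conj_im]
    ring
  · refine Continuous.intervalIntegrable ?_ _ _
    refine (h1.norm.pow 2).add (continuous_const.mul ?_)
    exact Complex.continuous_re.comp ((Complex.continuous_conj.comp h1).mul (h2.sub h1))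
  · exact ((h2.sub h1).norm.pow 2).intervalIntegrable _ _
  · exact (h1.norm.pow 2).intervalIntegrable _ _
  · refine Continuous.intervalIntegrable ?_ _ _
    exact continuous_const.mul
      (Complex.continuous_re.comp ((Complex.continuous_conj.comp h1).mul (h2.sub h1)))

lemma sig_pos {R : ℝ} {p F : ℂ → ℂ} (hg : Good R p F) : 0 < sig F := by
  obtain ⟨hR, -, hd, hlt⟩ := hg
  have h1 := cont_circ (good_cont hR hd).2
  rw [sig]
  refine intervalIntegral.intervalIntegral_pos_of_pos_on ?_ ?_ (by positivity)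
  · exact (((continuous_const.sub h1.norm).pow 2)).intervalIntegrable _ _
  · intro θ _
    have := hlt (cm θ) (norm_cm θ).le
    have h2 : 0 < 1 - ‖F (cm θ)‖ := by linarith
    positivity

end Step

open Step

theorem step (h1 : S_AMP) (h2 : S_PRIM) (h3 : S_E1) (h4 : S_E3) (h5 : S_LOW) (h6 : S_ORT)
    (h7 : S_TR) (h8 : S_TD) (h9 : S_CRU) : S_STEP := by
  obtain ⟨c, hc, hlow⟩ := h5
  obtain ⟨K0, hK0, htr⟩ := h7
  refine ⟨c, hc, 2 * K0, by positivity, ?_⟩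
  intro R p F hg r hr ε hε
  obtain ⟨α, N, hA⟩ := h1 R p F hg
  have hσ := sig_pos hg
  have hg' := hg
  obtain ⟨hR, hp, hd, hlt⟩ := hg'
  obtain ⟨hFd, hFc⟩ := good_cont hR hd
  -- the maximum of `‖F‖`
  obtain ⟨z0, hz0, hmax⟩ := (isCompact_closedBall (0 : ℂ) 1).exists_isMaxOn
    ⟨0, by simp⟩ hFc.norm
  have hM : ‖F z0‖ < 1 := hlt z0 (by simpa using hz0)
  have hM' : ∀ z : ℂ, ‖z‖ ≤ 1 → ‖F z‖ ≤ ‖F z0‖ := fun z hz => by
    exact hmax (mem_closedBall_zero_iff.2 hz)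
  set σ := sig F with hσd
  set ρ : ℝ := 1 - 32 * σ ^ (1 / 10 : ℝ) with hρd
  have hρ1 : ρ < 1 := by
    have : 0 < σ ^ (1 / 10 : ℝ) := Real.rpow_pos_of_pos hσ _
    rw [hρd]
    linarith
  obtain ⟨r0, δ0, hr0, hr01, hδ0, hort⟩ := h6 R p F hg (ε / 4) (by positivity)
  obtain ⟨L1, hL1⟩ := h3 R p F α N hg hA ((1 - ‖F z0‖) / 4) (by linarith)
  obtain ⟨L2, hL2⟩ := h4 R p F α N hg hA r hr ε hε
  obtain ⟨L3, hL3⟩ := h4 R p F α N hg hA r0 hr01 δ0 hδ0
  obtain ⟨L4, hL4⟩ := hlow R p F α N hg hA (ε / 2) (by positivity)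
  obtain ⟨L5, hL5⟩ := h8 R p F α N hg hA ρ hρ1 (ε / 2) (by positivity)
  obtain ⟨L6, hL6⟩ := h9 R p F α N hg hA
  have hT : Ev R p F α N (fun L G => ∀ a : ℂ, ‖a‖ ≤ ρ →
    ∫ θ in {θ : ℝ | θ ∈ Icc 0 (2 * Real.pi) ∧ 0 < Real.cos (nn L * θ)}, ell a (G (cm θ)) ≤
      2 * K0 * σ ^ (1 / 10 : ℝ) + ε / 2) := by
    by_cases hρ : 0 ≤ ρ
    · have hs10 : 0 < σ ^ (1 / 10 : ℝ) := Real.rpow_pos_of_pos hσ _
      have hs1 : σ ^ (1 / 10 : ℝ) ≤ 1 := by
        rw [hρd] at hρ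
        linarith
      have hσ1 : σ ≤ 1 := by
        by_contra hcon
        push Not at hcon
        exact absurd hs1 (not_le.2 (Real.one_lt_rpow hcon (by norm_num)))
      have hη : 0 < σ ^ (1 / 5 : ℝ) := Real.rpow_pos_of_pos hσ _
      have hη2 : σ ^ (1 / 5 : ℝ) = σ ^ (1 / 10 : ℝ) * σ ^ (1 / 10 : ℝ) := by
        rw [← Real.rpow_add hσ]
        norm_num
      have h32 : 32 * σ ^ (1 / 5 : ℝ) ≤ 1 - ρ := by
        rw [hρd, hη2]
        nlinarith
      obtain ⟨L7, hL7⟩ := htr R p F α N hg hA ρ (σ ^ (1 / 5 : ℝ)) hρ hρ1 hη h32 (ε / 2)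
        (by positivity)
      refine ⟨L7, fun L hL R' G hR' hP a ha => (hL7 L hL R' G hR' hP a ha).trans ?_⟩
      have e1 : K0 * σ ^ (1 / 5 : ℝ) / (1 - ρ) = K0 * σ ^ (1 / 10 : ℝ) / 32 := by
        rw [hρd, hη2]
        have : σ ^ (1 / 10 : ℝ) ≠ 0 := hs10.ne'
        field_simp
        ring
      have e2 : σ * (σ ^ (1 / 5 : ℝ)) ^ (-(5 / 2 : ℝ)) = σ ^ (1 / 2 : ℝ) := by
        rw [← Real.rpow_mul hσ.le]
        nth_rewrite 1 [← Real.rpow_one σ]
        rw [← Real.rpow_add hσ]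
        norm_num
      have e3 : σ ^ (1 / 2 : ℝ) ≤ σ ^ (1 / 10 : ℝ) :=
        Real.rpow_le_rpow_of_exponent_ge hσ hσ1 (by norm_num)
      have e4 : K0 * sig F * (σ ^ (1 / 5 : ℝ)) ^ (-(5 / 2 : ℝ)) ≤ K0 * σ ^ (1 / 10 : ℝ) := by
        rw [← hσd, mul_assoc, e2]
        gcongr
      rw [e1]
      nlinarith [mul_pos hK0 hs10]
    · refine ⟨0, fun L _ R' G _ _ a ha => ?_⟩
      exact absurd ((norm_nonneg a).trans ha) hρ
  obtain ⟨L7, hL7⟩ := hT
  obtain ⟨L, hLL⟩ : ∃ L : ℝ, 1 ≤ L ∧ L1 ≤ L ∧ L2 ≤ L ∧ L3 ≤ L ∧ L4 ≤ L ∧ L5 ≤ L ∧ L6 ≤ L ∧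
      L7 ≤ L := by
    refine ⟨|L1| + |L2| + |L3| + |L4| + |L5| + |L6| + |L7| + 1, ?_, ?_, ?_, ?_, ?_, ?_, ?_, ?_⟩ <;>
      linarith [le_abs_self L1, le_abs_self L2, le_abs_self L3, le_abs_self L4, le_abs_self L5,
        le_abs_self L6, le_abs_self L7, abs_nonneg L1, abs_nonneg L2, abs_nonneg L3, abs_nonneg L4,
        abs_nonneg L5, abs_nonneg L6, abs_nonneg L7]
  obtain ⟨hl0, hl1, hl2, hl3, hl4, hl5, hl6, hl7⟩ := hLL
  obtain ⟨R', G, hR', hP⟩ := h2 R p F α N hg hA L hl0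
  have hP' := hP
  obtain ⟨hR1, hpp, hq, hG0, hGd⟩ := hP'
  obtain ⟨hGdi, hGc⟩ := good_cont hR1 hGd
  have q1 := hL1 L hl1 R' G hR' hP
  have q2 := hL2 L hl2 R' G hR' hP
  have q3 := hL3 L hl3 R' G hR' hP
  have q4 := hL4 L hl4 R' G hR' hP
  have q5 := hL5 L hl5 R' G hR' hP
  have q6 := hL6 L hl6 R' G hR' hP
  have q7 := hL7 L hl7 R' G hR' hP
  simp only at q1 q2 q3 q4 q5 q6 q7
  -- `‖G‖ < 1`
  have hcirc : ∀ z : ℂ, ‖z‖ = 1 → ‖G z‖ ≤ (3 + ‖F z0‖) / 4 := by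
    intro z hz
    have e1 := q1 z hz
    have e2 := (hA.2.1 (arg z)).2
    rw [cm_arg hz] at e2
    have e3 : ‖G z‖ ≤ ‖F z‖ + ‖G z - F z‖ := by
      calc ‖G z‖ = ‖F z + (G z - F z)‖ := by rw [add_sub_cancel]
        _ ≤ _ := norm_add_le _ _
    have e4 := hM' z hz.le
    linarith
  have hball : ∀ z : ℂ, ‖z‖ ≤ 1 → ‖G z‖ ≤ (3 + ‖F z0‖) / 4 := by
    intro z hz
    have hdc : DiffContOnCl ℂ G (ball 0 1) := by
      refine ⟨hGdi, ?_⟩
      rwa [closure_ball _ one_ne_zero]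
    refine Complex.norm_le_of_forall_mem_frontier_norm_le isBounded_ball hdc ?_ ?_
    · intro w hw
      rw [frontier_ball _ one_ne_zero] at hw
      exact hcirc w (by simpa using hw)
    · rw [closure_ball _ one_ne_zero]
      simpa using hz
  have hGlt : ∀ z : ℂ, ‖z‖ ≤ 1 → ‖G z‖ < 1 := fun z hz => by
    have := hball z hz
    linarith
  refine ⟨R', pp p α N L, G, ⟨hR1, hpp, hGd, hGlt⟩, q2, ?_, ?_⟩
  · -- mass
    have e1 := hort (fun z => G z - F z) (hGdi.sub hFd) (hGc.sub hFc) (fun z hz => by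
      calc ‖G z - F z‖ ≤ ‖G z‖ + ‖F z‖ := norm_sub_le _ _
        _ ≤ 2 := by linarith [hGlt z hz, hlt z hz]) q3
    rw [abs_le] at e1
    rw [mass_eq hFc hGc]
    linarith [e1.1]
  · intro a ha
    have ha1 : ‖a‖ < 1 := lt_of_le_of_lt ha hρ1
    have hint := ell_int ha1 (cont_circ hGc) (fun θ => (hGlt _ (norm_cm θ).le).le) q6
    rw [psi_split (nn L) hint]
    have e1 := q5 a ha
    have e2 := q7 a ha
    linarith

end Pool.Agent.H928.IB
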