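import Pool.Agent.H928.IB.Stm

set_option autoImplicit false

open MeasureTheory Set Filter Topology Complex Metric
open scoped ComplexConjugate

namespace Pool.Agent.H928.IB

namespace TD

lemma norm_cm (θ : ℝ) : ‖cm θ‖ = 1 := by
  unfold cm
  exact Complex.norm_exp_ofReal_mul_I θ

lemma continuous_cm : Continuous cm := by
  unfold cm
  fun_prop

lemma cm_pow_re (n : ℕ) (θ : ℝ) : (cm θ ^ n).re = Real.cos (n * θ) := by
  unfold cm
  rw [← Complex.exp_nat_mul]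
  have : (n : ℂ) * ((θ : ℂ) * Complex.I) = (((n : ℝ) * θ : ℝ) : ℂ) * Complex.I := by
    push_cast
    ring
  rw [this, Complex.exp_ofReal_mul_I_re]

lemma cont_comp {H : ℂ → ℂ} {R : ℝ} (hR : 1 < R) {h' : ℂ → ℂ}
    (hd : ∀ z ∈ ball (0 : ℂ) R, HasDerivAt H (h' z) z) : Continuous (fun θ => H (cm θ)) := by
  rw [continuous_iff_continuousAt]
  intro θ
  have hz : cm θ ∈ ball (0 : ℂ) R := by
    rw [mem_ball_zero_iff, norm_cm]
    exact hR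
  exact ContinuousAt.comp (f := cm) (g := H) (hd _ hz).continuousAt continuous_cm.continuousAt

lemma exists_gap {R : ℝ} {p F : ℂ → ℂ} (hG : Good R p F) :
    ∃ m > (0 : ℝ), ∀ z : ℂ, ‖z‖ = 1 → m ≤ 1 - ‖F z‖ := by
  obtain ⟨hR, -, hd, hlt⟩ := hG
  have hc : ContinuousOn (fun z => ‖F z‖) (sphere (0 : ℂ) 1) := by
    intro z hz
    have hz1 : ‖z‖ = 1 := by simpa using hz
    have hzR : z ∈ ball (0 : ℂ) R := by
      rw [mem_ball_zero_iff, hz1]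
      exact hR
    exact ((hd z hzR).continuousAt.norm).continuousWithinAt
  obtain ⟨z0, hz0, hmax⟩ := (isCompact_sphere (0 : ℂ) 1).exists_isMaxOn
    ⟨1, by simp⟩ hc
  refine ⟨1 - ‖F z0‖, ?_, ?_⟩
  · have hz1 : ‖z0‖ = 1 := by simpa using hz0
    have := hlt z0 hz1.le
    linarith
  · intro z hz
    have hz' : z ∈ sphere (0 : ℂ) 1 := by simpa using hz
    have h1 : ‖F z‖ ≤ ‖F z0‖ := hmax hz'
    linarith

lemma rpow_aux {L : ℝ} (hL : 0 < L) : ((L ^ 3)⁻¹ : ℝ) ^ (-(1 / 3 : ℝ)) = L := by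
  rw [Real.inv_rpow (by positivity), Real.rpow_neg (by positivity), inv_inv,
    ← Real.rpow_natCast L 3, ← Real.rpow_mul hL.le]
  norm_num

lemma nn_ge {L : ℝ} (hL : 0 < L) {n0 : ℕ} (h : 2 * (n0 : ℝ) ≤ L) : n0 ≤ nn L := by
  have h1 : L ^ 2 / 2 ≤ Real.exp L := by
    have := Real.quadratic_le_exp_of_nonneg hL.le
    nlinarith
  have h2 : (n0 : ℝ) ≤ Real.exp L / L := by
    rw [le_div_iff₀ hL]
    nlinarith
  have h3 : (n0 : ℝ) ≤ (nn L : ℝ) := h2.trans (Nat.le_ceil _)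
  exact_mod_cast h3

end TD

open TD in
theorem td (h1 : S_CMP) (h2 : S_EQ) (h3 : S_E2) (h4 : S_CRU) (h5 : S_LIF) (h6 : S_E1) :
    S_TD := by
  intro R p F α N hG hA ρ hρ ε hε
  obtain ⟨B0, hB0⟩ := h5 R p F hG
  obtain ⟨δ0, hδ0, hcmp⟩ := h1 ρ B0 (ε / 2) hρ (by positivity)
  obtain ⟨n0, hn0⟩ := h2 R p F hG ρ hρ (ε / 2) (by positivity)
  obtain ⟨m, hm, hgap⟩ := exists_gap hG
  obtain ⟨La, hLa⟩ := h3 R p F α N hG hA
  obtain ⟨Lb, hLb⟩ := h4 R p F α N hG hA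
  obtain ⟨Lc, hLc⟩ := h6 R p F α N hG hA (m / 2) (by positivity)
  refine ⟨max (max (max La Lb) (max Lc 1)) (max (1 / δ0) (2 * (n0 : ℝ))), ?_⟩
  intro L hL R' G hR' hP a ha
  have hL1 : La ≤ L := le_trans (by simp) hL
  have hL2 : Lb ≤ L := le_trans (by simp) hL
  have hL3 : Lc ≤ L := le_trans (by simp) hL
  have hL4 : 1 ≤ L := le_trans (by simp) hL
  have hL5 : 1 / δ0 ≤ L := le_trans (by simp) hL
  have hL6 : 2 * (n0 : ℝ) ≤ L := le_trans (by simp) hL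
  have hLpos : 0 < L := by linarith
  obtain ⟨-, hE2⟩ := hLa L hL1 R' G hR' hP
  have hCRU := hLb L hL2 R' G hR' hP
  have hE1 := hLc L hL3 R' G hR' hP
  have hR1 : 1 < R := hG.1
  have hcG : Continuous (fun θ => G (cm θ)) := cont_comp hP.1 hP.2.2.2.2
  have hcF : Continuous (fun θ => F (cm θ)) := cont_comp hG.1 hG.2.2.1
  have hnG : ∀ θ, ‖G (cm θ)‖ ≤ 1 := by
    intro θ
    have e1 := hE1 (cm θ) (norm_cm θ)
    have e2 := (hA.2.1 θ).2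
    have e3 := hgap (cm θ) (norm_cm θ)
    have e4 : ‖G (cm θ)‖ ≤ ‖F (cm θ)‖ + ‖G (cm θ) - F (cm θ)‖ := by
      have := norm_add_le (F (cm θ)) (G (cm θ) - F (cm θ))
      rwa [add_sub_cancel] at this
    linarith
  have hnF : ∀ θ, ‖F (cm θ)‖ ≤ 1 := fun θ => (hG.2.2.2 _ (norm_cm θ).le).le
  have hSm : MeasurableSet {θ : ℝ | θ ∈ Icc 0 (2 * Real.pi) ∧ Real.cos (nn L * θ) ≤ 0} := by
    have hm1 : MeasurableSet {θ : ℝ | Real.cos (nn L * θ) ≤ 0} :=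
      measurableSet_le (f := fun θ : ℝ => Real.cos (nn L * θ)) (g := fun _ => (0 : ℝ))
        (Real.measurable_cos.comp (measurable_const.mul measurable_id)) measurable_const
    exact measurableSet_Icc.inter hm1
  have hSs : {θ : ℝ | θ ∈ Icc 0 (2 * Real.pi) ∧ Real.cos (nn L * θ) ≤ 0} ⊆
      Icc 0 (2 * Real.pi) := fun θ hθ => hθ.1
  have hδ : (0 : ℝ) < (L ^ 3)⁻¹ := by positivity
  have hδle : (L ^ 3)⁻¹ ≤ δ0 := by
    have e1 : 1 / δ0 ≤ L ^ 3 := by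
      have : L ≤ L ^ 3 := by nlinarith [mul_pos hLpos hLpos, sq_nonneg (L - 1)]
      linarith
    rw [inv_le_comm₀ (by positivity) hδ0]
    simpa using e1
  have hclose : ∀ θ ∈ {θ : ℝ | θ ∈ Icc 0 (2 * Real.pi) ∧ Real.cos (nn L * θ) ≤ 0},
      ‖G (cm θ) - F (cm θ)‖ ≤ (L ^ 3)⁻¹ := by
    intro θ hθ
    apply hE2 (cm θ) (norm_cm θ)
    rw [cm_pow_re]
    exact hθ.2
  have hBlog : Real.log (Real.exp (8 * L)) ≤ 16 * ((L ^ 3)⁻¹ : ℝ) ^ (-(1 / 3 : ℝ)) := by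
    rw [Real.log_exp, rpow_aux hLpos]
    linarith
  have hB1 : 1 ≤ Real.exp (8 * L) := Real.one_le_exp (by positivity)
  have key := hcmp (L ^ 3)⁻¹ hδ hδle (Real.exp (8 * L)) hB1 hBlog (fun θ => G (cm θ))
    (fun θ => F (cm θ)) _ hcG hcF hnG hnF hSm hSs hclose hB0 hCRU a ha
  have key2 := hn0 (nn L) (nn_ge hLpos hL6) a ha
  linarith

end Pool.Agent.H928.IB
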