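import Pool.Agent.H928.IB.Stm

set_option autoImplicit false

open MeasureTheory Set Filter Topology Complex Metric
open scoped ComplexConjugate

namespace Pool.Agent.H928.IB

namespace TR

lemma den_le {a w : ℂ} (ha : ‖a‖ < 1) (hw : ‖w‖ < 1) : ‖1 - conj a * w‖ ≤ 2 := by
  calc ‖1 - conj a * w‖ ≤ ‖(1 : ℂ)‖ + ‖conj a * w‖ := norm_sub_le _ _
    _ = 1 + ‖a‖ * ‖w‖ := by rw [norm_one, norm_mul, RCLike.norm_conj]
    _ ≤ 2 := by nlinarith [norm_nonneg a, norm_nonneg w]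

lemma den_ne {a w : ℂ} (ha : ‖a‖ < 1) (hw : ‖w‖ < 1) : 1 - conj a * w ≠ 0 := by
  intro h
  have h1 : conj a * w = 1 := by linear_combination -h
  have h2 : ‖conj a * w‖ = 1 := by rw [h1]; simp
  rw [norm_mul, RCLike.norm_conj] at h2
  nlinarith [norm_nonneg a, norm_nonneg w]

lemma frac_le {a w : ℂ} (ha : ‖a‖ < 1) (hw : ‖w‖ < 1) : ‖(w - a) / (1 - conj a * w)‖ ≤ 1 := by
  have hne := den_ne ha hw
  rw [norm_div, div_le_one (norm_pos_iff.2 hne)]
  have key : ‖1 - conj a * w‖ ^ 2 - ‖w - a‖ ^ 2 = (1 - ‖a‖ ^ 2) * (1 - ‖w‖ ^ 2) := by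
    rw [← Complex.normSq_eq_norm_sq, ← Complex.normSq_eq_norm_sq, ← Complex.normSq_eq_norm_sq,
      ← Complex.normSq_eq_norm_sq]
    simp only [Complex.normSq_apply, Complex.sub_re, Complex.sub_im, Complex.one_re,
      Complex.one_im, Complex.mul_re, Complex.mul_im, Complex.conj_re, Complex.conj_im]
    ring
  have hp : 0 < (1 - ‖a‖ ^ 2) * (1 - ‖w‖ ^ 2) := by
    apply mul_pos <;> nlinarith [norm_nonneg a, norm_nonneg w]
  nlinarith [norm_nonneg (w - a), norm_nonneg (1 - conj a * w)]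

lemma ell_nonneg {a w : ℂ} (ha : ‖a‖ < 1) (hw : ‖w‖ < 1) : 0 ≤ ell a w := by
  unfold ell
  have := Real.log_nonpos (norm_nonneg _) (frac_le ha hw)
  linarith

lemma ell_le {a w : ℂ} (ha : ‖a‖ < 1) (hw : ‖w‖ < 1) :
    ell a w ≤ 4 * ‖w - a‖ ^ (-(1 / 2 : ℝ)) := by
  unfold ell
  rcases eq_or_ne (w - a) 0 with h | h
  · rw [h]
    simp only [zero_div, norm_zero, Real.log_zero, neg_zero]
    positivity
  · have hx : 0 < ‖w - a‖ := norm_pos_iff.2 h
    have hd : 0 < ‖1 - conj a * w‖ := norm_pos_iff.2 (den_ne ha hw)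
    rw [norm_div, Real.log_div hx.ne' hd.ne']
    have h1 : Real.log ‖1 - conj a * w‖ ≤ Real.log 2 := Real.log_le_log hd (den_le ha hw)
    have h2 : Real.log 2 < 1 := by
      have := Real.log_two_lt_d9
      linarith
    set y := ‖w - a‖ ^ (-(1 / 2 : ℝ)) with hy
    have hy0 : 0 < y := Real.rpow_pos_of_pos hx _
    have h3 : Real.log y = -(1 / 2) * Real.log ‖w - a‖ := Real.log_rpow hx _
    have h4 := Real.log_le_sub_one_of_pos hy0
    linarith

/-- an integral over a set which is covered by finitely many sets -/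
lemma int_cover {f : ℝ → ℝ} {T S : Set ℝ} {ι : Type} (s : Finset ι) (J : ι → Set ℝ)
    (hT : MeasurableSet T) (hS : MeasurableSet S) (hJ : ∀ j ∈ s, MeasurableSet (J j))
    (hf : ∀ x, 0 ≤ f x) (hfi : IntegrableOn f T) (hST : S ⊆ T) (hJT : ∀ j ∈ s, J j ⊆ T)
    (hcov : ∀ x ∈ T, x ∈ S ∨ ∃ j ∈ s, x ∈ J j) :
    ∫ x in T, f x ≤ (∫ x in S, f x) + ∑ j ∈ s, ∫ x in J j, f x := by
  have h1 : Integrable (T.indicator f) := (integrable_indicator_iff hT).2 hfi
  have h2 : Integrable (S.indicator f) := (integrable_indicator_iff hS).2 (hfi.mono_set hST)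
  have h3 : ∀ j ∈ s, Integrable ((J j).indicator f) := fun j hj =>
    (integrable_indicator_iff (hJ j hj)).2 (hfi.mono_set (hJT j hj))
  have e3 : ∑ j ∈ s, ∫ x in J j, f x = ∑ j ∈ s, ∫ x, (J j).indicator f x :=
    Finset.sum_congr rfl fun j hj => (integral_indicator (hJ j hj)).symm
  rw [← integral_indicator hT, ← integral_indicator hS, e3, ← integral_finsetSum s h3,
    ← integral_add h2 (integrable_finsetSum s h3)]
  refine integral_mono h1 (h2.add (integrable_finsetSum s h3)) fun x => ?_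
  have n1 : 0 ≤ S.indicator f x := Set.indicator_nonneg (fun x _ => hf x) x
  have n2 : ∀ j ∈ s, 0 ≤ (J j).indicator f x := fun j _ =>
    Set.indicator_nonneg (fun x _ => hf x) x
  have n3 := Finset.sum_nonneg n2
  show T.indicator f x ≤ S.indicator f x + ∑ j ∈ s, (J j).indicator f x
  by_cases hx : x ∈ T
  · rw [Set.indicator_of_mem hx]
    rcases hcov x hx with h | ⟨j, hj, h⟩
    · rw [Set.indicator_of_mem h]
      linarith
    · have h4 := Finset.single_le_sum n2 hj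
      rw [Set.indicator_of_mem h] at h4
      linarith
  · rw [Set.indicator_of_notMem hx]
    linarith

/-- one half of an arc -/
lemma rnd {n : ℕ} (hn : 0 < n) {θ : ℝ} (hθ : θ ∈ Icc 0 (2 * Real.pi))
    (hc : 0 < Real.cos (n * θ)) :
    ∃ j ∈ Finset.range (n + 1), |θ - 2 * Real.pi * (j : ℕ) / n| < Real.pi / (2 * n) := by
  have hpi := Real.pi_pos
  have hn' : (0 : ℝ) < n := by exact_mod_cast hn
  set x : ℝ := n * θ / (2 * Real.pi) with hx
  have hx0 : 0 ≤ x := by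
    have := hθ.1
    positivity
  have hxn : x ≤ n := by
    rw [hx, div_le_iff₀ (by positivity)]
    exact mul_le_mul_of_nonneg_left hθ.2 hn'.le
  have hr := abs_sub_round x
  set z : ℤ := round x with hz
  rw [abs_le] at hr
  have hz0 : 0 ≤ z := by
    have h1 : (-1 : ℝ) < z := by linarith [hr.2]
    have h2 : (-1 : ℤ) < z := by exact_mod_cast h1
    omega
  obtain ⟨j, hj⟩ : ∃ j : ℕ, (j : ℤ) = z := ⟨z.toNat, Int.toNat_of_nonneg hz0⟩
  have hjz : (z : ℝ) = (j : ℝ) := by rw [← hj]; simp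
  rw [hjz] at hr
  have hjn : j < n + 1 := by
    have h1 : (j : ℝ) < n + 1 := by linarith [hr.1]
    exact_mod_cast h1
  refine ⟨j, Finset.mem_range.2 hjn, ?_⟩
  -- the distance of the angles
  set y : ℝ := n * θ - j * (2 * Real.pi) with hy
  have hyx : y = 2 * Real.pi * (x - j) := by
    rw [hy, hx]
    field_simp
  have hy1 : -Real.pi ≤ y ∧ y ≤ Real.pi := by
    rw [hyx]
    constructor <;> nlinarith [hr.1, hr.2]
  have hcy : 0 < Real.cos y := by
    rw [hy, Real.cos_sub_nat_mul_two_pi]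
    exact hc
  have hy2 : |y| < Real.pi / 2 := by
    by_contra hcon
    rw [not_lt] at hcon
    have h1 : Real.cos |y| ≤ 0 := by
      apply Real.cos_nonpos_of_pi_div_two_le_of_le hcon
      have : |y| ≤ Real.pi := abs_le.2 hy1
      linarith
    rw [Real.cos_abs] at h1
    linarith
  have e : θ - 2 * Real.pi * (j : ℕ) / n = y / n := by
    rw [hy]
    field_simp
  rw [e, abs_div, abs_of_pos hn', div_lt_div_iff₀ hn' (by positivity)]
  nlinarith

lemma nn_large (n0 : ℕ) {L : ℝ} (h1 : 1 ≤ L) (h2 : 2 * (n0 : ℝ) ≤ L) : n0 ≤ nn L ∧ 0 < nn L := by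
  have hL : 0 < L := by linarith
  have h3 := Real.quadratic_le_exp_of_nonneg hL.le
  have h4 : L / 2 ≤ Real.exp L / L := by
    rw [le_div_iff₀ hL]
    nlinarith
  have h5 : Real.exp L / L ≤ (nn L : ℝ) := Nat.le_ceil _
  constructor
  · have : (n0 : ℝ) ≤ (nn L : ℝ) := by linarith
    exact_mod_cast this
  · have : (0 : ℝ) < (nn L : ℝ) := by linarith
    exact_mod_cast this

lemma norm_cm (θ : ℝ) : ‖cm θ‖ = 1 := Complex.norm_exp_ofReal_mul_I θ

lemma F_lt {R : ℝ} {p F : ℂ → ℂ} (hG : Good R p F) : ∃ δ > 0, ∀ z : ℂ, ‖z‖ = 1 → ‖F z‖ ≤ 1 - δ := by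
  obtain ⟨hR, _, hd, hlt⟩ := hG
  have hc : ContinuousOn (fun z => ‖F z‖) (sphere (0 : ℂ) 1) := by
    intro z hz
    have hz' : z ∈ ball (0 : ℂ) R := by
      rw [mem_ball_zero_iff, mem_sphere_zero_iff_norm.1 hz]
      exact hR
    exact (hd z hz').continuousAt.norm.continuousWithinAt
  obtain ⟨z₀, hz₀, hmax⟩ := (isCompact_sphere (0 : ℂ) 1).exists_isMaxOn ⟨1, by simp⟩ hc
  refine ⟨1 - ‖F z₀‖, ?_, fun z hz => ?_⟩
  · have := hlt z₀ (mem_sphere_zero_iff_norm.1 hz₀).le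
    show 0 < 1 - ‖F z₀‖
    linarith
  · have h1 : ‖F z‖ ≤ ‖F z₀‖ := hmax (mem_sphere_zero_iff_norm.2 hz)
    linarith

lemma arc_bound {γ : ℝ → ℂ} {t w B : ℝ} (hw : 0 ≤ w) (h1 : HB γ t (t + w) B)
    (h2 : HB γ (t - w) t B) (a : ℂ) :
    IntegrableOn (fun θ => ‖γ θ - a‖ ^ (-(1 / 2 : ℝ))) (Icc (t - w) (t + w)) ∧
      ∫ θ in Icc (t - w) (t + w), ‖γ θ - a‖ ^ (-(1 / 2 : ℝ)) ≤ 2 * B := by
  obtain ⟨_, i1, j1⟩ := h1 a
  obtain ⟨_, i2, j2⟩ := h2 a
  have hle : t - w ≤ t + w := by linarith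
  refine ⟨(intervalIntegrable_iff_integrableOn_Icc_of_le hle).1 (i2.trans i1), ?_⟩
  rw [integral_Icc_eq_integral_Ioc, ← intervalIntegral.integral_of_le hle,
    ← intervalIntegral.integral_add_adjacent_intervals i2 i1]
  linarith

/-- the measure of the rest -/
lemma rest_small {n : ℕ} (hn : 0 < n) {L w : ℝ}
    (hw : w = (Real.pi / 2 - Real.exp (-L)) / n) (S : Set ℝ)
    (hS : ∀ θ ∈ S, θ ∈ Icc 0 (2 * Real.pi) ∧ 0 < Real.cos (n * θ))
    (hS' : ∀ θ ∈ S, ∀ j ∈ Finset.range (n + 1),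
      θ ∉ Icc (2 * Real.pi * (j : ℕ) / n - w) (2 * Real.pi * (j : ℕ) / n + w)) :
    volume S ≤ ENNReal.ofReal (4 * Real.exp (-L)) := by
  have hn' : (0 : ℝ) < n := by exact_mod_cast hn
  have hn1 : (1 : ℝ) ≤ n := by exact_mod_cast hn
  have he := Real.exp_pos (-L)
  set e : ℝ := Real.exp (-L) / n with hed
  have hwe : Real.pi / (2 * n) = w + e := by
    rw [hw, hed]
    field_simp
    ring
  have hcov : S ⊆ ⋃ j ∈ Finset.range (n + 1),
      (Ioo (2 * Real.pi * (j : ℕ) / n + w) (2 * Real.pi * (j : ℕ) / n + w + e) ∪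
        Ioo (2 * Real.pi * (j : ℕ) / n - w - e) (2 * Real.pi * (j : ℕ) / n - w)) := by
    intro θ hθ
    obtain ⟨j, hj, hjd⟩ := rnd hn (hS θ hθ).1 (hS θ hθ).2
    have h2 := hS' θ hθ j hj
    rw [abs_lt, hwe] at hjd
    rw [Set.mem_iUnion₂]
    refine ⟨j, hj, ?_⟩
    by_cases h3 : θ < 2 * Real.pi * (j : ℕ) / n - w
    · right
      exact ⟨by linarith [hjd.1], h3⟩
    · left
      rw [not_lt] at h3
      refine ⟨?_, by linarith [hjd.2]⟩
      by_contra h4
      rw [not_lt] at h4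
      exact h2 ⟨h3, h4⟩
  refine (measure_mono hcov).trans ((measure_biUnion_finset_le _ _).trans ?_)
  have hb : ∀ j ∈ Finset.range (n + 1),
      volume (Ioo (2 * Real.pi * (j : ℕ) / n + w) (2 * Real.pi * (j : ℕ) / n + w + e) ∪
        Ioo (2 * Real.pi * (j : ℕ) / n - w - e) (2 * Real.pi * (j : ℕ) / n - w)) ≤
      ENNReal.ofReal (2 * e) := by
    intro j _
    refine (measure_union_le _ _).trans ?_
    rw [Real.volume_Ioo, Real.volume_Ioo, ← ENNReal.ofReal_add (by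
      have : 0 ≤ e := by positivity
      linarith) (by
      have : 0 ≤ e := by positivity
      linarith)]
    apply ENNReal.ofReal_le_ofReal
    linarith
  refine (Finset.sum_le_sum hb).trans ?_
  rw [Finset.sum_const, Finset.card_range, nsmul_eq_mul]
  have h5 : ((n + 1 : ℕ) : ENNReal) = ENNReal.ofReal ((n : ℝ) + 1) := by
    rw [← ENNReal.ofReal_natCast]
    push_cast
    rfl
  rw [h5, ← ENNReal.ofReal_mul (by positivity)]
  apply ENNReal.ofReal_le_ofReal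
  rw [hed]
  have h6 : ((n : ℝ) + 1) * (2 * (Real.exp (-L) / n)) = 2 * Real.exp (-L) * (((n : ℝ) + 1) / n) := by
    ring
  rw [h6]
  have h7 : ((n : ℝ) + 1) / n ≤ 2 := by
    rw [div_le_iff₀ hn']
    linarith
  nlinarith

lemma sig_nonneg (F : ℂ → ℂ) : 0 ≤ sig F := by
  unfold sig
  apply intervalIntegral.integral_nonneg (by positivity)
  intro θ _
  positivity

lemma amp_bd {x η : ℝ} (hη : 0 < η) (h : η / 40 ≤ Real.exp x) :
    Real.exp (-x / 2) ≤ 7 * η ^ (-(1 / 2 : ℝ)) := by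
  have hy0 : 0 < η ^ (-(1 / 2 : ℝ)) := Real.rpow_pos_of_pos hη _
  have hy2 : (η ^ (-(1 / 2 : ℝ))) ^ 2 = η⁻¹ := by
    rw [← Real.rpow_natCast, ← Real.rpow_mul hη.le, ← Real.rpow_neg_one]
    norm_num
  have hx2 : Real.exp (-x / 2) ^ 2 = (Real.exp x)⁻¹ := by
    rw [← Real.exp_nat_mul, ← Real.exp_neg]
    congr 1
    push_cast
    ring
  have h3 : (Real.exp x)⁻¹ ≤ 40 * η⁻¹ := by
    have h4 := inv_anti₀ (by positivity) h
    rw [inv_div, div_eq_mul_inv] at h4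
    exact h4
  have h5 : Real.exp (-x / 2) ^ 2 ≤ (7 * η ^ (-(1 / 2 : ℝ))) ^ 2 := by
    rw [hx2, mul_pow, hy2]
    have : 0 < η⁻¹ := inv_pos.2 hη
    nlinarith
  exact (pow_le_pow_iff_left₀ (Real.exp_pos _).le (by positivity) (by norm_num)).1 h5

end TR

theorem tr (h1 : S_KB) (h2 : S_E1) (h3 : S_SM) (h4 : S_TRA) (h5 : S_CNT) : S_TR := by
  refine ⟨10 ^ 6, by norm_num, ?_⟩
  intro R p F α N hG hA ρ η hρ0 hρ1 hη hηρ ε hε
  obtain ⟨δ, hδ, hFδ⟩ := TR.F_lt hG
  obtain ⟨L1, hL1⟩ := h1 R p F α N hG hA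
  obtain ⟨L2, hL2⟩ := h2 R p F α N hG hA (δ / 4) (by positivity)
  obtain ⟨L3, hL3⟩ := h3 R p F α N hG hA ε hε
  obtain ⟨L4, hL4⟩ := h4 R p F α N hG hA ρ η hρ0 hρ1 hη hηρ
  obtain ⟨n0, hn0⟩ := h5 R p F hG η hη
  refine ⟨max (max L1 L2) (max (max L3 L4) (max 1 (2 * (n0 : ℝ)))), fun L hL R' G hR' hP a ha => ?_⟩
  have l1 : L1 ≤ L := ((le_max_left _ _).trans (le_max_left _ _)).trans hL
  have l2 : L2 ≤ L := ((le_max_right _ _).trans (le_max_left _ _)).trans hL
  have l3 : L3 ≤ L := (((le_max_left _ _).trans (le_max_left _ _)).trans (le_max_right _ _)).trans hL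
  have l4 : L4 ≤ L := (((le_max_right _ _).trans (le_max_left _ _)).trans (le_max_right _ _)).trans hL
  have l5 : 1 ≤ L := (((le_max_left _ _).trans (le_max_right _ _)).trans (le_max_right _ _)).trans hL
  have l6 : 2 * (n0 : ℝ) ≤ L :=
    (((le_max_right _ _).trans (le_max_right _ _)).trans (le_max_right _ _)).trans hL
  obtain ⟨_, hKB⟩ := hL1 L l1 R' G hR' hP
  have hE1 := hL2 L l2 R' G hR' hP
  have hSM := hL3 L l3 R' G hR' hP
  have hTRA := hL4 L l4 R' G hR' hP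
  beta_reduce at hE1 hSM hTRA
  obtain ⟨hnn, hnpos⟩ := TR.nn_large n0 l5 l6
  have hcnt := hn0 (nn L) hnn
  have hsig := TR.sig_nonneg F
  have ha1 : ‖a‖ < 1 := by linarith
  have hpi := Real.pi_pos
  have hpi4 : Real.pi ≤ 4 := Real.pi_le_four
  have hpi3 := Real.pi_gt_three
  have h1ρ : 0 < 1 - ρ := by linarith
  -- `G` on the circle
  have hGlt : ∀ θ : ℝ, ‖G (cm θ)‖ < 1 := by
    intro θ
    have k1 := hE1 (cm θ) (TR.norm_cm θ)
    have k2 := (hA.2.1 θ).2
    have k3 := hFδ (cm θ) (TR.norm_cm θ)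
    have k4 : ‖G (cm θ)‖ ≤ ‖F (cm θ)‖ + ‖G (cm θ) - F (cm θ)‖ := by
      have := norm_add_le (F (cm θ)) (G (cm θ) - F (cm θ))
      rwa [add_sub_cancel] at this
    linarith
  have hf0 : ∀ θ : ℝ, 0 ≤ ell a (G (cm θ)) := fun θ => TR.ell_nonneg ha1 (hGlt θ)
  have hf1 : ∀ θ : ℝ, ell a (G (cm θ)) ≤ 4 * ‖G (cm θ) - a‖ ^ (-(1 / 2 : ℝ)) :=
    fun θ => TR.ell_le ha1 (hGlt θ)
  generalize hn : nn L = n at *
  have hn' : (0 : ℝ) < n := by exact_mod_cast hnpos
  have hn1 : (1 : ℝ) ≤ n := by exact_mod_cast hnpos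
  set w : ℝ := (Real.pi / 2 - Real.exp (-L)) / n with hw
  have hexp1 : Real.exp (-L) ≤ 1 := Real.exp_le_one_iff.2 (by linarith)
  have hw0 : 0 ≤ w := by
    rw [hw]
    apply div_nonneg _ hn'.le
    linarith
  have hw1 : 2 * w ≤ Real.pi / n := by
    rw [hw, ← mul_div_assoc]
    apply div_le_div_of_nonneg_right _ hn'.le
    have := Real.exp_pos (-L)
    linarith
  set f : ℝ → ℝ := fun θ => ell a (G (cm θ)) with hf
  set T : Set ℝ := {θ : ℝ | θ ∈ Icc 0 (2 * Real.pi) ∧ 0 < Real.cos (n * θ)} with hT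
  have hTm : MeasurableSet T := by
    have h6 : MeasurableSet {θ : ℝ | 0 < Real.cos (n * θ)} :=
      (isOpen_lt continuous_const (by fun_prop)).measurableSet
    exact measurableSet_Icc.inter h6
  set J : ℕ → Set ℝ := fun j => Icc (2 * Real.pi * (j : ℕ) / n - w) (2 * Real.pi * (j : ℕ) / n + w)
    with hJ
  have hJm : ∀ j, MeasurableSet (J j) := fun j => measurableSet_Icc
  have hη52 : 0 < η ^ (-(5 / 2 : ℝ)) := Real.rpow_pos_of_pos hη _
  have hη12 : 0 < η ^ (-(1 / 2 : ℝ)) := Real.rpow_pos_of_pos hη _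
  by_cases hfi : IntegrableOn f T
  swap
  · rw [integral_undef hfi]
    positivity
  set S : Set ℝ := T \ ⋃ j ∈ Finset.range (n + 1), J j with hS
  have hSm : MeasurableSet S :=
    hTm.diff (Finset.measurableSet_biUnion _ fun j _ => hJm j)
  have hcov := TR.int_cover (f := f) (T := T) (S := S) (Finset.range (n + 1)) (fun j => T ∩ J j)
    hTm hSm (fun j _ => hTm.inter (hJm j)) hf0 hfi Set.sdiff_subset
    (fun j _ => Set.inter_subset_left) (fun x hx => by
      by_cases h6 : x ∈ ⋃ j ∈ Finset.range (n + 1), J j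
      · right
        rw [Set.mem_iUnion₂] at h6
        obtain ⟨j, hj, hxj⟩ := h6
        exact ⟨j, hj, hx, hxj⟩
      · left
        exact ⟨hx, h6⟩)
  have hSvol : volume S ≤ ENNReal.ofReal (4 * Real.exp (-L)) := by
    apply TR.rest_small hnpos hw S
    · intro θ hθ
      exact hθ.1
    · intro θ hθ j hj h6
      apply hθ.2
      rw [Set.mem_iUnion₂]
      exact ⟨j, hj, h6⟩
  have hSint : ∫ θ in S, f θ ≤ ε :=
    hSM S hSm (fun θ hθ => hθ.1.1) hSvol a ha1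
  -- the arcs
  have hdeep : ∀ j : ℕ, η ≤ 1 - ‖F (cm (2 * Real.pi * j / n))‖ →
      ∫ θ in T ∩ J j, f θ ≤ 56000 * η ^ (-(1 / 2 : ℝ)) / n := by
    intro j hj
    obtain ⟨k1, k2⟩ := hKB (j : ℤ)
    rw [Int.cast_natCast] at k1 k2
    obtain ⟨i1, i2⟩ := TR.arc_bound hw0 k1 k2 a
    have k3 := (hA.2.1 (2 * Real.pi * j / n)).1
    have k4 := TR.amp_bd hη ((div_le_div_of_nonneg_right hj (by norm_num)).trans k3)
    have k5 : ∫ θ in T ∩ J j, f θ ≤ ∫ θ in T ∩ J j, 4 * ‖G (cm θ) - a‖ ^ (-(1 / 2 : ℝ)) := by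
      apply setIntegral_mono_on (hfi.mono_set Set.inter_subset_left)
        ((i1.mono_set Set.inter_subset_right).const_mul 4) (hTm.inter (hJm j))
      intro θ _
      exact hf1 θ
    have k6 : ∫ θ in T ∩ J j, 4 * ‖G (cm θ) - a‖ ^ (-(1 / 2 : ℝ)) ≤
        ∫ θ in J j, 4 * ‖G (cm θ) - a‖ ^ (-(1 / 2 : ℝ)) := by
      apply setIntegral_mono_set (i1.const_mul 4)
      · refine Filter.Eventually.of_forall fun θ => ?_
        show 0 ≤ 4 * ‖G (cm θ) - a‖ ^ (-(1 / 2 : ℝ))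
        positivity
      · exact (Set.inter_subset_right).eventuallyLE
    have k7 : ∫ θ in J j, 4 * ‖G (cm θ) - a‖ ^ (-(1 / 2 : ℝ)) ≤
        4 * (2 * (1000 / n * Real.exp (-(α (cm (2 * Real.pi * j / n))).re / 2))) := by
      rw [integral_const_mul]
      exact mul_le_mul_of_nonneg_left i2 (by norm_num)
    have k8 : 1000 / (n : ℝ) * Real.exp (-(α (cm (2 * Real.pi * j / n))).re / 2) ≤
        1000 / (n : ℝ) * (7 * η ^ (-(1 / 2 : ℝ))) :=
      mul_le_mul_of_nonneg_left k4 (by positivity)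
    have k9 : 4 * (2 * (1000 / (n : ℝ) * (7 * η ^ (-(1 / 2 : ℝ))))) =
        56000 * η ^ (-(1 / 2 : ℝ)) / n := by ring
    linarith
  have hshal : ∀ j : ℕ, ¬ (η ≤ 1 - ‖F (cm (2 * Real.pi * j / n))‖) →
      ∫ θ in T ∩ J j, f θ ≤ 8 * η / (1 - ρ) * (Real.pi / n) := by
    intro j hj
    rw [not_le] at hj
    have k1 := hTRA (j : ℤ) a ha
    rw [Int.cast_natCast] at k1
    have k2 := k1 hj
    have hwpi : w ≤ Real.pi / (2 * n) := by
      rw [hw, ← div_div]
      apply div_le_div_of_nonneg_right _ hn'.le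
      have := Real.exp_pos (-L)
      linarith
    have hvol : volume (T ∩ J j) ≤ ENNReal.ofReal (2 * w) := by
      refine (measure_mono Set.inter_subset_right).trans ?_
      rw [hJ, Real.volume_Icc]
      apply ENNReal.ofReal_le_ofReal
      linarith
    have k3 := norm_setIntegral_le_of_norm_le_const (μ := volume) (s := T ∩ J j) (f := f)
      (C := 8 * η / (1 - ρ)) (lt_of_le_of_lt hvol ENNReal.ofReal_lt_top) (by
        intro θ hθ
        rw [Real.norm_of_nonneg (hf0 θ)]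
        apply k2 θ
        have h6 := hθ.2
        rw [abs_le]
        constructor
        · linarith [h6.1]
        · linarith [h6.2])
    have k4 : volume.real (T ∩ J j) ≤ Real.pi / n := by
      rw [Measure.real]
      refine (ENNReal.toReal_le_of_le_ofReal (by positivity) hvol).trans hw1
    have k5 : 0 ≤ 8 * η / (1 - ρ) := by positivity
    calc ∫ θ in T ∩ J j, f θ ≤ ‖∫ θ in T ∩ J j, f θ‖ := Real.le_norm_self _
      _ ≤ 8 * η / (1 - ρ) * volume.real (T ∩ J j) := k3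
      _ ≤ 8 * η / (1 - ρ) * (Real.pi / n) := mul_le_mul_of_nonneg_left k4 k5
  have hsum : ∑ j ∈ Finset.range (n + 1), ∫ θ in T ∩ J j, f θ ≤
      n * (4 * sig F / η ^ 2) * (56000 * η ^ (-(1 / 2 : ℝ)) / n) +
        (n + 1) * (8 * η / (1 - ρ) * (Real.pi / n)) := by
    have m1 : ∀ j ∈ Finset.range (n + 1), ∫ θ in T ∩ J j, f θ ≤
        (if η ≤ 1 - ‖F (cm (2 * Real.pi * j / n))‖ then 56000 * η ^ (-(1 / 2 : ℝ)) / n else 0) +
          8 * η / (1 - ρ) * (Real.pi / n) := by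
      intro j _
      split_ifs with hj
      · have := hdeep j hj
        have k5 : 0 ≤ 8 * η / (1 - ρ) * (Real.pi / n) := by positivity
        linarith
      · have := hshal j hj
        linarith
    refine (Finset.sum_le_sum m1).trans ?_
    rw [Finset.sum_add_distrib, ← Finset.sum_filter, Finset.sum_const, Finset.sum_const,
      Finset.card_range, nsmul_eq_mul, nsmul_eq_mul]
    push_cast
    have k5 : 0 ≤ 56000 * η ^ (-(1 / 2 : ℝ)) / n := by positivity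
    have k6 := mul_le_mul_of_nonneg_right hcnt k5
    linarith
  have e1 : (n : ℝ) * (4 * sig F / η ^ 2) * (56000 * η ^ (-(1 / 2 : ℝ)) / n) =
      224000 * sig F * η ^ (-(5 / 2 : ℝ)) := by
    have h6 : η ^ (-(5 / 2 : ℝ)) = η ^ (-(1 / 2 : ℝ)) / η ^ 2 := by
      rw [← Real.rpow_natCast η 2, ← Real.rpow_sub hη]
      norm_num
    rw [h6]
    field_simp
    ring
  have e2 : ((n : ℝ) + 1) * (8 * η / (1 - ρ) * (Real.pi / n)) ≤ 10 ^ 6 * η / (1 - ρ) := by
    have h6 : ((n : ℝ) + 1) * (8 * η / (1 - ρ) * (Real.pi / n)) =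
        (8 * Real.pi * (((n : ℝ) + 1) / n)) * (η / (1 - ρ)) := by ring
    have h7 : ((n : ℝ) + 1) / n ≤ 2 := by
      rw [div_le_iff₀ hn']
      linarith
    have h8 : 8 * Real.pi * (((n : ℝ) + 1) / n) ≤ 10 ^ 6 := by
      have : 0 ≤ ((n : ℝ) + 1) / n := by positivity
      nlinarith
    rw [h6, mul_div_assoc]
    exact mul_le_mul_of_nonneg_right h8 (by positivity)
  have e3 : 224000 * sig F * η ^ (-(5 / 2 : ℝ)) ≤ 10 ^ 6 * sig F * η ^ (-(5 / 2 : ℝ)) := by
    apply mul_le_mul_of_nonneg_right _ hη52.le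
    nlinarith
  rw [e1] at hsum
  linarith

end Pool.Agent.H928.IB
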