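import Pool.Agent.H928.IB.Stm

/-!
Project IB (helper928), problem MP_6cbd4a_an: part `S_TRA` (cells where `|F|` is close to `1`), by
helper947.
-/

set_option autoImplicit false

open MeasureTheory Set Filter Topology Complex Metric
open scoped ComplexConjugate

namespace Pool.Agent.H928.IB

namespace TRA

theorem norm_cm (θ : ℝ) : ‖cm θ‖ = 1 := by
  rw [cm, Complex.norm_exp_ofReal_mul_I]

theorem cm_sub (s t : ℝ) : ‖cm s - cm t‖ ≤ |s - t| := by
  have e : cm s - cm t = cm t * (exp (I * ((s - t : ℝ) : ℂ)) - 1) := by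
    rw [cm, cm, mul_sub, ← Complex.exp_add, mul_one]
    congr 2
    push_cast
    ring
  rw [e, norm_mul, norm_cm, one_mul]
  exact Real.norm_exp_I_mul_ofReal_sub_one_le

theorem key (a w : ℂ) :
    ‖1 - conj a * w‖ ^ 2 - ‖w - a‖ ^ 2 = (1 - ‖a‖ ^ 2) * (1 - ‖w‖ ^ 2) := by
  rw [← Complex.normSq_eq_norm_sq, ← Complex.normSq_eq_norm_sq, ← Complex.normSq_eq_norm_sq,
    ← Complex.normSq_eq_norm_sq]
  simp only [Complex.normSq_apply, Complex.sub_re, Complex.sub_im, Complex.one_re,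
    Complex.one_im, Complex.mul_re, Complex.mul_im, Complex.conj_re, Complex.conj_im]
  ring

theorem ell_le (a w : ℂ) (ρ η : ℝ) (ha : ‖a‖ ≤ ρ) (hρ : ρ < 1) (hη : 0 < η)
    (h32 : 32 * η ≤ 1 - ρ) (hw : ‖w‖ < 1) (hw2 : 1 - ‖w‖ ≤ 2 * η) :
    ell a w ≤ 8 * η / (1 - ρ) := by
  have ha1 : ‖a‖ < 1 := ha.trans_lt hρ
  have hr : 0 < 1 - ρ := by linarith
  set y : ℝ := 8 * η / (1 - ρ) with hy
  have hy0 : 0 < y := by positivity
  have hy4 : y ≤ 1 / 4 := by
    rw [hy, div_le_iff₀ hr]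
    linarith
  -- lower bound of the denominator
  have hd : 1 - ‖a‖ ≤ ‖1 - conj a * w‖ := by
    have h1 : ‖conj a * w‖ ≤ ‖a‖ := by
      rw [norm_mul, RCLike.norm_conj]
      exact mul_le_of_le_one_right (norm_nonneg _) hw.le
    have h2 := norm_sub_norm_le (1 : ℂ) (conj a * w)
    rw [norm_one] at h2
    linarith
  have hd0 : 0 < ‖1 - conj a * w‖ := lt_of_lt_of_le (by linarith) hd
  set T : ℝ := ‖(w - a) / (1 - conj a * w)‖ with hT
  have hT2 : 1 - y ≤ T ^ 2 := by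
    rw [hT, norm_div, div_pow, le_div_iff₀ (by positivity)]
    have k := key a w
    have h3 : (1 - ‖a‖ ^ 2) * (1 - ‖w‖ ^ 2) ≤ y * ‖1 - conj a * w‖ ^ 2 := by
      have h4 : (1 - ‖a‖) ^ 2 ≤ ‖1 - conj a * w‖ ^ 2 :=
        pow_le_pow_left₀ (by linarith) hd 2
      have h5 : y * (1 - ‖a‖) ^ 2 ≤ y * ‖1 - conj a * w‖ ^ 2 :=
        mul_le_mul_of_nonneg_left h4 hy0.le
      refine le_trans ?_ h5
      have h6 : y * (1 - ρ) = 8 * η := by
        rw [hy, div_mul_cancel₀ _ hr.ne']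
      have h7 : 8 * η ≤ y * (1 - ‖a‖) := by
        rw [← h6]
        exact mul_le_mul_of_nonneg_left (by linarith) hy0.le
      have h8 : 1 - ‖w‖ ^ 2 ≤ 4 * η := by
        nlinarith [norm_nonneg w]
      have h9 : 0 ≤ 1 - ‖w‖ ^ 2 := by nlinarith [norm_nonneg w]
      calc (1 - ‖a‖ ^ 2) * (1 - ‖w‖ ^ 2) ≤ (1 - ‖a‖ ^ 2) * (4 * η) :=
            mul_le_mul_of_nonneg_left h8 (by nlinarith [norm_nonneg a])
        _ ≤ (2 * (1 - ‖a‖)) * (4 * η) :=
            mul_le_mul_of_nonneg_right (by nlinarith [norm_nonneg a]) (by positivity)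
        _ = (1 - ‖a‖) * (8 * η) := by ring
        _ ≤ (1 - ‖a‖) * (y * (1 - ‖a‖)) := mul_le_mul_of_nonneg_left h7 (by linarith)
        _ = y * (1 - ‖a‖) ^ 2 := by ring
    linarith
  have hT3 : 0 < T ^ 2 := lt_of_lt_of_le (by linarith) hT2
  have hl : 1 - (T ^ 2)⁻¹ ≤ Real.log (T ^ 2) := Real.one_sub_inv_le_log_of_pos hT3
  rw [Real.log_pow] at hl
  have hi : (T ^ 2)⁻¹ ≤ 1 + 2 * y := by
    have : (T ^ 2)⁻¹ ≤ (1 - y)⁻¹ := inv_anti₀ (by linarith) hT2
    refine this.trans ?_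
    rw [inv_le_iff_one_le_mul₀ (by linarith)]
    nlinarith
  unfold ell
  push_cast at hl
  linarith

theorem nn_lower {L : ℝ} (hL : 0 < L) : L / 2 ≤ (nn L : ℝ) := by
  have h1 : Real.exp L / L ≤ (nn L : ℝ) := Nat.le_ceil _
  have h2 : 1 + L + L ^ 2 / 2 ≤ Real.exp L := Real.quadratic_le_exp_of_nonneg hL.le
  refine le_trans ?_ h1
  rw [le_div_iff₀ hL]
  nlinarith

end TRA

open TRA in
/-- Part P15b. -/
theorem tra (h : S_E1) : S_TRA := by
  intro R p F α N hG hA ρ η hρ0 hρ1 hη h32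
  obtain ⟨hR, hp, hF, hF1⟩ := hG
  obtain ⟨hα, hamp, hN, hN2⟩ := hA
  have hcont : ContinuousOn F (closedBall 0 1) := by
    intro z hz
    have hz1 : ‖z‖ ≤ 1 := by simpa using hz
    exact (hF z (by simpa using lt_of_le_of_lt hz1 hR)).continuousAt.continuousWithinAt
  have hcomp : IsCompact (closedBall (0 : ℂ) 1) := isCompact_closedBall 0 1
  -- the minimum of `1 - |F|`
  obtain ⟨m, hm0, hm⟩ : ∃ m : ℝ, 0 < m ∧ ∀ z : ℂ, ‖z‖ ≤ 1 → m ≤ 1 - ‖F z‖ := by
    obtain ⟨z0, hz0, hmin⟩ := hcomp.exists_isMinOn ⟨0, by simp⟩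
      (continuousOn_const.sub hcont.norm : ContinuousOn (fun z => (1 : ℝ) - ‖F z‖) _)
    refine ⟨1 - ‖F z0‖, ?_, fun z hz => hmin (by simpa using hz)⟩
    have := hF1 z0 (by simpa using hz0)
    linarith
  -- uniform continuity
  have huc := hcomp.uniformContinuousOn_of_continuous hcont
  rw [Metric.uniformContinuousOn_iff] at huc
  obtain ⟨δ, hδ, huc⟩ := huc (η / 8) (by positivity)
  set ε : ℝ := min (η / 16) (m / 4) with hε
  have hε0 : 0 < ε := lt_min (by positivity) (by positivity)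
  obtain ⟨L0, hL0⟩ := h R p F α N ⟨hR, hp, hF, hF1⟩ ⟨hα, hamp, hN, hN2⟩ ε hε0
  refine ⟨max L0 (max 1 (2 * Real.pi / δ)), fun L hL R' G hR' hPr j a ha hj θ hθ => ?_⟩
  have hLL : L0 ≤ L := (le_max_left _ _).trans hL
  have hL1 : 1 ≤ L := ((le_max_left _ _).trans (le_max_right _ _)).trans hL
  have hL2 : 2 * Real.pi / δ ≤ L := ((le_max_right _ _).trans (le_max_right _ _)).trans hL
  have hE := hL0 L hLL R' G hR' hPr (cm θ) (norm_cm θ)
  have hn := nn_lower (L := L) (by linarith)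
  have hn0 : (0 : ℝ) < nn L := by linarith
  have hpi := Real.pi_pos
  have hdist : dist (cm θ) (cm (2 * Real.pi * j / nn L)) < δ := by
    rw [dist_eq_norm]
    refine ((cm_sub _ _).trans hθ).trans_lt ?_
    rw [div_le_iff₀ hδ] at hL2
    rw [div_lt_iff₀ (by positivity)]
    nlinarith
  have hFF := huc (cm θ) (by simp [norm_cm]) _ (by simp [norm_cm]) hdist
  rw [dist_eq_norm] at hFF
  have hFn : ‖F (cm (2 * Real.pi * j / nn L))‖ ≤ ‖F (cm θ)‖ + η / 8 := by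
    have := norm_sub_norm_le (F (cm (2 * Real.pi * j / nn L))) (F (cm θ))
    rw [norm_sub_rev] at this
    linarith
  have hmθ := hm (cm θ) (norm_cm θ).le
  have hampθ := (hamp θ).2
  have hε1 : ε ≤ η / 16 := min_le_left _ _
  have hε2 : ε ≤ m / 4 := min_le_right _ _
  have hG1 : ‖G (cm θ)‖ ≤ ‖F (cm θ)‖ + ‖G (cm θ) - F (cm θ)‖ := by
    have := norm_add_le (F (cm θ)) (G (cm θ) - F (cm θ))
    rwa [add_sub_cancel] at this
  have hG2 : ‖F (cm θ)‖ ≤ ‖G (cm θ)‖ + ‖G (cm θ) - F (cm θ)‖ := by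
    have := norm_sub_norm_le (F (cm θ)) (G (cm θ))
    rw [norm_sub_rev] at this
    linarith
  refine ell_le a (G (cm θ)) ρ η ha hρ1 hη h32 ?_ ?_
  · linarith
  · linarith

end Pool.Agent.H928.IB
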