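import Pool.Agent.H928.IB.Stm

/-!
# Properties of `(4/π) arctan` on the disc
-/

set_option autoImplicit false

open Complex

namespace Pool.Agent.H928.IB

namespace U

/-- the Moebius map -/
noncomputable def mo (s : ℂ) : ℂ := (1 + I * s) / (1 - I * s)

theorem den_ne {s : ℂ} (hs : ‖s‖ < 1) : 1 - I * s ≠ 0 := by
  intro h
  have h1 : I * s = 1 := by linear_combination -h
  have h2 := congrArg norm h1
  rw [norm_mul, Complex.norm_I, one_mul, norm_one] at h2
  linarith

theorem num_ne {s : ℂ} (hs : ‖s‖ < 1) : 1 + I * s ≠ 0 := by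
  intro h
  have h1 : I * s = -1 := by linear_combination h
  have h2 := congrArg norm h1
  rw [norm_mul, Complex.norm_I, one_mul, norm_neg, norm_one] at h2
  linarith

theorem mo_re (s : ℂ) : (mo s).re = (1 - ‖s‖ ^ 2) / normSq (1 - I * s) := by
  rw [mo, Complex.div_re, ← add_div, Complex.sq_norm, Complex.normSq_apply s]
  congr 1
  simp only [add_re, one_re, mul_re, I_re, I_im, sub_re, add_im, one_im, mul_im, sub_im]
  ring

theorem mo_im (s : ℂ) : (mo s).im = 2 * s.re / normSq (1 - I * s) := by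
  rw [mo, Complex.div_im, ← sub_div]
  congr 1
  simp only [add_re, one_re, mul_re, I_re, I_im, sub_re, add_im, one_im, mul_im, sub_im]
  ring

theorem mo_re_pos {s : ℂ} (hs : ‖s‖ < 1) : 0 < (mo s).re := by
  rw [mo_re]
  have h1 : 0 < normSq (1 - I * s) := Complex.normSq_pos.2 (den_ne hs)
  have h2 : ‖s‖ ^ 2 < 1 := by nlinarith [norm_nonneg s]
  exact div_pos (by linarith) h1

theorem arg_mo {s : ℂ} (hs : ‖s‖ < 1) :
    (mo s).arg = Real.arctan (2 * s.re / (1 - ‖s‖ ^ 2)) := by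
  have h1 : 0 < normSq (1 - I * s) := Complex.normSq_pos.2 (den_ne hs)
  have h2 : ‖s‖ ^ 2 < 1 := by nlinarith [norm_nonneg s]
  have h3 : (mo s).im / (mo s).re = 2 * s.re / (1 - ‖s‖ ^ 2) := by
    rw [mo_re, mo_im]
    have h4 : (1 - ‖s‖ ^ 2) ≠ 0 := by linarith
    have h5 := h1.ne'
    field_simp
  rw [← h3, ← Complex.tan_arg]
  have h4 := Complex.abs_arg_lt_pi_div_two_iff.2 (Or.inl (mo_re_pos hs))
  rw [abs_lt] at h4
  rw [Real.arctan_tan h4.1 h4.2]

theorem uu_re {s : ℂ} (hs : ‖s‖ < 1) :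
    (uu s).re = 2 / Real.pi * Real.arctan (2 * s.re / (1 - ‖s‖ ^ 2)) := by
  rw [← arg_mo hs, uu, ← mo]
  have h1 : -(2 * I / (Real.pi : ℂ)) * log (mo s) =
      ((2 / Real.pi : ℝ) : ℂ) * (-I * log (mo s)) := by
    push_cast
    ring
  rw [h1, Complex.re_ofReal_mul]
  congr 1
  simp [Complex.log_im]

theorem arctan_le {t : ℝ} (ht : 0 < t) : Real.arctan t ≤ t := by
  have h1 := Real.lt_tan (Real.arctan_pos.2 ht) (Real.arctan_lt_pi_div_two t)
  rw [Real.tan_arctan] at h1
  exact h1.le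

theorem arctan_bound {r : ℝ} (h0 : 0 ≤ r) (h1 : r ≤ 1) :
    Real.arctan r ≤ Real.pi / 8 * (1 + r) := by
  have hmono : MonotoneOn (fun x : ℝ => Real.arctan x - Real.pi / 8 * (1 + x)) (Set.Icc 0 1) := by
    refine monotoneOn_of_deriv_nonneg (convex_Icc 0 1) ?_ ?_ ?_
    · exact (by fun_prop : Continuous fun x : ℝ =>
        Real.arctan x - Real.pi / 8 * (1 + x)).continuousOn
    · intro x _
      exact (DifferentiableAt.sub (Real.differentiableAt_arctan x)
        (by fun_prop)).differentiableWithinAt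
    · intro x hx
      rw [interior_Icc] at hx
      have hd : HasDerivAt (fun x : ℝ => Real.arctan x - Real.pi / 8 * (1 + x))
          (1 / (1 + x ^ 2) - Real.pi / 8 * 1) x := by
        refine HasDerivAt.fun_sub (Real.hasDerivAt_arctan x) ?_
        exact ((hasDerivAt_id x).const_add 1).const_mul (Real.pi / 8)
      rw [hd.deriv]
      have h2 : 1 / 2 ≤ 1 / (1 + x ^ 2) := by
        apply one_div_le_one_div_of_le (by positivity)
        nlinarith [hx.1, hx.2]
      have h3 := Real.pi_lt_four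
      linarith
  have h2 := hmono ⟨h0, h1⟩ ⟨zero_le_one, le_rfl⟩ h1
  simp only at h2
  rw [Real.arctan_one] at h2
  linarith

theorem uu_deriv {s : ℂ} (hs : ‖s‖ < 1) :
    HasDerivAt uu ((4 / Real.pi : ℝ) / (1 + s ^ 2)) s := by
  have hd := den_ne hs
  have hn := num_ne hs
  have h1 : HasDerivAt (fun z : ℂ => 1 + I * z) I s := by
    simpa using ((hasDerivAt_id s).const_mul I).const_add 1
  have h2 : HasDerivAt (fun z : ℂ => 1 - I * z) (-I) s := by
    simpa using ((hasDerivAt_id s).const_mul I).const_sub 1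
  have h3 := h1.fun_div h2 hd
  have h4 : (1 + I * s) / (1 - I * s) ∈ slitPlane := Or.inl (mo_re_pos hs)
  have h5 := (h3.clog h4).const_mul (-(2 * I / (Real.pi : ℂ)))
  have h6 : 1 + s ^ 2 ≠ 0 := by
    have h7 : 1 + s ^ 2 = (1 + I * s) * (1 - I * s) := by
      linear_combination s ^ 2 * Complex.I_sq
    rw [h7]
    exact mul_ne_zero hn hd
  have h7 : (Real.pi : ℂ) ≠ 0 := by exact_mod_cast Real.pi_ne_zero
  have h8 : ((4 / Real.pi : ℝ) : ℂ) / (1 + s ^ 2) =
      -(2 * I / (Real.pi : ℂ)) * ((I * (1 - I * s) - (1 + I * s) * -I) / (1 - I * s) ^ 2 /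
        ((1 + I * s) / (1 - I * s))) := by
    have h9 : 1 + s ^ 2 = (1 + I * s) * (1 - I * s) := by
      linear_combination s ^ 2 * Complex.I_sq
    rw [h9]
    push_cast
    field_simp
    linear_combination (4 : ℂ) * Complex.I_sq
  rw [h8]
  exact h5

end U

open U in
theorem u_props : S_U := by
  have hzero : uu 0 = 0 := by simp [uu]
  refine ⟨hzero, fun s hs => ⟨uu_deriv hs, ?_, ?_, ?_, ?_, ?_⟩⟩
  · rw [uu_re hs]
    have h0 := norm_nonneg s
    have h1 : s.re ≤ ‖s‖ := Complex.re_le_norm s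
    have h2 : 0 < 1 - ‖s‖ ^ 2 := by nlinarith
    have h3 : Real.arctan (2 * s.re / (1 - ‖s‖ ^ 2)) ≤ 2 * Real.arctan ‖s‖ := by
      rw [Real.two_mul_arctan (by linarith) hs]
      apply Real.arctan_mono
      gcongr
    have h4 := arctan_bound h0 hs.le
    have hpi := Real.pi_pos
    have h5 : Real.arctan (2 * s.re / (1 - ‖s‖ ^ 2)) ≤ Real.pi / 4 * (1 + ‖s‖) := by linarith
    calc 2 / Real.pi * Real.arctan (2 * s.re / (1 - ‖s‖ ^ 2))
        ≤ 2 / Real.pi * (Real.pi / 4 * (1 + ‖s‖)) := by gcongr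
      _ = 1 - (1 - ‖s‖) / 2 := by
        field_simp
        ring
  · rw [uu_re hs]
    have hpi := Real.pi_pos
    have h1 := (Real.neg_pi_div_two_lt_arctan (2 * s.re / (1 - ‖s‖ ^ 2))).le
    calc (-1 : ℝ) = 2 / Real.pi * (-(Real.pi / 2)) := by field_simp
      _ ≤ _ := by gcongr
  · intro hre
    rw [uu_re hs]
    have h0 := norm_nonneg s
    have h2 : 0 < 1 - ‖s‖ ^ 2 := by nlinarith
    have h3 : 2 * s.re / (1 - ‖s‖ ^ 2) ≤ 0 := div_nonpos_of_nonpos_of_nonneg (by linarith) h2.le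
    have h4 : Real.arctan (2 * s.re / (1 - ‖s‖ ^ 2)) ≤ 0 := by
      rw [← Real.arctan_zero]
      exact Real.arctan_mono h3
    have hpi := Real.pi_pos
    exact mul_nonpos_of_nonneg_of_nonpos (by positivity) h4
  · intro hhalf
    have h1 := (convex_closedBall (0 : ℂ) (1 / 2)).norm_image_sub_le_of_norm_hasDerivWithin_le
      (f := uu) (f' := fun s => ((4 / Real.pi : ℝ) : ℂ) / (1 + s ^ 2)) (C := 2)
      (x := 0) (y := s) (fun z hz => ?_) (fun z hz => ?_) (by simp) (by simpa using hhalf)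
    · rw [hzero, sub_zero, sub_zero] at h1
      exact h1
    · have hz' : ‖z‖ ≤ 1 / 2 := by simpa using hz
      exact (uu_deriv (by linarith)).hasDerivWithinAt
    · have hz' : ‖z‖ ≤ 1 / 2 := by simpa using hz
      rw [norm_div, Complex.norm_real, Real.norm_of_nonneg (by positivity)]
      have h2 : 3 / 4 ≤ ‖1 + z ^ 2‖ := by
        have h3 : ‖(1 : ℂ)‖ - ‖-(z ^ 2)‖ ≤ ‖(1 : ℂ) - -(z ^ 2)‖ := norm_sub_norm_le _ _
        rw [sub_neg_eq_add, norm_neg, norm_one, norm_pow] at h3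
        nlinarith [norm_nonneg z]
      have h4 : 4 / Real.pi ≤ 3 / 2 := by
        rw [div_le_iff₀ Real.pi_pos]
        have := Real.pi_gt_three
        linarith
      rw [div_le_iff₀ (by linarith)]
      linarith
  · intro hre
    rw [uu_re hs]
    have h0 := norm_nonneg s
    have h2 : 0 < 1 - ‖s‖ ^ 2 := by nlinarith
    have hpi := Real.pi_pos
    have hy : 0 < 2 * s.re / (1 - ‖s‖ ^ 2) := by positivity
    have h3 := Real.arctan_inv_of_pos hy
    have h4 := arctan_le (inv_pos.2 hy)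
    rw [h3, inv_div] at h4
    have h5 : Real.pi / 2 - (1 - ‖s‖ ^ 2) / (2 * s.re) ≤
        Real.arctan (2 * s.re / (1 - ‖s‖ ^ 2)) := by linarith
    calc 1 - (1 - ‖s‖ ^ 2) / (Real.pi * s.re)
        = 2 / Real.pi * (Real.pi / 2 - (1 - ‖s‖ ^ 2) / (2 * s.re)) := by
          field_simp
      _ ≤ _ := by gcongr

end Pool.Agent.H928.IB
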