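import Pool.Agent.H928.IB.LI
import Pool.Agent.H928.IB.U
import Pool.Agent.H928.IB.Amp
import Pool.Agent.H928.IB.Prim
import Pool.Agent.H928.IB.E1
import Pool.Agent.H928.IB.E2
import Pool.Agent.H928.IB.E3
import Pool.Agent.H928.IB.KB
import Pool.Agent.H928.IB.Cru
import Pool.Agent.H928.IB.Lif
import Pool.Agent.H928.IB.Ort
import Pool.Agent.H928.IB.Low
import Pool.Agent.H928.IB.Cmp
import Pool.Agent.H928.IB.Eq
import Pool.Agent.H928.IB.SM
import Pool.Agent.H928.IB.TRA
import Pool.Agent.H928.IB.CNT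
import Pool.Agent.H928.IB.TR
import Pool.Agent.H928.IB.TD
import Pool.Agent.H928.IB.Step
import Pool.Agent.H928.IB.Cont
import Pool.Agent.H928.IB.Seq
import Pool.Agent.H928.IB.Lim
import Pool.Agent.H928.IB.Max

/-! Assembly: the limit function. -/

set_option autoImplicit false

namespace Pool.Agent.H928.IB

theorem limThm : S_LIM := by
  have hU := u_props
  have hLI := li
  have hE2 := e2 hU
  have hE1 := e1 hU hE2
  have hE3 := e3 hU
  have hKB := kb hLI hU
  have hCRU := cru hLI hU
  have hLIF := lif hLI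
  have hTR := tr hKB hE1 (sm hCRU hE1) (tra hE1) cnt
  have hTD := td cmp (eqd hLIF) hE2 hCRU hLIF hE1
  have hSTEP := step amp (prim hU) hE1 hE3 (low hKB) ort hTR hTD hCRU
  exact lim (seq hSTEP (cont hLI cmp))

end Pool.Agent.H928.IB
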