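import Mathlib

/-!
# Statement file: an indestructible Blaschke product which is not maximal (MP_6cbd4a_an, Q1)

We construct a locally univalent, not injective `F : disc → disc` such that `log |T_a F|` has
circle means tending to `0` for every `a` in the disc.

Notation. `cm θ = e^{iθ}`, `ell a w = log 1/|T_a w| ≥ 0`.  A finite stage is `(R, p, F)` with
`F' = exp p` on the ball of radius `R > 1`, `|F| < 1` on the closed disc.  The step replaces `p` by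
`p + gg`, `gg z = L u(q z^n) + b(z) (1 - EE N (z^n))`, `b = α - p`, `n = ⌈e^L / L⌉`,
`q = 1 - e^{-2L}`, `u = (4/π) arctan`, `EE N s = exp (-N (s - s²/2))`.
-/

set_option autoImplicit false

open MeasureTheory Set Filter Topology Complex Metric
open scoped ComplexConjugate

namespace Pool.Agent.H928.IB

/-! ## Definitions for the final statement -/

/-- The open unit disc. -/
abbrev disc : Set ℂ := Metric.ball (0 : ℂ) 1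

/-- The factor `(|a| / a) (a - z) / (1 - conj a z)`. -/
noncomputable def fac (a z : ℂ) : ℂ := ((‖a‖ : ℝ) : ℂ) / a * ((a - z) / (1 - conj a * z))

/-- `B` is (on the disc) a Blaschke product
`e^{iθ} z^m ∏ (|a_i| / a_i) (a_i - z) / (1 - conj a_i z)` with `0 < |a_i| < 1` and
`∑ (1 - |a_i|) < ∞` (the countable index set may be empty, finite or infinite), and `B` is not
constant on the disc. -/
def IsBlaschke (B : ℂ → ℂ) : Prop :=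
  (∃ z ∈ disc, ∃ w ∈ disc, B z ≠ B w) ∧
  ∃ (θ : ℝ) (m : ℕ) (ι : Type) (_ : Countable ι) (a : ι → ℂ), (∀ i, a i ≠ 0 ∧ ‖a i‖ < 1) ∧
    (Summable fun i => 1 - ‖a i‖) ∧
    ∀ z ∈ disc, ∃ p : ℂ, HasProd (fun i => fac (a i) z) p ∧
      B z = Complex.exp (θ * Complex.I) * z ^ m * p

/-- The conformal automorphism `w ↦ e^{iφ} (w - a) / (1 - conj a w)` of the disc. -/
noncomputable def aut (φ : ℝ) (a w : ℂ) : ℂ :=
  Complex.exp (φ * Complex.I) * ((w - a) / (1 - conj a * w))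

/-- `B` is an indestructible Blaschke product: it is a Blaschke product and so is `T ∘ B` for
every conformal automorphism `T` of the disc. -/
def Indestructible (B : ℂ → ℂ) : Prop :=
  IsBlaschke B ∧ ∀ (φ : ℝ) (a : ℂ), a ∈ disc → IsBlaschke (fun z => aut φ a (B z))

/-- `f` is a bounded analytic function on the open unit disc. -/
def InHinf (f : ℂ → ℂ) : Prop :=
  DifferentiableOn ℂ f disc ∧ ∃ K : ℝ, ∀ z ∈ disc, ‖f z‖ ≤ K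

/-- `m` is an `H^∞` critical set, given by its multiplicities: `m z` is the number of times the
point `z` of the disc occurs. There is a nonconstant `f` in `H^∞` whose derivative vanishes at each
point `z` of the disc to order exactly `m z`. -/
def IsCritSet (m : ℂ → ℕ) : Prop :=
  ∃ f : ℂ → ℂ, InHinf f ∧ (∃ z ∈ disc, ∃ w ∈ disc, f z ≠ f w) ∧
    ∀ z ∈ disc, analyticOrderAt (deriv f) z = m z

/-- The functions of `H^∞` whose derivative vanishes at each point `z` of the disc to order at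
least `m z`. -/
def InF (m : ℂ → ℕ) (f : ℂ → ℂ) : Prop :=
  InHinf f ∧ ∀ z ∈ disc, (m z : ℕ∞) ≤ analyticOrderAt (deriv f) z

/-- `g` solves the extremal problem for `m`: among the `f` in `InF m` with `‖f‖_∞ ≤ 1` the real
part of `f^{(N+1)}(0)` is largest for `f = g`, where `N = m 0`. -/
def IsExtremal (m : ℂ → ℕ) (g : ℂ → ℂ) : Prop :=
  InF m g ∧ (∀ z ∈ disc, ‖g z‖ ≤ 1) ∧
    ∀ f : ℂ → ℂ, InF m f → (∀ z ∈ disc, ‖f z‖ ≤ 1) →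
      (iteratedDeriv (m 0 + 1) f 0).re ≤ (iteratedDeriv (m 0 + 1) g 0).re

/-- `f` is a maximal Blaschke product: `f = T ∘ g` on the disc, where `g` solves the extremal
problem of some `H^∞` critical set and `T(w) = e^{iφ} (w - a) / (1 - conj a w)`, `|a| < 1`, is an
automorphism of the disc. -/
def IsMaxBlaschke (f : ℂ → ℂ) : Prop :=
  ∃ m : ℂ → ℕ, IsCritSet m ∧ ∃ g : ℂ → ℂ, IsExtremal m g ∧
    ∃ (φ : ℝ) (a : ℂ), a ∈ disc ∧ ∀ z ∈ disc, f z = aut φ a (g z)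

/-! ## Auxiliary definitions -/

/-- `e^{iθ}` -/
noncomputable def cm (θ : ℝ) : ℂ := Complex.exp (θ * Complex.I)

/-- `log 1/|T_a w|` -/
noncomputable def ell (a w : ℂ) : ℝ := -Real.log ‖(w - a) / (1 - conj a * w)‖

noncomputable def Psi (a : ℂ) (F : ℂ → ℂ) : ℝ := ∫ θ in (0:ℝ)..(2 * Real.pi), ell a (F (cm θ))

noncomputable def sig (F : ℂ → ℂ) : ℝ := ∫ θ in (0:ℝ)..(2 * Real.pi), (1 - ‖F (cm θ)‖) ^ 2

noncomputable def mass (F : ℂ → ℂ) : ℝ := ∫ θ in (0:ℝ)..(2 * Real.pi), ‖F (cm θ)‖ ^ 2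

/-- the curve `γ` on `[x,y]` has all its `|γ - a|^{-1/2}` integrals at most `B` -/
def HB (γ : ℝ → ℂ) (x y B : ℝ) : Prop := ∀ a : ℂ,
  volume {θ : ℝ | θ ∈ Icc x y ∧ γ θ = a} = 0 ∧
  IntervalIntegrable (fun θ => ‖γ θ - a‖ ^ (-(1 / 2 : ℝ))) volume x y ∧
  ∫ θ in x..y, ‖γ θ - a‖ ^ (-(1 / 2 : ℝ)) ≤ B

/-- finite stage -/
def Good (R : ℝ) (p F : ℂ → ℂ) : Prop :=
  1 < R ∧ DifferentiableOn ℂ p (ball 0 R) ∧
    (∀ z ∈ ball (0 : ℂ) R, HasDerivAt F (exp (p z)) z) ∧ ∀ z : ℂ, ‖z‖ ≤ 1 → ‖F z‖ < 1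

/-- amplitude function `exp α` and the constant `N` for a stage `(p, F)` -/
def Amp (p F α : ℂ → ℂ) (N : ℝ) : Prop :=
  Differentiable ℂ α ∧
  (∀ θ : ℝ, (1 - ‖F (cm θ)‖) / 40 ≤ Real.exp (α (cm θ)).re ∧
    Real.exp (α (cm θ)).re ≤ (1 - ‖F (cm θ)‖) / 20) ∧
  1 ≤ N ∧ ∀ z : ℂ, ‖z‖ ≤ 1 → ‖α z - p z‖ * Real.exp (-N / 8) ≤ 1 / 2

/-- `(4/π) arctan` -/
noncomputable def uu (s : ℂ) : ℂ := -(2 * I / Real.pi) * log ((1 + I * s) / (1 - I * s))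

noncomputable def nn (L : ℝ) : ℕ := ⌈Real.exp L / L⌉₊

noncomputable def qq (L : ℝ) : ℝ := 1 - Real.exp (-2 * L)

noncomputable def EE (N : ℝ) (s : ℂ) : ℂ := exp (-N * (s - s ^ 2 / 2))

noncomputable def gg (b : ℂ → ℂ) (N L : ℝ) (z : ℂ) : ℂ :=
  L * uu (qq L * z ^ nn L) + b z * (1 - EE N (z ^ nn L))

/-- the new exponent -/
noncomputable def pp (p α : ℂ → ℂ) (N L : ℝ) (z : ℂ) : ℂ :=
  p z + gg (fun w => α w - p w) N L z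

/-- `G` is the new function, on the ball of radius `R'` -/
def Prim (R' : ℝ) (p F α : ℂ → ℂ) (N L : ℝ) (G : ℂ → ℂ) : Prop :=
  1 < R' ∧ DifferentiableOn ℂ (pp p α N L) (ball 0 R') ∧
  (∀ z ∈ ball (0 : ℂ) R', ‖(qq L : ℂ) * z ^ nn L‖ < 1) ∧ G 0 = F 0 ∧
  ∀ z ∈ ball (0 : ℂ) R', HasDerivAt G (exp (pp p α N L z)) z

/-- `Q L G` holds for all large `L` and all `G` produced by the step with parameter `L` -/
def Ev (R : ℝ) (p F α : ℂ → ℂ) (N : ℝ) (Q : ℝ → (ℂ → ℂ) → Prop) : Prop :=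
  ∃ L0 : ℝ, ∀ L, L0 ≤ L → ∀ (R' : ℝ) (G : ℂ → ℂ), R' ≤ R → Prim R' p F α N L G → Q L G

/-! ## Statements -/

/-- P1: the key integral estimate for curves with controlled logarithmic derivative of `γ'` -/
def S_LI : Prop := ∀ (t0 h κ m : ℝ) (γ γ' γ'' : ℝ → ℂ), 0 < t0 → t0 ≤ h → 1 ≤ κ → 0 < m →
  (∀ t ∈ Icc t0 h, HasDerivAt γ (γ' t) t ∧ HasDerivAt γ' (γ'' t) t ∧ m ≤ ‖γ' t‖ ∧
    ‖γ'' t‖ ≤ κ / t * ‖γ' t‖) → HB γ t0 h (64 * Real.sqrt (κ * h / m))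

/-- P2: properties of `u = (4/π) arctan` on the disc -/
def S_U : Prop := uu 0 = 0 ∧ ∀ s : ℂ, ‖s‖ < 1 →
  HasDerivAt uu ((4 / Real.pi : ℝ) / (1 + s ^ 2)) s ∧
  (uu s).re ≤ 1 - (1 - ‖s‖) / 2 ∧ -1 ≤ (uu s).re ∧ (s.re ≤ 0 → (uu s).re ≤ 0) ∧
  (‖s‖ ≤ 1 / 2 → ‖uu s‖ ≤ 2 * ‖s‖) ∧
  (0 < s.re → 1 - (1 - ‖s‖ ^ 2) / (Real.pi * s.re) ≤ (uu s).re)

/-- P3: existence of the amplitude -/
def S_AMP : Prop := ∀ (R : ℝ) (p F : ℂ → ℂ), Good R p F → ∃ (α : ℂ → ℂ) (N : ℝ), Amp p F α N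

/-- P4: existence of `G` -/
def S_PRIM : Prop := ∀ (R : ℝ) (p F α : ℂ → ℂ) (N : ℝ), Good R p F → Amp p F α N →
  ∀ L : ℝ, 1 ≤ L → ∃ (R' : ℝ) (G : ℂ → ℂ), R' ≤ R ∧ Prim R' p F α N L G

/-- P5: size of the change on the circle -/
def S_E1 : Prop := ∀ (R : ℝ) (p F α : ℂ → ℂ) (N : ℝ), Good R p F → Amp p F α N →
  ∀ ε > (0 : ℝ), Ev R p F α N (fun _ G => ∀ z : ℂ, ‖z‖ = 1 →
    ‖G z - F z‖ ≤ 10 * Real.exp (α z).re + ε)

/-- P6: the change is tiny on the left arcs -/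
def S_E2 : Prop := ∀ (R : ℝ) (p F α : ℂ → ℂ) (N : ℝ), Good R p F → Amp p F α N →
  Ev R p F α N (fun L G => 0 < L ∧ ∀ z : ℂ, ‖z‖ = 1 → (z ^ nn L).re ≤ 0 →
    ‖G z - F z‖ ≤ (L ^ 3)⁻¹)

/-- P7: the change is small inside -/
def S_E3 : Prop := ∀ (R : ℝ) (p F α : ℂ → ℂ) (N : ℝ), Good R p F → Amp p F α N →
  ∀ r < (1 : ℝ), ∀ ε > (0 : ℝ), Ev R p F α N (fun _ G => ∀ z : ℂ, ‖z‖ ≤ r → ‖G z - F z‖ ≤ ε)

/-- P8: the key bound on the right arcs -/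
def S_KB : Prop := ∀ (R : ℝ) (p F α : ℂ → ℂ) (N : ℝ), Good R p F → Amp p F α N →
  Ev R p F α N (fun L G => 0 < L ∧ ∀ j : ℤ,
    HB (fun θ => G (cm θ)) (2 * Real.pi * j / nn L)
      (2 * Real.pi * j / nn L + (Real.pi / 2 - Real.exp (-L)) / nn L)
      (1000 / nn L * Real.exp (-(α (cm (2 * Real.pi * j / nn L))).re / 2)) ∧
    HB (fun θ => G (cm θ)) (2 * Real.pi * j / nn L - (Real.pi / 2 - Real.exp (-L)) / nn L)
      (2 * Real.pi * j / nn L)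
      (1000 / nn L * Real.exp (-(α (cm (2 * Real.pi * j / nn L))).re / 2)))

/-- P9: crude bound on the whole circle -/
def S_CRU : Prop := ∀ (R : ℝ) (p F α : ℂ → ℂ) (N : ℝ), Good R p F → Amp p F α N →
  Ev R p F α N (fun L G => HB (fun θ => G (cm θ)) 0 (2 * Real.pi) (Real.exp (8 * L)))

/-- P10: the same for a fixed stage -/
def S_LIF : Prop := ∀ (R : ℝ) (p F : ℂ → ℂ), Good R p F →
  ∃ B : ℝ, HB (fun θ => F (cm θ)) 0 (2 * Real.pi) B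

/-- P11: a function which is small inside the disc is almost orthogonal to `F` -/
def S_ORT : Prop := ∀ (R : ℝ) (p F : ℂ → ℂ), Good R p F → ∀ ε > (0 : ℝ),
  ∃ r δ : ℝ, 0 < r ∧ r < 1 ∧ 0 < δ ∧ ∀ D : ℂ → ℂ, DifferentiableOn ℂ D (ball 0 1) →
    ContinuousOn D (closedBall 0 1) → (∀ z : ℂ, ‖z‖ ≤ 1 → ‖D z‖ ≤ 2) →
    (∀ z : ℂ, ‖z‖ ≤ r → ‖D z‖ ≤ δ) →
    |∫ θ in (0:ℝ)..(2 * Real.pi), (conj (F (cm θ)) * D (cm θ)).re| ≤ ε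

/-- P12: lower bound for the change in `L²` -/
def S_LOW : Prop := ∃ c > (0 : ℝ), ∀ (R : ℝ) (p F α : ℂ → ℂ) (N : ℝ), Good R p F →
  Amp p F α N → ∀ ε > (0 : ℝ), Ev R p F α N (fun _ G =>
    c * sig F - ε ≤ ∫ θ in (0:ℝ)..(2 * Real.pi), ‖G (cm θ) - F (cm θ)‖ ^ 2)

/-- P13: comparison of potentials of close curves -/
def S_CMP : Prop := ∀ ρ B0 ε : ℝ, ρ < 1 → 0 < ε → ∃ δ0 > (0 : ℝ), ∀ δ : ℝ, 0 < δ → δ ≤ δ0 →
  ∀ B : ℝ, 1 ≤ B → Real.log B ≤ 16 * δ ^ (-(1 / 3 : ℝ)) →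
  ∀ (γ γ0 : ℝ → ℂ) (S : Set ℝ), Continuous γ → Continuous γ0 → (∀ θ, ‖γ θ‖ ≤ 1) →
  (∀ θ, ‖γ0 θ‖ ≤ 1) → MeasurableSet S → S ⊆ Icc 0 (2 * Real.pi) →
  (∀ θ ∈ S, ‖γ θ - γ0 θ‖ ≤ δ) → HB γ0 0 (2 * Real.pi) B0 → HB γ 0 (2 * Real.pi) B →
  ∀ a : ℂ, ‖a‖ ≤ ρ → ∫ θ in S, ell a (γ θ) ≤ (∫ θ in S, ell a (γ0 θ)) + ε

/-- P14: equidistribution -/
def S_EQ : Prop := ∀ (R : ℝ) (p F : ℂ → ℂ), Good R p F → ∀ ρ < (1 : ℝ), ∀ ε > (0 : ℝ),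
  ∃ n0 : ℕ, ∀ n : ℕ, n0 ≤ n → ∀ a : ℂ, ‖a‖ ≤ ρ →
    ∫ θ in {θ : ℝ | θ ∈ Icc 0 (2 * Real.pi) ∧ Real.cos (n * θ) ≤ 0}, ell a (F (cm θ)) ≤
      1 / 2 * Psi a F + ε

/-- P15: the right arcs -/
def S_TR : Prop := ∃ K > (0 : ℝ), ∀ (R : ℝ) (p F α : ℂ → ℂ) (N : ℝ), Good R p F →
  Amp p F α N → ∀ ρ η : ℝ, 0 ≤ ρ → ρ < 1 → 0 < η → 32 * η ≤ 1 - ρ → ∀ ε > (0 : ℝ),
  Ev R p F α N (fun L G => ∀ a : ℂ, ‖a‖ ≤ ρ →
    ∫ θ in {θ : ℝ | θ ∈ Icc 0 (2 * Real.pi) ∧ 0 < Real.cos (nn L * θ)}, ell a (G (cm θ)) ≤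
      K * η / (1 - ρ) + K * sig F * η ^ (-(5 / 2 : ℝ)) + ε)

/-- P15a: small sets do not matter -/
def S_SM : Prop := ∀ (R : ℝ) (p F α : ℂ → ℂ) (N : ℝ), Good R p F → Amp p F α N →
  ∀ ε > (0 : ℝ), Ev R p F α N (fun L G => ∀ S : Set ℝ, MeasurableSet S →
    S ⊆ Icc 0 (2 * Real.pi) → volume S ≤ ENNReal.ofReal (4 * Real.exp (-L)) →
    ∀ a : ℂ, ‖a‖ < 1 → ∫ θ in S, ell a (G (cm θ)) ≤ ε)

/-- P15b: cells where `F` is close to the circle -/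
def S_TRA : Prop := ∀ (R : ℝ) (p F α : ℂ → ℂ) (N : ℝ), Good R p F → Amp p F α N →
  ∀ ρ η : ℝ, 0 ≤ ρ → ρ < 1 → 0 < η → 32 * η ≤ 1 - ρ →
  Ev R p F α N (fun L G => ∀ (j : ℤ) (a : ℂ), ‖a‖ ≤ ρ →
    1 - ‖F (cm (2 * Real.pi * j / nn L))‖ < η →
    ∀ θ : ℝ, |θ - 2 * Real.pi * j / nn L| ≤ Real.pi / (2 * nn L) →
      ell a (G (cm θ)) ≤ 8 * η / (1 - ρ))

/-- P15c: number of the other cells -/
def S_CNT : Prop := ∀ (R : ℝ) (p F : ℂ → ℂ), Good R p F → ∀ η > (0 : ℝ),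
  ∃ n0 : ℕ, ∀ n : ℕ, n0 ≤ n →
    (((Finset.range (n + 1)).filter
      (fun j : ℕ => η ≤ 1 - ‖F (cm (2 * Real.pi * j / n))‖)).card : ℝ) ≤ n * (4 * sig F / η ^ 2)

/-- P19a: the sequence of stages -/
def S_SEQ : Prop := ∃ (F : ℕ → ℂ → ℂ) (r δ : ℕ → ℝ),
  (∀ z, F 0 z = 1 / 2 * exp (5 * (z - 1))) ∧ (∀ k, ∃ (R : ℝ) (p : ℂ → ℂ), Good R p (F k)) ∧
  (∀ k, 9 / 10 ≤ r k ∧ r k < 1) ∧ Monotone r ∧ Tendsto r atTop (𝓝 1) ∧ (∀ k, 0 < δ k) ∧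
  δ 0 ≤ 1 / 10000 ∧ (∀ k, δ (k + 1) ≤ δ k / 2) ∧
  (∀ k, ∀ z : ℂ, ‖z‖ ≤ r k → ‖F (k + 1) z - F k z‖ ≤ δ k / 2) ∧
  ∀ a ∈ disc, ∀ ε > (0 : ℝ), ∃ (k : ℕ) (s : ℝ), 0 < s ∧ s < r k ∧ ∀ J : ℂ → ℂ,
    DifferentiableOn ℂ J (ball 0 1) → (∀ z ∈ disc, ‖J z‖ ≤ 1) →
    (∀ z : ℂ, ‖z‖ ≤ r k → ‖J z - F k z‖ ≤ δ k) →
    ∫ θ in (0:ℝ)..(2 * Real.pi), ell a (J (s * cm θ)) ≤ ε

/-- P16: the left arcs -/
def S_TD : Prop := ∀ (R : ℝ) (p F α : ℂ → ℂ) (N : ℝ), Good R p F → Amp p F α N →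
  ∀ ρ < (1 : ℝ), ∀ ε > (0 : ℝ), Ev R p F α N (fun L G => ∀ a : ℂ, ‖a‖ ≤ ρ →
    ∫ θ in {θ : ℝ | θ ∈ Icc 0 (2 * Real.pi) ∧ Real.cos (nn L * θ) ≤ 0}, ell a (G (cm θ)) ≤
      1 / 2 * Psi a F + ε)

/-- P17: the step -/
def S_STEP : Prop := ∃ c > (0 : ℝ), ∃ K > (0 : ℝ), ∀ (R : ℝ) (p F : ℂ → ℂ), Good R p F →
  ∀ r < (1 : ℝ), ∀ ε > (0 : ℝ), ∃ (R' : ℝ) (p' G : ℂ → ℂ), Good R' p' G ∧
    (∀ z : ℂ, ‖z‖ ≤ r → ‖G z - F z‖ ≤ ε) ∧ mass F + c * sig F - ε ≤ mass G ∧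
    ∀ a : ℂ, ‖a‖ ≤ 1 - 32 * sig F ^ (1 / 10 : ℝ) →
      Psi a G ≤ 1 / 2 * Psi a F + K * sig F ^ (1 / 10 : ℝ) + ε

/-- P18: continuity of `Psi` at a stage, from inside -/
def S_CONT : Prop := ∀ (R : ℝ) (p F : ℂ → ℂ), Good R p F → ∀ ρ < (1 : ℝ), ∀ ε > (0 : ℝ),
  ∃ r r' δ : ℝ, 0 < r ∧ r < r' ∧ r' < 1 ∧ 0 < δ ∧ ∀ J : ℂ → ℂ, DifferentiableOn ℂ J (ball 0 1) →
    (∀ z ∈ disc, ‖J z‖ ≤ 1) → (∀ z : ℂ, ‖z‖ ≤ r' → ‖J z - F z‖ ≤ δ) →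
    ∀ a : ℂ, ‖a‖ ≤ ρ → ∫ θ in (0:ℝ)..(2 * Real.pi), ell a (J (r * cm θ)) ≤ Psi a F + ε

/-- P19: the limit function -/
def S_LIM : Prop := ∃ F : ℂ → ℂ, DifferentiableOn ℂ F (ball 0 1) ∧
  (∀ z ∈ disc, ‖F z‖ < 1) ∧ (∀ z ∈ disc, deriv F z ≠ 0) ∧ ¬ InjOn F disc ∧
  ∀ a ∈ disc, ∀ ε > (0 : ℝ), ∃ r : ℝ, 0 < r ∧ r < 1 ∧
    ∫ θ in (0:ℝ)..(2 * Real.pi), ell a (F (r * cm θ)) ≤ ε

/-- P20: criterion for Blaschke products -/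
def S_CRIT : Prop := ∀ f : ℂ → ℂ, DifferentiableOn ℂ f (ball 0 1) → (∀ z ∈ disc, ‖f z‖ < 1) →
  (∃ z ∈ disc, ∃ w ∈ disc, f z ≠ f w) →
  (∀ ε > (0 : ℝ), ∃ r : ℝ, 0 < r ∧ r < 1 ∧
    -ε ≤ ∫ θ in (0:ℝ)..(2 * Real.pi), Real.log ‖f (r * cm θ)‖) → IsBlaschke f

/-- P21: a locally univalent maximal Blaschke product is injective -/
def S_MAX : Prop := ∀ f : ℂ → ℂ, DifferentiableOn ℂ f (ball 0 1) →
  (∀ z ∈ disc, deriv f z ≠ 0) → ¬ InjOn f disc → ¬ IsMaxBlaschke f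

theorem final (h1 : S_LIM) (h2 : S_CRIT) (h3 : S_MAX) :
    ∃ F : ℂ → ℂ, Indestructible F ∧ ¬ IsMaxBlaschke F ∧ (∀ z ∈ disc, deriv F z ≠ 0) ∧
      ¬ InjOn F disc := by
  obtain ⟨F, hd, hlt, hder, hinj, hmean⟩ := h1
  have hnc : ∃ z ∈ disc, ∃ w ∈ disc, F z ≠ F w := by
    by_contra hc
    push Not at hc
    have h0 : (0 : ℂ) ∈ disc := by simp [disc]
    have : F =ᶠ[𝓝 0] fun _ => F 0 := by
      filter_upwards [isOpen_ball.mem_nhds h0] with z hz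
      exact hc z hz 0 h0
    apply hder 0 h0
    rw [this.deriv_eq]
    simp
  have hT : ∀ (φ : ℝ) (a : ℂ), a ∈ disc → IsBlaschke (fun z => aut φ a (F z)) := by
    intro φ a ha
    have ha1 : ‖a‖ < 1 := by simpa [disc] using ha
    have hden : ∀ w : ℂ, ‖w‖ < 1 → 1 - conj a * w ≠ 0 := by
      intro w hw h
      have h1 : conj a * w = 1 := by linear_combination -h
      have h2 : ‖conj a * w‖ = 1 := by rw [h1]; simp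
      rw [norm_mul, RCLike.norm_conj] at h2
      nlinarith [norm_nonneg a, norm_nonneg w]
    have hnorm : ∀ w : ℂ, ‖aut φ a w‖ = ‖(w - a) / (1 - conj a * w)‖ := by
      intro w
      rw [aut, norm_mul, Complex.norm_exp_ofReal_mul_I, one_mul]
    refine h2 _ ?_ ?_ ?_ ?_
    · unfold aut
      refine DifferentiableOn.const_mul ?_ _
      refine DifferentiableOn.div (hd.sub_const a) ?_ fun z hz => hden _ (hlt z hz)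
      exact (differentiableOn_const _).sub (hd.const_mul _)
    · intro z hz
      have hw := hlt z hz
      have hne := hden _ hw
      rw [hnorm, norm_div, div_lt_one (norm_pos_iff.2 hne)]
      have key : ‖1 - conj a * F z‖ ^ 2 - ‖F z - a‖ ^ 2 = (1 - ‖a‖ ^ 2) * (1 - ‖F z‖ ^ 2) := by
        rw [← Complex.normSq_eq_norm_sq, ← Complex.normSq_eq_norm_sq, ← Complex.normSq_eq_norm_sq,
          ← Complex.normSq_eq_norm_sq]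
        simp only [Complex.normSq_apply, Complex.sub_re, Complex.sub_im, Complex.one_re,
          Complex.one_im, Complex.mul_re, Complex.mul_im, Complex.conj_re, Complex.conj_im]
        ring
      have hp : 0 < (1 - ‖a‖ ^ 2) * (1 - ‖F z‖ ^ 2) := by
        apply mul_pos <;> nlinarith [norm_nonneg a, norm_nonneg (F z)]
      nlinarith [norm_nonneg (F z - a), norm_nonneg (1 - conj a * F z)]
    · obtain ⟨z, hz, w, hw, hzw⟩ := hnc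
      refine ⟨z, hz, w, hw, fun h => hzw ?_⟩
      simp only [aut] at h
      have h1 := mul_left_cancel₀ (Complex.exp_ne_zero _) h
      rw [div_eq_div_iff (hden _ (hlt z hz)) (hden _ (hlt w hw))] at h1
      have h3 : (F z - F w) * (1 - conj a * a) = 0 := by linear_combination h1
      have h4 : (1 : ℂ) - conj a * a ≠ 0 := hden a ha1
      rcases mul_eq_zero.1 h3 with h5 | h5
      · exact sub_eq_zero.1 h5
      · exact absurd h5 h4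
    · intro ε hε
      obtain ⟨r, hr0, hr1, hr⟩ := hmean a ha ε hε
      refine ⟨r, hr0, hr1, ?_⟩
      have : ∫ θ in (0:ℝ)..(2 * Real.pi), ell a (F (r * cm θ)) =
          -∫ θ in (0:ℝ)..(2 * Real.pi), Real.log ‖aut φ a (F (r * cm θ))‖ := by
        rw [← intervalIntegral.integral_neg]
        congr 1
        funext θ
        rw [hnorm, ell]
      linarith
  refine ⟨F, ⟨?_, hT⟩, h3 F hd hder hinj, hder, hinj⟩
  have := hT 0 0 (by simp [disc])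
  simpa [aut] using this

end Pool.Agent.H928.IB
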